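import Pool.Agent.V11307.QClosed4

/-!
Closed form for
`∑ (-1)^k (1-g^{4k+1}) g^k (g;g²)_k² (g²;g⁴)_k (g^{2M+2};g²)_k (g^{-2M};g²)_k
  / ((g²;g²)_k² (g⁴;g⁴)_k (g^{2M+3};g²)_k (g^{1-2M};g²)_k)`.
-/

open Finset

namespace V11307.WZ

variable {F : Type*} [Field F]

/-- `M`-free part of the numerator -/
def a8 (g : F) (k : ℕ) : F := poch g (g ^ 2) k ^ 2 * poch (g ^ 2) (g ^ 4) k

/-- `M`-free part of the denominator -/
def b8 (g : F) (k : ℕ) : F := poch (g ^ 2) (g ^ 2) k ^ 2 * poch (g ^ 4) (g ^ 4) k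

def t8 (g : F) (M k : ℕ) : F :=
  (-1) ^ k * (1 - g ^ (4 * k + 1)) * g ^ k *
    (a8 g k * poch (g ^ (2 * M + 2)) (g ^ 2) k * poch (g ^ (2 * M))⁻¹ (g ^ 2) k) /
    (b8 g k * poch (g ^ (2 * M + 3)) (g ^ 2) k * poch (g * (g ^ (2 * M))⁻¹) (g ^ 2) k)

def κ8 (g : F) (M : ℕ) : F :=
  (1 - g) * (1 + g ^ (2 * M + 3)) / ((1 - g ^ (2 * M + 1)) * (1 - g ^ (2 * M + 4)) ^ 2)

def g8 (g : F) (M k : ℕ) : F :=
  -(-1) ^ k * g ^ (k + 2 * M + 1) * κ8 g M *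
    (a8 g (k + 1) * poch (g ^ (2 * M + 4)) (g ^ 2) k * poch (g ^ (2 * M + 2))⁻¹ (g ^ 2) k) /
    (b8 g k * poch (g ^ (2 * M + 7)) (g ^ 2) k * poch (g * (g ^ (2 * M))⁻¹) (g ^ 2) k)

def ρ8 (g : F) (M : ℕ) : F :=
  (1 - g ^ (2 * M + 5)) / (1 - g ^ (2 * M + 1)) * ((1 - g ^ (2 * M + 2)) / (1 - g ^ (2 * M + 4))) ^ 2

theorem a8_succ (g : F) (k : ℕ) : a8 g (k + 1) = a8 g k * ((1 - g * (g ^ 2) ^ k) ^ 2 *
    (1 - g ^ 2 * (g ^ 4) ^ k)) := by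
  rw [a8, a8, poch_succ, poch_succ]; ring

theorem b8_succ (g : F) (k : ℕ) : b8 g (k + 1) = b8 g k * ((1 - g ^ 2 * (g ^ 2) ^ k) ^ 2 *
    (1 - g ^ 4 * (g ^ 4) ^ k)) := by
  rw [b8, b8, poch_succ, poch_succ]; ring

theorem key8 {g X Z d1 d2 d3 d4 d5 d6 d7 d8 d9 d10 d11 : F} (hg : g ≠ 0) (hZ : Z ≠ 0)
    (h1 : 1 - g ^ 4 * X ^ 4 = d1) (n1 : d1 ≠ 0)
    (h2 : 1 - g ^ 2 * X ^ 2 = d2) (n2 : d2 ≠ 0)
    (h3 : 1 - g ^ 4 * Z = d3) (n3 : d3 ≠ 0)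
    (h4 : 1 - g * Z = d4) (n4 : d4 ≠ 0)
    (h5 : 1 - g ^ 3 * Z = d5) (n5 : d5 ≠ 0)
    (h6 : 1 - g ^ 5 * Z = d6) (n6 : d6 ≠ 0)
    (h7 : 1 - g ^ 7 * Z * X ^ 2 = d7) (n7 : d7 ≠ 0)
    (h8 : g ^ 2 * Z - 1 = d8) (n8 : d8 ≠ 0)
    (h9 : Z - g * X ^ 2 = d9) (n9 : d9 ≠ 0)
    (h10 : g ^ 3 * Z - 1 = d10) (n10 : d10 ≠ 0)
    (h11 : g * Z - 1 = d11) (n11 : d11 ≠ 0) :
    -(1 - g ^ 5 * X ^ 4) * g * ((1 - g ^ 4 * Z * X ^ 2) * (1 - g ^ 6 * Z * X ^ 2) / d3) *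
      ((g ^ 4 * Z - 1) / (g ^ 4 * Z)) * (((g * Z - X ^ 2) * (g ^ 3 * Z)) / (d10 * d11)) /
        (d2 ^ 2 * d1 * d7) -
    d6 / d4 * ((1 - g ^ 2 * Z) / d3) ^ 2 * (-(1 - g ^ 5 * X ^ 4) * g * (1 - g ^ 2 * Z) *
      ((g ^ 2 * Z - X ^ 2) * (Z - X ^ 2) / (d8 * Z)) *
        ((1 - g ^ 5 * Z * X ^ 2) / (d5 * d6)) * (Z / d9) / (d2 ^ 2 * d1)) =
    g ^ 2 * Z * ((1 - g) * (1 + g ^ 3 * Z) / (d4 * d3 ^ 2)) *
      ((1 - g ^ 3 * X ^ 2) ^ 2 * (1 - g ^ 6 * X ^ 4) * (1 - g ^ 4 * Z * X ^ 2) *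
        ((g ^ 2 * Z - X ^ 2) / (g ^ 2 * Z))) * (Z / d9) / (d2 ^ 2 * d1 * d7) -
      -(g * Z * ((1 - g) * (1 + g ^ 3 * Z) / (d4 * d3 ^ 2))) := by
  field_simp
  subst h1 h2 h3 h4 h5 h6 h7 h8 h9 h10 h11
  ring

theorem cert8 {g : F} (hg0 : g ≠ 0) (hg : ∀ j, 1 ≤ j → g ^ j ≠ 1) (M K : ℕ) :
    ∑ k ∈ range (K + 1), (t8 g (M + 2) k - ρ8 g M * t8 g M k) = g8 g M K := by
  have ng : ∀ j, 1 ≤ j → (1 : F) - g ^ j ≠ 0 := by
    intro j hj h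
    exact hg j hj (by linear_combination -h)
  have hne : ∀ c d : ℕ, c ≠ d → g ^ c - g ^ d ≠ 0 := by
    intro c d hcd h
    have h1 := zi_ne hg0 hg (N := d) (i := c) hcd
    apply h1
    have h2 := pow_ne_zero d hg0
    field_simp
    linear_combination -h
  have hZ := pow_ne_zero (2 * M) hg0
  induction K with
  | zero =>
    simp only [zero_add, range_one, sum_singleton, t8, g8, ρ8, κ8, a8, b8, mul_zero, pow_zero, poch,
      range_zero, prod_empty, prod_singleton, mul_one, div_one, one_pow, pow_one, one_mul]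
    have h1 := ng (2 * M + 4) (by omega)
    have h2 := ng (2 * M + 1) (by omega)
    have e1 : g ^ (2 * M + 5) = g ^ 5 * g ^ (2 * M) := by ring
    have e2 : g ^ (2 * M + 4) = g ^ 4 * g ^ (2 * M) := by ring
    have e3 : g ^ (2 * M + 3) = g ^ 3 * g ^ (2 * M) := by ring
    have e4 : g ^ (2 * M + 2) = g ^ 2 * g ^ (2 * M) := by ring
    have e5 : g ^ (2 * M + 1) = g * g ^ (2 * M) := by ring
    rw [e2] at h1
    rw [e5] at h2
    rw [e1, e2, e3, e4, e5]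
    generalize g ^ (2 * M) = Z at *
    generalize hd1 : 1 - g ^ 4 * Z = d1 at *
    generalize hd2 : 1 - g * Z = d2 at *
    field_simp
    rw [← hd1, ← hd2]
    ring
  | succ K ih =>
    rw [sum_range_succ, ih]
    have c1 : (1 : F) - g ^ 4 * (g ^ K) ^ 4 ≠ 0 := by
      rw [← pow_mul, ← pow_add]; exact ng _ (by omega)
    have c2 : (1 : F) - g ^ 2 * (g ^ K) ^ 2 ≠ 0 := by
      rw [← pow_mul, ← pow_add]; exact ng _ (by omega)
    have c3 : 1 - g ^ 4 * g ^ (2 * M) ≠ 0 := by rw [← pow_add]; exact ng _ (by omega)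
    have c4 : 1 - g * g ^ (2 * M) ≠ 0 := by rw [← pow_succ']; exact ng _ (by omega)
    have c5 : 1 - g ^ 3 * g ^ (2 * M) ≠ 0 := by rw [← pow_add]; exact ng _ (by omega)
    have c6 : 1 - g ^ 5 * g ^ (2 * M) ≠ 0 := by rw [← pow_add]; exact ng _ (by omega)
    have c7 : 1 - g ^ 7 * g ^ (2 * M) * (g ^ K) ^ 2 ≠ 0 := by
      rw [← pow_mul, ← pow_add, ← pow_add]; exact ng _ (by omega)
    have c8 : g ^ 2 * g ^ (2 * M) - 1 ≠ 0 := by
      rw [← pow_add, ← pow_zero g]; exact hne _ _ (by omega)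
    have c9 : g ^ (2 * M) - g * (g ^ K) ^ 2 ≠ 0 := by
      rw [← pow_mul, ← pow_succ']; exact hne _ _ (by omega)
    have c10 : g ^ 3 * g ^ (2 * M) - 1 ≠ 0 := by
      rw [← pow_add, ← pow_zero g]; exact hne _ _ (by omega)
    have c11 : g * g ^ (2 * M) - 1 ≠ 0 := by
      rw [← pow_succ', ← pow_zero g]; exact hne _ _ (by omega)
    have c12 : g * g ^ (2 * M) - (g ^ K) ^ 2 ≠ 0 := by
      rw [← pow_mul, ← pow_succ']; exact hne _ _ (by omega)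
    have c13 : 1 - g ^ 5 * g ^ (2 * M) * (g ^ K) ^ 2 ≠ 0 := by
      rw [← pow_mul, ← pow_add, ← pow_add]; exact ng _ (by omega)
    have key := key8 hg0 hZ rfl c1 rfl c2 rfl c3 rfl c4 rfl c5 rfl c6 rfl c7 rfl c8 rfl c9 rfl c10
      rfl c11
    -- product relations
    have q1 : a8 g (K + 1 + 1) = a8 g (K + 1) * ((1 - g ^ 3 * (g ^ K) ^ 2) ^ 2 *
        (1 - g ^ 6 * (g ^ K) ^ 4)) := by
      rw [a8_succ]; ring
    have q2 : b8 g (K + 1) = b8 g K * ((1 - g ^ 2 * (g ^ K) ^ 2) ^ 2 *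
        (1 - g ^ 4 * (g ^ K) ^ 4)) := by
      rw [b8_succ]; ring
    have q3 : poch (g ^ (2 * M + 2)) (g ^ 2) (K + 1) =
        (1 - g ^ 2 * g ^ (2 * M)) * poch (g ^ (2 * M + 4)) (g ^ 2) K := by
      rw [poch_succ', ← pow_add]; ring
    have q4 : poch (g ^ (2 * M + 4)) (g ^ 2) (K + 1) = poch (g ^ (2 * M + 4)) (g ^ 2) K *
        (1 - g ^ 4 * g ^ (2 * M) * (g ^ K) ^ 2) := by
      rw [poch_succ]; ring
    have q5 : poch (g ^ (2 * (M + 2) + 2)) (g ^ 2) (K + 1) = poch (g ^ (2 * M + 4)) (g ^ 2) K *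
        ((1 - g ^ 4 * g ^ (2 * M) * (g ^ K) ^ 2) * (1 - g ^ 6 * g ^ (2 * M) * (g ^ K) ^ 2) /
          (1 - g ^ 4 * g ^ (2 * M))) := by
      have h1 := poch_succ (g ^ (2 * M + 4)) (g ^ 2) (K + 1)
      have h2 := poch_succ' (g ^ (2 * M + 4)) (g ^ 2) (K + 1)
      rw [← pow_add, show 2 * M + 4 + 2 = 2 * (M + 2) + 2 by ring] at h2
      rw [mul_div_assoc', eq_div_iff c3]
      have h3 : poch (g ^ (2 * (M + 2) + 2)) (g ^ 2) (K + 1) * (1 - g ^ 4 * g ^ (2 * M)) =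
          poch (g ^ (2 * M + 4)) (g ^ 2) (K + 1 + 1) := by rw [h2]; ring
      rw [h3, h1, q4]; ring
    have q6 : poch (g ^ (2 * (M + 2) + 3)) (g ^ 2) (K + 1) = poch (g ^ (2 * M + 7)) (g ^ 2) K *
        (1 - g ^ 7 * g ^ (2 * M) * (g ^ K) ^ 2) := by
      rw [poch_succ, show 2 * (M + 2) + 3 = 2 * M + 7 by ring]; ring
    have q7 : poch (g ^ (2 * M + 7)) (g ^ 2) (K + 1) = poch (g ^ (2 * M + 7)) (g ^ 2) K *
        (1 - g ^ 7 * g ^ (2 * M) * (g ^ K) ^ 2) := by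
      rw [poch_succ]; ring
    have q8 : (poch (g ^ (2 * M + 3)) (g ^ 2) (K + 1))⁻¹ = (poch (g ^ (2 * M + 7)) (g ^ 2) K)⁻¹ *
        ((1 - g ^ 5 * g ^ (2 * M) * (g ^ K) ^ 2) / ((1 - g ^ 3 * g ^ (2 * M)) *
          (1 - g ^ 5 * g ^ (2 * M)))) := by
      have h1 := poch_succ (g ^ (2 * M + 3)) (g ^ 2) (K + 1)
      have h2 := poch_succ' (g ^ (2 * M + 3)) (g ^ 2) (K + 1)
      have h3 := poch_succ' (g ^ (2 * M + 3) * g ^ 2) (g ^ 2) K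
      rw [← pow_add, ← pow_add] at h3
      rw [← pow_add, h3, h1] at h2
      have h4 : poch (g ^ (2 * M + 3)) (g ^ 2) (K + 1) = poch (g ^ (2 * M + 7)) (g ^ 2) K *
          (((1 - g ^ 3 * g ^ (2 * M)) * (1 - g ^ 5 * g ^ (2 * M))) /
            (1 - g ^ 5 * g ^ (2 * M) * (g ^ K) ^ 2)) := by
        rw [mul_div_assoc', eq_div_iff c13]
        linear_combination h2
      rw [h4, mul_inv, inv_div]
    have q9 : (poch (g * (g ^ (2 * M))⁻¹) (g ^ 2) (K + 1))⁻¹ =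
        (poch (g * (g ^ (2 * M))⁻¹) (g ^ 2) K)⁻¹ *
          (g ^ (2 * M) / (g ^ (2 * M) - g * (g ^ K) ^ 2)) := by
      have h1 : 1 - g * (g ^ (2 * M))⁻¹ * (g ^ 2) ^ K =
          (g ^ (2 * M) - g * (g ^ K) ^ 2) / g ^ (2 * M) := by
        field_simp
        ring
      rw [poch_succ, h1, mul_inv, inv_div]
    have q10 : (poch (g * (g ^ (2 * (M + 2)))⁻¹) (g ^ 2) (K + 1))⁻¹ =
        (poch (g * (g ^ (2 * M))⁻¹) (g ^ 2) K)⁻¹ *
          (((g * g ^ (2 * M) - (g ^ K) ^ 2) * (g ^ 3 * g ^ (2 * M))) /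
            ((g ^ 3 * g ^ (2 * M) - 1) * (g * g ^ (2 * M) - 1))) := by
      have h1 := poch_succ (g * (g ^ (2 * (M + 2)))⁻¹) (g ^ 2) (K + 1)
      have h2 := poch_succ' (g * (g ^ (2 * (M + 2)))⁻¹) (g ^ 2) (K + 1)
      have h3 := poch_succ' (g * (g ^ (2 * (M + 2)))⁻¹ * g ^ 2) (g ^ 2) K
      have e1 : g * (g ^ (2 * (M + 2)))⁻¹ * g ^ 2 * g ^ 2 = g * (g ^ (2 * M))⁻¹ := by
        rw [show 2 * (M + 2) = 2 * M + 4 by ring, pow_add g (2 * M) 4]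
        field_simp
      rw [e1] at h3
      rw [h3, h1] at h2
      have h4 : poch (g * (g ^ (2 * (M + 2)))⁻¹) (g ^ 2) (K + 1) =
          poch (g * (g ^ (2 * M))⁻¹) (g ^ 2) K *
          (((g ^ 3 * g ^ (2 * M) - 1) * (g * g ^ (2 * M) - 1)) /
            ((g * g ^ (2 * M) - (g ^ K) ^ 2) * (g ^ 3 * g ^ (2 * M)))) := by
        rw [mul_div_assoc', eq_div_iff (mul_ne_zero c12 (mul_ne_zero (pow_ne_zero _ hg0) hZ))]
        have e2 : g * (g ^ (2 * (M + 2)))⁻¹ = (g ^ 3 * g ^ (2 * M))⁻¹ := by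
          rw [show 2 * (M + 2) = 2 * M + 4 by ring, pow_add g (2 * M) 4]
          field_simp
        rw [e2] at h2 ⊢
        have e3 : (1 - (g ^ 3 * g ^ (2 * M))⁻¹ * (g ^ 2) ^ (K + 1)) * (g * g ^ (2 * M)) =
            g * g ^ (2 * M) - (g ^ K) ^ 2 := by
          field_simp
          ring
        have e4 : (1 - (g ^ 3 * g ^ (2 * M))⁻¹) * (g ^ 3 * g ^ (2 * M)) = g ^ 3 * g ^ (2 * M) - 1 := by
          field_simp
        have e5 : (1 - (g ^ 3 * g ^ (2 * M))⁻¹ * g ^ 2) * (g * g ^ (2 * M)) = g * g ^ (2 * M) - 1 := by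
          field_simp
        rw [← e3, ← e4, ← e5]
        linear_combination (g * g ^ (2 * M)) * (g ^ 3 * g ^ (2 * M)) * h2
      rw [h4, mul_inv, inv_div]
    have q11 : poch (g ^ (2 * (M + 2)))⁻¹ (g ^ 2) (K + 1) =
        ((g ^ 4 * g ^ (2 * M) - 1) / (g ^ 4 * g ^ (2 * M))) * poch (g ^ (2 * M + 2))⁻¹ (g ^ 2) K := by
      have e1 : (g ^ (2 * (M + 2)))⁻¹ * g ^ 2 = (g ^ (2 * M + 2))⁻¹ := by
        rw [show 2 * (M + 2) = 2 * M + 2 + 2 by ring, pow_add g (2 * M + 2) 2]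
        have := pow_ne_zero (2 * M + 2) hg0
        field_simp
      rw [poch_succ', e1]
      congr 1
      rw [show 2 * (M + 2) = 4 + 2 * M by ring, pow_add g 4]
      field_simp
    have q12 : poch (g ^ (2 * M))⁻¹ (g ^ 2) (K + 1) = poch (g ^ (2 * M + 2))⁻¹ (g ^ 2) K *
        ((g ^ 2 * g ^ (2 * M) - (g ^ K) ^ 2) * (g ^ (2 * M) - (g ^ K) ^ 2) /
          ((g ^ 2 * g ^ (2 * M) - 1) * g ^ (2 * M))) := by
      have h1 := poch_succ (g ^ (2 * M + 2))⁻¹ (g ^ 2) (K + 1)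
      have h2 := poch_succ' (g ^ (2 * M + 2))⁻¹ (g ^ 2) (K + 1)
      have h3 := poch_succ (g ^ (2 * M + 2))⁻¹ (g ^ 2) K
      have e1 : (g ^ (2 * M + 2))⁻¹ * g ^ 2 = (g ^ (2 * M))⁻¹ := by
        rw [pow_add g (2 * M) 2]; field_simp
      rw [e1, h1, h3] at h2
      rw [mul_div_assoc', eq_div_iff (mul_ne_zero c8 hZ)]
      have e2 : (g ^ (2 * M + 2))⁻¹ = (g ^ 2 * g ^ (2 * M))⁻¹ := by
        congr 1; ring
      rw [e2] at h2 ⊢
      have e3 : (1 - (g ^ 2 * g ^ (2 * M))⁻¹ * (g ^ 2) ^ K) * (g ^ 2 * g ^ (2 * M)) =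
          g ^ 2 * g ^ (2 * M) - (g ^ K) ^ 2 := by
        field_simp
        ring
      have e4 : (1 - (g ^ 2 * g ^ (2 * M))⁻¹ * (g ^ 2) ^ (K + 1)) * g ^ (2 * M) =
          g ^ (2 * M) - (g ^ K) ^ 2 := by
        field_simp
        ring
      have e5 : (1 - (g ^ 2 * g ^ (2 * M))⁻¹) * (g ^ 2 * g ^ (2 * M)) = g ^ 2 * g ^ (2 * M) - 1 := by
        field_simp
      rw [← e3, ← e4, ← e5]
      linear_combination -(g ^ 2 * g ^ (2 * M)) * g ^ (2 * M) * h2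
    have q13 : poch (g ^ (2 * M + 2))⁻¹ (g ^ 2) (K + 1) = poch (g ^ (2 * M + 2))⁻¹ (g ^ 2) K *
        ((g ^ 2 * g ^ (2 * M) - (g ^ K) ^ 2) / (g ^ 2 * g ^ (2 * M))) := by
      rw [poch_succ]
      congr 1
      rw [show 2 * M + 2 = 2 + 2 * M by ring, pow_add g 2]
      field_simp
      ring
    have r1 : (-1 : F) ^ (K + 1) = -(-1) ^ K := by ring
    have r2 : g ^ (4 * (K + 1) + 1) = g ^ 5 * (g ^ K) ^ 4 := by ring
    have r3 : g ^ (K + 1) = g * g ^ K := by ring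
    have r4 : g ^ (K + 1 + 2 * M + 1) = g ^ 2 * g ^ K * g ^ (2 * M) := by ring
    have r5 : g ^ (K + 2 * M + 1) = g * g ^ K * g ^ (2 * M) := by ring
    have r6 : g ^ (2 * M + 1) = g * g ^ (2 * M) := by ring
    have r7 : g ^ (2 * M + 5) = g ^ 5 * g ^ (2 * M) := by ring
    have r8 : 1 - g ^ (2 * M + 2) = 1 - g ^ 2 * g ^ (2 * M) := by ring
    have r9 : 1 - g ^ (2 * M + 4) = 1 - g ^ 4 * g ^ (2 * M) := by ring
    have r10 : 1 + g ^ (2 * M + 3) = 1 + g ^ 3 * g ^ (2 * M) := by ring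
    simp only [t8, g8, ρ8, κ8] at *
    rw [div_eq_mul_inv _ (b8 g (K + 1) * poch (g ^ (2 * (M + 2) + 3)) (g ^ 2) (K + 1) *
        poch (g * (g ^ (2 * (M + 2)))⁻¹) (g ^ 2) (K + 1)), mul_inv _ (poch (g * (g ^ (2 * (M + 2)))⁻¹)
          (g ^ 2) (K + 1)), q10, div_eq_mul_inv _ (b8 g (K + 1) * poch (g ^ (2 * M + 3)) (g ^ 2) (K + 1) *
        poch (g * (g ^ (2 * M))⁻¹) (g ^ 2) (K + 1)), mul_inv _ (poch (g * (g ^ (2 * M))⁻¹)
          (g ^ 2) (K + 1)), mul_inv _ (poch (g ^ (2 * M + 3)) (g ^ 2) (K + 1)), q8, q9,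
          div_eq_mul_inv _ (b8 g (K + 1) * poch (g ^ (2 * M + 7)) (g ^ 2) (K + 1) *
        poch (g * (g ^ (2 * M))⁻¹) (g ^ 2) (K + 1)), mul_inv _ (poch (g * (g ^ (2 * M))⁻¹)
          (g ^ 2) (K + 1)), q9, q1, q2, q3, q5, q6, q7, q11, q12, q13, q4, r1, r2, r3, r4, r5, r6, r7,
          r8, r9, r10]
    generalize a8 g (K + 1) = y1 at *
    generalize b8 g K = y2 at *
    generalize poch (g ^ (2 * M + 4)) (g ^ 2) K = y3 at *
    generalize poch (g ^ (2 * M + 7)) (g ^ 2) K = y4 at *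
    generalize poch (g * (g ^ (2 * M))⁻¹) (g ^ 2) K = y5 at *
    generalize poch (g ^ (2 * M + 2))⁻¹ (g ^ 2) K = y6 at *
    generalize (-1 : F) ^ K = y7 at *
    clear ih q1 q2 q3 q4 q5 q6 q7 q8 q9 q10 q11 q12 q13 r1 r2 r3 r4 r5 r6 r7 r8 r9 r10
    generalize 1 - g ^ 4 * (g ^ K) ^ 4 = d1 at *
    generalize 1 - g ^ 2 * (g ^ K) ^ 2 = d2 at *
    generalize 1 - g ^ 4 * g ^ (2 * M) = d3 at *
    generalize 1 - g * g ^ (2 * M) = d4 at *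
    generalize 1 - g ^ 3 * g ^ (2 * M) = d5 at *
    generalize 1 - g ^ 5 * g ^ (2 * M) = d6 at *
    generalize 1 - g ^ 7 * g ^ (2 * M) * (g ^ K) ^ 2 = d7 at *
    generalize g ^ 2 * g ^ (2 * M) - 1 = d8 at *
    generalize g ^ (2 * M) - g * (g ^ K) ^ 2 = d9 at *
    generalize g ^ 3 * g ^ (2 * M) - 1 = d10 at *
    generalize g * g ^ (2 * M) - 1 = d11 at *
    generalize g ^ K = X at *
    generalize g ^ (2 * M) = Z at *
    linear_combination (y7 * X * y1 * y3 * y6 / (y2 * y4 * y5)) * key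

theorem t8_zero {g : F} (hg0 : g ≠ 0) {M k : ℕ} (hk : M < k) : t8 g M k = 0 := by
  have hp : poch (g ^ (2 * M))⁻¹ (g ^ 2) k = 0 := by
    refine poch_zero_of hk ?_
    rw [← pow_mul]
    exact inv_mul_cancel₀ (pow_ne_zero _ hg0)
  rw [t8, hp]; simp

theorem sum8_rec {g : F} (hg0 : g ≠ 0) (hg : ∀ j, 1 ≤ j → g ^ j ≠ 1) (M : ℕ) :
    ∑ k ∈ range (M + 2 + 1), t8 g (M + 2) k = ρ8 g M * ∑ k ∈ range (M + 1), t8 g M k := by
  have h := cert8 hg0 hg M (M + 2)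
  have hgz : g8 g M (M + 2) = 0 := by
    have hp : poch (g ^ (2 * M + 2))⁻¹ (g ^ 2) (M + 2) = 0 := by
      refine poch_zero_of (show M + 1 < M + 2 by omega) ?_
      rw [← pow_mul, show 2 * (M + 1) = 2 * M + 2 by ring]
      exact inv_mul_cancel₀ (pow_ne_zero _ hg0)
    rw [g8, hp]; simp
  rw [hgz, sum_sub_distrib, ← mul_sum, sum_range_succ (fun k => t8 g M k),
    sum_range_succ (fun k => t8 g M k), t8_zero hg0 (show M < M + 2 by omega),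
    t8_zero hg0 (show M < M + 1 by omega), add_zero, add_zero, sub_eq_zero] at h
  exact h

theorem sum8_even {g : F} (hg0 : g ≠ 0) (hg : ∀ j, 1 ≤ j → g ^ j ≠ 1) (μ : ℕ) :
    ∑ k ∈ range (2 * μ + 1), t8 g (2 * μ) k =
      (1 - g ^ (4 * μ + 1)) * (∏ i ∈ range μ, (1 - g ^ (4 * i + 2)) / (1 - g ^ (4 * i + 4))) ^ 2 := by
  have ng : ∀ j, 1 ≤ j → (1 : F) - g ^ j ≠ 0 := by
    intro j hj h
    exact hg j hj (by linear_combination -h)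
  induction μ with
  | zero => simp [t8, poch, a8, b8]
  | succ μ ih =>
    rw [show 2 * (μ + 1) = 2 * μ + 2 by ring, sum8_rec hg0 hg, ih, ρ8, prod_range_succ]
    rw [show 2 * (2 * μ) + 2 = 4 * μ + 2 by ring, show 2 * (2 * μ) + 4 = 4 * μ + 4 by ring,
      show 2 * (2 * μ) + 1 = 4 * μ + 1 by ring, show 2 * (2 * μ) + 5 = 4 * (μ + 1) + 1 by ring]
    have h1 := ng (4 * μ + 1) (by omega)
    field_simp

theorem sum8_odd {g : F} (hg0 : g ≠ 0) (hg : ∀ j, 1 ≤ j → g ^ j ≠ 1) (μ : ℕ) :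
    ∑ k ∈ range (2 * μ + 1 + 1), t8 g (2 * μ + 1) k = 0 := by
  induction μ with
  | zero =>
    have ng : ∀ j, 1 ≤ j → (1 : F) - g ^ j ≠ 0 := by
      intro j hj h
      exact hg j hj (by linear_combination -h)
    have h2 := ng 2 (by omega)
    have h4 := ng 4 (by omega)
    have h5 := ng 5 (by omega)
    have h1 := ng 1 (by omega)
    rw [sum_range_succ, mul_zero, zero_add, sum_range_one]
    simp only [t8, poch, a8, b8, mul_one, range_zero, prod_empty, range_one, prod_singleton, pow_zero,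
      pow_one, mul_zero, zero_add, one_mul, one_pow, div_one]
    have e1 : 1 - g * (g ^ 2)⁻¹ = -(1 - g) / g := by field_simp; ring
    have e2 : 1 - (g ^ 2)⁻¹ = -(1 - g ^ 2) / g ^ 2 := by field_simp; ring
    rw [e1, e2]
    rw [pow_one] at h1
    simp only [Nat.reduceAdd]
    generalize hd1 : 1 - g = d1 at *
    generalize hd2 : 1 - g ^ 2 = d2 at *
    generalize hd4 : 1 - g ^ 4 = d4 at *
    generalize hd5 : 1 - g ^ 5 = d5 at *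
    field_simp
    ring
  | succ μ ih =>
    rw [show 2 * (μ + 1) + 1 = 2 * μ + 1 + 2 by ring, sum8_rec hg0 hg, ih, mul_zero]

theorem ffg_two' (g : F) (e : ℕ) : ffg g 2 e = (1 - g ^ e) ^ 2 := by
  rw [ffg]; ring

/-- the deformed summand -/
theorem cf8 {g : F} (hg0 : g ≠ 0) (M k : ℕ) :
    ((-1) ^ k * (1 - g ^ (4 * k + 1)) * g ^ k *
      ∏ u ∈ range k, ((1 - g ^ (2 * u + 1)) ^ 2 * (1 - g ^ (4 * u + 2)) /
        ((1 - g ^ (2 * u + 2)) ^ 2 * (1 - g ^ (4 * u + 4))))) *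
      ∏ u ∈ range k, ffg g (svg g (2 * M + 1)) (2 * u + 1) / ffg g (svg g (2 * M + 1)) (2 * u + 2) =
    t8 g M k := by
  rw [t8, a8, b8, prod_div_distrib, prod_div_distrib]
  simp only [ffg_svg hg0]
  rw [prod_mul_distrib, prod_mul_distrib, prod_mul_distrib, prod_mul_distrib, prod_pow, prod_pow]
  have p1 := poch_eq g 2 4 k
  have p2 := poch_eq g 4 4 k
  have p3 : ∏ u ∈ range k, (1 - g ^ (2 * u + 1 + (2 * M + 1))) = poch (g ^ (2 * M + 2)) (g ^ 2) k := by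
    rw [← poch_eq g (2 * M + 2) 2 k]
    exact prod_congr rfl fun u _ => by congr 2; ring
  have p4 := poch_eq g 2 2 k
  have p5 : ∏ u ∈ range k, (1 - g ^ (2 * u + 1) * (g ^ (2 * M + 1))⁻¹) =
      poch (g ^ (2 * M))⁻¹ (g ^ 2) k := by
    rw [poch_eq' g _ 1 2 k]
    congr 1
    rw [pow_succ g (2 * M), pow_one]
    have := pow_ne_zero (2 * M) hg0
    field_simp
  have p6 := poch_eq g 1 2 k
  have p7 : ∏ u ∈ range k, (1 - g ^ (2 * u + 2 + (2 * M + 1))) = poch (g ^ (2 * M + 3)) (g ^ 2) k := by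
    rw [← poch_eq g (2 * M + 3) 2 k]
    exact prod_congr rfl fun u _ => by congr 2; ring
  have p8 : ∏ u ∈ range k, (1 - g ^ (2 * u + 2) * (g ^ (2 * M + 1))⁻¹) =
      poch (g * (g ^ (2 * M))⁻¹) (g ^ 2) k := by
    rw [poch_eq' g _ 2 2 k]
    congr 1
    rw [pow_succ g (2 * M)]
    have := pow_ne_zero (2 * M) hg0
    field_simp
  rw [p1, p2, p3, p4, p5, p6, p7, p8, pow_one]
  simp only [div_eq_mul_inv, mul_inv]
  ring

end V11307.WZ
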