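import Mathlib

set_option autoImplicit false

namespace Pool.Agent.V11307.GF

open Polynomial

lemma descend {K L : Type} [Field K] [Field L] [Algebra K L] [Fintype K] {N : ℕ}
    (hN : Fintype.card K = N) (x : L) (hx : x ^ N = x) : ∃ y : K, algebraMap K L y = x := by
  classical
  by_contra hne
  push Not at hne
  have hinj : Function.Injective (algebraMap K L) := (algebraMap K L).injective
  have h1 : 1 < N := by rw [← hN]; exact Fintype.one_lt_card
  set P : L[X] := X ^ N - X with hP
  have hP0 : P ≠ 0 := FiniteField.X_pow_card_sub_X_ne_zero L h1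
  have hdeg : P.natDegree = N := FiniteField.X_pow_card_sub_X_natDegree_eq L h1
  set S : Finset L := insert x (Finset.univ.image (algebraMap K L)) with hS
  have hcard : S.card = N + 1 := by
    rw [hS, Finset.card_insert_of_notMem, Finset.card_image_of_injective _ hinj, Finset.card_univ, hN]
    rw [Finset.mem_image]
    rintro ⟨y, -, hy⟩
    exact hne y hy
  have hsub : S.val ≤ P.roots := by
    rw [Multiset.le_iff_subset S.nodup]
    intro z hz
    rw [mem_roots hP0, IsRoot.def]
    rw [Finset.mem_val, hS, Finset.mem_insert, Finset.mem_image] at hz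
    rcases hz with rfl | ⟨y, -, rfl⟩
    · rw [hP]; simp [hx]
    · rw [hP]
      simp only [eval_sub, eval_pow, eval_X]
      rw [← map_pow, ← hN, FiniteField.pow_card, sub_self]
  have h2 : S.card ≤ P.natDegree := by
    calc S.card = Multiset.card S.val := rfl
      _ ≤ Multiset.card P.roots := Multiset.card_le_card hsub
      _ ≤ P.natDegree := P.card_roots'
  omega

lemma gen {K : Type} [Field K] [Finite K] (θ : K) (hθ : orderOf θ = Nat.card K - 1)
    (h1 : 1 < Nat.card K) :
    θ ≠ 0 ∧ ∀ x : K, x ≠ 0 → ∃ n : ℕ, x = θ ^ n := by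
  have h0 : θ ≠ 0 := by
    rintro rfl
    have h2 : orderOf (0 : K) = 0 := by
      rw [orderOf_eq_zero_iff']
      intro n hn h
      rw [zero_pow hn.ne'] at h
      exact zero_ne_one h
    omega
  refine ⟨h0, fun x hx => ?_⟩
  set u : Kˣ := Units.mk0 θ h0 with hu
  have hou : orderOf u = Nat.card Kˣ := by
    rw [Nat.card_units, ← hθ, ← orderOf_units]; rfl
  have htop : Subgroup.zpowers u = ⊤ := by
    apply Subgroup.eq_top_of_card_eq
    rw [Nat.card_zpowers, hou]
  have hmem : Units.mk0 x hx ∈ Submonoid.powers u := by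
    rw [mem_powers_iff_mem_zpowers, htop]; trivial
  obtain ⟨n, hn⟩ := hmem
  refine ⟨n, ?_⟩
  have := congrArg (fun w : Kˣ => (w : K)) hn
  simp only [Units.val_pow_eq_pow_val, Units.val_mk0, hu] at this
  exact this.symm

/-- powers of the generator below the order are distinct -/
lemma pow_inj {K : Type} [Field K] {θ : K} {N : ℕ} (hθ : orderOf θ = N) {a b : ℕ} (ha : a < N)
    (hb : b < N) (h : θ ^ a = θ ^ b) : a = b := by
  have := pow_injOn_Iio_orderOf (x := θ)
  rw [hθ] at this
  exact this ha hb h

lemma pow_eq_iff {K : Type} [Field K] {θ : K} {N : ℕ} (hθ : orderOf θ = N) (hN : 0 < N) (a b : ℕ) :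
    θ ^ a = θ ^ b ↔ a % N = b % N := by
  have h1 : ∀ c : ℕ, θ ^ c = θ ^ (c % N) := by
    intro c
    rw [← hθ, pow_mod_orderOf]
  constructor
  · intro h
    rw [h1 a, h1 b] at h
    exact pow_inj hθ (Nat.mod_lt _ hN) (Nat.mod_lt _ hN) h
  · intro h
    rw [h1 a, h1 b, h]

/-- an element some power of which generates the field has full degree -/
lemma full_degree {F K : Type} [Field F] [Field K] [Algebra F K] [Finite K] {q h : ℕ}
    (hF : Nat.card F = q) (hK : Nat.card K = q ^ h) (hq : 1 < q) {θ x : K}
    (hθ : ∀ y : K, y ≠ 0 → ∃ n : ℕ, y = θ ^ n) {m : ℕ} (hm : θ = x ^ m) :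
    (minpoly F x).natDegree = h := by
  have hfin : Module.Finite F K := Module.Finite.of_finite
  have hfinF : Finite F := Finite.of_injective _ (algebraMap F K).injective
  have h1 : Module.finrank F K = h := by
    have h2 : Nat.card K = Nat.card F ^ Module.finrank F K := by
      have := Fintype.ofFinite K
      have := Fintype.ofFinite F
      rw [Nat.card_eq_fintype_card, Nat.card_eq_fintype_card]
      exact Module.card_eq_pow_finrank
    rw [hK, hF] at h2
    exact (Nat.pow_right_injective hq h2).symm
  have h3 : IntermediateField.adjoin F {x} = ⊤ := by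
    rw [eq_top_iff]
    intro y _
    by_cases hy : y = 0
    · rw [hy]; exact zero_mem _
    · obtain ⟨n, hn⟩ := hθ y hy
      rw [hn, hm, ← pow_mul]
      exact pow_mem (IntermediateField.mem_adjoin_simple_self F x) _
  have h4 := IntermediateField.adjoin.finrank (K := F) (x := x) (Algebra.IsIntegral.isIntegral x)
  rw [h3, IntermediateField.finrank_top'] at h4
  rw [← h4, h1]

end Pool.Agent.V11307.GF
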