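import Pool.Agent.V11307.QClosed

/-!
Closed form for `∑ (-1)^k [3k+1] (q;q²)_k ... / (q;q)_k ...`.
-/

open Finset

namespace V11307.WZ

variable {F : Type*} [Field F]

/-- summand; `Zi` stands for `g^{-2M}` -/
def t3 (g Zi : F) (M k : ℕ) : F :=
  (-1) ^ k * (1 - g ^ (3 * k + 1)) * (poch g (g ^ 2) k * poch (g ^ (2 * M + 2)) (g ^ 2) k *
    poch Zi (g ^ 2) k) / (poch g g k * poch (g ^ (2 * M + 2)) g k * poch Zi g k)

/-- certificate, `G(M, k+1)` -/
def g3 (g Zi : F) (M k : ℕ) : F :=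
  (-1) ^ k * g ^ k * (1 + g ^ (2 * M + 2)) / (1 - g ^ (2 * M + 1)) *
    (poch g (g ^ 2) (k + 1) * poch (g ^ (2 * M + 2)) (g ^ 2) (k + 1) * poch Zi (g ^ 2) k) /
    (poch g g k * poch (g ^ (2 * M + 4)) g k * poch Zi g k)

/-- ratio -/
def ρ3 (g : F) (M : ℕ) : F := -g ^ (2 * M + 1) * (1 - g ^ (2 * M + 3)) / (1 - g ^ (2 * M + 1))

theorem zi_ne {g : F} (hg0 : g ≠ 0) (hg : ∀ j, 1 ≤ j → g ^ j ≠ 1) {N i : ℕ} (h : i ≠ N) :
    1 - (g ^ N)⁻¹ * g ^ i ≠ 0 := by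
  intro h0
  have hN := pow_ne_zero N hg0
  have h1 : g ^ i = g ^ N := by
    field_simp at h0
    linear_combination -h0
  rcases lt_or_gt_of_ne h with hl | hl
  · obtain ⟨e, rfl⟩ := Nat.exists_eq_add_of_lt hl
    apply hg (e + 1) (by omega)
    have : g ^ i * g ^ (e + 1) = g ^ i * 1 := by rw [← pow_add, mul_one]; exact h1.symm
    exact mul_left_cancel₀ (pow_ne_zero i hg0) this
  · obtain ⟨e, rfl⟩ := Nat.exists_eq_add_of_lt hl
    apply hg (e + 1) (by omega)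
    have : g ^ N * g ^ (e + 1) = g ^ N * 1 := by rw [← pow_add, mul_one]; exact h1
    exact mul_left_cancel₀ hN this

theorem cert3 {g : F} (hg0 : g ≠ 0) (hg : ∀ j, 1 ≤ j → g ^ j ≠ 1) (M : ℕ) (hM : 1 ≤ M) (K : ℕ)
    (hK : K ≤ M + 1) :
    ∑ k ∈ range (K + 1), (t3 g (g ^ (2 * (M + 1)))⁻¹ (M + 1) k - ρ3 g M * t3 g (g ^ (2 * M))⁻¹ M k) =
      g3 g (g ^ (2 * M))⁻¹ M K := by
  have ng : ∀ j, 1 ≤ j → (1 : F) - g ^ j ≠ 0 := by
    intro j hj h
    exact hg j hj (by linear_combination -h)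
  have n1 : ∀ k, poch g g k ≠ 0 := fun k => poch_ne _ _ _ fun i _ => by
    rw [← pow_succ']; exact hg _ (Nat.succ_pos _)
  have n2 : ∀ m k, poch (g ^ (m + 1)) g k ≠ 0 := fun m k => poch_ne _ _ _ fun i _ => by
    rw [← pow_add]; exact hg _ (by omega)
  have n3 : ∀ k, k ≤ 2 * M → poch (g ^ (2 * M))⁻¹ g k ≠ 0 := fun k hk => poch_ne _ _ _ fun i hi => by
    intro h
    exact zi_ne hg0 hg (N := 2 * M) (i := i) (by omega) (by rw [h, sub_self])
  have hZ := pow_ne_zero (2 * M) hg0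
  induction K with
  | zero =>
    simp only [zero_add, range_one, sum_singleton, t3, g3, ρ3, mul_zero, pow_zero, poch, range_zero,
      prod_empty, prod_singleton, mul_one, one_mul, div_one, pow_one]
    have h1 := ng (2 * M + 1) (by omega)
    have e1 : g ^ (2 * M + 3) = g ^ (2 * M + 1) * g ^ 2 := by rw [← pow_add]
    have e2 : g ^ (2 * M + 2) = g ^ (2 * M + 1) * g := by rw [← pow_succ]
    rw [e1, e2]
    generalize hd1 : 1 - g ^ (2 * M + 1) = d1 at *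
    field_simp
    rw [← hd1]
    ring
  | succ K ih =>
    rw [sum_range_succ, ih (by omega)]
    have p1 := poch_succ g g K
    have p2 := poch_succ (g ^ (2 * (M + 1) + 2)) g K
    have p3 : poch (g ^ (2 * M + 2)) (g ^ 2) (K + 1) =
        (1 - g ^ (2 * M + 2)) * poch (g ^ (2 * M + 4)) (g ^ 2) K := by
      rw [poch_succ', ← pow_add]
    have p4 := poch_succ (g ^ (2 * (M + 1) + 2)) (g ^ 2) K
    have hz : (g ^ (2 * (M + 1)))⁻¹ * g * g = (g ^ (2 * M))⁻¹ := by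
      rw [show 2 * (M + 1) = 2 * M + 2 by ring, pow_add]
      field_simp
    have p5 : poch (g ^ (2 * (M + 1)))⁻¹ (g ^ 2) (K + 1) =
        (1 - (g ^ (2 * (M + 1)))⁻¹) * poch (g ^ (2 * M))⁻¹ (g ^ 2) K := by
      rw [poch_succ', sq, ← mul_assoc, hz]
    have p6 : poch (g ^ (2 * (M + 1)))⁻¹ g (K + 1) * (1 - (g ^ (2 * (M + 1)))⁻¹ * g ^ (K + 1)) =
        (1 - (g ^ (2 * (M + 1)))⁻¹) * ((1 - (g ^ (2 * (M + 1)))⁻¹ * g) * poch (g ^ (2 * M))⁻¹ g K) := by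
      rw [← poch_succ, poch_succ', poch_succ', hz]
    have p7 : poch (g ^ (2 * M + 2)) g (K + 1) * (1 - g ^ (2 * M + 2) * g ^ (K + 1)) =
        (1 - g ^ (2 * M + 2)) * ((1 - g ^ (2 * M + 2) * g) * poch (g ^ (2 * M + 4)) g K) := by
      rw [← poch_succ, poch_succ', poch_succ', mul_assoc, ← sq, ← pow_add]
    have p8 := poch_succ (g ^ (2 * M))⁻¹ (g ^ 2) K
    have p9 := poch_succ (g ^ (2 * M))⁻¹ g K
    have p10 := poch_succ g (g ^ 2) (K + 1)
    have p11 := poch_succ (g ^ (2 * M + 2)) (g ^ 2) (K + 1)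
    rw [p3] at p11
    have hz0 : 1 - (g ^ (2 * (M + 1)))⁻¹ ≠ 0 := by
      have := zi_ne hg0 hg (N := 2 * (M + 1)) (i := 0) (by omega)
      rwa [pow_zero, mul_one] at this
    have hz1 : 1 - (g ^ (2 * (M + 1)))⁻¹ * g ≠ 0 := by
      have := zi_ne hg0 hg (N := 2 * (M + 1)) (i := 1) (by omega)
      rwa [pow_one] at this
    have hz2 : 1 - (g ^ (2 * (M + 1)))⁻¹ * g ^ (K + 1) ≠ 0 := zi_ne hg0 hg (by omega)
    have hz3 : 1 - (g ^ (2 * M))⁻¹ * g ^ K ≠ 0 := zi_ne hg0 hg (by omega)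
    have c1 := n1 K
    have c2 := n2 (2 * M + 3) K
    have c3 := n3 K (by omega)
    have c4 := ng (2 * M + 2) (by omega)
    have c5 : (1 : F) - g ^ (2 * M + 2) * g ≠ 0 := by rw [← pow_succ]; exact ng _ (by omega)
    have c6 : (1 : F) - g ^ (2 * M + 2) * g ^ (K + 1) ≠ 0 := by rw [← pow_add]; exact ng _ (by omega)
    have c7 : (1 : F) - g * g ^ K ≠ 0 := by rw [← pow_succ']; exact ng _ (by omega)
    have c8 : (1 : F) - g ^ (2 * M + 4) * g ^ K ≠ 0 := by rw [← pow_add]; exact ng _ (by omega)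
    have c9 := ng (2 * M + 1) (by omega)
    have p6' : poch (g ^ (2 * (M + 1)))⁻¹ g (K + 1) = (1 - (g ^ (2 * (M + 1)))⁻¹) *
        ((1 - (g ^ (2 * (M + 1)))⁻¹ * g) * poch (g ^ (2 * M))⁻¹ g K) /
          (1 - (g ^ (2 * (M + 1)))⁻¹ * g ^ (K + 1)) := by
      rw [eq_div_iff hz2]; exact p6
    have p7' : poch (g ^ (2 * M + 2)) g (K + 1) =
        (1 - g ^ (2 * M + 2)) * ((1 - g ^ (2 * M + 2) * g) * poch (g ^ (2 * M + 4)) g K) /
          (1 - g ^ (2 * M + 2) * g ^ (K + 1)) := by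
      rw [eq_div_iff c6]; exact p7
    simp only [t3, g3, ρ3, show 2 * (M + 1) + 2 = 2 * M + 4 from rfl,
      show K + 1 + 1 = K + 2 from rfl] at *
    rw [p10, p11, p1, p2, p3, p4, p5, p6', p7', p8, p9]
    have w1 : (-1 : F) ^ (K + 1) = -(-1) ^ K := by rw [pow_succ]; ring
    rw [w1]
    generalize hd1 : (1 : F) - g * g ^ K = d1 at *
    generalize hd2 : 1 - g ^ (2 * M + 4) * g ^ K = d2 at *
    generalize hd3 : 1 - (g ^ (2 * (M + 1)))⁻¹ = d3 at *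
    generalize hd4 : 1 - (g ^ (2 * (M + 1)))⁻¹ * g = d4 at *
    generalize hd5 : 1 - (g ^ (2 * (M + 1)))⁻¹ * g ^ (K + 1) = d5 at *
    generalize hd6 : 1 - g ^ (2 * M + 2) = d6 at *
    generalize hd7 : 1 - g ^ (2 * M + 2) * g = d7 at *
    generalize hd8 : 1 - g ^ (2 * M + 2) * g ^ (K + 1) = d8 at *
    generalize hd9 : 1 - (g ^ (2 * M))⁻¹ * g ^ K = d9 at *
    generalize hd10 : 1 - g ^ (2 * M + 1) = d10 at *
    generalize poch g g K = a1 at *
    generalize poch (g ^ (2 * M + 4)) g K = a2 at *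
    generalize poch (g ^ (2 * M))⁻¹ g K = a3 at *
    generalize poch g (g ^ 2) (K + 1) = a4 at *
    generalize poch (g ^ (2 * M + 4)) (g ^ 2) K = a5 at *
    generalize poch (g ^ (2 * M))⁻¹ (g ^ 2) K = a6 at *
    generalize (-1 : F) ^ K = sg at *
    have key : -(1 - g ^ (3 * (K + 1) + 1)) * (1 - g ^ (2 * M + 4) * (g ^ 2) ^ K) * d5 / (d1 * d2 * d4) +
        g ^ (2 * M + 1) * (1 - g ^ (2 * M + 3)) / d10 * (-(1 - g ^ (3 * (K + 1) + 1)) *
          (1 - (g ^ (2 * M))⁻¹ * (g ^ 2) ^ K) * d8 / (d1 * d7 * d9)) =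
        -(g ^ (K + 1) * (1 + g ^ (2 * M + 2)) / d10 * ((1 - g * (g ^ 2) ^ (K + 1)) * d6 *
          (1 - g ^ (2 * M + 2) * (g ^ 2) ^ (K + 1)) * (1 - (g ^ (2 * M))⁻¹ * (g ^ 2) ^ K)) / (d1 * d2 * d9)) -
        g ^ K * (1 + g ^ (2 * M + 2)) / d10 * d6 := by
      field_simp
      rw [← hd1, ← hd2, ← hd4, ← hd5, ← hd6, ← hd7, ← hd8, ← hd9, ← hd10]
      have w2 : g ^ (3 * (K + 1) + 1) = g ^ 4 * (g ^ K) ^ 3 := by ring
      have w3 : g ^ (2 * M + 4) = g ^ 4 * g ^ (2 * M) := by ring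
      have w4 : g ^ (2 * (M + 1)) = g ^ 2 * g ^ (2 * M) := by ring
      have w5 : g ^ (2 * M + 2) = g ^ 2 * g ^ (2 * M) := by ring
      have w6 : g ^ (2 * M + 1) = g * g ^ (2 * M) := by ring
      have w7 : g ^ (2 * M + 3) = g ^ 3 * g ^ (2 * M) := by ring
      have w8 : (g ^ 2) ^ K = (g ^ K) ^ 2 := by ring
      have w9 : (g ^ 2) ^ (K + 1) = g ^ 2 * (g ^ K) ^ 2 := by ring
      have w10 : g ^ (K + 1) = g * g ^ K := by ring
      rw [w2, w3, w4, w5, w6, w7, w8, w9, w10]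
      generalize g ^ K = X at *
      generalize g ^ (2 * M) = Z at *
      field_simp
      ring
    have h3 : d3 * d3⁻¹ = 1 := mul_inv_cancel₀ hz0
    have h6 : d6 * d6⁻¹ = 1 := mul_inv_cancel₀ c4
    generalize 1 - g ^ (3 * (K + 1) + 1) = m1 at *
    generalize 1 - g ^ (2 * M + 4) * (g ^ 2) ^ K = m2 at *
    generalize 1 - (g ^ (2 * M))⁻¹ * (g ^ 2) ^ K = m3 at *
    generalize 1 - g * (g ^ 2) ^ (K + 1) = m4 at *
    generalize 1 - g ^ (2 * M + 2) * (g ^ 2) ^ (K + 1) = m5 at *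
    simp only [div_eq_mul_inv, mul_inv, inv_inv] at key ⊢
    linear_combination (sg * a4 * a5 * a6 / (a1 * a2 * a3)) * key +
      (-sg * m1 * a4 * a5 * m2 * a6 * d5 / (a1 * d1 * a2 * d2 * d4 * a3)) * h3 -
      ((-g ^ (2 * M + 1) * (1 - g ^ (2 * M + 3)) / d10) *
        (-sg * m1 * a4 * a5 * a6 * m3 * d8 / (a1 * d1 * d7 * a2 * a3 * d9))) * h6

theorem sum3 {g : F} (hg0 : g ≠ 0) (hg : ∀ j, 1 ≤ j → g ^ j ≠ 1) (M : ℕ) :
    ∑ k ∈ range (M + 1), t3 g (g ^ (2 * M))⁻¹ M k = (-1) ^ M * g ^ (M ^ 2) * (1 - g ^ (2 * M + 1)) := by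
  have ng : ∀ j, 1 ≤ j → (1 : F) - g ^ j ≠ 0 := by
    intro j hj h
    exact hg j hj (by linear_combination -h)
  induction M with
  | zero => simp [t3, poch]
  | succ M ih =>
    rcases Nat.eq_zero_or_pos M with rfl | hM
    · have h1 := ng 1 le_rfl
      have h4 := ng 4 (by norm_num)
      have h2 := ng 2 (by norm_num)
      rw [pow_one] at h1
      have hz : 1 - (g ^ 2)⁻¹ ≠ 0 := by
        have := zi_ne hg0 hg (N := 2) (i := 0) (by omega)
        rwa [pow_zero, mul_one] at this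
      rw [sum_range_succ, zero_add, sum_range_one]
      simp only [t3, poch, mul_zero, zero_add, pow_zero, range_zero, prod_empty, mul_one, one_mul,
        div_one, pow_one, range_one, prod_singleton]
      norm_num
      generalize hd1 : (1 : F) - (g ^ 2)⁻¹ = d1 at *
      generalize hd2 : (1 : F) - g ^ 4 = d2 at *
      generalize hd3 : (1 : F) - g = d3 at *
      field_simp
      rw [← hd3]
      ring
    · have h := cert3 hg0 hg M hM (M + 1) le_rfl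
      have hp : poch (g ^ (2 * M))⁻¹ (g ^ 2) (M + 1) = 0 := by
        refine poch_zero_of (Nat.lt_succ_self M) ?_
        rw [← pow_mul]
        exact inv_mul_cancel₀ (pow_ne_zero _ hg0)
      have hgz : g3 g (g ^ (2 * M))⁻¹ M (M + 1) = 0 := by
        rw [g3, hp]; simp
      have htz : t3 g (g ^ (2 * M))⁻¹ M (M + 1) = 0 := by
        rw [t3, hp]; simp
      rw [hgz, sum_sub_distrib, ← mul_sum, sum_range_succ (fun k => t3 g (g ^ (2 * M))⁻¹ M k), htz,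
        add_zero, ih, sub_eq_zero] at h
      rw [h, ρ3]
      have h1 := ng (2 * M + 1) (by omega)
      have e1 : g ^ ((M + 1) ^ 2) = g ^ (M ^ 2) * g ^ (2 * M + 1) := by
        rw [← pow_add]; congr 1; ring
      rw [e1, show 2 * (M + 1) + 1 = 2 * M + 3 by ring, pow_succ (-1 : F)]
      field_simp

/-- closed form for `∑ (-1)^k [3k+1] ...` -/
theorem cf3 {g : F} (hg0 : g ≠ 0) (hg : ∀ j, 1 ≤ j → g ^ j ≠ 1) (M : ℕ) :
    ∑ k ∈ range (M + 1), ((-1) ^ k * (1 - g ^ (3 * k + 1)) *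
      ∏ u ∈ range k, (1 - g ^ (2 * u + 1)) / (1 - g ^ (u + 1))) *
      ∏ u ∈ range k, ffg g (svg g (2 * M + 1)) (2 * u + 1) / ffg g (svg g (2 * M + 1)) (u + 1) =
    (-1) ^ M * g ^ (M ^ 2) * (1 - g ^ (2 * M + 1)) := by
  rw [← sum3 hg0 hg]
  refine sum_congr rfl fun k _ => ?_
  rw [t3, prod_div_distrib, prod_div_distrib]
  simp only [ffg_svg hg0]
  rw [prod_mul_distrib, prod_mul_distrib]
  have p1 := poch_eq g 1 2 k
  have p2 := poch_eq g 1 1 k
  have p3 : ∏ u ∈ range k, (1 - g ^ (2 * u + 1 + (2 * M + 1))) = poch (g ^ (2 * M + 2)) (g ^ 2) k := by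
    rw [← poch_eq g (2 * M + 2) 2 k]
    exact prod_congr rfl fun u _ => by congr 2; ring
  have p4 : ∏ u ∈ range k, (1 - g ^ (u + 1 + (2 * M + 1))) = poch (g ^ (2 * M + 2)) g k := by
    have := poch_eq g (2 * M + 2) 1 k
    rw [pow_one] at this
    rw [← this]
    exact prod_congr rfl fun u _ => by congr 2; ring
  have p5 : ∏ u ∈ range k, (1 - g ^ (2 * u + 1) * (g ^ (2 * M + 1))⁻¹) =
      poch (g ^ (2 * M))⁻¹ (g ^ 2) k := by
    rw [poch_eq' g _ 1 2 k]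
    congr 1
    rw [pow_succ g (2 * M), pow_one]
    have := pow_ne_zero (2 * M) hg0
    field_simp
  have p6 : ∏ u ∈ range k, (1 - g ^ (u + 1) * (g ^ (2 * M + 1))⁻¹) = poch (g ^ (2 * M))⁻¹ g k := by
    have := poch_eq' g (g ^ (2 * M + 1))⁻¹ 1 1 k
    simp only [one_mul, pow_one] at this
    rw [this]
    congr 1
    rw [pow_succ g (2 * M)]
    have := pow_ne_zero (2 * M) hg0
    field_simp
  simp only [one_mul, pow_one] at p1 p2
  rw [p1, p2, p3, p4, p5, p6]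
  simp only [div_eq_mul_inv, mul_inv]
  ring

end V11307.WZ
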