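import Pool.Agent.V11307.QClosed

/-!
Closed form for `∑ q^k (1+q^{4k+1}) (q²;q⁴)_k ... / (q⁴;q⁴)_k ...`.
-/

open Finset

namespace V11307.WZ

variable {F : Type*} [Field F]

theorem poch_neg {g : F} (hg : g ≠ 0) {c d h : ℕ} (hcd : c + d = h) (M : ℕ) :
    poch (g ^ c * (g ^ (h * M))⁻¹) (g ^ h) M * ∏ j ∈ range M, (-g ^ (h * j + d)) =
      poch (g ^ d) (g ^ h) M := by
  induction M with
  | zero => simp [poch]
  | succ M ih =>
    rw [poch_succ', poch_succ (g ^ d), prod_range_succ]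
    have e1 : g ^ c * (g ^ (h * (M + 1)))⁻¹ * g ^ h = g ^ c * (g ^ (h * M))⁻¹ := by
      rw [show h * (M + 1) = h * M + h by ring, pow_add]
      have h1 := pow_ne_zero (h * M) hg
      have h2 := pow_ne_zero h hg
      field_simp
    rw [e1, ← ih]
    have e3 : (1 - g ^ c * (g ^ (h * (M + 1)))⁻¹) * (-g ^ (h * M + d)) =
        (1 - g ^ d * (g ^ h) ^ M) := by
      have h1 := pow_ne_zero (h * (M + 1)) hg
      have h2 : g ^ c * g ^ (h * M + d) = g ^ (h * (M + 1)) := by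
        rw [← pow_add]; congr 1; rw [← hcd]; ring
      have h3 : g ^ (h * (M + 1)) * (g ^ (h * (M + 1)))⁻¹ = 1 := mul_inv_cancel₀ h1
      rw [← pow_mul, ← pow_add, add_comm d]
      linear_combination (g ^ (h * (M + 1)))⁻¹ * h2 + h3
    linear_combination (poch (g ^ c * (g ^ (h * M))⁻¹) (g ^ h) M *
      ∏ j ∈ range M, (-g ^ (h * j + d))) * e3

theorem pow_ne_pow {g : F} (hg0 : g ≠ 0) (hg : ∀ j, 1 ≤ j → g ^ j ≠ 1) {c d : ℕ} (h : c ≠ d) :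
    g ^ c ≠ g ^ d := by
  have key : ∀ c d : ℕ, c < d → g ^ c ≠ g ^ d := by
    intro c d hcd h
    obtain ⟨e, rfl⟩ := Nat.exists_eq_add_of_lt hcd
    apply hg (e + 1) (by omega)
    have : g ^ c * g ^ (e + 1) = g ^ c * 1 := by rw [← pow_add, mul_one]; exact h.symm
    exact mul_left_cancel₀ (pow_ne_zero c hg0) this
  rcases lt_or_gt_of_ne h with h | h
  · exact key c d h
  · exact (key d c h).symm

theorem cf2 {g : F} (hg0 : g ≠ 0) (hg : ∀ j, 1 ≤ j → g ^ j ≠ 1) (M : ℕ) :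
    ∑ k ∈ range (M + 1), (g ^ k * (1 + g ^ (4 * k + 1)) *
      ∏ u ∈ range k, (1 - g ^ (4 * u + 2)) / (1 - g ^ (4 * u + 4))) *
      ∏ u ∈ range k, ffg g (svg g (4 * M + 2)) (4 * u + 2) / ffg g (svg g (4 * M + 2)) (4 * u + 4) =
    (g ^ M)⁻¹ * (1 - g ^ (4 * M + 2)) * (1 - g)⁻¹ *
      ∏ i ∈ range M, (1 - g ^ (4 * i + 3)) / (1 - g ^ (4 * i + 5)) := by
  have ng : ∀ j, 1 ≤ j → (1 : F) - g ^ j ≠ 0 := by
    intro j hj h
    exact hg j hj (by linear_combination -h)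
  have hg1 : (1 : F) - g ≠ 0 := by
    have := ng 1 le_rfl
    rwa [pow_one] at this
  have hs := sum65 (Q := g ^ 4) (A := g ^ 2) (b := g ^ (4 * M + 4)) (D := g⁻¹) (pow_ne_zero _ hg0)
    (pow_ne_zero _ hg0) (by intro j hj; rw [← pow_mul]; exact hg _ (by omega))
    (by intro j hj; rw [← pow_mul, ← pow_add]; exact pow_ne_pow hg0 hg (by omega))
    (by intro j hj; rw [← pow_mul, ← pow_add]; exact hg _ (by omega))
    (by
      intro j hj
      have : g ^ 2 * g⁻¹ = g := by field_simp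
      rw [this, ← pow_mul, ← pow_succ']
      exact hg _ (by omega)) M
  have hM4 := pow_ne_zero (4 * M) hg0
  have hA : g ^ 2 * g ^ 4 / g ^ (4 * M + 4) = g ^ 2 * (g ^ (4 * M))⁻¹ := by
    rw [pow_add]
    field_simp
  have hAD : g ^ 2 * g ^ 4 * g⁻¹ / g ^ (4 * M + 4) = g ^ 1 * (g ^ (4 * M))⁻¹ := by
    rw [pow_add]
    field_simp
  have hD : g ^ 2 * g ^ 4 * g⁻¹ = g ^ 5 := by field_simp
  have hr : r65 (g ^ 4) (g ^ 2) (g ^ (4 * M + 4)) g⁻¹ M =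
      (g ^ M)⁻¹ * (1 - g ^ (4 * M + 2)) * ∏ i ∈ range M, (1 - g ^ (4 * i + 3)) / (1 - g ^ (4 * i + 5)) := by
    rw [r65, hAD, hA, hD, prod_div_distrib]
    have h1 : (1 - g ^ 2) * poch (g ^ 2 * g ^ 4) (g ^ 4) M = poch (g ^ 2) (g ^ 4) M * (1 - g ^ (4 * M + 2)) := by
      rw [← poch_succ', poch_succ, ← pow_mul, ← pow_add, add_comm 2]
    have h2 := poch_neg hg0 (c := 2) (d := 2) (h := 4) rfl M
    have h3 := poch_neg hg0 (c := 1) (d := 3) (h := 4) rfl M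
    have h4 : poch (g ^ 2 * (g ^ (4 * M))⁻¹) (g ^ 4) M ≠ 0 := by
      intro h0
      rw [h0, zero_mul] at h2
      refine poch_ne (g ^ 2) (g ^ 4) M (fun i _ => ?_) h2.symm
      rw [← pow_mul, ← pow_add]; exact hg _ (by omega)
    have h5 : ∏ j ∈ range M, (-g ^ (4 * j + 3)) = (∏ j ∈ range M, (-g ^ (4 * j + 2))) * g ^ M := by
      have : g ^ M = ∏ _j ∈ range M, g := by simp
      rw [this, ← prod_mul_distrib]
      refine prod_congr rfl fun j _ => ?_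
      rw [pow_succ g (4 * j + 2)]; ring
    have h6 : ∏ j ∈ range M, (-g ^ (4 * j + 2)) ≠ 0 :=
      prod_ne_zero_iff.2 fun j _ => neg_ne_zero.2 (pow_ne_zero _ hg0)
    have h7 := poch_eq g 3 4 M
    have h8 := poch_eq g 5 4 M
    have h9 : poch (g ^ 5) (g ^ 4) M ≠ 0 := by
      refine poch_ne _ _ M (fun i _ => ?_)
      rw [← pow_mul, ← pow_add]; exact hg _ (by omega)
    rw [h1, h7, h8, ← h2, ← h3, h5]
    have h10 := pow_ne_zero M hg0
    generalize poch (g ^ 2 * (g ^ (4 * M))⁻¹) (g ^ 4) M = z at *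
    generalize poch (g ^ 5) (g ^ 4) M = z2 at *
    generalize poch (g ^ 1 * (g ^ (4 * M))⁻¹) (g ^ 4) M = z3 at *
    generalize ∏ j ∈ range M, (-g ^ (4 * j + 2)) = z4 at *
    field_simp
  have hfin : (g ^ M)⁻¹ * (1 - g ^ (4 * M + 2)) * (1 - g)⁻¹ *
      ∏ i ∈ range M, (1 - g ^ (4 * i + 3)) / (1 - g ^ (4 * i + 5)) =
      (1 - g)⁻¹ * r65 (g ^ 4) (g ^ 2) (g ^ (4 * M + 4)) g⁻¹ M := by
    rw [hr]; ring
  rw [hfin, ← hs, mul_sum]
  refine sum_congr rfl fun k _ => ?_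
  rw [t65, hA, hD]
  have hpd : pd g⁻¹ (g ^ 4) k = (g ^ k)⁻¹ * poch g (g ^ 4) k := by
    have h0 : (g ^ k)⁻¹ = ∏ _i ∈ range k, g⁻¹ := by simp
    rw [pd, poch, h0, ← prod_mul_distrib]
    refine prod_congr rfl fun i _ => ?_
    field_simp
  have harg : g ^ 2 * (g ^ 4) ^ (M + 1) / g ^ (4 * M + 4) = g ^ 2 := by
    rw [← pow_mul, show 4 * (M + 1) = 4 * M + 4 by ring]
    have := pow_ne_zero (4 * M + 4) hg0
    field_simp
  have hshift : poch g (g ^ 4) k * (1 - g ^ (4 * k + 1)) = (1 - g) * poch (g ^ 5) (g ^ 4) k := by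
    have h1 := poch_succ g (g ^ 4) k
    have h2 := poch_succ' g (g ^ 4) k
    rw [← pow_mul, ← pow_succ'] at h1
    rw [← pow_succ'] at h2
    rw [← h1, h2]
  rw [hpd, harg, prod_div_distrib, prod_div_distrib]
  simp only [ffg_svg hg0]
  rw [prod_mul_distrib, prod_mul_distrib]
  have p1 := poch_eq g 2 4 k
  have p2 := poch_eq g 4 4 k
  have p3 : ∏ u ∈ range k, (1 - g ^ (4 * u + 2 + (4 * M + 2))) = poch (g ^ (4 * M + 4)) (g ^ 4) k := by
    rw [← poch_eq g (4 * M + 4) 4 k]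
    exact prod_congr rfl fun u _ => by congr 2; ring
  have p4 : ∏ u ∈ range k, (1 - g ^ (4 * u + 4 + (4 * M + 2))) =
      poch (g ^ 2 * (g ^ 4) ^ (M + 1)) (g ^ 4) k := by
    have : g ^ 2 * (g ^ 4) ^ (M + 1) = g ^ (4 * M + 6) := by
      rw [← pow_mul, ← pow_add]; congr 1; ring
    rw [this, ← poch_eq g (4 * M + 6) 4 k]
    exact prod_congr rfl fun u _ => by congr 2; ring
  have p5 : ∏ u ∈ range k, (1 - g ^ (4 * u + 2) * (g ^ (4 * M + 2))⁻¹) =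
      poch ((g ^ 4) ^ M)⁻¹ (g ^ 4) k := by
    rw [poch_eq' g _ 2 4 k]
    congr 1
    rw [← pow_mul, pow_add g (4 * M)]
    field_simp
  have p6 : ∏ u ∈ range k, (1 - g ^ (4 * u + 4) * (g ^ (4 * M + 2))⁻¹) =
      poch (g ^ 2 * (g ^ (4 * M))⁻¹) (g ^ 4) k := by
    rw [poch_eq' g _ 4 4 k]
    congr 1
    rw [pow_add g (4 * M)]
    field_simp
  rw [p1, p2, p3, p4, p5, p6]
  have e4 : g ^ 2 * (g ^ 4) ^ (2 * k) = g ^ (4 * k + 1) * g ^ (4 * k + 1) := by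
    rw [← pow_mul, ← pow_add, ← pow_add]; congr 1; ring
  have e5 : poch (g ^ 5) (g ^ 4) k ≠ 0 := by
    refine poch_ne _ _ k (fun i _ => ?_)
    rw [← pow_mul, ← pow_add]; exact hg _ (by omega)
  have e6 : (g ^ 2) ^ k = g ^ k * g ^ k := by rw [← pow_mul, ← pow_add]; congr 1; ring
  have e7 := pow_ne_zero k hg0
  have e8 : (1 - g)⁻¹ * ((1 - g ^ (4 * k + 1)) * ((g ^ k)⁻¹ * poch g (g ^ 4) k) * (g ^ k * g ^ k)) *
      (poch (g ^ 5) (g ^ 4) k)⁻¹ = g ^ k := by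
    have : (1 - g ^ (4 * k + 1)) * ((g ^ k)⁻¹ * poch g (g ^ 4) k) * (g ^ k * g ^ k) =
        g ^ k * (poch g (g ^ 4) k * (1 - g ^ (4 * k + 1))) := by
      field_simp
    rw [this, hshift]
    field_simp
  rw [e4, e6]
  simp only [div_eq_mul_inv, mul_inv]
  linear_combination (-(1 + g ^ (4 * k + 1)) * poch (g ^ 2) (g ^ 4) k * (poch (g ^ 4) (g ^ 4) k)⁻¹ *
    poch (g ^ (4 * M + 4)) (g ^ 4) k * poch ((g ^ 4) ^ M)⁻¹ (g ^ 4) k *
    (poch (g ^ 2 * (g ^ 4) ^ (M + 1)) (g ^ 4) k)⁻¹ *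
    (poch (g ^ 2 * (g ^ (4 * M))⁻¹) (g ^ 4) k)⁻¹) * e8

end V11307.WZ
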