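import Pool.Agent.V11307.QHead

/-!
Antisymmetry of the head of a block, general weights; and plain block sums modulo `Φ_n`.
-/

open Polynomial Finset

namespace V11307.Q

noncomputable section

variable {n : ℕ} {s : RatFunc ℚ}

/-- hypotheses on the undeformed factors -/
structure ZH (n M : ℕ) (Zc : ℕ → RatFunc ℚ) (η : RatFunc ℚ) (c : ℤ) : Prop where
  hn : n = 2 * M + 1
  hM : 0 < M
  hη : η = 1 ∨ η = -1
  hm : ∀ e, Zc e ∈ R n
  hU : ∀ e, ¬ n ∣ e → IsU n (Zc e)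
  hc : ∀ e e', e ≡ e' [MOD n] → I n 1 (Zc e - Zc e')
  hr : ∀ e, e ≤ n → I n 1 (Zc (n - e) - η * q ^ (-(c * e)) * Zc e)

variable {M : ℕ} {Zc : ℕ → RatFunc ℚ} {η : RatFunc ℚ} {c : ℤ}

/-- deformed factors -/
def Zd (Zc : ℕ → RatFunc ℚ) (s : RatFunc ℚ) (e : ℕ) : RatFunc ℚ := Zc e * f s e

def rz (Zc : ℕ → RatFunc ℚ) (s : RatFunc ℚ) (u : ℕ) : RatFunc ℚ := Zd Zc s (2 * u + 1) / Zd Zc s (2 * u + 2)

namespace ZH

variable (H : ZH n M Zc η c)
include H

theorem hn0 : 0 < n := by have := H.hn; omega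

theorem ημ : η ∈ R n := by
  rcases H.hη with h | h
  · rw [h]; exact one_mem _
  · rw [h]; exact neg_mem (one_mem _)

theorem ηne : η ≠ 0 := by
  rcases H.hη with h | h
  · rw [h]; exact one_ne_zero
  · rw [h]; exact neg_ne_zero.2 one_ne_zero

theorem ηU : IsU n η := by
  rcases H.hη with h | h
  · rw [h]; exact IsU.one
  · rw [h]; exact IsU.one.neg

theorem J0 (hs : I n 2 (s - 2)) (e : ℕ) : J n 0 (Zd Zc s e) (Zd Zc 2 e) :=
  (J0_R (H.hm e)).mul (J0_f hs e)

theorem JCc (hs : I n 2 (s - 2)) {e e' : ℕ} (h : e ≡ e' [MOD n]) :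
    JC n (Zd Zc s e) (Zd Zc 2 e) (Zd Zc s e') (Zd Zc 2 e') :=
  JC.mul (JC.const (H.hc e e' h)) (JC_f hs H.hn0 h) (J0_R (H.hm e')) (J0_f hs e)

theorem JUd (hs : I n 2 (s - 2)) {e : ℕ} (h : ¬ n ∣ e) : JU n (Zd Zc s e) (Zd Zc 2 e) := by
  have hz : I n 2 ((2 : RatFunc ℚ) - 2) := by rw [sub_self]; exact I.zero
  exact ⟨(H.hU e h).mul (f_U H.hn0 hs h), (H.hU e h).mul (f_U H.hn0 hz h), (H.J0 hs e).2.2⟩

theorem refl (hs : I n 2 (s - 2)) {e : ℕ} (he : e ≤ n) :
    JC n (Zd Zc s (n - e)) (Zd Zc 2 (n - e)) (η * q ^ (-((c + 2) * (e : ℤ))) * Zd Zc s e)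
      (η * q ^ (-((c + 2) * (e : ℤ))) * Zd Zc 2 e) := by
  have hn := H.hn0
  have e0 : q ^ (-(e : ℤ)) * q ^ e = 1 := by
    rw [zpow_neg, zpow_natCast, inv_mul_cancel₀ (pow_ne_zero _ q_ne)]
  have e1 : q ^ (n - e) = q ^ (-(e : ℤ)) * q ^ n := by
    have : q ^ (n - e) * q ^ e = q ^ n := by rw [← pow_add]; congr 1; omega
    rw [← this]
    linear_combination -(q ^ (n - e)) * e0
  have e3 : q ^ (2 * (n - e)) = (q ^ (-(e : ℤ))) ^ 2 * q ^ (2 * n) := by
    rw [mul_comm 2, pow_mul, e1, mul_comm 2 n, pow_mul, mul_pow]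
  have e4 : q ^ (2 * e) = (q ^ e) ^ 2 := by rw [mul_comm, pow_mul]
  have hx := zpow_mem' hn (-(e : ℤ))
  have e5 : q ^ (-((c + 2) * (e : ℤ))) = q ^ (-(c * (e : ℤ))) * (q ^ (-(e : ℤ))) ^ 2 := by
    rw [← zpow_natCast, ← zpow_mul, ← zpow_add₀ q_ne]; congr 1; push_cast; ring
  have hy := zpow_mem' hn (-(c * (e : ℤ)))
  have hr := H.hr e he
  rw [e5]
  set y := q ^ (-(e : ℤ)) with hy'
  set z := q ^ (-(c * (e : ℤ))) with hz'
  have i1 := I_one_sub_nat hn (dvd_refl n)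
  have i2 := I_one_sub_nat hn (e := 2 * n) (dvd_mul_left _ _)
  have c3 : JC n (f s (n - e)) (f 2 (n - e)) (y ^ 2 * f s e) (y ^ 2 * f 2 e) := by
    have := J_lin hs (I.R_mul hx i1) (I.neg (I.R_mul (pow_mem hx 2) i2))
    rw [JC]
    convert this using 1
    · rw [f, f, e1, e3, e4]
      linear_combination (s * y - 1 - y * q ^ e) * e0
    · rw [f, f, e1, e3, e4]
      linear_combination (2 * y - 1 - y * q ^ e) * e0
  have c5 := JC.mul (JC.const hr) c3 (J0_R (mul_mem (mul_mem H.ημ hy) (H.hm _))) (J0_f hs _)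
  convert c5 using 1 <;> rw [Zd] <;> ring

theorem JUrz (hs : I n 2 (s - 2)) (l : ℕ) {u : ℕ} (hu : u < M) :
    JU n (rz Zc s (l * n + u)) (rz Zc 2 (l * n + u)) := by
  have hn := H.hn
  have h1 := nd_odd (M := M) (e := 2 * u + 1) (by omega) (by omega)
  have h2 := nd_odd (M := M) (e := 2 * u + 2) (by omega) (by omega)
  rw [← hn] at h1 h2
  refine (H.JUd hs ?_).div (H.JUd hs ?_)
  · rw [show 2 * (l * n + u) + 1 = (2 * l) * n + (2 * u + 1) by ring,
      Nat.dvd_add_right (dvd_mul_left _ _)]; exact h1.1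
  · rw [show 2 * (l * n + u) + 2 = (2 * l) * n + (2 * u + 2) by ring,
      Nat.dvd_add_right (dvd_mul_left _ _)]; exact h2.1

theorem JUrz0 (hs : I n 2 (s - 2)) {u : ℕ} (hu : u < M) : JU n (rz Zc s u) (rz Zc 2 u) := by
  have := H.JUrz hs 0 hu
  rwa [zero_mul, zero_add] at this

/-- `ω_{M-i} ≡ η^M q^{-CM(M+1)} q^{Ci} ω_i`, `C = c+2`. -/
theorem omega (hs : I n 2 (s - 2)) {i : ℕ} (hi : i ≤ M) :
    JC n (∏ u ∈ range (M - i), rz Zc s u) (∏ u ∈ range (M - i), rz Zc 2 u)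
      (η ^ M * q ^ (-((c + 2) * (M : ℤ) * (M + 1)) + (c + 2) * i) * ∏ u ∈ range i, rz Zc s u)
      (η ^ M * q ^ (-((c + 2) * (M : ℤ) * (M + 1)) + (c + 2) * i) * ∏ u ∈ range i, rz Zc 2 u) := by
  have hn := H.hn
  have hn0 := H.hn0
  have hz : I n 2 ((2 : RatFunc ℚ) - 2) := by rw [sub_self]; exact I.zero
  have hU : ∀ e, 0 < e → e < n → JU n (Zd Zc s e) (Zd Zc 2 e) := fun e h1 h2 => by
    have h := nd_odd (M := M) (e := e) h1 (by omega)
    rw [← hn] at h
    exact H.JUd hs h.1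
  have s1 : ∀ t : RatFunc ℚ, ∏ u ∈ range M, rz Zc t u =
      ∏ v ∈ range M, (Zd Zc t (n - (2 * v + 2)) / Zd Zc t (2 * v + 2)) := by
    intro t
    simp only [rz]
    rw [prod_div_distrib, prod_div_distrib]
    congr 1
    rw [← prod_range_reflect (fun v => Zd Zc t (n - (2 * v + 2))) M]
    refine prod_congr rfl fun u hu => ?_
    have hu := mem_range.1 hu
    congr 1; omega
  have hηq : ∀ z : ℤ, η * q ^ z ∈ R n := fun z => mul_mem H.ημ (zpow_mem' hn0 z)
  have s2 : JC n (∏ u ∈ range M, rz Zc s u) (∏ u ∈ range M, rz Zc 2 u)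
      (η ^ M * q ^ (-((c + 2) * (M : ℤ) * (M + 1)))) (η ^ M * q ^ (-((c + 2) * (M : ℤ) * (M + 1)))) := by
    rw [s1, s1]
    have h1 : ∀ v ∈ range M, JC n (Zd Zc s (n - (2 * v + 2)) / Zd Zc s (2 * v + 2))
        (Zd Zc 2 (n - (2 * v + 2)) / Zd Zc 2 (2 * v + 2)) (η * q ^ (-((c + 2) * ((2 * v + 2 : ℕ) : ℤ))))
        (η * q ^ (-((c + 2) * ((2 * v + 2 : ℕ) : ℤ)))) := by
      intro v hv
      have hv := mem_range.1 hv
      have h2 := H.refl hs (e := 2 * v + 2) (by omega)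
      have h3 := hU (2 * v + 2) (by omega) (by omega)
      have h4 := JC.div h2 (JC.refl (n := n) (a := Zd Zc s (2 * v + 2)) (b := Zd Zc 2 (2 * v + 2)))
        ((J0_R (hηq _)).mul (H.J0 hs _)) h3 h3
      rwa [mul_div_assoc, mul_div_assoc, div_self h3.1.1, div_self h3.2.1.1, mul_one] at h4
    have h2 := (JC.prod h1 (fun v hv => by
      have hv := mem_range.1 hv
      exact ((hU _ (by omega) (by omega)).div (hU (2 * v + 2) (by omega) (by omega))).J0)
      (fun v _ => J0_R (hηq _))).1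
    have h3 : ∀ M : ℕ, ∏ v ∈ range M, η * q ^ (-((c + 2) * ((2 * v + 2 : ℕ) : ℤ))) =
        η ^ M * q ^ (-((c + 2) * (M : ℤ) * (M + 1))) := by
      intro M
      induction M with
      | zero => simp
      | succ M ih =>
        rw [prod_range_succ, ih]
        have : q ^ (-((c + 2) * ((M + 1 : ℕ) : ℤ) * (((M + 1 : ℕ) : ℤ) + 1))) =
            q ^ (-((c + 2) * (M : ℤ) * (M + 1))) * q ^ (-((c + 2) * ((2 * M + 2 : ℕ) : ℤ))) := by
          rw [← zpow_add₀ q_ne]; congr 1; push_cast; ring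
        rw [this]; ring
    rwa [h3] at h2
  have s3 : ∀ t : RatFunc ℚ, (∀ e, 0 < e → e < n → IsU n (Zd Zc t e)) →
      ∏ u ∈ range (M - i), rz Zc t u = (∏ u ∈ range M, rz Zc t u) *
      ∏ v ∈ range i, (Zd Zc t (n - (2 * v + 1)) / Zd Zc t (n - (2 * v + 2))) := by
    intro t ht
    have h1 : ∏ u ∈ range M, rz Zc t u = (∏ u ∈ range (M - i), rz Zc t u) *
        ∏ v ∈ range i, (Zd Zc t (n - (2 * v + 2)) / Zd Zc t (n - (2 * v + 1))) := by
      have h2 := prod_range_add (fun u => rz Zc t u) (M - i) i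
      rw [show M - i + i = M by omega] at h2
      rw [h2]
      congr 1
      rw [← prod_range_reflect (fun v => Zd Zc t (n - (2 * v + 2)) / Zd Zc t (n - (2 * v + 1))) i]
      refine prod_congr rfl fun u hu => ?_
      have hu := mem_range.1 hu
      rw [rz]
      congr 2 <;> omega
    rw [h1, mul_assoc, ← prod_mul_distrib]
    have h2 : ∀ v ∈ range i, Zd Zc t (n - (2 * v + 2)) / Zd Zc t (n - (2 * v + 1)) *
        (Zd Zc t (n - (2 * v + 1)) / Zd Zc t (n - (2 * v + 2))) = 1 := by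
      intro v hv
      have hv := mem_range.1 hv
      have a1 := (ht (n - (2 * v + 1)) (by omega) (by omega)).1
      have a2 := (ht (n - (2 * v + 2)) (by omega) (by omega)).1
      field_simp
    rw [prod_congr rfl h2, prod_const_one, mul_one]
  rw [s3 s (fun e h1 h2 => (hU e h1 h2).1), s3 2 (fun e h1 h2 => (hU e h1 h2).2.1)]
  have h1 : ∀ v ∈ range i, JC n (Zd Zc s (n - (2 * v + 1)) / Zd Zc s (n - (2 * v + 2)))
      (Zd Zc 2 (n - (2 * v + 1)) / Zd Zc 2 (n - (2 * v + 2))) (q ^ (c + 2) * rz Zc s v)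
        (q ^ (c + 2) * rz Zc 2 v) := by
    intro v hv
    have hv := mem_range.1 hv
    have h2 := H.refl hs (e := 2 * v + 1) (by omega)
    have h3 := H.refl hs (e := 2 * v + 2) (by omega)
    have hqU : ∀ z : ℤ, JU n (η * q ^ z) (η * q ^ z) := fun z => JU.const (H.ηU.mul (qU hn0 z))
    have h4 := JC.div h2 h3 ((J0_R (hηq _)).mul (H.J0 hs _))
      (hU _ (by omega) (by omega)) ((hqU _).mul (hU (2 * v + 2) (by omega) (by omega)))
    have h5 : q ^ (-((c + 2) * ((2 * v + 1 : ℕ) : ℤ))) =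
        q ^ (-((c + 2) * ((2 * v + 2 : ℕ) : ℤ))) * q ^ (c + 2) := by
      rw [← zpow_add₀ q_ne]; congr 1; push_cast; ring
    rw [h5] at h4
    have h6 := zpow_ne_zero (-((c + 2) * ((2 * v + 2 : ℕ) : ℤ))) q_ne
    have h7 := H.ηne
    have b1 := (hU (2 * v + 2) (by omega) (by omega)).1.1
    have b2 := (hU (2 * v + 2) (by omega) (by omega)).2.1.1
    generalize q ^ (-((c + 2) * ((2 * v + 2 : ℕ) : ℤ))) = Y at *
    convert h4 using 1
    · rw [rz, ← mul_assoc, mul_assoc η, mul_comm Y, ← mul_assoc]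
      rw [show η * q ^ (c + 2) * Y * Zd Zc s (2 * v + 1) = (η * Y) * (q ^ (c + 2) * Zd Zc s (2 * v + 1)) by ring,
        mul_div_mul_left _ _ (mul_ne_zero h7 h6), mul_div_assoc]
    · rw [rz, ← mul_assoc, mul_assoc η, mul_comm Y, ← mul_assoc]
      rw [show η * q ^ (c + 2) * Y * Zd Zc 2 (2 * v + 1) = (η * Y) * (q ^ (c + 2) * Zd Zc 2 (2 * v + 1)) by ring,
        mul_div_mul_left _ _ (mul_ne_zero h7 h6), mul_div_assoc]
  have h2 := JC.prod h1 (fun v hv => by
      have hv := mem_range.1 hv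
      exact ((hU _ (by omega) (by omega)).div (hU (n - (2 * v + 2)) (by omega) (by omega))).J0)
      (fun v hv => (J0_R (zpow_mem' hn0 _)).mul (H.JUrz0 hs (by
        have hv := mem_range.1 hv; omega)).J0)
  have h3 := s2.mul h2.1 (J0_R (mul_mem (pow_mem H.ημ _) (zpow_mem' hn0 _))) h2.2.1
  simp only [prod_mul_distrib, prod_const, card_range] at h3
  convert h3 using 1
  · rw [zpow_add₀ q_ne]
    have : q ^ ((c + 2) * (i : ℤ)) = (q ^ (c + 2)) ^ i := by
      rw [zpow_mul, zpow_natCast]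
    rw [this]; ring
  · rw [zpow_add₀ q_ne]
    have : q ^ ((c + 2) * (i : ℤ)) = (q ^ (c + 2)) ^ i := by
      rw [zpow_mul, zpow_natCast]
    rw [this]; ring

/-- the head of a block -/
theorem headJ (hs : I n 2 (s - 2)) (w : ℕ → RatFunc ℚ) (hw : ∀ i ≤ M, w i ∈ R n)
    (hw' : ∀ i ≤ M, I n 1 (w (M - i) * (η ^ M * q ^ (-((c + 2) * (M : ℤ) * (M + 1)) + (c + 2) * i)) + w i)) :
    J n 1 (∑ i ∈ range (M + 1), w i * ∏ u ∈ range i, rz Zc s u)
      (∑ i ∈ range (M + 1), w i * ∏ u ∈ range i, rz Zc 2 u) := by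
  have hn0 := H.hn0
  have hJ : ∀ i ≤ M, J n 0 (∏ u ∈ range i, rz Zc s u) (∏ u ∈ range i, rz Zc 2 u) := fun i hi =>
    (JU.prod fun u hu => H.JUrz0 hs (by have := mem_range.1 hu; omega)).J0
  have h1 : J n 1 (∑ i ∈ range (M + 1), (w (M - i) * (∏ u ∈ range (M - i), rz Zc s u) +
        w i * ∏ u ∈ range i, rz Zc s u))
      (∑ i ∈ range (M + 1), (w (M - i) * (∏ u ∈ range (M - i), rz Zc 2 u) +
        w i * ∏ u ∈ range i, rz Zc 2 u)) := by
    refine J.sum fun i hi => ?_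
    have hi : i ≤ M := by have := mem_range.1 hi; omega
    have a1 := JC.mul (JC.refl (a := w (M - i)) (b := w (M - i))) (H.omega hs hi)
      (J0_R (hw _ (by omega))) (hJ _ (by omega))
    have a2 := J.mul (J.const (hw' i hi)) (hJ i hi)
    have a3 := J.add a1 a2
    convert a3 using 1 <;> ring
  have h2 : ∀ t : RatFunc ℚ, ∑ i ∈ range (M + 1), (w (M - i) * (∏ u ∈ range (M - i), rz Zc t u) +
        w i * ∏ u ∈ range i, rz Zc t u) =
      2 * ∑ i ∈ range (M + 1), w i * ∏ u ∈ range i, rz Zc t u := by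
    intro t
    have h3 := sum_range_reflect (fun i => w i * ∏ u ∈ range i, rz Zc t u) (M + 1)
    simp only [Nat.add_sub_cancel] at h3
    rw [sum_add_distrib, h3]
    ring
  rw [h2, h2] at h1
  have h3 := J.mul (J0_R (half_mem' (n := n))) h1
  have h4 : (2 : RatFunc ℚ) ≠ 0 := two_ne_zero
  rw [← mul_assoc, ← mul_assoc, inv_mul_cancel₀ h4, one_mul, one_mul] at h3
  exact h3

/-- the head of the `l`-th block -/
theorem blockJ (hs : I n 2 (s - 2)) (w : ℕ → RatFunc ℚ) (hw : ∀ i ≤ M, w i ∈ R n)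
    (hw' : ∀ i ≤ M, I n 1 (w (M - i) * (η ^ M * q ^ (-((c + 2) * (M : ℤ) * (M + 1)) + (c + 2) * i)) + w i))
    (l : ℕ) (wl : ℕ → RatFunc ℚ) (hwl : ∀ i ≤ M, I n 1 (wl i - w i)) :
    J n 1 (∑ i ∈ range (M + 1), wl i * ∏ u ∈ range i, rz Zc s (l * n + u))
      (∑ i ∈ range (M + 1), wl i * ∏ u ∈ range i, rz Zc 2 (l * n + u)) := by
  have hn := H.hn
  have h2 := H.headJ hs w hw hw'
  have h3 : J n 1 (∑ i ∈ range (M + 1), (wl i * (∏ u ∈ range i, rz Zc s (l * n + u)) -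
        w i * ∏ u ∈ range i, rz Zc s u))
      (∑ i ∈ range (M + 1), (wl i * (∏ u ∈ range i, rz Zc 2 (l * n + u)) -
        w i * ∏ u ∈ range i, rz Zc 2 u)) := by
    refine J.sum fun i hi => ?_
    have hi := mem_range.1 hi
    have hr : ∀ u ∈ range i, JC n (rz Zc s (l * n + u)) (rz Zc 2 (l * n + u)) (rz Zc s u) (rz Zc 2 u) ∧
        JU n (rz Zc s (l * n + u)) (rz Zc 2 (l * n + u)) := by
      intro u hu
      have hu := mem_range.1 hu
      have q1 : 2 * (l * n + u) + 1 = (2 * l) * n + (2 * u + 1) := by ring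
      have q2 : 2 * (l * n + u) + 2 = (2 * l) * n + (2 * u + 2) := by ring
      have k1 : ∀ j e, j * n + e ≡ e [MOD n] := by
        intro j e
        have := (Nat.modEq_zero_iff_dvd).2 (dvd_mul_left n j)
        simpa using this.add_right e
      have nd := fun e (h0 : 0 < e) (h1 : e < n) => (nd_odd (M := M) (e := e) h0 (by omega)).1
      rw [← hn] at nd
      have hU : ∀ j e, 0 < e → e < n → JU n (Zd Zc s (j * n + e)) (Zd Zc 2 (j * n + e)) := by
        intro j e h0 h1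
        refine H.JUd hs ?_
        rw [Nat.dvd_add_right (dvd_mul_left _ _)]
        exact nd e h0 h1
      have b1 := hU (2 * l) (2 * u + 1) (by omega) (by omega)
      have b2 := hU (2 * l) (2 * u + 2) (by omega) (by omega)
      have b3 := hU 0 (2 * u + 2) (by omega) (by omega)
      rw [zero_mul, zero_add] at b3
      rw [rz, rz, rz, rz, q1, q2]
      exact ⟨JC.div (H.JCc hs (k1 _ _)) (H.JCc hs (k1 _ _)) (H.J0 hs _) b2 b3, b1.div b2⟩
    have h4 := JC.prod (fun u hu => (hr u hu).1) (fun u hu => (hr u hu).2.J0)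
      (fun u hu => (H.JUrz0 hs (by have := mem_range.1 hu; omega)).J0)
    exact JC.mul (JC.const (hwl i (by omega))) h4.1 (J0_R (hw i (by omega))) h4.2.1
  have h4 := J.add h3 h2
  rw [← sum_add_distrib, ← sum_add_distrib] at h4
  simp only [sub_add_cancel] at h4
  exact h4

end ZH

section blocks

variable {a b : ℕ → ℕ} {d : RatFunc ℚ → RatFunc ℚ}

/-- plain block sums -/
theorem Hyp.plain (H : Hyp a b d n M) (W : ℕ → RatFunc ℚ) (hW : ∀ k, W k ∈ R n)
    (hJ : ∀ l, I n 1 (∑ i ∈ range (M + 1), W (l * n + i) * ∏ u ∈ range i, rho a b d 2 (l * n + u))) :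
    ∀ m, I n 1 (∑ k ∈ range (m * n), W k * ∏ u ∈ range k, rho a b d 2 u) ∧
      I n 1 (∑ k ∈ range (m * n + (M + 1)), W k * ∏ u ∈ range k, rho a b d 2 u) := by
  have hMn := H.hM
  have hz : I n 2 ((2 : RatFunc ℚ) - 2) := by rw [sub_self]; exact I.zero
  have hP : ∀ l, ∏ u ∈ range (l * n), rho a b d 2 u ∈ R n := by
    intro l
    rw [H.prod_full]
    exact mul_mem (prod_mem fun t _ => (H.E_U_two t).2.1) (prod_mem fun t _ => (H.N_congr hz t).2.2.1)
  have hhead : ∀ l, I n 1 (∑ i ∈ range (M + 1), W (l * n + i) * ∏ u ∈ range (l * n + i), rho a b d 2 u) := by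
    intro l
    have h1 := I.R_mul (hP l) (hJ l)
    rw [mul_sum] at h1
    convert h1 using 1
    refine sum_congr rfl fun i _ => ?_
    rw [prod_range_add]; ring
  have hfull : ∀ m, I n 1 (∑ k ∈ range (m * n), W k * ∏ u ∈ range k, rho a b d 2 u) := by
    intro m
    induction m with
    | zero => simpa using I.zero
    | succ m ih =>
      rw [add_mul, one_mul, sum_range_add]
      refine ih.add ?_
      rw [show n = M + 1 + (n - (M + 1)) by omega, sum_range_add,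
        show M + 1 + (n - (M + 1)) = n by omega]
      refine (hhead m).add (I.sum fun i hi => ?_)
      have hi := mem_range.1 hi
      rw [prod_range_add]
      refine I.R_mul (hW _) (I.R_mul (hP m) ?_)
      exact (H.tail hz m (by omega) (by omega)).mono (by norm_num)
  intro m
  refine ⟨hfull m, ?_⟩
  rw [sum_range_add]
  exact (hfull m).add (hhead m)

end blocks

end

end V11307.Q
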