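import Pool.Agent.V11307.QHead

/-!
Third order expansions, product lemmas of `block_r` type, and a tail lemma.
-/

open Polynomial Finset

namespace V11307.Q

noncomputable section

variable {n : ℕ}

/-- `z ≡ 1 + x ε + y ε²` mod `Φ_n³` -/
def E3 (n : ℕ) (z x y : RatFunc ℚ) : Prop :=
  x ∈ R n ∧ y ∈ R n ∧ I n 3 (z - (1 + x * eps n + y * eps n ^ 2))

theorem E3.mul (hn : 0 < n) {z x y z' x' y' : RatFunc ℚ} (h : E3 n z x y) (h' : E3 n z' x' y') :
    E3 n (z * z') (x + x') (y + y' + x * x') := by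
  obtain ⟨hx, hy, h1⟩ := h
  obtain ⟨hx', hy', h1'⟩ := h'
  have hε := (eps_I hn)
  refine ⟨add_mem hx hx', add_mem (add_mem hy hy') (mul_mem hx hx'), ?_⟩
  have m1 : 1 + x * eps n + y * eps n ^ 2 ∈ R n :=
    add_mem (add_mem (one_mem _) (mul_mem hx hε.mem)) (mul_mem hy (pow_mem hε.mem _))
  have m1' : 1 + x' * eps n + y' * eps n ^ 2 ∈ R n :=
    add_mem (add_mem (one_mem _) (mul_mem hx' hε.mem)) (mul_mem hy' (pow_mem hε.mem _))
  have m2 : z' ∈ R n := by
    have := add_mem h1'.mem m1'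
    rwa [sub_add_cancel] at this
  have h2 := I.mul_congr h1 h1' m1 m2
  have h3 := ((hε.mul hε).mul hε).mul_R (y := x * y' + y * x' + y * y' * eps n)
    (add_mem (add_mem (mul_mem hx hy') (mul_mem hy hx')) (mul_mem (mul_mem hy hy') hε.mem))
  have h4 := h2.add h3
  convert h4 using 1
  ring

theorem E3.one : E3 n 1 0 0 := ⟨zero_mem _, zero_mem _, by
  have : (1 : RatFunc ℚ) - (1 + 0 * eps n + 0 * eps n ^ 2) = 0 := by ring
  rw [this]; exact I.zero⟩

theorem E3.mem (hn : 0 < n) {z x y : RatFunc ℚ} (h : E3 n z x y) : z ∈ R n := by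
  have := add_mem h.2.2.mem (add_mem (add_mem (one_mem _) (mul_mem h.1 (eps_I hn).mem))
    (mul_mem h.2.1 (pow_mem (eps_I hn).mem 2)))
  rwa [sub_add_cancel] at this

theorem E3.isU (hn : 0 < n) {z x y : RatFunc ℚ} (h : E3 n z x y) : IsU n z := by
  refine IsU.one.congr hn ?_
  have h1 := (h.2.2.mono (l := 1) (by norm_num)).add ((I.R_mul h.1 (eps_I hn)).add
    (((eps_I hn).mul (eps_I hn)).mono (l := 1) (by norm_num) |>.mul_R h.2.1))
  convert h1 using 1
  ring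

theorem E3.congr (hn : 0 < n) {z x y z' x' y' : RatFunc ℚ} (h : E3 n z x y) (h' : E3 n z' x' y')
    (hx : x = x') (hy : y = y') : I n 3 (z / z' - 1) := by
  subst hx hy
  have h1 := h.2.2.sub h'.2.2
  rw [sub_sub_sub_cancel_right] at h1
  have hU := h'.isU hn
  have h2 := h1.mul_R hU.2.2
  have h3 := hU.1
  convert h2 using 1
  field_simp

theorem natCast_inv_mem (hn : 0 < n) {e : ℕ} (he : e ≠ 0) : ((e : RatFunc ℚ))⁻¹ ∈ R n :=
  (natCast_U hn he).2.2

theorem six_inv_mem (hn : 0 < n) : ((6 : RatFunc ℚ))⁻¹ ∈ R n := by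
  have := natCast_inv_mem hn (e := 6) (by norm_num)
  exact_mod_cast this

theorem qpow_three (hn : 0 < n) (j : ℕ) :
    I n 3 (q ^ (n * j) - (1 + j * eps n + j * (j - 1) * (2 : RatFunc ℚ)⁻¹ * eps n ^ 2)) := by
  have hε := eps_I hn
  have h2ne : (2 : RatFunc ℚ) ≠ 0 := two_ne_zero
  induction j with
  | zero =>
    simp only [mul_zero, pow_zero, Nat.cast_zero, zero_mul, add_zero, sub_self]
    exact I.zero
  | succ j ih =>
    have h1 := ih.mul_R (pow_mem (q_mem (n := n)) n)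
    have h2 := ((hε.mul hε).mul hε).mul_R (y := j * (j - 1) * (2 : RatFunc ℚ)⁻¹)
      (mul_mem (mul_mem (natCast_mem _ _) (sub_mem (natCast_mem _ _) (one_mem _))) half_mem')
    have h3 := h1.add h2
    convert h3 using 1
    have e1 : q ^ (n * (j + 1)) = q ^ (n * j) * q ^ n := by rw [← pow_add]; congr 1
    have e2 : q ^ n = 1 + eps n := by rw [eps]; ring
    rw [e1, e2]
    push_cast
    field_simp
    ring

theorem geom_cong_three (hn : 0 < n) (a : ℕ) :
    I n 3 ((1 - q ^ (a * n)) / (1 - q ^ n) -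
      (a + a * (a - 1) * (2 : RatFunc ℚ)⁻¹ * eps n + a * (a - 1) * (a - 2) * (6 : RatFunc ℚ)⁻¹ * eps n ^ 2)) := by
  have h1 : (1 - q ^ (a * n)) / (1 - q ^ n) = ∑ i ∈ range a, q ^ (n * i) := by
    rw [div_eq_iff (one_sub_ne hn)]
    have := (geom_sum_mul_neg (q ^ n) a)
    simp only [← pow_mul] at this
    rw [mul_comm a n, ← this]
  have h6 : (6 : RatFunc ℚ) ≠ 0 := by norm_num
  have e1 : ∀ a : ℕ, ∑ i ∈ range a, (1 + i * eps n + i * (i - 1) * (2 : RatFunc ℚ)⁻¹ * eps n ^ 2) =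
      (a + a * (a - 1) * (2 : RatFunc ℚ)⁻¹ * eps n + a * (a - 1) * (a - 2) * (6 : RatFunc ℚ)⁻¹ * eps n ^ 2) := by
    intro a
    induction a with
    | zero => simp
    | succ a ih =>
      rw [sum_range_succ, ih]
      push_cast
      field_simp
      ring
  rw [h1, ← e1, ← sum_sub_distrib]
  exact I.sum fun i _ => qpow_three hn i

/-- `[a]_{q^n}/a` to third order -/
theorem E3_geom (hn : 0 < n) {a : ℕ} (ha : a ≠ 0) :
    E3 n ((1 - q ^ (a * n)) / (1 - q ^ n) / a) ((a - 1) * (2 : RatFunc ℚ)⁻¹)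
      ((a - 1) * (a - 2) * (6 : RatFunc ℚ)⁻¹) := by
  have hc : (a : RatFunc ℚ) ∈ R n := natCast_mem _ _
  refine ⟨mul_mem (sub_mem hc (one_mem _)) half_mem', mul_mem (mul_mem (sub_mem hc (one_mem _))
    (sub_mem hc (ofNat_mem _ 2))) (six_inv_mem hn), ?_⟩
  have h1 := (geom_cong_three hn a).mul_R (natCast_inv_mem hn ha)
  convert h1 using 1
  have h2 := (natCast_U hn ha).1
  field_simp

theorem E3_q (hn : 0 < n) : E3 n (q ^ n) 1 0 := by
  refine ⟨one_mem _, zero_mem _, ?_⟩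
  have : q ^ n - (1 + 1 * eps n + 0 * eps n ^ 2) = 0 := by rw [eps]; ring
  rw [this]; exact I.zero

/-! ### `(1-g^{4i+2})/(1-g^{4i+4})` -/

def rr (g : RatFunc ℚ) (i : ℕ) : RatFunc ℚ := (1 - g ^ (4 * i + 2)) / (1 - g ^ (4 * i + 4))

/-- products of closed form factors over a block -/
theorem block_rr {κ : ℕ} (hκ : 0 < κ) (t : ℕ) :
    ∃ β, I (4 * κ + 1) 2 (β - 1) ∧ β ∈ R (4 * κ + 1) ∧
      ∏ j ∈ range (4 * κ + 1), rr q (κ + (t * (4 * κ + 1) + j)) =
        rr (q ^ (4 * κ + 1)) t * β := by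
  set n := 4 * κ + 1 with hn
  have hn0 : 0 < n := by omega
  have hY : I n 1 (q ^ ((4 * t + 1) * n) - 1) := I.symm (I_one_sub_nat hn0 (dvd_mul_left _ _))
  obtain ⟨h1, hU1, hU3⟩ := lemB hκ hn hY
  refine ⟨_, h1, (hU1.div hU3).2.1, ?_⟩
  have e1 : ∏ j ∈ range n, rr q (κ + (t * n + j)) =
      (∏ j ∈ range n, (1 - q ^ ((4 * t + 1) * n) * q ^ (4 * j + 1))) /
      ∏ j ∈ range n, (1 - q ^ ((4 * t + 1) * n) * q ^ (4 * j + 3)) := by
    rw [← prod_div_distrib]
    refine prod_congr rfl fun j _ => ?_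
    rw [rr, ← pow_add, ← pow_add]
    congr 3
    · rw [hn]; ring
    · rw [hn]; ring
  rw [e1, ← mul_prod_erase (range n) (fun j => 1 - q ^ ((4 * t + 1) * n) * q ^ (4 * j + 1))
    (mem_range.2 (show κ < n by omega)), ← mul_prod_erase (range n)
    (fun j => 1 - q ^ ((4 * t + 1) * n) * q ^ (4 * j + 3))
    (mem_range.2 (show 3 * κ < n by omega)), mul_div_mul_comm]
  congr 1
  rw [rr, ← pow_add, ← pow_add, ← pow_mul, ← pow_mul]
  congr 3
  · rw [hn]; ring
  · rw [hn]; ring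

theorem block_rr_all {κ : ℕ} (hκ : 0 < κ) (l : ℕ) :
    ∃ β, I (4 * κ + 1) 2 (β - 1) ∧ β ∈ R (4 * κ + 1) ∧
      ∏ j ∈ range (l * (4 * κ + 1)), rr q (κ + j) =
        (∏ t ∈ range l, rr (q ^ (4 * κ + 1)) t) * β := by
  induction l with
  | zero => exact ⟨1, by rw [sub_self]; exact I.zero, one_mem _, by simp⟩
  | succ l ih =>
    obtain ⟨β, h1, h2, h3⟩ := ih
    obtain ⟨β', h1', h2', h3'⟩ := block_rr hκ l
    refine ⟨β * β', ?_, mul_mem h2 h2', ?_⟩
    · have := I.mul_congr h1 h1' (one_mem _) h2'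
      rwa [mul_one] at this
    · rw [add_mul, one_mul, prod_range_add, h3, h3', prod_range_succ]
      ring

theorem rr_mem {κ : ℕ} (hn : n = 4 * κ + 1) : ∏ i ∈ range κ, rr q i ∈ R n := by
  refine prod_mem fun i hi => ?_
  have hi := mem_range.1 hi
  rw [rr, div_eq_mul_inv]
  exact mul_mem (sub_mem (one_mem _) (pow_mem q_mem _))
    (one_sub_U (by omega) (fun hd => by have := Nat.le_of_dvd (by omega) hd; omega)).2.2

theorem rr_pow_mem (hn : 0 < n) (t : ℕ) : rr (q ^ n) t ∈ R n := by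
  have h0 := one_sub_ne hn
  rw [rr, ← pow_mul, ← pow_mul, mul_comm n, mul_comm n]
  have : (1 - q ^ ((4 * t + 2) * n)) / (1 - q ^ ((4 * t + 4) * n)) =
      ((1 - q ^ ((4 * t + 2) * n)) / (1 - q ^ n)) /
        ((1 - q ^ ((4 * t + 4) * n)) / (1 - q ^ n)) := by
    rw [div_div_div_cancel_right₀ h0]
  rw [this]
  exact ((geom_U_nat hn (by omega)).div (geom_U_nat hn (by omega))).2.1

/-! ### tails -/

variable {a b : ℕ → ℕ} {d : RatFunc ℚ → RatFunc ℚ} {M : ℕ}

theorem Hyp.single_tail (H : Hyp a b d n M) (l : ℕ) {i : ℕ} (hi : M < i) (hin : i < n) :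
    I n 1 (∏ u ∈ range (l * n + i), (1 - q ^ a u) / (1 - q ^ b u)) := by
  have hn := H.hn
  have hMn := H.hM
  have ub : ∀ l i, i < n - 1 → (1 - q ^ b (l * n + i))⁻¹ ∈ R n := by
    intro l i hi
    exact (one_sub_U hn (H.hb' l i (by omega) (by omega))).2.2
  have ma : ∀ i, (1 - q ^ a i) ∈ R n := fun i => sub_mem (one_mem _) (pow_mem q_mem _)
  rw [prod_range_add]
  refine I.R_mul (H.single (l * n)) ?_
  rw [← mul_prod_erase (range i) _ (mem_range.2 hi)]
  refine I.mul_R ?_ (prod_mem fun u hu => ?_)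
  · rw [div_eq_mul_inv, H.ha]
    exact (I_one_sub_nat hn (dvd_mul_left _ _)).mul_R (ub _ _ (by omega))
  · have := mem_range.1 (mem_of_mem_erase hu)
    rw [div_eq_mul_inv]
    exact mul_mem (ma _) (ub _ _ (by omega))

end

end V11307.Q
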