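import Pool.Agent.V11307.QEv
import Pool.Agent.V11307.QHead2
import Pool.Agent.V11307.QThird

/-!
`∑_{k<K} (-1)^k (4k+1) (1/2)_k³/k!³ ≡ (-1)^{(p^r-1)/2} p^r (mod p^{r+2})`, `K = (p^r+1)/2, p^r`.
-/

open Polynomial Finset V11307.WZ

namespace V11307.Q

noncomputable section

namespace B2

/-- `(q;q²)_k/(q²;q²)_k` -/
def π (k : ℕ) : RatFunc ℚ := ∏ u ∈ range k, (1 - q ^ (2 * u + 1)) / (1 - q ^ (2 * u + 2))

def W (k : ℕ) : RatFunc ℚ := (-1) ^ k * (1 - q ^ (4 * k + 1)) * q ^ (k ^ 2) * π k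

def w (k : ℕ) : RatFunc ℚ := (-1) ^ k * (1 - q ^ (4 * k + 1)) * q ^ (k ^ 2)

/-- the summand, times `1 - q` -/
def T (k : ℕ) : RatFunc ℚ := (-1) ^ k * (1 - q ^ (4 * k + 1)) * q ^ (k ^ 2) * π k ^ 3

theorem prod_rho_two (k : ℕ) : ∏ u ∈ range k, rho (fun i => 2 * i + 1) (fun i => 2 * i + 2) id 2 u = π k ^ 2 := by
  rw [π, ← prod_pow]
  refine prod_congr rfl fun u _ => ?_
  simp only [rho, f_two, id]
  rw [div_pow]

theorem T_eq (k : ℕ) : T k = W k * ∏ u ∈ range k, rho (fun i => 2 * i + 1) (fun i => 2 * i + 2) id 2 u := by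
  rw [prod_rho_two, T, W]; ring

variable {n M : ℕ}

theorem zh (hn : n = 2 * M + 1) (hM : 0 < M) : ZH n M (fun e => 1 - q ^ e) (-1) 1 where
  hn := hn
  hM := hM
  hη := Or.inr rfl
  hm e := sub_mem (one_mem _) (pow_mem q_mem _)
  hU e h := one_sub_U (by omega) h
  hc e e' h := by
    have := (qpow_congr (n := n) (by omega) h).neg
    convert this using 1
    ring
  hr e he := by
    have hn0 : 0 < n := by omega
    have e0 : q ^ (-(e : ℤ)) * q ^ e = 1 := by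
      rw [zpow_neg, zpow_natCast, inv_mul_cancel₀ (pow_ne_zero _ q_ne)]
    have e1 : q ^ (n - e) = q ^ (-(e : ℤ)) * q ^ n := by
      have : q ^ (n - e) * q ^ e = q ^ n := by rw [← pow_add]; congr 1; omega
      rw [← this]
      linear_combination -(q ^ (n - e)) * e0
    have h1 := I.R_mul (zpow_mem' hn0 (-(e : ℤ))) (I_one_sub_nat hn0 (dvd_refl n))
    convert h1 using 1
    rw [e1, one_mul]
    linear_combination -e0

theorem weights (hn : n = 2 * M + 1) (i : ℕ) (hi : i ≤ M) :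
    I n 1 (w (M - i) * ((-1) ^ M * q ^ (-((1 + 2) * (M : ℤ) * (M + 1)) + (1 + 2) * i)) + w i) := by
  have hn0 : 0 < n := by omega
  have hm : ∀ e, 1 - q ^ e ∈ R n := fun e => sub_mem (one_mem _) (pow_mem q_mem _)
  have e4 : (-1 : RatFunc ℚ) ^ (M - i) * (-1) ^ M = (-1) ^ i := by
    rw [← pow_add, show M - i + M = 2 * (M - i) + i by omega, pow_add, pow_mul]; simp
  have e1 : q ^ (4 * (M - i) + 1) = q ^ (-(4 * (i : ℤ) + 1)) * q ^ (2 * n) := by
    rw [← zpow_natCast, ← zpow_natCast, ← zpow_add₀ q_ne]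
    congr 1
    push_cast [Nat.cast_sub hi]
    rw [hn]; push_cast; ring
  have e2 : q ^ (-(4 * (i : ℤ) + 1)) * q ^ (4 * i + 1) = 1 := by
    rw [← zpow_natCast, ← zpow_add₀ q_ne]
    push_cast
    rw [neg_add_cancel, zpow_zero]
  have e5 : q ^ (-(4 * (i : ℤ) + 1)) * q ^ ((M - i) ^ 2) * q ^ (-((1 + 2) * (M : ℤ) * (M + 1)) + (1 + 2) * i) =
      q ^ (i ^ 2) * q ^ (-(((i : ℤ) + M + 1) * n)) := by
    rw [← zpow_natCast q ((M - i) ^ 2), ← zpow_natCast q (i ^ 2), ← zpow_add₀ q_ne, ← zpow_add₀ q_ne,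
      ← zpow_add₀ q_ne]
    congr 1
    push_cast [Nat.cast_sub hi]
    rw [hn]; push_cast; ring
  have j1 := I_one_sub hn0 (e := -(((i : ℤ) + M + 1) * n)) (dvd_neg.2 (dvd_mul_left _ _))
  have j2 := I_one_sub_nat hn0 (e := 2 * n) (dvd_mul_left _ _)
  have m1 : (-1 : RatFunc ℚ) ^ i * (1 - q ^ (4 * i + 1)) * q ^ (i ^ 2) ∈ R n :=
    mul_mem (mul_mem (pow_mem (neg_mem (one_mem _)) _) (hm _)) (pow_mem q_mem _)
  have m2 : (-1 : RatFunc ℚ) ^ i * (q ^ (-(4 * (i : ℤ) + 1)) * q ^ ((M - i) ^ 2) *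
      q ^ (-((1 + 2) * (M : ℤ) * (M + 1)) + (1 + 2) * i)) ∈ R n :=
    mul_mem (pow_mem (neg_mem (one_mem _)) _) (mul_mem (mul_mem (zpow_mem' hn0 _) (pow_mem q_mem _))
      (zpow_mem' hn0 _))
  have j3 := (I.R_mul m1 j1).add (I.R_mul m2 j2)
  convert j3 using 1
  rw [w, w, e1]
  linear_combination ((1 - q ^ (-(4 * (i : ℤ) + 1)) * q ^ (2 * n)) * q ^ ((M - i) ^ 2) *
    q ^ (-((1 + 2) * (M : ℤ) * (M + 1)) + (1 + 2) * i)) * e4 +
    ((-1) ^ i * q ^ ((M - i) ^ 2) *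
    q ^ (-((1 + 2) * (M : ℤ) * (M + 1)) + (1 + 2) * i)) * e2 * (-1 : RatFunc ℚ) -
    ((-1) ^ i * (1 - q ^ (4 * i + 1))) * e5

theorem w_mem (i : ℕ) : w i ∈ R n :=
  mul_mem (mul_mem (pow_mem (neg_mem (one_mem _)) _) (sub_mem (one_mem _) (pow_mem q_mem _)))
    (pow_mem q_mem _)

theorem W_mem (hn : n = 2 * M + 1) (hM : 0 < M) (k : ℕ) : W k ∈ R n := by
  have H := hyp21 M hM (d := id) (Or.inl fun _ => rfl)
  rw [← hn] at H
  exact mul_mem (w_mem k) (H.single k)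

theorem split (t : RatFunc ℚ) (l n i : ℕ) :
    W (l * n + i) * ∏ u ∈ range i, rho (fun i => 2 * i + 1) (fun i => 2 * i + 2) id t (l * n + u) =
    ((-1) ^ (l * n) * q ^ ((l * n) ^ 2) * π (l * n)) *
      (((-1) ^ i * (1 - q ^ (4 * (l * n + i) + 1)) * q ^ (i ^ 2) * q ^ (2 * l * i * n)) *
        ∏ u ∈ range i, rz (fun e => 1 - q ^ e) t (l * n + u)) := by
  have e2 : ∏ u ∈ range i, rz (fun e => 1 - q ^ e) t (l * n + u) =
      (∏ u ∈ range i, (1 - q ^ (2 * (l * n + u) + 1)) / (1 - q ^ (2 * (l * n + u) + 2))) *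
        ∏ u ∈ range i, rho (fun i => 2 * i + 1) (fun i => 2 * i + 2) id t (l * n + u) := by
    rw [← prod_mul_distrib]
    refine prod_congr rfl fun u _ => ?_
    simp only [rho, id, rz, Zd]
    rw [div_mul_div_comm]
  have e3 : q ^ ((l * n + i) ^ 2) = q ^ ((l * n) ^ 2) * q ^ (i ^ 2) * q ^ (2 * l * i * n) := by
    rw [← pow_add, ← pow_add]; congr 1; ring
  rw [e2, W, e3, π, π, prod_range_add, pow_add (-1 : RatFunc ℚ)]
  ring

theorem blockI (hn : n = 2 * M + 1) (hM : 0 < M) {s : RatFunc ℚ} (hs : I n 2 (s - 2)) (l : ℕ) :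
    J n 1 (∑ i ∈ range (M + 1), W (l * n + i) *
      ∏ u ∈ range i, rho (fun i => 2 * i + 1) (fun i => 2 * i + 2) id s (l * n + u))
      (∑ i ∈ range (M + 1), W (l * n + i) *
      ∏ u ∈ range i, rho (fun i => 2 * i + 1) (fun i => 2 * i + 2) id 2 (l * n + u)) := by
  have hn0 : 0 < n := by omega
  have H := hyp21 M hM (d := id) (Or.inl fun _ => rfl)
  rw [← hn] at H
  simp only [split]
  rw [← mul_sum, ← mul_sum]
  have h1 := (zh hn hM).blockJ hs w (fun i _ => w_mem i) (weights hn) l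
    (fun i => (-1) ^ i * (1 - q ^ (4 * (l * n + i) + 1)) * q ^ (i ^ 2) * q ^ (2 * l * i * n)) (by
      intro i _
      have h6 : 4 * (l * n + i) + 1 ≡ 4 * i + 1 [MOD n] := by
        have := (Nat.modEq_zero_iff_dvd).2 (dvd_mul_left n (4 * l))
        have h7 := this.add_right (4 * i + 1)
        rw [zero_add] at h7
        have h8 : 4 * (l * n + i) + 1 = 4 * l * n + (4 * i + 1) := by ring
        rw [h8]; exact h7
      have a1 : (-1 : RatFunc ℚ) ^ i ∈ R n := pow_mem (neg_mem (one_mem _)) _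
      have a2 : (-1 : RatFunc ℚ) ^ i * (1 - q ^ (4 * i + 1)) * q ^ (i ^ 2) ∈ R n := w_mem i
      have h7 := (qpow_congr hn0 h6).neg.mul_R (mul_mem (mul_mem a1 (pow_mem q_mem (i ^ 2)))
        (pow_mem q_mem (2 * l * i * n)))
      have h8 := (I.R_mul a2 (I_one_sub_nat hn0 (e := 2 * l * i * n) (dvd_mul_left _ _))).neg
      have h9 := h7.add h8
      convert h9 using 1
      rw [w]
      ring)
  have h2 := J.mul (J0_R (n := n) (x := (-1) ^ (l * n) * q ^ ((l * n) ^ 2) * π (l * n))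
    (mul_mem (mul_mem (pow_mem (neg_mem (one_mem _)) _) (pow_mem q_mem _)) (H.single _))) h1
  exact h2

/-- modulo `Φ_n`, for the ranges `m n` and `m n + (n+1)/2` -/
theorem plainI (hn : n = 2 * M + 1) (hM : 0 < M) (m : ℕ) :
    I n 1 (∑ k ∈ range (m * n), T k) ∧ I n 1 (∑ k ∈ range (m * n + (M + 1)), T k) := by
  have hz : I n 2 ((2 : RatFunc ℚ) - 2) := by rw [sub_self]; exact I.zero
  have H := hyp21 M hM (d := id) (Or.inl fun _ => rfl)
  rw [← hn] at H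
  simp only [T_eq]
  exact H.plain W (W_mem hn hM) (fun l => (blockI hn hM hz l).1) m

/-- modulo `Φ_n³` -/
theorem cubeI (hn : n = 2 * M + 1) (hM : 0 < M) :
    I n 3 (∑ k ∈ range (M + 1), T k - (-1) ^ M * q ^ (M ^ 2) * (1 - q ^ n)) ∧
    I n 3 (∑ k ∈ range n, T k - (-1) ^ M * q ^ (M ^ 2) * (1 - q ^ n)) := by
  have hn0 : 0 < n := by omega
  have hs : I n 2 (sv (1 * n) - 2) := sv_two hn0 (by rw [one_mul])
  rw [one_mul] at hs
  have h1 := (blockI hn hM hs 0).2.2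
  simp only [zero_mul, zero_add] at h1
  have h2 : ∑ k ∈ range (M + 1), W k *
      ∏ u ∈ range k, rho (fun i => 2 * i + 1) (fun i => 2 * i + 2) id (sv n) u =
        (-1) ^ M * q ^ (M ^ 2) * (1 - q ^ n) := by
    rw [hn, ← cf1 q_ne q_ne_one' M]
    rfl
  rw [h2] at h1
  simp only [← T_eq] at h1
  have h3 := I.symm h1
  refine ⟨h3, ?_⟩
  have H := hyp21 M hM (d := id) (Or.inl fun _ => rfl)
  rw [← hn] at H
  have h4 : ∑ k ∈ range n, T k = ∑ k ∈ range (M + 1), T k + ∑ i ∈ range (n - (M + 1)), T (M + 1 + i) := by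
    conv_lhs => rw [show n = M + 1 + (n - (M + 1)) by omega]
    rw [sum_range_add]
  have h5 : I n 3 (∑ i ∈ range (n - (M + 1)), T (M + 1 + i)) := by
    refine I.sum fun i hi => ?_
    have hi := mem_range.1 hi
    have h6 := H.single_tail 0 (i := M + 1 + i) (by omega) (by omega)
    rw [zero_mul, zero_add] at h6
    have h7 := (h6.mul h6).mul h6
    rw [T, π]
    have := I.R_mul (w_mem (n := n) (M + 1 + i)) h7
    convert this using 1
    rw [w]; ring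
  have h6 := h3.add h5
  rw [h4]
  convert h6 using 1
  ring

end B2

end

end V11307.Q
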