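import Mathlib

/-!
`D p N c`: the rational `c` is `p^N u/v` with `p ∤ v`.
-/

open Finset

namespace V11307.PA

def D (p N : ℕ) (c : ℚ) : Prop := ∃ u v : ℤ, ¬ (p : ℤ) ∣ v ∧ c = (p : ℚ) ^ N * ((u : ℚ) / v)

variable {p N M : ℕ} {c d : ℚ}

theorem ne_of_not_dvd {v : ℤ} (h : ¬ (p : ℤ) ∣ v) : (v : ℚ) ≠ 0 := by
  intro h0
  apply h
  have : v = 0 := by exact_mod_cast h0
  rw [this]; exact dvd_zero _

theorem D.mul (hp : p.Prime) (h1 : D p N c) (h2 : D p M d) : D p (N + M) (c * d) := by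
  obtain ⟨u, v, hv, rfl⟩ := h1
  obtain ⟨u', v', hv', rfl⟩ := h2
  refine ⟨u * u', v * v', fun h => ((Nat.prime_iff_prime_int.1 hp).dvd_or_dvd h).elim hv hv', ?_⟩
  have := ne_of_not_dvd hv
  have := ne_of_not_dvd hv'
  push_cast
  rw [pow_add]
  field_simp

theorem D.add (hp : p.Prime) (h1 : D p N c) (h2 : D p N d) : D p N (c + d) := by
  obtain ⟨u, v, hv, rfl⟩ := h1
  obtain ⟨u', v', hv', rfl⟩ := h2
  refine ⟨u * v' + u' * v, v * v', fun h => ((Nat.prime_iff_prime_int.1 hp).dvd_or_dvd h).elim hv hv', ?_⟩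
  have := ne_of_not_dvd hv
  have := ne_of_not_dvd hv'
  push_cast
  field_simp

theorem D.neg (h1 : D p N c) : D p N (-c) := by
  obtain ⟨u, v, hv, rfl⟩ := h1
  refine ⟨-u, v, hv, ?_⟩
  push_cast
  ring

theorem D.sub (hp : p.Prime) (h1 : D p N c) (h2 : D p N d) : D p N (c - d) := by
  rw [sub_eq_add_neg]; exact h1.add hp h2.neg

theorem D.int (hp : p.Prime) (a : ℤ) : D p 0 a := ⟨a, 1, fun h =>
  (Nat.prime_iff_prime_int.1 hp).not_isUnit (isUnit_of_dvd_one h), by simp⟩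

theorem D.zero (hp : p.Prime) : D p N 0 := ⟨0, 1, fun h =>
  (Nat.prime_iff_prime_int.1 hp).not_isUnit (isUnit_of_dvd_one h), by simp⟩

theorem D.ppow (hp : p.Prime) (r : ℕ) : D p r ((p : ℚ) ^ r) := ⟨1, 1, fun h =>
  (Nat.prime_iff_prime_int.1 hp).not_isUnit (isUnit_of_dvd_one h), by simp⟩

theorem D.mono (h : M ≤ N) (h1 : D p N c) : D p M c := by
  obtain ⟨u, v, hv, rfl⟩ := h1
  refine ⟨(p : ℤ) ^ (N - M) * u, v, hv, ?_⟩
  push_cast
  rw [mul_div_assoc, ← mul_assoc, ← pow_add]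
  congr 2
  omega

theorem D.pow (hp : p.Prime) (h1 : D p N c) (k : ℕ) : D p (k * N) (c ^ k) := by
  induction k with
  | zero => simpa using D.int hp 1
  | succ k ih =>
    rw [pow_succ, add_mul, one_mul]
    exact ih.mul hp h1

theorem D.int_mul (hp : p.Prime) (a : ℤ) (h1 : D p N c) : D p N (a * c) := by
  have := (D.int hp a).mul hp h1
  rwa [zero_add] at this

theorem D.sum (hp : p.Prime) {ι : Type*} {s : Finset ι} {F : ι → ℚ} (h : ∀ i ∈ s, D p N (F i)) :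
    D p N (∑ i ∈ s, F i) := by
  classical
  induction s using Finset.induction_on with
  | empty => simpa using D.zero hp
  | insert a s ha ih =>
    rw [sum_insert ha]
    exact (h a (mem_insert_self _ _)).add hp (ih fun i hi => h i (mem_insert_of_mem hi))

theorem D.inv_two_pow (hp : p.Prime) (hp2 : p ≠ 2) (k : ℕ) : D p 0 (((2 : ℚ) ^ k)⁻¹) := by
  refine ⟨1, 2 ^ k, ?_, by simp⟩
  intro h
  have h1 := (Nat.prime_iff_prime_int.1 hp).dvd_of_dvd_pow h
  have h4 : p ∣ 2 := by exact_mod_cast h1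
  exact hp2 ((Nat.prime_dvd_prime_iff_eq hp Nat.prime_two).1 h4)

end V11307.PA
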