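import Pool.Agent.V11307.B2
import Pool.Agent.V11307.PAdic

/-!
The `p`-adic form of `B2`.
-/

open Polynomial Finset V11307.PA

namespace V11307.Q

noncomputable section

namespace B2

/-- `(1/2)_k/k!` -/
def y (k : ℕ) : ℚ := ∏ u ∈ range k, ((2 * u + 1 : ℚ) / (2 * u + 2))

theorem icc_sum (r : ℕ) (hr : 1 ≤ r) : ∑ i ∈ Icc 1 r, (if i < r then 1 else 3) = r + 2 := by
  obtain ⟨s, rfl⟩ : ∃ s, r = s + 1 := ⟨r - 1, by omega⟩
  rw [Finset.sum_Icc_succ_top (by omega), if_neg (by omega)]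
  have : ∑ i ∈ Icc 1 s, (if i < s + 1 then 1 else 3) = ∑ i ∈ Icc 1 s, 1 := by
    refine sum_congr rfl fun i hi => ?_
    rw [mem_Icc] at hi
    rw [if_pos (by omega)]
  rw [this]
  simp

theorem ev_T {p : ℕ} (hp : p.Prime) (hp2 : p ≠ 2) (K M n : ℕ) :
    Ev p ((1 - q)⁻¹ * (∑ k ∈ range K, T k - (-1) ^ M * q ^ (M ^ 2) * (1 - q ^ n)))
      (∑ k ∈ range K, (-1) ^ k * (4 * k + 1) * y k ^ 3 - (-1) ^ M * n) := by
  have h0 : (1 : RatFunc ℚ) - q ≠ 0 := by
    have := one_sub_ne (k := 1) one_pos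
    rwa [pow_one] at this
  have hgeo : ∀ N : ℕ, Ev p ((1 - q)⁻¹ * (1 - q ^ N)) N := by
    intro N
    have h1 : (1 - q)⁻¹ * (1 - q ^ N) = ∑ i ∈ range N, q ^ i := by
      rw [← geom_sum_mul_neg q N, mul_comm, mul_assoc, mul_inv_cancel₀ h0, mul_one]
    rw [h1]
    have h2 := Ev.sum hp (s := range N) (F := fun i => q ^ i) (G := fun _ => 1)
      (fun i _ => by simpa using (Ev.q hp).pow hp i)
    simpa using h2
  have hm1 : ∀ k, Ev p ((-1) ^ k) ((-1) ^ k) := fun k => (Ev.one hp).neg.pow hp k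
  have h1 : (1 - q)⁻¹ * (∑ k ∈ range K, T k - (-1) ^ M * q ^ (M ^ 2) * (1 - q ^ n)) =
      ∑ k ∈ range K, (-1) ^ k * ((1 - q)⁻¹ * (1 - q ^ (4 * k + 1))) * q ^ (k ^ 2) * π k ^ 3 -
        (-1) ^ M * q ^ (M ^ 2) * ((1 - q)⁻¹ * (1 - q ^ n)) := by
    rw [mul_sub, mul_sum]
    congr 1
    · refine sum_congr rfl fun k _ => ?_
      rw [T]; ring
    · ring
  rw [h1]
  refine Ev.sub hp (Ev.sum hp fun k _ => ?_) ?_
  · have h2 := (((hm1 k).mul hp (hgeo (4 * k + 1))).mul hp ((Ev.q hp).pow hp (k ^ 2))).mul hp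
      ((Ev.half hp hp2 k).pow hp 3)
    convert h2 using 1
    · simp only [π]
    · simp only [y]; push_cast; ring
  · have h2 := ((hm1 M).mul hp ((Ev.q hp).pow hp (M ^ 2))).mul hp (hgeo n)
    convert h2 using 1
    rw [one_pow, mul_one]

theorem b2 {p r : ℕ} (hp : p.Prime) (hp2 : p ≠ 2) (hr : 1 ≤ r) :
    D p (r + 2) (∑ k ∈ range ((p ^ r - 1) / 2 + 1), (-1) ^ k * (4 * k + 1) * y k ^ 3 -
      (-1) ^ ((p ^ r - 1) / 2) * (p : ℚ) ^ r) ∧
    D p (r + 2) (∑ k ∈ range (p ^ r), (-1) ^ k * (4 * k + 1) * y k ^ 3 -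
      (-1) ^ ((p ^ r - 1) / 2) * (p : ℚ) ^ r) := by
  have hodd : Odd p := hp.odd_of_ne_two hp2
  obtain ⟨M, hM⟩ := hodd.pow (n := r)
  have hp3 : 3 ≤ p := by
    have := hp.two_le; omega
  have hbig : ∀ i, 1 ≤ i → 3 ≤ p ^ i := by
    intro i hi
    calc 3 ≤ p := hp3
      _ = p ^ 1 := (pow_one p).symm
      _ ≤ p ^ i := Nat.pow_le_pow_right hp.pos hi
  have hM0 : 0 < M := by have := hbig r hr; omega
  have hMe : (p ^ r - 1) / 2 = M := by omega
  rw [hMe]
  have hU : ∀ i, 1 ≤ i → (1 - q)⁻¹ ∈ R (p ^ i) := by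
    intro i hi
    have := inv_one_sub (n := p ^ i) (k := 1) (Nat.pow_pos hp.pos) (fun hd => by
      have := Nat.le_of_dvd one_pos hd; have := hbig i hi; omega)
    rwa [pow_one] at this
  -- local data at `p^i`
  have hloc : ∀ i, 1 ≤ i → i < r → I (p ^ i) 1 (∑ k ∈ range (M + 1), T k) ∧
      I (p ^ i) 1 (∑ k ∈ range (p ^ r), T k) ∧ I (p ^ i) 1 (1 - q ^ (p ^ r)) := by
    intro i hi hir
    obtain ⟨Mi, hMi⟩ := hodd.pow (n := i)
    obtain ⟨τ, hτ⟩ := hodd.pow (n := r - i)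
    have hprod : p ^ r = p ^ (r - i) * p ^ i := by rw [← pow_add]; congr 1; omega
    have hMi0 : 0 < Mi := by have := hbig i hi; omega
    refine ⟨?_, ?_, ?_⟩
    · have h1 := (plainI hMi hMi0 τ).2
      have h2 : τ * p ^ i + (Mi + 1) = M + 1 := by
        have h3 : 2 * M + 1 = (2 * τ + 1) * p ^ i := by rw [← hτ, ← hM, hprod]
        have h4 : (2 * τ + 1) * p ^ i = 2 * (τ * p ^ i) + p ^ i := by ring
        omega
      rwa [h2] at h1
    · have h1 := (plainI hMi hMi0 (p ^ (r - i))).1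
      rwa [← hprod] at h1
    · exact I_one_sub_nat (Nat.pow_pos hp.pos) (pow_dvd_pow p hir.le)
  have hcube := cubeI hM hM0
  have hc : ∀ i, (-1) ^ M * q ^ (M ^ 2) ∈ R (p ^ i) := fun i =>
    mul_mem (pow_mem (neg_mem (one_mem _)) _) (pow_mem q_mem _)
  have hcast : ((p ^ r : ℕ) : ℚ) = (p : ℚ) ^ r := by push_cast; rfl
  constructor
  · have h1 := (ev_T hp hp2 (M + 1) M (p ^ r)).val hp (r := r) (fun i => if i < r then 1 else 3) (by
      intro i hi hir
      rcases Nat.lt_or_ge i r with h | h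
      · simp only [if_pos h]
        obtain ⟨a1, _, a3⟩ := hloc i hi h
        exact I.R_mul (hU i hi) (a1.sub (I.R_mul (hc i) a3))
      · obtain rfl : i = r := by omega
        simp only [lt_irrefl, if_false]
        exact I.R_mul (hU i hi) hcube.1)
    rw [icc_sum r hr, hcast] at h1
    exact h1
  · have h1 := (ev_T hp hp2 (p ^ r) M (p ^ r)).val hp (r := r) (fun i => if i < r then 1 else 3) (by
      intro i hi hir
      rcases Nat.lt_or_ge i r with h | h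
      · simp only [if_pos h]
        obtain ⟨_, a2, a3⟩ := hloc i hi h
        exact I.R_mul (hU i hi) (a2.sub (I.R_mul (hc i) a3))
      · obtain rfl : i = r := by omega
        simp only [lt_irrefl, if_false]
        exact I.R_mul (hU i hi) hcube.2)
    rw [icc_sum r hr, hcast] at h1
    exact h1

end B2

end

end V11307.Q
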