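import Pool.Agent.V11307.QWZ

/-!
Closed forms of the deformed sums.
-/

open Finset

namespace V11307.WZ

variable {F : Type*} [Field F]

/-- `1 - s g^e + g^{2e}` -/
def ffg (g s : F) (e : ℕ) : F := 1 - s * g ^ e + g ^ (2 * e)

/-- `g^N + g^{-N}` -/
def svg (g : F) (N : ℕ) : F := g ^ N + (g ^ N)⁻¹

theorem ffg_svg {g : F} (hg : g ≠ 0) (N e : ℕ) :
    ffg g (svg g N) e = (1 - g ^ (e + N)) * (1 - g ^ e * (g ^ N)⁻¹) := by
  have h := pow_ne_zero N hg
  rw [ffg, svg, pow_add, mul_comm 2 e, pow_mul]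
  field_simp
  ring

theorem poch_eq (g : F) (c h : ℕ) (k : ℕ) : ∏ u ∈ range k, (1 - g ^ (h * u + c)) = poch (g ^ c) (g ^ h) k := by
  rw [poch]
  refine prod_congr rfl fun u _ => ?_
  rw [← pow_mul, pow_add, mul_comm]

theorem poch_eq' (g z : F) (c h : ℕ) (k : ℕ) :
    ∏ u ∈ range k, (1 - g ^ (h * u + c) * z) = poch (g ^ c * z) (g ^ h) k := by
  rw [poch]
  refine prod_congr rfl fun u _ => ?_
  rw [← pow_mul, pow_add]; ring

theorem pd_zero (Q : F) (k : ℕ) : pd 0 Q k = (-1) ^ k * Q ^ (k * (k - 1) / 2) := by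
  induction k with
  | zero => simp [pd]
  | succ k ih =>
    rw [pd_succ, ih]
    have h1 : (k + 1) * (k + 1 - 1) / 2 = k * (k - 1) / 2 + k := by
      rcases k with _ | k
      · simp
      · have : (k + 1 + 1) * (k + 1 + 1 - 1) = (k + 1) * (k + 1 - 1) + 2 * (k + 1) := by
          simp; ring
        rw [this]; omega
    rw [h1, pow_succ, pow_add]
    ring

theorem poch_zero_left (Q : F) (k : ℕ) : poch (0 : F) Q k = 1 := by
  rw [poch]; simp

/-- `(g^{1-2M};g²)_M = (-1)^M g^{-M²} (g;g²)_M` -/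
theorem poch_neg_odd {g : F} (hg : g ≠ 0) (M : ℕ) :
    poch (g * (g ^ (2 * M))⁻¹) (g ^ 2) M * ((-1) ^ M * g ^ (M ^ 2)) = poch g (g ^ 2) M := by
  induction M with
  | zero => simp [poch]
  | succ M ih =>
    rw [poch_succ', poch_succ g]
    have e1 : g * (g ^ (2 * (M + 1)))⁻¹ * g ^ 2 = g * (g ^ (2 * M))⁻¹ := by
      rw [show 2 * (M + 1) = 2 * M + 2 by ring, pow_add]
      have := pow_ne_zero (2 * M) hg
      field_simp
    rw [e1, ← ih]
    have e2 : g ^ ((M + 1) ^ 2) = g ^ (M ^ 2) * g ^ (2 * M + 1) := by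
      rw [← pow_add]; congr 1; ring
    have e3 : (1 - g * (g ^ (2 * (M + 1)))⁻¹) * g ^ (2 * M + 1) = -(1 - g * (g ^ 2) ^ M) := by
      have h1 := pow_ne_zero (2 * (M + 1)) hg
      rw [← pow_mul]
      field_simp
      ring
    rw [e2, pow_succ (-1 : F)]
    linear_combination (-poch (g * (g ^ (2 * M))⁻¹) (g ^ 2) M * (-1) ^ M * g ^ (M ^ 2)) * e3

/-- closed form for `∑ (-1)^k [4k+1] q^{k²} ...` -/
theorem cf1 {g : F} (hg0 : g ≠ 0) (hg : ∀ j, 1 ≤ j → g ^ j ≠ 1) (M : ℕ) :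
    ∑ k ∈ range (M + 1), ((-1) ^ k * (1 - g ^ (4 * k + 1)) * g ^ (k ^ 2) *
      ∏ u ∈ range k, (1 - g ^ (2 * u + 1)) / (1 - g ^ (2 * u + 2))) *
      ∏ u ∈ range k, ffg g (svg g (2 * M + 1)) (2 * u + 1) / ffg g (svg g (2 * M + 1)) (2 * u + 2) =
    (-1) ^ M * g ^ (M ^ 2) * (1 - g ^ (2 * M + 1)) := by
  have hne : ∀ c d : ℕ, c ≠ d → g ^ c ≠ g ^ d := by
    have key : ∀ c d : ℕ, c < d → g ^ c ≠ g ^ d := by
      intro c d hcd h
      obtain ⟨e, rfl⟩ := Nat.exists_eq_add_of_lt hcd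
      apply hg (e + 1) (by omega)
      have : g ^ c * g ^ (e + 1) = g ^ c * 1 := by rw [← pow_add, mul_one]; exact h.symm
      exact mul_left_cancel₀ (pow_ne_zero c hg0) this
    intro c d hcd
    rcases lt_or_gt_of_ne hcd with h | h
    · exact key c d h
    · exact (key d c h).symm
  have hs := sum65 (Q := g ^ 2) (A := g) (b := g ^ (2 * M + 2)) (D := 0) (pow_ne_zero _ hg0)
    (pow_ne_zero _ hg0) (by intro j hj; rw [← pow_mul]; exact hg _ (by omega))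
    (by intro j hj; rw [← pow_mul, ← pow_succ']; exact hne _ _ (by omega))
    (by intro j hj; rw [← pow_mul, ← pow_succ']; exact hg _ (by omega))
    (by intro j hj; simp) M
  have hA : g * g ^ 2 / g ^ (2 * M + 2) = g * (g ^ (2 * M))⁻¹ := by
    rw [pow_add]
    have := pow_ne_zero (2 * M) hg0
    field_simp
  have hr : r65 (g ^ 2) g (g ^ (2 * M + 2)) 0 M = (-1) ^ M * g ^ (M ^ 2) * (1 - g ^ (2 * M + 1)) := by
    rw [r65, hA, mul_zero, zero_div, poch_zero_left, mul_one, mul_one]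
    have h1 : (1 - g) * poch (g * g ^ 2) (g ^ 2) M = poch g (g ^ 2) M * (1 - g ^ (2 * M + 1)) := by
      rw [← poch_succ', poch_succ, ← pow_mul, ← pow_succ']
    have h2 := poch_neg_odd hg0 M
    have h3 : poch (g * (g ^ (2 * M))⁻¹) (g ^ 2) M ≠ 0 := by
      intro h0
      rw [h0, zero_mul] at h2
      refine poch_ne g (g ^ 2) M (fun i _ => ?_) h2.symm
      rw [← pow_mul, ← pow_succ']; exact hg _ (by omega)
    rw [h1, ← h2]
    generalize poch (g * (g ^ (2 * M))⁻¹) (g ^ 2) M = z at *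
    field_simp
  rw [← hr, ← hs]
  refine sum_congr rfl fun k _ => ?_
  rw [t65]
  have hpd : pd (0 : F) (g ^ 2) k * (g * (g ^ 2) ^ (M + 1) / g ^ (2 * M + 2)) ^ k =
      (-1) ^ k * g ^ (k ^ 2) := by
    have : g * (g ^ 2) ^ (M + 1) / g ^ (2 * M + 2) = g := by
      rw [← pow_mul, show 2 * (M + 1) = 2 * M + 2 by ring]
      have := pow_ne_zero (2 * M + 2) hg0
      field_simp
    rw [this, pd_zero, ← pow_mul, mul_assoc, ← pow_add]
    congr 2
    rcases k with _ | k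
    · simp
    · have h3 : 2 * ((k + 1) * (k + 1 - 1) / 2) = (k + 1) * k := by
        have : Even ((k + 1) * k) := by
          rw [mul_comm]; exact Nat.even_mul_succ_self k
        simp only [Nat.add_sub_cancel]
        exact Nat.two_mul_div_two_of_even this
      rw [h3]; ring
  rw [prod_div_distrib, prod_div_distrib]
  simp only [ffg_svg hg0]
  rw [prod_mul_distrib, prod_mul_distrib]
  have p1 := poch_eq g 1 2 k
  have p2 := poch_eq g 2 2 k
  have p3 : ∏ u ∈ range k, (1 - g ^ (2 * u + 1 + (2 * M + 1))) = poch (g ^ (2 * M + 2)) (g ^ 2) k := by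
    rw [← poch_eq g (2 * M + 2) 2 k]
    exact prod_congr rfl fun u _ => by congr 2; ring
  have p4 : ∏ u ∈ range k, (1 - g ^ (2 * u + 2 + (2 * M + 1))) = poch (g * (g ^ 2) ^ (M + 1)) (g ^ 2) k := by
    have : g * (g ^ 2) ^ (M + 1) = g ^ (2 * M + 3) := by
      rw [← pow_mul, ← pow_succ']; congr 1
    rw [this, ← poch_eq g (2 * M + 3) 2 k]
    exact prod_congr rfl fun u _ => by congr 2; ring
  have p5 : ∏ u ∈ range k, (1 - g ^ (2 * u + 1) * (g ^ (2 * M + 1))⁻¹) =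
      poch ((g ^ 2) ^ M)⁻¹ (g ^ 2) k := by
    rw [poch_eq' g _ 1 2 k]
    congr 1
    rw [← pow_mul, pow_succ g (2 * M), pow_one]
    have := pow_ne_zero (2 * M) hg0
    field_simp
  have p6 : ∏ u ∈ range k, (1 - g ^ (2 * u + 2) * (g ^ (2 * M + 1))⁻¹) =
      poch (g * g ^ 2 / g ^ (2 * M + 2)) (g ^ 2) k := by
    rw [poch_eq' g _ 2 2 k, hA]
    congr 1
    rw [pow_succ g (2 * M)]
    have := pow_ne_zero (2 * M) hg0
    field_simp
  rw [p1, p2, p3, p4, p5, p6, pow_one, mul_zero, poch_zero_left, mul_one]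
  have e4 : g * (g ^ 2) ^ (2 * k) = g ^ (4 * k + 1) := by
    rw [← pow_mul, ← pow_succ']; congr 1; ring
  rw [e4]
  simp only [div_eq_mul_inv, mul_inv] at hpd ⊢
  linear_combination (-(1 - g ^ (4 * k + 1)) * poch g (g ^ 2) k * (poch (g ^ 2) (g ^ 2) k)⁻¹ *
    poch (g ^ (2 * M + 2)) (g ^ 2) k * poch ((g ^ 2) ^ M)⁻¹ (g ^ 2) k *
    (poch (g * (g ^ 2) ^ (M + 1)) (g ^ 2) k)⁻¹ *
    (poch (g * g ^ 2 * (g ^ (2 * M + 2))⁻¹) (g ^ 2) k)⁻¹) * hpd

end V11307.WZ
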