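import Pool.Agent.V11307.QBlock
import Pool.Agent.V11307.QClosed

/-!
Auxiliary facts to apply the block theorem.
-/

open Polynomial Finset

namespace V11307.Q

noncomputable section

variable {n k : ℕ} {x y x' y' : RatFunc ℚ}

open V11307.WZ

theorem f_eq (s : RatFunc ℚ) (e : ℕ) : f s e = ffg q s e := rfl

theorem f_eq_mul (s : RatFunc ℚ) (e n : ℕ) : f s (e * n) = ffg (q ^ n) s e := by
  rw [f, ffg, ← pow_mul, ← pow_mul]
  congr 2
  · congr 2; ring
  · ring

theorem sv_eq (N : ℕ) : sv N = svg q N := rfl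

theorem sv_eq_mul (N n : ℕ) : sv (N * n) = svg (q ^ n) N := by
  rw [sv, svg, ← pow_mul, mul_comm]

theorem q_pow_ne_one {n : ℕ} (hn : 0 < n) : ∀ j, 1 ≤ j → (q ^ n) ^ j ≠ 1 := by
  intro j hj h
  rw [← pow_mul] at h
  exact one_sub_ne (Nat.mul_pos hn hj) (by rw [h, sub_self])

theorem q_ne_one' : ∀ j, 1 ≤ j → q ^ j ≠ 1 := by
  intro j hj h
  exact one_sub_ne hj (by rw [h, sub_self])

theorem I_one_sub_nat (hn : 0 < n) {e : ℕ} (h : n ∣ e) : I n 1 (1 - q ^ e) := by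
  have := I_one_sub hn (e := (e : ℤ)) (by exact_mod_cast h)
  rwa [zpow_natCast] at this

/-- `[e]_{q^n} ≡ e` mod `Φ_n`. -/
theorem geom_cong (hn : 0 < n) (e : ℕ) : I n 1 ((1 - q ^ (e * n)) / (1 - q ^ n) - e) := by
  have h1 : (1 - q ^ (e * n)) / (1 - q ^ n) = ∑ i ∈ range e, q ^ (n * i) := by
    rw [div_eq_iff (one_sub_ne hn)]
    have := (geom_sum_mul_neg (q ^ n) e)
    simp only [← pow_mul] at this
    rw [mul_comm e n, ← this]
  have h2 : (1 - q ^ (e * n)) / (1 - q ^ n) - e = ∑ i ∈ range e, -(1 - q ^ (n * i)) := by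
    rw [h1]; simp
  rw [h2]
  exact I.sum fun i _ => (I_one_sub_nat hn (dvd_mul_right _ _)).neg

theorem natCast_U (hn : 0 < n) {e : ℕ} (he : e ≠ 0) : IsU n (e : RatFunc ℚ) :=
  (geom_U_nat hn he).congr hn (I.symm (geom_cong hn e))

/-- `(1-q^{an})/(1-q^{bn}) ≡ a/b`. -/
theorem ratio_cong (hn : 0 < n) (a : ℕ) {b : ℕ} (hb : b ≠ 0) :
    I n 1 ((1 - q ^ (a * n)) / (1 - q ^ (b * n)) - a / b) := by
  have h0 := one_sub_ne hn
  have h1 : (1 - q ^ (a * n)) / (1 - q ^ (b * n)) =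
      ((1 - q ^ (a * n)) / (1 - q ^ n)) / ((1 - q ^ (b * n)) / (1 - q ^ n)) := by
    rw [div_div_div_cancel_right₀ h0]
  rw [h1]
  exact I.div_congr (geom_cong hn a) (natCast_mem _ _) (geom_U_nat hn hb) (natCast_U hn hb)
    (geom_cong hn b)

variable {a b : ℕ → ℕ} {d : RatFunc ℚ → RatFunc ℚ} {M : ℕ}

/-- `∏ (1-q^{a i})/(1-q^{b i})` is integral at `Φ_n`. -/
theorem Hyp.single (H : Hyp a b d n M) (k : ℕ) :
    ∏ i ∈ range k, (1 - q ^ a i) / (1 - q ^ b i) ∈ R n := by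
  have hn := H.hn
  have hMn := H.hM
  set σ : ℕ → RatFunc ℚ := fun i => (1 - q ^ a i) / (1 - q ^ b i) with hσ
  have ub : ∀ l i, i < n - 1 → (1 - q ^ b (l * n + i))⁻¹ ∈ R n := by
    intro l i hi
    exact (one_sub_U hn (H.hb' l i (by omega) (by omega))).2.2
  have ma : ∀ i, (1 - q ^ a i) ∈ R n := fun i => sub_mem (one_mem _) (pow_mem q_mem _)
  have hpart : ∀ l i, i < n → ∏ u ∈ range i, σ (l * n + u) ∈ R n := by
    intro l i hi
    refine prod_mem fun u hu => ?_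
    have := mem_range.1 hu
    simp only [hσ]
    rw [div_eq_mul_inv]
    exact mul_mem (ma _) (ub l u (by omega))
  have hfull : ∀ t, ∏ i ∈ range n, σ (t * n + i) ∈ R n := by
    intro t
    have hM : M ∈ range n := mem_range.2 (by omega)
    have hN : n - 1 ∈ range n := mem_range.2 (by omega)
    simp only [hσ]
    rw [prod_div_distrib, ← mul_prod_erase _ _ hM, ← mul_prod_erase (range n) _ hN, H.ha, H.hb,
      mul_div_mul_comm, div_eq_mul_inv (∏ i ∈ (range n).erase M, _)]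
    refine mul_mem ?_ (mul_mem (prod_mem fun i _ => ma _) ?_)
    · have h0 := one_sub_ne hn
      have h1 : (1 - q ^ (a t * n)) / (1 - q ^ (b t * n)) =
          ((1 - q ^ (a t * n)) / (1 - q ^ n)) / ((1 - q ^ (b t * n)) / (1 - q ^ n)) := by
        rw [div_div_div_cancel_right₀ h0]
      rw [h1]
      exact ((geom_U_nat hn (H.ha0 t)).div (geom_U_nat hn (H.hb0 t))).2.1
    · refine (IsU.prod fun i hi => ?_).2.2
      rw [mem_erase, mem_range] at hi
      exact one_sub_U hn (H.hb' t i hi.2 hi.1)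
  have hl : ∀ l, ∏ u ∈ range (l * n), σ u ∈ R n := by
    intro l
    induction l with
    | zero => simp
    | succ l ih =>
      rw [add_mul, one_mul, prod_range_add]
      exact mul_mem ih (hfull l)
  have hk : k = (k / n) * n + k % n := by
    rw [mul_comm]; exact (Nat.div_add_mod k n).symm
  rw [hk, prod_range_add]
  exact mul_mem (hl _) (hpart _ _ (Nat.mod_lt _ hn))

/-- from `I n 2` to an explicit fraction -/
theorem I.exists_frac (h : I n k x) : ∃ P Q : ℚ[X], IsCoprime Q (cyclotomic n ℚ) ∧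
    cyclotomic n ℚ ^ k ∣ P ∧ x = algebraMap ℚ[X] (RatFunc ℚ) P / algebraMap ℚ[X] (RatFunc ℚ) Q := by
  obtain ⟨y, ⟨a, b, hb, hb0, hy⟩, rfl⟩ := h
  refine ⟨cyclotomic n ℚ ^ k * a, b, hb, dvd_mul_right _ _, ?_⟩
  rw [eq_div_iff (φ_ne hb0), mul_assoc, hy, map_mul, map_pow]

end

end V11307.Q
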