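import Mathlib

/-!
Terminating summations over an arbitrary field, by the WZ method.
-/

open Finset

namespace V11307.WZ

variable {F : Type*} [Field F]

/-- `(a;Q)_k` -/
def poch (a Q : F) (k : ℕ) : F := ∏ i ∈ range k, (1 - a * Q ^ i)

theorem poch_zero (a Q : F) : poch a Q 0 = 1 := rfl

theorem poch_succ (a Q : F) (k : ℕ) : poch a Q (k + 1) = poch a Q k * (1 - a * Q ^ k) :=
  prod_range_succ _ _

theorem poch_succ' (a Q : F) (k : ℕ) : poch a Q (k + 1) = (1 - a) * poch (a * Q) Q k := by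
  rw [poch, prod_range_succ', mul_comm, pow_zero, mul_one, poch]
  congr 1
  refine prod_congr rfl fun i _ => ?_
  rw [pow_succ]; ring

theorem poch_ne (a Q : F) (k : ℕ) (h : ∀ i < k, a * Q ^ i ≠ 1) : poch a Q k ≠ 0 := by
  rw [poch, prod_ne_zero_iff]
  intro i hi h0
  exact h i (mem_range.1 hi) (by linear_combination -h0)

/-- `∏_{i<k} (D - Q^i)` -/
def pd (D Q : F) (k : ℕ) : F := ∏ i ∈ range k, (D - Q ^ i)

theorem pd_succ (D Q : F) (k : ℕ) : pd D Q (k + 1) = pd D Q k * (D - Q ^ k) :=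
  prod_range_succ _ _

/-- summand of the very-well-poised `₆φ₅` -/
def t65 (Q A b D : F) (M k : ℕ) : F :=
  (1 - A * Q ^ (2 * k)) * poch A Q k * poch b Q k * poch (Q ^ M)⁻¹ Q k * pd D Q k *
    (A * Q ^ (M + 1) / b) ^ k /
    (poch Q Q k * poch (A * Q / b) Q k * poch (A * Q ^ (M + 1)) Q k * poch (A * Q * D) Q k)

/-- closed form -/
def r65 (Q A b D : F) (M : ℕ) : F :=
  (1 - A) * poch (A * Q) Q M * poch (A * Q * D / b) Q M / (poch (A * Q / b) Q M * poch (A * Q * D) Q M)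

/-- ratio of closed forms -/
def ρ65 (Q A b D : F) (M : ℕ) : F :=
  (1 - A * Q ^ (M + 1)) * (1 - A * D * Q ^ (M + 1) / b) /
    ((1 - A * Q ^ (M + 1) / b) * (1 - A * D * Q ^ (M + 1)))

/-- certificate, `G(M, k+1)` -/
def g65 (Q A b D : F) (M k : ℕ) : F :=
  poch A Q (k + 1) * poch b Q (k + 1) * poch (Q ^ M)⁻¹ Q k * pd D Q (k + 1) *
    (A * Q ^ (M + 1) / b) ^ (k + 1) /
    (poch Q Q k * poch (A * Q / b) Q k * poch (A * Q * D) Q k * poch (A * Q ^ (M + 2)) Q k *
      (1 - A * Q ^ (M + 1) / b) * (1 - A * D * Q ^ (M + 1)))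

theorem cert65 {Q A b D : F} (hQ0 : Q ≠ 0) (hb : b ≠ 0) (hQ : ∀ j, 1 ≤ j → Q ^ j ≠ 1)
    (h1 : ∀ j, 1 ≤ j → A * Q ^ j ≠ b) (h2 : ∀ j, 1 ≤ j → A * Q ^ j ≠ 1)
    (h3 : ∀ j, 1 ≤ j → A * D * Q ^ j ≠ 1) (M K : ℕ) :
    ∑ k ∈ range (K + 1), (t65 Q A b D (M + 1) k - ρ65 Q A b D M * t65 Q A b D M k) =
      g65 Q A b D M K := by
  have n1 : ∀ k, poch Q Q k ≠ 0 := fun k => poch_ne _ _ _ fun i _ => by
    rw [← pow_succ']; exact hQ _ (Nat.succ_pos _)
  have n2 : ∀ k, poch (A * Q / b) Q k ≠ 0 := fun k => poch_ne _ _ _ fun i _ => by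
    intro h
    apply h1 (i + 1) (Nat.succ_pos _)
    field_simp at h
    rw [pow_succ]; linear_combination h
  have n3 : ∀ k, poch (A * Q * D) Q k ≠ 0 := fun k => poch_ne _ _ _ fun i _ => by
    intro h
    apply h3 (i + 1) (Nat.succ_pos _)
    rw [pow_succ]; linear_combination h
  have n4 : ∀ m k, poch (A * Q ^ (m + 1)) Q k ≠ 0 := fun m k => poch_ne _ _ _ fun i _ => by
    intro h
    apply h2 (m + 1 + i) (by omega)
    rw [pow_add]; linear_combination h
  have e1 : 1 - A * Q ^ (M + 1) / b ≠ 0 := by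
    intro h
    apply h1 (M + 1) (Nat.succ_pos _)
    field_simp at h
    linear_combination -h
  have e2 : 1 - A * D * Q ^ (M + 1) ≠ 0 := by
    intro h
    exact h3 (M + 1) (Nat.succ_pos _) (by linear_combination -h)
  have e3 : 1 - A * Q ^ (M + 1) ≠ 0 := by
    intro h
    exact h2 (M + 1) (Nat.succ_pos _) (by linear_combination -h)
  have hZ : Q ^ M ≠ 0 := pow_ne_zero _ hQ0
  induction K with
  | zero =>
    simp only [zero_add, range_one, sum_singleton, t65, g65, ρ65, poch_zero, mul_zero, pow_zero,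
      pd, range_zero, prod_empty, mul_one, poch, prod_singleton, pow_one, one_mul, div_one]
    generalize hd1 : 1 - A * Q ^ (M + 1) / b = d1 at *
    generalize hd2 : 1 - A * D * Q ^ (M + 1) = d2 at *
    field_simp
    rw [← hd1, ← hd2]
    field_simp
    ring
  | succ K ih =>
    rw [sum_range_succ, ih]
    have z1 : (1 : F) - Q * Q ^ K ≠ 0 := by
      intro h
      apply hQ (K + 1) (Nat.succ_pos _)
      rw [pow_succ]; linear_combination -h
    have z2 : 1 - A * Q / b * Q ^ K ≠ 0 := by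
      intro h
      apply h1 (K + 1) (Nat.succ_pos _)
      rw [pow_succ]
      field_simp at h
      linear_combination -h
    have z3 : 1 - A * Q * D * Q ^ K ≠ 0 := by
      intro h
      apply h3 (K + 1) (Nat.succ_pos _)
      rw [pow_succ]; linear_combination -h
    have z4 : 1 - A * Q ^ (M + 2) * Q ^ K ≠ 0 := by
      intro h
      apply h2 (M + 2 + K) (by omega)
      rw [pow_add]; linear_combination -h
    have p1 := poch_succ Q Q K
    have p2 := poch_succ (A * Q / b) Q K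
    have p3 := poch_succ (A * Q * D) Q K
    have p4 := poch_succ (A * Q ^ (M + 2)) Q K
    have p5 := poch_succ' (A * Q ^ (M + 1)) Q K
    have p6 := poch_succ' (Q ^ (M + 1))⁻¹ Q K
    have p7 := poch_succ (Q ^ M)⁻¹ Q K
    have p8 := poch_succ A Q (K + 1)
    have p9 := poch_succ b Q (K + 1)
    have p10 := pd_succ D Q (K + 1)
    have q5 : A * Q ^ (M + 1) * Q = A * Q ^ (M + 2) := by ring
    have q6 : (Q ^ (M + 1))⁻¹ * Q = (Q ^ M)⁻¹ := by
      rw [pow_succ]; field_simp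
    rw [q5] at p5
    rw [q6] at p6
    have c1 := n1 K
    have c2 := n2 K
    have c3 := n3 K
    have c4 := n4 (M + 1) K
    simp only [t65, g65, ρ65, show M + 1 + 1 = M + 2 from rfl, show K + 1 + 1 = K + 2 from rfl] at *
    rw [p1, p2, p3, p4, p5, p6, p7, p8, p9, p10]
    have w1 : (A * Q ^ (M + 2) / b) ^ (K + 1) = (A * Q ^ (M + 1) / b) ^ (K + 1) * (Q * Q ^ K) := by
      rw [show A * Q ^ (M + 2) / b = A * Q ^ (M + 1) / b * Q by ring, mul_pow]; ring
    have w2 : (A * Q ^ (M + 1) / b) ^ (K + 2) = (A * Q ^ (M + 1) / b) ^ (K + 1) *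
        (A * Q ^ (M + 1) / b) := by
      rw [pow_succ _ (K + 1)]
    have w3 : Q ^ (2 * (K + 1)) = Q ^ 2 * (Q ^ K) ^ 2 := by ring
    rw [w1, w2, w3]
    generalize (A * Q ^ (M + 1) / b) ^ (K + 1) = pw
    generalize hd1 : (1 : F) - Q * Q ^ K = d1 at *
    generalize hd2 : 1 - A * Q / b * Q ^ K = d2 at *
    generalize hd3 : 1 - A * Q * D * Q ^ K = d3 at *
    generalize hd4 : 1 - A * Q ^ (M + 2) * Q ^ K = d4 at *
    generalize hd5 : 1 - A * Q ^ (M + 1) / b = d5 at *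
    generalize hd6 : 1 - A * D * Q ^ (M + 1) = d6 at *
    generalize hd7 : 1 - A * Q ^ (M + 1) = d7 at *
    generalize poch Q Q K = a1 at *
    generalize poch (A * Q / b) Q K = a2 at *
    generalize poch (A * Q * D) Q K = a3 at *
    generalize poch (A * Q ^ (M + 2)) Q K = a4 at *
    generalize poch A Q (K + 1) = a5 at *
    generalize poch b Q (K + 1) = a6 at *
    generalize poch (Q ^ M)⁻¹ Q K = a7 at *
    generalize pd D Q (K + 1) = a8 at *
    have key : (1 - A * (Q ^ 2 * (Q ^ K) ^ 2)) * (1 - (Q ^ (M + 1))⁻¹) * (Q * Q ^ K) /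
          (d1 * d2 * d4 * d3) -
        (1 - A * D * Q ^ (M + 1) / b) / (d5 * d6) * ((1 - A * (Q ^ 2 * (Q ^ K) ^ 2)) *
          (1 - (Q ^ M)⁻¹ * Q ^ K) / (d1 * d2 * d3)) =
        (1 - A * Q ^ (K + 1)) * (1 - b * Q ^ (K + 1)) * (1 - (Q ^ M)⁻¹ * Q ^ K) *
          (D - Q ^ (K + 1)) * (A * Q ^ (M + 1) / b) / (d1 * d2 * d3 * d4 * d5 * d6) -
        1 / (d5 * d6) := by
      field_simp
      rw [← hd1, ← hd2, ← hd3, ← hd4, ← hd5, ← hd6]
      have w4 : Q ^ (M + 1) = Q * Q ^ M := by ring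
      have w5 : Q ^ (M + 2) = Q ^ 2 * Q ^ M := by ring
      have w6 : Q ^ (K + 1) = Q * Q ^ K := by ring
      rw [w4, w5, w6]
      generalize Q ^ K = X at *
      generalize Q ^ M = Z at *
      field_simp
      ring
    have h7 : d7 * d7⁻¹ = 1 := mul_inv_cancel₀ e3
    generalize 1 - A * (Q ^ 2 * (Q ^ K) ^ 2) = m1 at *
    generalize 1 - (Q ^ (M + 1))⁻¹ = m2 at *
    generalize 1 - A * D * Q ^ (M + 1) / b = m4 at *
    generalize 1 - (Q ^ M)⁻¹ * Q ^ K = m5 at *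
    generalize 1 - A * Q ^ (K + 1) = m6 at *
    generalize 1 - b * Q ^ (K + 1) = m7 at *
    generalize D - Q ^ (K + 1) = m8 at *
    generalize A * Q ^ (M + 1) / b = m9 at *
    linear_combination (a5 * a6 * a7 * a8 * pw / (a1 * a2 * a3 * a4)) * key -
      (m4 / (d5 * d6)) * (m1 * a5 * a6 * a7 * m5 * a8 * pw / (a1 * d1 * a2 * d2 * a4 * a3 * d3)) * h7

theorem poch_zero_of {a Q : F} {k i : ℕ} (hi : i < k) (h : a * Q ^ i = 1) : poch a Q k = 0 := by
  rw [poch, prod_eq_zero_iff]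
  exact ⟨i, mem_range.2 hi, by rw [h, sub_self]⟩

/-- terminating very-well-poised `₆φ₅` summation (with one parameter inverted) -/
theorem sum65 {Q A b D : F} (hQ0 : Q ≠ 0) (hb : b ≠ 0) (hQ : ∀ j, 1 ≤ j → Q ^ j ≠ 1)
    (h1 : ∀ j, 1 ≤ j → A * Q ^ j ≠ b) (h2 : ∀ j, 1 ≤ j → A * Q ^ j ≠ 1)
    (h3 : ∀ j, 1 ≤ j → A * D * Q ^ j ≠ 1) (M : ℕ) :
    ∑ k ∈ range (M + 1), t65 Q A b D M k = r65 Q A b D M := by
  induction M with
  | zero => simp [t65, r65, poch, pd]
  | succ M ih =>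
    have h := cert65 hQ0 hb hQ h1 h2 h3 M (M + 1)
    have hg : g65 Q A b D M (M + 1) = 0 := by
      rw [g65, poch_zero_of (Nat.lt_succ_self M) (inv_mul_cancel₀ (pow_ne_zero _ hQ0))]
      simp
    have ht : t65 Q A b D M (M + 1) = 0 := by
      rw [t65, poch_zero_of (Nat.lt_succ_self M) (inv_mul_cancel₀ (pow_ne_zero _ hQ0))]
      simp
    rw [hg, sum_sub_distrib, ← mul_sum, sum_range_succ (fun k => t65 Q A b D M k), ht, add_zero, ih,
      sub_eq_zero] at h
    rw [h, ρ65, r65, r65, poch_succ, poch_succ, poch_succ, poch_succ]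
    have e1 : A * Q * Q ^ M = A * Q ^ (M + 1) := by ring
    have e2 : A * Q * D / b * Q ^ M = A * D * Q ^ (M + 1) / b := by ring
    have e3 : A * Q / b * Q ^ M = A * Q ^ (M + 1) / b := by ring
    have e4 : A * Q * D * Q ^ M = A * D * Q ^ (M + 1) := by ring
    rw [e1, e2, e3, e4]
    simp only [div_eq_mul_inv, mul_inv]
    ring

end V11307.WZ
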