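import Pool.Agent.V11307.QLoc
import Pool.Agent.V11307.QWZ

/-!
Block method: truncated sums of length `m n` modulo `Φ_n²`, from their values at the
deformation parameters `s = q^{a_l n} + q^{-a_l n}`.
-/

open Polynomial Finset

namespace V11307.Q

noncomputable section

variable {n k : ℕ} {x y x' y' : RatFunc ℚ}

theorem one_not_I (hn : 0 < n) : ¬ I n 1 1 := by
  intro h
  have h1 := h.num_dvd hn
  rw [RatFunc.num_one, pow_one] at h1
  exact (cyc_irr hn).not_isUnit (isUnit_of_dvd_one h1)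

/-- units of the local ring -/
def IsU (n : ℕ) (x : RatFunc ℚ) : Prop := x ≠ 0 ∧ x ∈ R n ∧ x⁻¹ ∈ R n

theorem IsU.mul (hx : IsU n x) (hy : IsU n y) : IsU n (x * y) :=
  ⟨mul_ne_zero hx.1 hy.1, mul_mem hx.2.1 hy.2.1, by rw [mul_inv]; exact mul_mem hx.2.2 hy.2.2⟩

theorem IsU.inv (hx : IsU n x) : IsU n x⁻¹ :=
  ⟨inv_ne_zero hx.1, hx.2.2, by rw [inv_inv]; exact hx.2.1⟩

theorem IsU.div (hx : IsU n x) (hy : IsU n y) : IsU n (x / y) := by
  rw [div_eq_mul_inv]; exact hx.mul hy.inv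

theorem IsU.pow (hx : IsU n x) (j : ℕ) : IsU n (x ^ j) :=
  ⟨pow_ne_zero _ hx.1, pow_mem hx.2.1 _, by rw [← inv_pow]; exact pow_mem hx.2.2 _⟩

theorem IsU.one : IsU n 1 := ⟨one_ne_zero, one_mem _, by rw [inv_one]; exact one_mem _⟩

theorem IsU.neg (hx : IsU n x) : IsU n (-x) :=
  ⟨neg_ne_zero.2 hx.1, neg_mem hx.2.1, by rw [inv_neg]; exact neg_mem hx.2.2⟩

theorem IsU.prod {ι : Type*} {s : Finset ι} {f : ι → RatFunc ℚ} (h : ∀ i ∈ s, IsU n (f i)) :
    IsU n (∏ i ∈ s, f i) := by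
  classical
  induction s using Finset.induction_on with
  | empty => simpa using IsU.one
  | insert a s ha ih =>
    rw [prod_insert ha]
    exact (h a (mem_insert_self _ _)).mul (ih fun i hi => h i (mem_insert_of_mem hi))

theorem IsU.not_I (hn : 0 < n) (hx : IsU n x) : ¬ I n 1 x := by
  intro h
  have := h.mul_R hx.2.2
  rw [mul_inv_cancel₀ hx.1] at this
  exact one_not_I hn this

theorem isU_of_not_I (hn : 0 < n) (hx : x ∈ R n) (h : ¬ I n 1 x) : IsU n x := by
  obtain ⟨a, b, hb, hb0, e⟩ := hx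
  have hbn : ¬ cyclotomic n ℚ ∣ b := fun hd =>
    (cyc_irr hn).not_isUnit (hb.isUnit_of_dvd' hd dvd_rfl)
  have ha : ¬ cyclotomic n ℚ ∣ a := by
    rintro ⟨c, rfl⟩
    apply h
    refine ⟨φ c * (φ b)⁻¹, mul_mem (φ_mem _) (inv_mem hn hbn), ?_⟩
    rw [pow_one, ← mul_assoc, ← map_mul, ← e, mul_assoc, mul_inv_cancel₀ (φ_ne hb0), mul_one]
  have ha0 : a ≠ 0 := by rintro rfl; exact ha (dvd_zero _)
  have hx0 : x ≠ 0 := by
    rintro rfl
    exact h I.zero
  refine ⟨hx0, ⟨a, b, hb, hb0, e⟩, ⟨b, a, cop_of_not_dvd hn ha, ha0, ?_⟩⟩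
  rw [← e]
  field_simp

theorem IsU.congr (hn : 0 < n) (hy : IsU n y) (h : I n 1 (x - y)) : IsU n x := by
  apply isU_of_not_I hn
  · have := add_mem h.mem hy.2.1
    rwa [sub_add_cancel] at this
  · intro hx
    have := hx.sub h
    rw [sub_sub_cancel] at this
    exact hy.not_I hn this

theorem I.inv_congr (hy : IsU n y) (hy' : IsU n y') (h : I n k (y - y')) : I n k (y⁻¹ - y'⁻¹) := by
  have : y⁻¹ - y'⁻¹ = (y - y') * (-(y⁻¹ * y'⁻¹)) := by
    have := hy.1
    have := hy'.1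
    field_simp
    ring
  rw [this]
  exact h.mul_R (neg_mem (mul_mem hy.2.2 hy'.2.2))

theorem I.div_congr (h1 : I n k (x - x')) (hx' : x' ∈ R n) (hy : IsU n y) (hy' : IsU n y')
    (h2 : I n k (y - y')) : I n k (x / y - x' / y') := by
  rw [div_eq_mul_inv, div_eq_mul_inv]
  exact I.mul_congr h1 (I.inv_congr hy hy' h2) hx' hy.2.2

theorem I.prod_congr {ι : Type*} {s : Finset ι} {f g : ι → RatFunc ℚ}
    (h : ∀ i ∈ s, I n k (f i - g i)) (hf : ∀ i ∈ s, f i ∈ R n) (hg : ∀ i ∈ s, g i ∈ R n) :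
    I n k (∏ i ∈ s, f i - ∏ i ∈ s, g i) := by
  classical
  induction s using Finset.induction_on with
  | empty => simpa using I.zero
  | insert a s ha ih =>
    rw [prod_insert ha, prod_insert ha]
    refine I.mul_congr (h a (mem_insert_self _ _)) (ih (fun i hi => h i (mem_insert_of_mem hi))
      (fun i hi => hf i (mem_insert_of_mem hi)) (fun i hi => hg i (mem_insert_of_mem hi)))
      (hg a (mem_insert_self _ _)) (prod_mem fun i hi => hf i (mem_insert_of_mem hi))

theorem qU (hn : 0 < n) (e : ℤ) : IsU n (q ^ e) :=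
  ⟨zpow_ne_zero _ q_ne, zpow_mem' hn e, by rw [← zpow_neg]; exact zpow_mem' hn _⟩

theorem qUn (hn : 0 < n) (e : ℕ) : IsU n (q ^ e) := by
  have := qU hn (e : ℤ)
  rwa [zpow_natCast] at this

theorem one_sub_U (hn : 0 < n) {e : ℕ} (h : ¬ n ∣ e) : IsU n (1 - q ^ e) := by
  have he : 0 < e := Nat.pos_of_ne_zero (by rintro rfl; exact h (dvd_zero _))
  exact ⟨one_sub_ne he, sub_mem (one_mem _) (pow_mem q_mem _), inv_one_sub hn h⟩

theorem one_sub_U_int (hn : 0 < n) {e : ℤ} (h : ¬ (n : ℤ) ∣ e) : IsU n (1 - q ^ e) := by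
  rcases le_or_gt 0 e with he | he
  · obtain ⟨k, rfl⟩ := Int.eq_ofNat_of_zero_le he
    rw [zpow_natCast]
    exact one_sub_U hn (by exact_mod_cast h)
  · obtain ⟨k, hk⟩ := Int.eq_ofNat_of_zero_le (by omega : 0 ≤ -e)
    have hke : e = -(k : ℤ) := by omega
    have h1 : (1 : RatFunc ℚ) - q ^ e = -(q ^ e * (1 - q ^ k)) := by
      have : q ^ e * q ^ k = 1 := by
        rw [hke, zpow_neg, zpow_natCast, inv_mul_cancel₀ (pow_ne_zero _ q_ne)]
      linear_combination -this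
    rw [h1]
    refine ((qU hn e).mul (one_sub_U hn ?_)).neg
    intro hd
    apply h
    rw [hke, dvd_neg]
    exact_mod_cast hd

/-- `(1 - q^{en})/(1 - q^n)` is a unit for `e ≠ 0`. -/
theorem geom_U_nat (hn : 0 < n) {e : ℕ} (he : e ≠ 0) : IsU n ((1 - q ^ (e * n)) / (1 - q ^ n)) := by
  have h1 : (1 - q ^ (e * n)) / (1 - q ^ n) = φ (∑ i ∈ range e, X ^ (n * i)) := by
    rw [div_eq_iff (one_sub_ne hn), one_sub_qpow, one_sub_qpow, ← map_mul]
    congr 1
    have := (geom_sum_mul_neg (X ^ n : ℚ[X]) e)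
    simp only [← pow_mul] at this
    rw [mul_comm e n, ← this]
  rw [h1]
  have hd : ¬ cyclotomic n ℚ ∣ ∑ i ∈ range e, X ^ (n * i) := by
    intro hd
    have h2 : cyclotomic n ℚ ∣ ∑ i ∈ range e, ((X : ℚ[X]) ^ (n * i) - 1) :=
      dvd_sum fun i _ => (cyc_dvd_iff hn _).2 (dvd_mul_right _ _)
    have h3 := dvd_sub hd h2
    rw [← sum_sub_distrib] at h3
    simp only [sub_sub_cancel, sum_const, card_range, nsmul_eq_mul, mul_one] at h3
    have h4 : IsUnit ((e : ℕ) : ℚ[X]) := by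
      have : ((e : ℕ) : ℚ[X]) = C (e : ℚ) := by simp
      rw [this]
      exact isUnit_C.2 (IsUnit.mk0 _ (by exact_mod_cast he))
    exact (cyc_irr hn).not_isUnit (isUnit_of_dvd_unit h3 h4)
  refine ⟨φ_ne (by rintro h; rw [h] at hd; exact hd (dvd_zero _)), φ_mem _, inv_mem hn hd⟩

theorem geom_U (hn : 0 < n) {e : ℤ} (he : e ≠ 0) : IsU n ((1 - q ^ (e * n)) / (1 - q ^ n)) := by
  rcases le_or_gt 0 e with h0 | h0
  · obtain ⟨k, rfl⟩ := Int.eq_ofNat_of_zero_le h0
    have := geom_U_nat hn (e := k) (by exact_mod_cast he)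
    rw [← zpow_natCast q (k * n)] at this
    push_cast at this
    exact this
  · obtain ⟨k, hk⟩ := Int.eq_ofNat_of_zero_le (by omega : 0 ≤ -e)
    have hke : e = -(k : ℤ) := by omega
    have hk0 : k ≠ 0 := by omega
    have h1 : (1 - q ^ (e * n)) / (1 - q ^ n) =
        -(q ^ (e * n) * ((1 - q ^ (k * n)) / (1 - q ^ n))) := by
      have : q ^ (e * n) * q ^ (k * n) = 1 := by
        rw [hke, ← zpow_natCast q (k * n), ← zpow_add₀ q_ne]
        push_cast
        rw [neg_mul, neg_add_cancel, zpow_zero]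
      rw [mul_div_assoc', ← neg_div]
      congr 1
      linear_combination -this
    rw [h1]
    exact ((qU hn _).mul (geom_U_nat hn hk0)).neg

/-- `f_e(s) = 1 - s q^e + q^{2e}` -/
def f (s : RatFunc ℚ) (e : ℕ) : RatFunc ℚ := 1 - s * q ^ e + q ^ (2 * e)

/-- `s_N = q^N + q^{-N}` -/
def sv (N : ℕ) : RatFunc ℚ := q ^ N + (q ^ N)⁻¹

theorem f_two (e : ℕ) : f 2 e = (1 - q ^ e) ^ 2 := by
  rw [f]; ring

theorem f_sv (N e : ℕ) : f (sv N) e = (1 - q ^ (e + N)) * (1 - q ^ ((e : ℤ) - N)) := by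
  have h := pow_ne_zero N q_ne
  rw [f, sv, zpow_sub₀ q_ne, zpow_natCast, zpow_natCast, pow_add, mul_comm 2 e, pow_mul]
  field_simp
  ring

theorem f_sv_self (N : ℕ) : f (sv N) N = 0 := by
  rw [f_sv, sub_self, zpow_zero, sub_self, mul_zero]

theorem sv_two (hn : 0 < n) {N : ℕ} (h : n ∣ N) : I n 2 (sv N - 2) := by
  have h0 := pow_ne_zero N q_ne
  have h1 : sv N - 2 = (1 - q ^ N) * (1 - q ^ N) * (q ^ N)⁻¹ := by
    rw [sv]; field_simp; ring
  have h2 : I n 1 (1 - q ^ N) := by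
    have := I_one_sub hn (e := (N : ℤ)) (by exact_mod_cast h)
    rwa [zpow_natCast] at this
  rw [h1]
  exact (h2.mul h2).mul_R (by rw [← inv_pow]; exact pow_mem (qinv_mem hn) _)

theorem two_mem : (2 : RatFunc ℚ) ∈ R n := ofNat_mem _ 2

theorem f_mem {s : RatFunc ℚ} (hs : I n 2 (s - 2)) (e : ℕ) : f s e ∈ R n := by
  have : s ∈ R n := by
    have := add_mem hs.mem (two_mem (n := n))
    rwa [sub_add_cancel] at this
  exact add_mem (sub_mem (one_mem _) (mul_mem this (pow_mem q_mem _))) (pow_mem q_mem _)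

theorem f_congr {s : RatFunc ℚ} (hs : I n 2 (s - 2)) (e : ℕ) : I n 2 (f s e - f 2 e) := by
  have : f s e - f 2 e = (s - 2) * (-q ^ e) := by rw [f, f]; ring
  rw [this]
  exact hs.mul_R (neg_mem (pow_mem q_mem _))

theorem f_U (hn : 0 < n) {s : RatFunc ℚ} (hs : I n 2 (s - 2)) {e : ℕ} (he : ¬ n ∣ e) :
    IsU n (f s e) := by
  have h2 : IsU n (f 2 e) := by rw [f_two]; exact (one_sub_U hn he).pow 2
  exact h2.congr hn ((f_congr hs e).mono (by norm_num))

theorem f_I (hn : 0 < n) {s : RatFunc ℚ} (hs : I n 2 (s - 2)) {e : ℕ} (he : n ∣ e) :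
    I n 2 (f s e) := by
  have h2 : I n 1 (1 - q ^ e) := by
    have := I_one_sub hn (e := (e : ℤ)) (by exact_mod_cast he)
    rwa [zpow_natCast] at this
  have h3 : I n 2 (f 2 e) := by rw [f_two, sq]; exact h2.mul h2
  have := (f_congr hs e).add h3
  rwa [sub_add_cancel] at this

/-- `f_{cn}(s) = (1-q^n)² · unit` -/
theorem f_val_two (hn : 0 < n) {c : ℕ} (hc : c ≠ 0) : ∃ u, IsU n u ∧ f 2 (c * n) = (1 - q ^ n) ^ 2 * u := by
  refine ⟨_, (geom_U_nat hn hc).pow 2, ?_⟩
  rw [f_two, div_pow, mul_div_cancel₀]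
  exact pow_ne_zero 2 (one_sub_ne hn)

theorem f_val_sv (hn : 0 < n) {c N : ℕ} (hc : c ≠ 0) (hcN : c ≠ N) :
    ∃ u, IsU n u ∧ f (sv (N * n)) (c * n) = (1 - q ^ n) ^ 2 * u := by
  refine ⟨_, (geom_U_nat hn (e := c + N) (by omega)).mul
    (geom_U hn (e := (c : ℤ) - N) (sub_ne_zero.2 (by exact_mod_cast hcN))), ?_⟩
  have h1 := one_sub_ne hn
  rw [f_sv, ← add_mul]
  have : ((c * n : ℕ) : ℤ) - ((N * n : ℕ) : ℤ) = ((c : ℤ) - N) * n := by push_cast; ring
  rw [this]
  field_simp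

theorem ratio_U (hn : 0 < n) {u v : RatFunc ℚ} (hx : ∃ w, IsU n w ∧ u = (1 - q ^ n) ^ 2 * w)
    (hy : ∃ w, IsU n w ∧ v = (1 - q ^ n) ^ 2 * w) : IsU n (u / v) := by
  obtain ⟨w, hw, rfl⟩ := hx
  obtain ⟨w', hw', rfl⟩ := hy
  rw [mul_div_mul_left _ _ (pow_ne_zero 2 (one_sub_ne hn))]
  exact hw.div hw'

/-- abstract block induction -/
theorem abstract_block (B Λ : ℕ → RatFunc ℚ → RatFunc ℚ) (β γ : ℕ → RatFunc ℚ)
    (s : ℕ → RatFunc ℚ) (z : RatFunc ℚ)
    (hB : ∀ l j, l ≤ j → I n 2 (B l (s j) - Λ l (s j) * β l))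
    (hB' : ∀ l, I n 2 (B l z - Λ l z * β l))
    (hΛ : ∀ l j, l ≤ j → IsU n (Λ l (s j))) (hΛ' : ∀ l, Λ l z ∈ R n)
    (hsum : ∀ l, I n 2 (∑ t ∈ range (l + 1), B t (s l) - ∑ t ∈ range (l + 1), Λ t (s l) * γ t)) :
    ∀ m, I n 2 (∑ l ∈ range m, B l z - ∑ l ∈ range m, Λ l z * γ l) := by
  have key : ∀ l, I n 2 (β l - γ l) := by
    intro l
    induction l using Nat.strong_induction_on with
    | _ l ih =>
      have h1 := hsum l
      have h2 : I n 2 (∑ t ∈ range (l + 1), (B t (s l) - Λ t (s l) * β t)) :=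
        I.sum fun t ht => hB t l (Nat.lt_succ_iff.1 (mem_range.1 ht))
      have h3 : I n 2 (∑ t ∈ range l, (Λ t (s l) * (β t - γ t))) :=
        I.sum fun t ht => I.R_mul (hΛ t l (mem_range.1 ht).le).2.1 (ih t (mem_range.1 ht))
      have h4 := (h1.sub h2).sub h3
      have h5 : ∑ t ∈ range (l + 1), B t (s l) - ∑ t ∈ range (l + 1), Λ t (s l) * γ t -
          ∑ t ∈ range (l + 1), (B t (s l) - Λ t (s l) * β t) -
          ∑ t ∈ range l, (Λ t (s l) * (β t - γ t)) = Λ l (s l) * (β l - γ l) := by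
        rw [sum_sub_distrib, sum_range_succ (fun t => Λ t (s l) * γ t),
          sum_range_succ (fun t => Λ t (s l) * β t)]
        simp only [mul_sub]
        rw [sum_sub_distrib]
        ring
      rw [h5] at h4
      have hu := hΛ l l le_rfl
      have h6 := I.R_mul hu.2.2 h4
      rwa [← mul_assoc, inv_mul_cancel₀ hu.1, one_mul] at h6
  intro m
  rw [← sum_sub_distrib]
  apply I.sum
  intro l _
  have h1 := (hB' l).add (I.R_mul (hΛ' l) (key l))
  convert h1 using 1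
  ring

section main

variable (a b : ℕ → ℕ) (d : RatFunc ℚ → RatFunc ℚ)

/-- term ratio (deformed part) -/
def rho (s : RatFunc ℚ) (i : ℕ) : RatFunc ℚ := f s (a i) / f (d s) (b i)

/-- the `q^n`-analogue of the ratio -/
def EE' (n : ℕ) (s : RatFunc ℚ) (t : ℕ) : RatFunc ℚ := f s (a t * n) / f (d s) (b t * n)

/-- nonsingular part of a full block -/
def NN (n M : ℕ) (s : RatFunc ℚ) (t : ℕ) : RatFunc ℚ :=
  (∏ i ∈ (range n).erase M, f s (a (t * n + i))) /
    ∏ i ∈ (range n).erase (n - 1), f (d s) (b (t * n + i))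

/-- the hypotheses on the exponents -/
structure Hyp (n M : ℕ) : Prop where
  hn : 0 < n
  hM : M + 1 < n
  ha : ∀ l, a (l * n + M) = a l * n
  ha' : ∀ l i, i < n → i ≠ M → ¬ n ∣ a (l * n + i)
  hb : ∀ l, b (l * n + (n - 1)) = b l * n
  hb' : ∀ l i, i < n → i ≠ n - 1 → ¬ n ∣ b (l * n + i)
  ha0 : ∀ t, a t ≠ 0
  hb0 : ∀ t, b t ≠ 0
  haa : ∀ t j, t < j → a t ≠ a j
  hab : ∀ t j, t < j → b t ≠ a j
  hd : (∀ s, d s = s) ∨ (∀ s, d s = 2)

variable {a b d} {M : ℕ}

theorem Hyp.d_congr (H : Hyp a b d n M) {s : RatFunc ℚ} (hs : I n 2 (s - 2)) : I n 2 (d s - 2) := by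
  rcases H.hd with h | h
  · rw [h]; exact hs
  · rw [h, sub_self]; exact I.zero

theorem Hyp.d_two (H : Hyp a b d n M) : d 2 = 2 := by
  rcases H.hd with h | h <;> rw [h]

theorem Hyp.E_U (H : Hyp a b d n M) {t j : ℕ} (h : t < j) : IsU n (EE' a b d n (sv (a j * n)) t) := by
  refine ratio_U H.hn (f_val_sv H.hn (H.ha0 t) (H.haa t j h)) ?_
  rcases H.hd with hd | hd
  · rw [hd]; exact f_val_sv H.hn (H.hb0 t) (H.hab t j h)
  · rw [hd]; exact f_val_two H.hn (H.hb0 t)

theorem Hyp.E_U_two (H : Hyp a b d n M) (t : ℕ) : IsU n (EE' a b d n 2 t) := by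
  refine ratio_U H.hn (f_val_two H.hn (H.ha0 t)) ?_
  rw [H.d_two]
  exact f_val_two H.hn (H.hb0 t)

theorem Hyp.block (H : Hyp a b d n M) (s : RatFunc ℚ) (t : ℕ) :
    ∏ i ∈ range n, rho a b d s (t * n + i) = EE' a b d n s t * NN a b d n M s t := by
  have hM : M ∈ range n := mem_range.2 (by have := H.hM; omega)
  have hN : n - 1 ∈ range n := mem_range.2 (by have := H.hn; omega)
  simp only [rho]
  rw [prod_div_distrib, ← mul_prod_erase _ _ hM, ← mul_prod_erase (range n) _ hN, H.ha, H.hb, EE', NN,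
    mul_div_mul_comm]

theorem Hyp.N_congr (H : Hyp a b d n M) {s : RatFunc ℚ} (hs : I n 2 (s - 2)) (t : ℕ) :
    I n 2 (NN a b d n M s t - NN a b d n M 2 t) ∧ IsU n (NN a b d n M s t) := by
  have h2 : I n 2 ((2 : RatFunc ℚ) - 2) := by rw [sub_self]; exact I.zero
  have ua : ∀ s, I n 2 (s - 2) → ∀ i ∈ (range n).erase M, IsU n (f s (a (t * n + i))) := by
    intro s hs i hi
    rw [mem_erase, mem_range] at hi
    exact f_U H.hn hs (H.ha' _ _ hi.2 hi.1)
  have ub : ∀ s, I n 2 (s - 2) → ∀ i ∈ (range n).erase (n - 1), IsU n (f (d s) (b (t * n + i))) := by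
    intro s hs i hi
    rw [mem_erase, mem_range] at hi
    exact f_U H.hn (H.d_congr hs) (H.hb' _ _ hi.2 hi.1)
  have cb : ∀ i, I n 2 (f (d s) (b (t * n + i)) - f (d 2) (b (t * n + i))) := by
    intro i
    rw [H.d_two]
    exact f_congr (H.d_congr hs) _
  constructor
  · refine I.div_congr (I.prod_congr (fun i _ => f_congr hs _) (fun i hi => (ua s hs i hi).2.1)
      (fun i hi => (ua 2 h2 i hi).2.1)) (IsU.prod (ua 2 h2)).2.1 (IsU.prod (ub s hs))
      (IsU.prod (ub 2 h2)) (I.prod_congr (fun i _ => cb i) (fun i hi => (ub s hs i hi).2.1)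
      (fun i hi => (ub 2 h2 i hi).2.1))
  · exact (IsU.prod (ua s hs)).div (IsU.prod (ub s hs))

theorem Hyp.prod_full (H : Hyp a b d n M) (s : RatFunc ℚ) (l : ℕ) :
    ∏ u ∈ range (l * n), rho a b d s u =
      (∏ t ∈ range l, EE' a b d n s t) * ∏ t ∈ range l, NN a b d n M s t := by
  induction l with
  | zero => simp
  | succ l ih =>
    rw [add_mul, one_mul, prod_range_add, ih, H.block, prod_range_succ, prod_range_succ]
    ring

/-- head of a block -/
theorem Hyp.head (H : Hyp a b d n M) {s : RatFunc ℚ} (hs : I n 2 (s - 2)) (l : ℕ) {i : ℕ}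
    (hi : i ≤ M) :
    I n 2 (∏ u ∈ range i, rho a b d s (l * n + u) - ∏ u ∈ range i, rho a b d 2 (l * n + u)) ∧
      ∏ u ∈ range i, rho a b d s (l * n + u) ∈ R n := by
  have h2 : I n 2 ((2 : RatFunc ℚ) - 2) := by rw [sub_self]; exact I.zero
  have hMn := H.hM
  have ub : ∀ s, I n 2 (s - 2) → ∀ u < M + 1, IsU n (f (d s) (b (l * n + u))) := by
    intro s hs u hu
    exact f_U H.hn (H.d_congr hs) (H.hb' _ _ (by omega) (by omega))
  have mem : ∀ s, I n 2 (s - 2) → ∀ u < M + 1, rho a b d s (l * n + u) ∈ R n := by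
    intro s hs u hu
    rw [rho, div_eq_mul_inv]
    exact mul_mem (f_mem hs _) (ub s hs u hu).2.2
  constructor
  · refine I.prod_congr ?_ (fun u hu => mem s hs u ?_) (fun u hu => mem 2 h2 u ?_)
    · intro u hu
      have hu := mem_range.1 hu
      refine I.div_congr (f_congr hs _) (f_mem h2 _) (ub s hs u (by omega)) (ub 2 h2 u (by omega)) ?_
      rw [H.d_two]
      exact f_congr (H.d_congr hs) _
    · have := mem_range.1 hu; omega
    · have := mem_range.1 hu; omega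
  · exact prod_mem fun u hu => mem s hs u (by have := mem_range.1 hu; omega)

/-- tail of a block -/
theorem Hyp.tail (H : Hyp a b d n M) {s : RatFunc ℚ} (hs : I n 2 (s - 2)) (l : ℕ) {i : ℕ}
    (hi : M < i) (hin : i < n) : I n 2 (∏ u ∈ range i, rho a b d s (l * n + u)) := by
  rw [← mul_prod_erase (range i) _ (mem_range.2 hi)]
  have hMn := H.hM
  have ub : ∀ u < n - 1, IsU n (f (d s) (b (l * n + u))) := by
    intro u hu
    exact f_U H.hn (H.d_congr hs) (H.hb' _ _ (by omega) (by omega))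
  refine I.mul_R ?_ (prod_mem fun u hu => ?_)
  · rw [rho, div_eq_mul_inv]
    refine (f_I H.hn hs ?_).mul_R (ub _ (by omega)).2.2
    rw [H.ha]; exact dvd_mul_left _ _
  · rw [rho, div_eq_mul_inv]
    have := mem_range.1 (mem_of_mem_erase hu)
    exact mul_mem (f_mem hs _) (ub _ (by omega)).2.2

/-- The block theorem. -/
theorem Hyp.main (H : Hyp a b d n M) (W : ℕ → RatFunc ℚ) (hW : ∀ k, W k ∈ R n) (C : RatFunc ℚ)
    (W' : ℕ → RatFunc ℚ)
    (hcf : ∀ l, I n 2 (∑ k ∈ range (l * n + M + 1), W k * ∏ u ∈ range k, rho a b d (sv (a l * n)) u -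
      C * ∑ t ∈ range (l + 1), W' t * ∏ u ∈ range t, EE' a b d n (sv (a l * n)) u)) (m : ℕ) :
    I n 2 (∑ k ∈ range (m * n), W k * ∏ u ∈ range k, rho a b d 2 u -
      C * ∑ t ∈ range m, W' t * ∏ u ∈ range t, EE' a b d n 2 u) := by
  have hMn := H.hM
  set α : RatFunc ℚ → ℕ → RatFunc ℚ := fun s k => W k * ∏ u ∈ range k, rho a b d s u with hα
  set B : ℕ → RatFunc ℚ → RatFunc ℚ := fun l s => ∑ i ∈ range n, α s (l * n + i) with hBdef
  set Λ : ℕ → RatFunc ℚ → RatFunc ℚ := fun l s => ∏ t ∈ range l, EE' a b d n s t with hΛdef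
  set β : ℕ → RatFunc ℚ := fun l => (∏ t ∈ range l, NN a b d n M 2 t) *
    ∑ i ∈ range (M + 1), W (l * n + i) * ∏ u ∈ range i, rho a b d 2 (l * n + u) with hβdef
  have hsumB : ∀ (s : RatFunc ℚ) (m : ℕ), ∑ k ∈ range (m * n), α s k = ∑ l ∈ range m, B l s := by
    intro s m
    induction m with
    | zero => simp
    | succ m ih => rw [add_mul, one_mul, sum_range_add, ih, sum_range_succ]
  have hαsplit : ∀ s l i, α s (l * n + i) = Λ l s * ((∏ t ∈ range l, NN a b d n M s t) *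
      (W (l * n + i) * ∏ u ∈ range i, rho a b d s (l * n + u))) := by
    intro s l i
    simp only [hα, hΛdef]
    rw [prod_range_add, H.prod_full]
    ring
  -- the block congruence
  have hBcong : ∀ l s, I n 2 (s - 2) → Λ l s ∈ R n → I n 2 (B l s - Λ l s * β l) := by
    intro l s hs hmem
    have hNs : I n 2 (∏ t ∈ range l, NN a b d n M s t - ∏ t ∈ range l, NN a b d n M 2 t) :=
      I.prod_congr (fun t _ => (H.N_congr hs t).1) (fun t _ => (H.N_congr hs t).2.2.1)
        (fun t _ => (H.N_congr (s := 2) (by rw [sub_self]; exact I.zero) t).2.2.1)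
    have hNmem : ∏ t ∈ range l, NN a b d n M s t ∈ R n :=
      prod_mem fun t _ => (H.N_congr hs t).2.2.1
    have hNmem2 : ∏ t ∈ range l, NN a b d n M 2 t ∈ R n :=
      prod_mem fun t _ => (H.N_congr (s := 2) (by rw [sub_self]; exact I.zero) t).2.2.1
    have h1 : B l s = Λ l s * (∑ i ∈ range (M + 1), (∏ t ∈ range l, NN a b d n M s t) *
        (W (l * n + i) * ∏ u ∈ range i, rho a b d s (l * n + u)) +
        ∑ i ∈ range (n - (M + 1)), (∏ t ∈ range l, NN a b d n M s t) *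
        (W (l * n + (M + 1 + i)) * ∏ u ∈ range (M + 1 + i), rho a b d s (l * n + u))) := by
      simp only [hBdef]
      rw [show range n = range (M + 1 + (n - (M + 1))) by congr 1; omega, sum_range_add, mul_add,
        mul_sum, mul_sum]
      congr 1
      · exact sum_congr rfl fun i _ => hαsplit s l i
      · exact sum_congr rfl fun i _ => hαsplit s l (M + 1 + i)
    rw [h1, ← mul_sub]
    refine I.R_mul hmem ?_
    rw [hβdef]
    simp only
    rw [add_sub_right_comm, mul_sum, ← sum_sub_distrib]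
    refine (I.sum fun i hi => ?_).add (I.sum fun i hi => ?_)
    · have hi := mem_range.1 hi
      refine I.mul_congr hNs ?_ hNmem2 (mul_mem (hW _) (H.head hs l (by omega)).2)
      rw [← mul_sub]
      exact I.R_mul (hW _) (H.head hs l (by omega)).1
    · have hi := mem_range.1 hi
      exact I.R_mul hNmem (I.R_mul (hW _) (H.tail hs l (by omega) (by omega)))
  have hs : ∀ j, I n 2 (sv (a j * n) - 2) := fun j => sv_two H.hn (dvd_mul_left _ _)
  have hz : I n 2 ((2 : RatFunc ℚ) - 2) := by rw [sub_self]; exact I.zero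
  have hΛU : ∀ l j, l ≤ j → IsU n (Λ l (sv (a j * n))) := by
    intro l j hlj
    exact IsU.prod fun t ht => H.E_U (lt_of_lt_of_le (mem_range.1 ht) hlj)
  have hΛ2 : ∀ l, Λ l 2 ∈ R n := fun l => prod_mem fun t _ => (H.E_U_two t).2.1
  have hvan : ∀ l i, M < i → α (sv (a l * n)) (l * n + i) = 0 := by
    intro l i hi
    simp only [hα]
    rw [prod_range_add, ← mul_prod_erase (range i) _ (mem_range.2 hi)]
    simp only [rho]
    rw [H.ha, f_sv_self]
    ring
  have main := abstract_block B Λ β (fun t => C * W' t) (fun j => sv (a j * n)) 2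
    (fun l j hlj => hBcong l _ (hs j) (hΛU l j hlj).2.1) (fun l => hBcong l _ hz (hΛ2 l)) hΛU hΛ2
    (by
      intro l
      have h1 := hcf l
      have h2 : ∑ t ∈ range (l + 1), B t (sv (a l * n)) =
          ∑ k ∈ range (l * n + M + 1), W k * ∏ u ∈ range k, rho a b d (sv (a l * n)) u := by
        rw [← hsumB, show (l + 1) * n = (l * n + M + 1) + (n - (M + 1)) by
          rw [add_mul, one_mul]; omega, sum_range_add]
        have : ∑ i ∈ range (n - (M + 1)), α (sv (a l * n)) (l * n + M + 1 + i) = 0 := by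
          apply sum_eq_zero
          intro i _
          rw [show l * n + M + 1 + i = l * n + (M + 1 + i) by ring]
          exact hvan l _ (by omega)
        rw [this, add_zero]
      have h3 : ∑ t ∈ range (l + 1), Λ t (sv (a l * n)) * (C * W' t) =
          C * ∑ t ∈ range (l + 1), W' t * ∏ u ∈ range t, EE' a b d n (sv (a l * n)) u := by
        rw [mul_sum]
        refine sum_congr rfl fun t _ => ?_
        simp only [hΛdef]; ring
      rw [h2, h3]
      exact h1) m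
  have h2 : ∑ k ∈ range (m * n), W k * ∏ u ∈ range k, rho a b d 2 u = ∑ l ∈ range m, B l 2 :=
    hsumB 2 m
  have h3 : C * ∑ t ∈ range m, W' t * ∏ u ∈ range t, EE' a b d n 2 u =
      ∑ t ∈ range m, Λ t 2 * (C * W' t) := by
    rw [mul_sum]
    refine sum_congr rfl fun t _ => ?_
    simp only [hΛdef]; ring
  rw [h2, h3]
  exact main

end main

end

end V11307.Q
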