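import Pool.Agent.V11307.QHyp

/-!
Block method modulo `Φ_n³`: pairs `(F(s), F(2))` of values at `s ≡ 2 (mod Φ_n²)`.
-/

open Polynomial Finset

namespace V11307.Q

noncomputable section

variable {n k : ℕ} {x y x' y' : RatFunc ℚ}

/-- abstract block induction, modulo `Φ_n^K` -/
theorem abstract_block' (K : ℕ) (B Λ : ℕ → RatFunc ℚ → RatFunc ℚ) (β γ : ℕ → RatFunc ℚ)
    (s : ℕ → RatFunc ℚ) (z : RatFunc ℚ)
    (hB : ∀ l j, l ≤ j → I n K (B l (s j) - Λ l (s j) * β l))
    (hB' : ∀ l, I n K (B l z - Λ l z * β l))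
    (hΛ : ∀ l j, l ≤ j → IsU n (Λ l (s j))) (hΛ' : ∀ l, Λ l z ∈ R n)
    (hsum : ∀ l, I n K (∑ t ∈ range (l + 1), B t (s l) - ∑ t ∈ range (l + 1), Λ t (s l) * γ t)) :
    ∀ m, I n K (∑ l ∈ range m, B l z - ∑ l ∈ range m, Λ l z * γ l) := by
  have key : ∀ l, I n K (β l - γ l) := by
    intro l
    induction l using Nat.strong_induction_on with
    | _ l ih =>
      have h1 := hsum l
      have h2 : I n K (∑ t ∈ range (l + 1), (B t (s l) - Λ t (s l) * β t)) :=
        I.sum fun t ht => hB t l (Nat.lt_succ_iff.1 (mem_range.1 ht))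
      have h3 : I n K (∑ t ∈ range l, (Λ t (s l) * (β t - γ t))) :=
        I.sum fun t ht => I.R_mul (hΛ t l (mem_range.1 ht).le).2.1 (ih t (mem_range.1 ht))
      have h4 := (h1.sub h2).sub h3
      have h5 : ∑ t ∈ range (l + 1), B t (s l) - ∑ t ∈ range (l + 1), Λ t (s l) * γ t -
          ∑ t ∈ range (l + 1), (B t (s l) - Λ t (s l) * β t) -
          ∑ t ∈ range l, (Λ t (s l) * (β t - γ t)) = Λ l (s l) * (β l - γ l) := by
        rw [sum_sub_distrib, sum_range_succ (fun t => Λ t (s l) * γ t),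
          sum_range_succ (fun t => Λ t (s l) * β t)]
        simp only [mul_sub]
        rw [sum_sub_distrib]
        ring
      rw [h5] at h4
      have hu := hΛ l l le_rfl
      have h6 := I.R_mul hu.2.2 h4
      rwa [← mul_assoc, inv_mul_cancel₀ hu.1, one_mul] at h6
  intro m
  rw [← sum_sub_distrib]
  apply I.sum
  intro l _
  have h1 := (hB' l).add (I.R_mul (hΛ' l) (key l))
  convert h1 using 1
  ring

/-- pairs `(a, b)` with `a, b ∈ Φ^k R` and `a ≡ b` mod `Φ^{k+2}` -/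
def J (n k : ℕ) (x y : RatFunc ℚ) : Prop := I n k x ∧ I n k y ∧ I n (k + 2) (x - y)

variable {a b c d l : RatFunc ℚ}

theorem J.add (h1 : J n k a b) (h2 : J n k c d) : J n k (a + c) (b + d) :=
  ⟨h1.1.add h2.1, h1.2.1.add h2.2.1, by
    have := h1.2.2.add h2.2.2
    rwa [show a + c - (b + d) = a - b + (c - d) by ring]⟩

theorem J.neg (h1 : J n k a b) : J n k (-a) (-b) :=
  ⟨h1.1.neg, h1.2.1.neg, by
    have := h1.2.2.neg
    rwa [show -a - -b = -(a - b) by ring]⟩

theorem J.sub (h1 : J n k a b) (h2 : J n k c d) : J n k (a - c) (b - d) := by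
  rw [sub_eq_add_neg, sub_eq_add_neg]; exact h1.add h2.neg

theorem J.mul {k' : ℕ} (h1 : J n k a b) (h2 : J n k' c d) : J n (k + k') (a * c) (b * d) :=
  ⟨h1.1.mul h2.1, h1.2.1.mul h2.2.1, by
    have e1 := h1.2.2.mul h2.1
    have e2 := h1.2.1.mul h2.2.2
    rw [show k + (k' + 2) = k + k' + 2 by ring] at e2
    rw [show k + 2 + k' = k + k' + 2 by ring] at e1
    have := e1.add e2
    rwa [show a * c - b * d = (a - b) * c + b * (c - d) by ring]⟩

theorem J.zero : J n k 0 0 := ⟨I.zero, I.zero, by rw [sub_self]; exact I.zero⟩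

theorem J.mono {k' : ℕ} (h : k' ≤ k) (h1 : J n k a b) : J n k' a b :=
  ⟨h1.1.mono h, h1.2.1.mono h, h1.2.2.mono (by omega)⟩

theorem J.const (h : I n k a) : J n k a a := ⟨h, h, by rw [sub_self]; exact I.zero⟩

theorem J.sum {ι : Type*} {s : Finset ι} {f g : ι → RatFunc ℚ} (h : ∀ i ∈ s, J n k (f i) (g i)) :
    J n k (∑ i ∈ s, f i) (∑ i ∈ s, g i) := by
  classical
  induction s using Finset.induction_on with
  | empty => simpa using J.zero
  | insert a s ha ih =>
    rw [sum_insert ha, sum_insert ha]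
    exact (h a (mem_insert_self _ _)).add (ih fun i hi => h i (mem_insert_of_mem hi))

/-- a congruence modulo `J n 1` between pairs -/
def JC (n : ℕ) (a b c d : RatFunc ℚ) : Prop := J n 1 (a - c) (b - d)

theorem JC.refl : JC n a b a b := by
  rw [JC, sub_self, sub_self]; exact J.zero

theorem JC.symm (h : JC n a b c d) : JC n c d a b := by
  have := h.neg
  rwa [neg_sub, neg_sub] at this

theorem JC.trans {e f : RatFunc ℚ} (h : JC n a b c d) (h' : JC n c d e f) : JC n a b e f := by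
  have := J.add h h'
  rwa [sub_add_sub_cancel, sub_add_sub_cancel] at this

theorem JC.mul {a' b' c' d' : RatFunc ℚ} (h : JC n a b c d) (h' : JC n a' b' c' d')
    (hc : J n 0 c d) (ha' : J n 0 a' b') : JC n (a * a') (b * b') (c * c') (d * d') := by
  have h1 : J n (1 + 0) ((a - c) * a') ((b - d) * b') := J.mul h ha'
  have h2 : J n (0 + 1) (c * (a' - c')) (d * (b' - d')) := J.mul hc h'
  have h3 := J.add h1 h2
  rw [show (a - c) * a' + c * (a' - c') = a * a' - c * c' by ring,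
    show (b - d) * b' + d * (b' - d') = b * b' - d * d' by ring] at h3
  exact h3

/-- unit pairs -/
def JU (n : ℕ) (a b : RatFunc ℚ) : Prop := IsU n a ∧ IsU n b ∧ I n 2 (a - b)

theorem JU.J0 (h : JU n a b) : J n 0 a b := ⟨I_zero_iff.2 h.1.2.1, I_zero_iff.2 h.2.1.2.1, h.2.2⟩

theorem JU.inv (h : JU n a b) : JU n a⁻¹ b⁻¹ :=
  ⟨h.1.inv, h.2.1.inv, I.inv_congr h.1 h.2.1 h.2.2⟩

theorem JU.mul (h : JU n a b) (h' : JU n c d) : JU n (a * c) (b * d) :=
  ⟨h.1.mul h'.1, h.2.1.mul h'.2.1, I.mul_congr h.2.2 h'.2.2 h.2.1.2.1 h'.1.2.1⟩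

theorem JU.const (h : IsU n a) : JU n a a := ⟨h, h, by rw [sub_self]; exact I.zero⟩

theorem JU.div (h : JU n a b) (h' : JU n c d) : JU n (a / c) (b / d) := by
  rw [div_eq_mul_inv, div_eq_mul_inv]; exact h.mul h'.inv

theorem JC.inv (hU : JU n a b) (hU' : JU n c d) (h : JC n a b c d) : JC n a⁻¹ b⁻¹ c⁻¹ d⁻¹ := by
  have h1 : J n 0 (a⁻¹ * c⁻¹) (b⁻¹ * d⁻¹) := (hU.inv.mul hU'.inv).J0
  have h2 : J n (1 + 0) ((a - c) * (a⁻¹ * c⁻¹)) ((b - d) * (b⁻¹ * d⁻¹)) := J.mul h h1
  have h3 := h2.neg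
  have a0 := hU.1.1
  have b0 := hU.2.1.1
  have c0 := hU'.1.1
  have d0 := hU'.2.1.1
  rw [show -((a - c) * (a⁻¹ * c⁻¹)) = a⁻¹ - c⁻¹ by field_simp; ring,
    show -((b - d) * (b⁻¹ * d⁻¹)) = b⁻¹ - d⁻¹ by field_simp; ring] at h3
  exact h3

theorem JC.div {a' b' c' d' : RatFunc ℚ} (h : JC n a b c d) (h' : JC n a' b' c' d')
    (hc : J n 0 c d) (ha' : JU n a' b') (hc' : JU n c' d') :
    JC n (a / a') (b / b') (c / c') (d / d') := by
  simp only [div_eq_mul_inv]
  exact h.mul (h'.inv ha' hc') hc ha'.inv.J0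

theorem JU.one : JU n 1 1 := JU.const IsU.one

theorem JU.prod {ι : Type*} {s : Finset ι} {f g : ι → RatFunc ℚ} (h : ∀ i ∈ s, JU n (f i) (g i)) :
    JU n (∏ i ∈ s, f i) (∏ i ∈ s, g i) := by
  classical
  induction s using Finset.induction_on with
  | empty => simpa using JU.one
  | insert a s ha ih =>
    rw [prod_insert ha, prod_insert ha]
    exact (h a (mem_insert_self _ _)).mul (ih fun i hi => h i (mem_insert_of_mem hi))

theorem JC.prod {ι : Type*} {s : Finset ι} {f g f' g' : ι → RatFunc ℚ}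
    (h : ∀ i ∈ s, JC n (f i) (g i) (f' i) (g' i)) (h0 : ∀ i ∈ s, J n 0 (f i) (g i))
    (h1 : ∀ i ∈ s, J n 0 (f' i) (g' i)) :
    JC n (∏ i ∈ s, f i) (∏ i ∈ s, g i) (∏ i ∈ s, f' i) (∏ i ∈ s, g' i) ∧
      J n 0 (∏ i ∈ s, f i) (∏ i ∈ s, g i) ∧ J n 0 (∏ i ∈ s, f' i) (∏ i ∈ s, g' i) := by
  classical
  induction s using Finset.induction_on with
  | empty => simpa using ⟨JC.refl, JU.one.J0⟩
  | insert a s ha ih =>
    obtain ⟨i1, i2, i3⟩ := ih (fun i hi => h i (mem_insert_of_mem hi))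
      (fun i hi => h0 i (mem_insert_of_mem hi)) (fun i hi => h1 i (mem_insert_of_mem hi))
    simp only [prod_insert ha]
    exact ⟨(h a (mem_insert_self _ _)).mul i1 (h1 a (mem_insert_self _ _)) i2,
      (h0 a (mem_insert_self _ _)).mul i2, (h1 a (mem_insert_self _ _)).mul i3⟩

section main

variable {a b : ℕ → ℕ} {d : RatFunc ℚ → RatFunc ℚ} {M : ℕ}

/-- The block theorem modulo `Φ_n³`. -/
theorem Hyp.main3 (H : Hyp a b d n M) (W : ℕ → RatFunc ℚ) (hW : ∀ k, W k ∈ R n)
    (hWt : ∀ l i, M < i → i < n → I n 1 (W (l * n + i)))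
    (hJ : ∀ l s, I n 2 (s - 2) →
      J n 1 (∑ i ∈ range (M + 1), W (l * n + i) * ∏ u ∈ range i, rho a b d s (l * n + u))
        (∑ i ∈ range (M + 1), W (l * n + i) * ∏ u ∈ range i, rho a b d 2 (l * n + u)))
    (C : RatFunc ℚ) (W' : ℕ → RatFunc ℚ)
    (hcf : ∀ l, I n 3 (∑ k ∈ range (l * n + M + 1), W k * ∏ u ∈ range k, rho a b d (sv (a l * n)) u -
      C * ∑ t ∈ range (l + 1), W' t * ∏ u ∈ range t, EE' a b d n (sv (a l * n)) u)) (m : ℕ) :
    I n 3 (∑ k ∈ range (m * n), W k * ∏ u ∈ range k, rho a b d 2 u -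
      C * ∑ t ∈ range m, W' t * ∏ u ∈ range t, EE' a b d n 2 u) := by
  have hMn := H.hM
  set α : RatFunc ℚ → ℕ → RatFunc ℚ := fun s k => W k * ∏ u ∈ range k, rho a b d s u with hα
  set B : ℕ → RatFunc ℚ → RatFunc ℚ := fun l s => ∑ i ∈ range n, α s (l * n + i) with hBdef
  set Λ : ℕ → RatFunc ℚ → RatFunc ℚ := fun l s => ∏ t ∈ range l, EE' a b d n s t with hΛdef
  set β : ℕ → RatFunc ℚ := fun l => (∏ t ∈ range l, NN a b d n M 2 t) *
    ∑ i ∈ range (M + 1), W (l * n + i) * ∏ u ∈ range i, rho a b d 2 (l * n + u) with hβdef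
  have hsumB : ∀ (s : RatFunc ℚ) (m : ℕ), ∑ k ∈ range (m * n), α s k = ∑ l ∈ range m, B l s := by
    intro s m
    induction m with
    | zero => simp
    | succ m ih => rw [add_mul, one_mul, sum_range_add, ih, sum_range_succ]
  have hαsplit : ∀ s l i, α s (l * n + i) = Λ l s * ((∏ t ∈ range l, NN a b d n M s t) *
      (W (l * n + i) * ∏ u ∈ range i, rho a b d s (l * n + u))) := by
    intro s l i
    simp only [hα, hΛdef]
    rw [prod_range_add, H.prod_full]
    ring
  -- the block congruence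
  have hBcong : ∀ l s, I n 2 (s - 2) → Λ l s ∈ R n → I n 3 (B l s - Λ l s * β l) := by
    intro l s hs hmem
    have hz : I n 2 ((2 : RatFunc ℚ) - 2) := by rw [sub_self]; exact I.zero
    have hNs : JU n (∏ t ∈ range l, NN a b d n M s t) (∏ t ∈ range l, NN a b d n M 2 t) :=
      JU.prod fun t _ => ⟨(H.N_congr hs t).2, (H.N_congr hz t).2, (H.N_congr hs t).1⟩
    have h1 : B l s = Λ l s * ((∏ t ∈ range l, NN a b d n M s t) *
        (∑ i ∈ range (M + 1),
        (W (l * n + i) * ∏ u ∈ range i, rho a b d s (l * n + u))) +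
        ∑ i ∈ range (n - (M + 1)), (∏ t ∈ range l, NN a b d n M s t) *
        (W (l * n + (M + 1 + i)) * ∏ u ∈ range (M + 1 + i), rho a b d s (l * n + u))) := by
      simp only [hBdef]
      rw [show range n = range (M + 1 + (n - (M + 1))) by congr 1; omega, sum_range_add, mul_add,
        mul_sum, mul_sum, mul_sum]
      congr 1
      · exact sum_congr rfl fun i _ => hαsplit s l i
      · exact sum_congr rfl fun i _ => hαsplit s l (M + 1 + i)
    rw [h1, ← mul_sub]
    refine I.R_mul hmem ?_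
    rw [hβdef]
    simp only
    rw [add_sub_right_comm]
    refine I.add ?_ (I.sum fun i hi => ?_)
    · have h2 := J.mul hNs.J0 (hJ l s hs)
      exact h2.2.2
    · have hi := mem_range.1 hi
      refine I.R_mul hNs.1.2.1 ?_
      exact (hWt l _ (by omega) (by omega)).mul (H.tail hs l (by omega) (by omega))
  have hs : ∀ j, I n 2 (sv (a j * n) - 2) := fun j => sv_two H.hn (dvd_mul_left _ _)
  have hz : I n 2 ((2 : RatFunc ℚ) - 2) := by rw [sub_self]; exact I.zero
  have hΛU : ∀ l j, l ≤ j → IsU n (Λ l (sv (a j * n))) := by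
    intro l j hlj
    exact IsU.prod fun t ht => H.E_U (lt_of_lt_of_le (mem_range.1 ht) hlj)
  have hΛ2 : ∀ l, Λ l 2 ∈ R n := fun l => prod_mem fun t _ => (H.E_U_two t).2.1
  have hvan : ∀ l i, M < i → α (sv (a l * n)) (l * n + i) = 0 := by
    intro l i hi
    simp only [hα]
    rw [prod_range_add, ← mul_prod_erase (range i) _ (mem_range.2 hi)]
    simp only [rho]
    rw [H.ha, f_sv_self]
    ring
  have main := abstract_block' 3 B Λ β (fun t => C * W' t) (fun j => sv (a j * n)) 2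
    (fun l j hlj => hBcong l _ (hs j) (hΛU l j hlj).2.1) (fun l => hBcong l _ hz (hΛ2 l)) hΛU hΛ2
    (by
      intro l
      have h1 := hcf l
      have h2 : ∑ t ∈ range (l + 1), B t (sv (a l * n)) =
          ∑ k ∈ range (l * n + M + 1), W k * ∏ u ∈ range k, rho a b d (sv (a l * n)) u := by
        rw [← hsumB, show (l + 1) * n = (l * n + M + 1) + (n - (M + 1)) by
          rw [add_mul, one_mul]; omega, sum_range_add]
        have : ∑ i ∈ range (n - (M + 1)), α (sv (a l * n)) (l * n + M + 1 + i) = 0 := by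
          apply sum_eq_zero
          intro i _
          rw [show l * n + M + 1 + i = l * n + (M + 1 + i) by ring]
          exact hvan l _ (by omega)
        rw [this, add_zero]
      have h3 : ∑ t ∈ range (l + 1), Λ t (sv (a l * n)) * (C * W' t) =
          C * ∑ t ∈ range (l + 1), W' t * ∏ u ∈ range t, EE' a b d n (sv (a l * n)) u := by
        rw [mul_sum]
        refine sum_congr rfl fun t _ => ?_
        simp only [hΛdef]; ring
      rw [h2, h3]
      exact h1) m
  have h2 : ∑ k ∈ range (m * n), W k * ∏ u ∈ range k, rho a b d 2 u = ∑ l ∈ range m, B l 2 :=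
    hsumB 2 m
  have h3 : C * ∑ t ∈ range m, W' t * ∏ u ∈ range t, EE' a b d n 2 u =
      ∑ t ∈ range m, Λ t 2 * (C * W' t) := by
    rw [mul_sum]
    refine sum_congr rfl fun t _ => ?_
    simp only [hΛdef]; ring
  rw [h2, h3]
  exact main

end main

end

end V11307.Q
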