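import Pool.Agent.V11307.QClosed3
import Pool.Agent.V11307.QClosed2

/-!
Closed form of Andrews' type for
`∑ g^{2k} (g²;g⁴)_k (g^{2M+2};g²)_k (g^{-2M};g²)_k / ((g⁴;g⁴)_k (g²;g²)_k²)`.
-/

open Finset

namespace V11307.WZ

variable {F : Type*} [Field F]

def t4 (g : F) (M k : ℕ) : F :=
  g ^ (2 * k) * (poch (g ^ 2) (g ^ 4) k * poch (g ^ (2 * M + 2)) (g ^ 2) k *
    poch (g ^ (2 * M))⁻¹ (g ^ 2) k) / (poch (g ^ 4) (g ^ 4) k * poch (g ^ 2) (g ^ 2) k ^ 2)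

def g4 (g : F) (M k : ℕ) : F :=
  (1 - g ^ (4 * M + 6)) / (1 - g ^ (2 * M + 4)) ^ 2 *
    (poch (g ^ 2) (g ^ 4) (k + 1) * poch (g ^ (2 * M + 4)) (g ^ 2) k *
    poch (g ^ (2 * M + 2))⁻¹ (g ^ 2) k) / (poch (g ^ 4) (g ^ 4) k * poch (g ^ 2) (g ^ 2) k ^ 2)

def ρ4 (g : F) (M : ℕ) : F := g ^ 2 * ((1 - g ^ (2 * M + 2)) / (1 - g ^ (2 * M + 4))) ^ 2

theorem cert4 {g : F} (hg0 : g ≠ 0) (hg : ∀ j, 1 ≤ j → g ^ j ≠ 1) (M K : ℕ) :
    ∑ k ∈ range (K + 1), (t4 g (M + 2) k - ρ4 g M * t4 g M k) = g4 g M K := by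
  have ng : ∀ j, 1 ≤ j → (1 : F) - g ^ j ≠ 0 := by
    intro j hj h
    exact hg j hj (by linear_combination -h)
  have n1 : ∀ k, poch (g ^ 4) (g ^ 4) k ≠ 0 := fun k => poch_ne _ _ _ fun i _ => by
    rw [← pow_mul, ← pow_add]; exact hg _ (by omega)
  have n2 : ∀ k, poch (g ^ 2) (g ^ 2) k ≠ 0 := fun k => poch_ne _ _ _ fun i _ => by
    rw [← pow_mul, ← pow_add]; exact hg _ (by omega)
  have hZ := pow_ne_zero (2 * M) hg0
  induction K with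
  | zero =>
    simp only [zero_add, range_one, sum_singleton, t4, g4, ρ4, mul_zero, pow_zero, poch, range_zero,
      prod_empty, prod_singleton, mul_one, div_one, one_pow]
    have h1 := ng (2 * M + 4) (by omega)
    have e1 : g ^ (4 * M + 6) = g ^ (2 * M + 4) * g ^ (2 * M + 2) := by
      rw [← pow_add]; congr 1; ring
    have e2 : g ^ (2 * M + 4) = g ^ (2 * M + 2) * g ^ 2 := by rw [← pow_add]
    rw [e1]
    rw [e2] at h1 ⊢
    generalize g ^ (2 * M + 2) = y at *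
    generalize hd1 : 1 - y * g ^ 2 = d1 at *
    field_simp
    rw [← hd1]
    ring
  | succ K ih =>
    rw [sum_range_succ, ih]
    have p1 := poch_succ (g ^ 4) (g ^ 4) K
    have p2 := poch_succ (g ^ 2) (g ^ 2) K
    have p3 := poch_succ (g ^ 2) (g ^ 4) (K + 1)
    have p4 : poch (g ^ (2 * M + 2)) (g ^ 2) (K + 1) =
        (1 - g ^ (2 * M + 2)) * poch (g ^ (2 * M + 4)) (g ^ 2) K := by
      rw [poch_succ', ← pow_add]
    have p5 := poch_succ (g ^ (2 * M + 4)) (g ^ 2) K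
    have p6 : (1 - g ^ (2 * M + 4)) * poch (g ^ (2 * (M + 2) + 2)) (g ^ 2) (K + 1) =
        poch (g ^ (2 * M + 4)) (g ^ 2) K * (1 - g ^ (2 * M + 4) * (g ^ 2) ^ K) *
          (1 - g ^ (2 * M + 4) * (g ^ 2) ^ (K + 1)) := by
      rw [← poch_succ, ← poch_succ, poch_succ' (g ^ (2 * M + 4)) (g ^ 2) (K + 1), ← pow_add,
        show 2 * M + 4 + 2 = 2 * (M + 2) + 2 by ring]
    have hz1 : (g ^ (2 * (M + 2)))⁻¹ * g ^ 2 = (g ^ (2 * M + 2))⁻¹ := by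
      rw [show 2 * (M + 2) = 2 * M + 2 + 2 by ring, pow_add g (2 * M + 2)]
      have := pow_ne_zero (2 * M + 2) hg0
      field_simp
    have hz2 : (g ^ (2 * M + 2))⁻¹ * g ^ 2 = (g ^ (2 * M))⁻¹ := by
      rw [pow_add g (2 * M)]
      field_simp
    have p7 : poch (g ^ (2 * (M + 2)))⁻¹ (g ^ 2) (K + 1) =
        (1 - (g ^ (2 * (M + 2)))⁻¹) * poch (g ^ (2 * M + 2))⁻¹ (g ^ 2) K := by
      rw [poch_succ', hz1]
    have p8 : (1 - (g ^ (2 * M + 2))⁻¹) * poch (g ^ (2 * M))⁻¹ (g ^ 2) (K + 1) =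
        poch (g ^ (2 * M + 2))⁻¹ (g ^ 2) K * (1 - (g ^ (2 * M + 2))⁻¹ * (g ^ 2) ^ K) *
          (1 - (g ^ (2 * M + 2))⁻¹ * (g ^ 2) ^ (K + 1)) := by
      rw [← poch_succ, ← poch_succ, poch_succ' (g ^ (2 * M + 2))⁻¹ (g ^ 2) (K + 1), hz2]
    have p9 := poch_succ (g ^ (2 * M + 2))⁻¹ (g ^ 2) K
    have c1 : (1 : F) - g ^ 4 * (g ^ 4) ^ K ≠ 0 := by rw [← pow_succ', ← pow_mul]; exact ng _ (by omega)
    have c2 : (1 : F) - g ^ 2 * (g ^ 2) ^ K ≠ 0 := by rw [← pow_succ', ← pow_mul]; exact ng _ (by omega)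
    have c3 := ng (2 * M + 4) (by omega)
    have c4 : (1 : F) - (g ^ (2 * M + 2))⁻¹ ≠ 0 := by
      have := zi_ne hg0 hg (N := 2 * M + 2) (i := 0) (by omega)
      rwa [pow_zero, mul_one] at this
    have p6' : poch (g ^ (2 * (M + 2) + 2)) (g ^ 2) (K + 1) =
        poch (g ^ (2 * M + 4)) (g ^ 2) K * (1 - g ^ (2 * M + 4) * (g ^ 2) ^ K) *
          (1 - g ^ (2 * M + 4) * (g ^ 2) ^ (K + 1)) / (1 - g ^ (2 * M + 4)) := by
      rw [eq_div_iff c3, ← p6]; ring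
    have p8' : poch (g ^ (2 * M))⁻¹ (g ^ 2) (K + 1) =
        poch (g ^ (2 * M + 2))⁻¹ (g ^ 2) K * (1 - (g ^ (2 * M + 2))⁻¹ * (g ^ 2) ^ K) *
          (1 - (g ^ (2 * M + 2))⁻¹ * (g ^ 2) ^ (K + 1)) / (1 - (g ^ (2 * M + 2))⁻¹) := by
      rw [eq_div_iff c4, ← p8]; ring
    have a1 := n1 K
    have a2 := n2 K
    simp only [t4, g4, ρ4] at *
    rw [p1, p2, p3, p4, p5, p6', p7, p8', p9]
    generalize hd1 : (1 : F) - g ^ 4 * (g ^ 4) ^ K = d1 at *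
    generalize hd2 : (1 : F) - g ^ 2 * (g ^ 2) ^ K = d2 at *
    generalize hd3 : 1 - g ^ (2 * M + 4) = d3 at *
    generalize hd4 : 1 - (g ^ (2 * M + 2))⁻¹ = d4 at *
    generalize poch (g ^ 4) (g ^ 4) K = b1 at *
    generalize poch (g ^ 2) (g ^ 2) K = b2 at *
    generalize poch (g ^ 2) (g ^ 4) (K + 1) = b3 at *
    generalize poch (g ^ (2 * M + 4)) (g ^ 2) K = b4 at *
    generalize poch (g ^ (2 * M + 2))⁻¹ (g ^ 2) K = b5 at *
    have key : g ^ (2 * (K + 1)) * ((1 - g ^ (2 * M + 4) * (g ^ 2) ^ K) *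
          (1 - g ^ (2 * M + 4) * (g ^ 2) ^ (K + 1)) / d3) * (1 - (g ^ (2 * (M + 2)))⁻¹) / (d1 * d2 ^ 2) -
        g ^ 2 * ((1 - g ^ (2 * M + 2)) / d3) ^ 2 * (g ^ (2 * (K + 1)) * (1 - g ^ (2 * M + 2)) *
          ((1 - (g ^ (2 * M + 2))⁻¹ * (g ^ 2) ^ K) *
          (1 - (g ^ (2 * M + 2))⁻¹ * (g ^ 2) ^ (K + 1)) / d4) / (d1 * d2 ^ 2)) =
        (1 - g ^ (4 * M + 6)) / d3 ^ 2 * ((1 - g ^ 2 * (g ^ 4) ^ (K + 1)) *
          (1 - g ^ (2 * M + 4) * (g ^ 2) ^ K) * (1 - (g ^ (2 * M + 2))⁻¹ * (g ^ 2) ^ K)) / (d1 * d2 ^ 2) -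
        (1 - g ^ (4 * M + 6)) / d3 ^ 2 := by
      field_simp
      rw [← hd1, ← hd2, ← hd3, ← hd4]
      have w1 : g ^ (2 * (K + 1)) = g ^ 2 * (g ^ K) ^ 2 := by ring
      have w2 : (g ^ 2) ^ K = (g ^ K) ^ 2 := by ring
      have w3 : (g ^ 2) ^ (K + 1) = g ^ 2 * (g ^ K) ^ 2 := by ring
      have w4 : (g ^ 4) ^ K = (g ^ K) ^ 4 := by ring
      have w5 : (g ^ 4) ^ (K + 1) = g ^ 4 * (g ^ K) ^ 4 := by ring
      have w6 : g ^ (2 * M + 4) = g ^ 4 * g ^ (2 * M) := by ring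
      have w7 : g ^ (2 * M + 2) = g ^ 2 * g ^ (2 * M) := by ring
      have w8 : g ^ (2 * (M + 2)) = g ^ 4 * g ^ (2 * M) := by ring
      have w9 : g ^ (4 * M + 6) = g ^ 6 * (g ^ (2 * M)) ^ 2 := by ring
      rw [w1, w2, w3, w4, w5, w6, w7, w8, w9]
      generalize g ^ K = X at *
      generalize g ^ (2 * M) = Z at *
      field_simp
      ring
    linear_combination (b3 * b4 * b5 / (b1 * b2 ^ 2)) * key

theorem sum4_rec {g : F} (hg0 : g ≠ 0) (hg : ∀ j, 1 ≤ j → g ^ j ≠ 1) (M : ℕ) :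
    ∑ k ∈ range (M + 2 + 1), t4 g (M + 2) k = ρ4 g M * ∑ k ∈ range (M + 1), t4 g M k := by
  have h := cert4 hg0 hg M (M + 2)
  have hgz : g4 g M (M + 2) = 0 := by
    have hp : poch (g ^ (2 * M + 2))⁻¹ (g ^ 2) (M + 2) = 0 := by
      refine poch_zero_of (show M + 1 < M + 2 by omega) ?_
      rw [← pow_mul, show 2 * (M + 1) = 2 * M + 2 by ring]
      exact inv_mul_cancel₀ (pow_ne_zero _ hg0)
    rw [g4, hp]; simp
  have htz : ∀ k, M < k → t4 g M k = 0 := by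
    intro k hk
    have hp : poch (g ^ (2 * M))⁻¹ (g ^ 2) k = 0 := by
      refine poch_zero_of hk ?_
      rw [← pow_mul]
      exact inv_mul_cancel₀ (pow_ne_zero _ hg0)
    rw [t4, hp]; simp
  rw [hgz, sum_sub_distrib, ← mul_sum, sum_range_succ (fun k => t4 g M k),
    sum_range_succ (fun k => t4 g M k), htz (M + 2) (by omega), htz (M + 1) (by omega), add_zero,
    add_zero, sub_eq_zero] at h
  exact h

theorem sum4_even {g : F} (hg0 : g ≠ 0) (hg : ∀ j, 1 ≤ j → g ^ j ≠ 1) (μ : ℕ) :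
    ∑ k ∈ range (2 * μ + 1), t4 g (2 * μ) k =
      g ^ (2 * μ) * (∏ i ∈ range μ, (1 - g ^ (4 * i + 2)) / (1 - g ^ (4 * i + 4))) ^ 2 := by
  induction μ with
  | zero => simp [t4, poch]
  | succ μ ih =>
    rw [show 2 * (μ + 1) = 2 * μ + 2 by ring, sum4_rec hg0 hg, ih, ρ4, prod_range_succ]
    rw [show 2 * (2 * μ) + 2 = 4 * μ + 2 by ring, show 2 * (2 * μ) + 4 = 4 * μ + 4 by ring,
      pow_add g (2 * μ) 2]
    ring

theorem sum4_odd {g : F} (hg0 : g ≠ 0) (hg : ∀ j, 1 ≤ j → g ^ j ≠ 1) (μ : ℕ) :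
    ∑ k ∈ range (2 * μ + 1 + 1), t4 g (2 * μ + 1) k = 0 := by
  induction μ with
  | zero =>
    have ng : ∀ j, 1 ≤ j → (1 : F) - g ^ j ≠ 0 := by
      intro j hj h
      exact hg j hj (by linear_combination -h)
    have h2 := ng 2 (by omega)
    have h4 := ng 4 (by omega)
    rw [sum_range_succ, mul_zero, zero_add, sum_range_one]
    simp only [t4, poch, mul_one, range_zero, prod_empty, range_one, prod_singleton, pow_zero,
      mul_zero, div_one, one_pow]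
    norm_num
    generalize hd2 : (1 : F) - g ^ 2 = d2 at *
    generalize hd4 : (1 : F) - g ^ 4 = d4 at *
    field_simp
    rw [← hd2]
    ring
  | succ μ ih =>
    rw [show 2 * (μ + 1) + 1 = (2 * μ + 1) + 2 by ring, sum4_rec hg0 hg, ih, mul_zero]

theorem ffg_two (g : F) (e : ℕ) : ffg g 2 e = (1 - g ^ e) ^ 2 := by
  rw [ffg]; ring

/-- the deformed sum in terms of `t4` -/
theorem cf4 {g : F} (hg0 : g ≠ 0) (M : ℕ) :
    ∑ k ∈ range (M + 1), (g ^ (2 * k) * ∏ u ∈ range k, (1 - g ^ (4 * u + 2)) / (1 - g ^ (4 * u + 4))) *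
      ∏ u ∈ range k, ffg g (svg g (2 * M + 1)) (2 * u + 1) / ffg g 2 (2 * u + 2) =
    ∑ k ∈ range (M + 1), t4 g M k := by
  refine sum_congr rfl fun k _ => ?_
  rw [t4, prod_div_distrib, prod_div_distrib]
  simp only [ffg_svg hg0, ffg_two]
  rw [prod_mul_distrib, prod_pow]
  have p1 := poch_eq g 2 4 k
  have p2 := poch_eq g 4 4 k
  have p3 : ∏ u ∈ range k, (1 - g ^ (2 * u + 1 + (2 * M + 1))) = poch (g ^ (2 * M + 2)) (g ^ 2) k := by
    rw [← poch_eq g (2 * M + 2) 2 k]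
    exact prod_congr rfl fun u _ => by congr 2; ring
  have p4 := poch_eq g 2 2 k
  have p5 : ∏ u ∈ range k, (1 - g ^ (2 * u + 1) * (g ^ (2 * M + 1))⁻¹) =
      poch (g ^ (2 * M))⁻¹ (g ^ 2) k := by
    rw [poch_eq' g _ 1 2 k]
    congr 1
    rw [pow_succ g (2 * M), pow_one]
    have := pow_ne_zero (2 * M) hg0
    field_simp
  rw [p1, p2, p3, p4, p5]
  simp only [div_eq_mul_inv, mul_inv]
  ring

end V11307.WZ
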