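import Mathlib

/-!
Gaussian binomial coefficients over a commutative ring.
-/

open Finset

namespace V11307.GB

variable {S : Type*} [CommRing S]

/-- Gaussian binomial coefficient by the `q`-Pascal rule -/
def gb (g : S) : ℕ → ℕ → S
  | _, 0 => 1
  | 0, _ + 1 => 0
  | n + 1, k + 1 => gb g n k + g ^ (k + 1) * gb g n (k + 1)

@[simp] theorem gb_zero (g : S) (n : ℕ) : gb g n 0 = 1 := by
  cases n <;> rfl

@[simp] theorem gb_zero_succ (g : S) (k : ℕ) : gb g 0 (k + 1) = 0 := rfl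

theorem gb_succ (g : S) (n k : ℕ) : gb g (n + 1) (k + 1) = gb g n k + g ^ (k + 1) * gb g n (k + 1) := rfl

theorem gb_gt (g : S) : ∀ n k, n < k → gb g n k = 0
  | 0, k + 1, _ => rfl
  | n + 1, k + 1, h => by
    rw [gb_succ, gb_gt g n k (by omega), gb_gt g n (k + 1) (by omega)]; ring

theorem gb_self (g : S) : ∀ n, gb g n n = 1
  | 0 => rfl
  | n + 1 => by rw [gb_succ, gb_self g n, gb_gt g n (n + 1) (by omega)]; ring

/-- `(1-g^{k+1}) [n,k+1] = (1-g^{n-k}) [n,k]` -/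
theorem gb_step (g : S) (n : ℕ) : ∀ k, (1 - g ^ (k + 1)) * gb g n (k + 1) = (1 - g ^ (n - k)) * gb g n k := by
  induction n with
  | zero => intro k; simp
  | succ n ih =>
    intro k
    rcases lt_trichotomy k (n + 1) with h | h | h
    · have e1 : (1 - g ^ (k + 1)) * gb g (n + 1) (k + 1) = (1 - g ^ (n + 1)) * gb g n k := by
        rw [gb_succ]
        have h1 := ih k
        have h2 : g ^ (n + 1) = g ^ (k + 1) * g ^ (n - k) := by rw [← pow_add]; congr 1; omega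
        rw [h2]
        linear_combination g ^ (k + 1) * h1
      rw [e1]
      rcases k with _ | k
      · simp
      · rw [gb_succ]
        have h1 := ih k
        have h2 : g ^ (n + 1) = g ^ (k + 1) * g ^ (n - k) := by rw [← pow_add]; congr 1; omega
        rw [h2, show n + 1 - (k + 1) = n - k by omega]
        linear_combination h1
    · subst h
      rw [gb_gt g (n + 1) (n + 1 + 1) (by omega)]; simp
    · rw [gb_gt g (n + 1) (k + 1) (by omega), gb_gt g (n + 1) k (by omega)]; ring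

/-- `(1-g^{k+1}) [n+1,k+1] = (1-g^{n+1}) [n,k]` -/
theorem gb_absorb (g : S) (n k : ℕ) : (1 - g ^ (k + 1)) * gb g (n + 1) (k + 1) = (1 - g ^ (n + 1)) * gb g n k := by
  rcases Nat.lt_or_ge n k with h | h
  · rw [gb_gt g (n + 1) (k + 1) (by omega), gb_gt g n k h]; ring
  · rw [gb_succ]
    have h1 := gb_step g n k
    have h2 : g ^ (n + 1) = g ^ (k + 1) * g ^ (n - k) := by rw [← pow_add]; congr 1; omega
    rw [h2]
    linear_combination g ^ (k + 1) * h1

/-- second Pascal rule -/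
theorem gb_succ' (g : S) (n k : ℕ) : gb g (n + 1) (k + 1) = g ^ (n - k) * gb g n k + gb g n (k + 1) := by
  rw [gb_succ]
  linear_combination gb_step g n k * (-1 : S)

theorem map_gb {T : Type*} [CommRing T] (f : S →+* T) (g : S) : ∀ n k, f (gb g n k) = gb (f g) n k
  | _, 0 => by simp
  | 0, k + 1 => by simp
  | n + 1, k + 1 => by rw [gb_succ, gb_succ, map_add, map_mul, map_pow, map_gb f g n k, map_gb f g n (k + 1)]

/-- product formula -/
theorem gb_prod (g : S) (k : ℕ) : ∀ n, gb g (n + k) k * ((∏ i ∈ range n, (1 - g ^ (i + 1))) *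
    ∏ i ∈ range k, (1 - g ^ (i + 1))) = ∏ i ∈ range (n + k), (1 - g ^ (i + 1)) := by
  induction k with
  | zero => intro n; simp
  | succ k ih =>
    intro n
    rw [prod_range_succ (fun i => 1 - g ^ (i + 1)) k, ← add_assoc,
      prod_range_succ (fun i => 1 - g ^ (i + 1)) (n + k), ← ih n]
    linear_combination ((∏ i ∈ range n, (1 - g ^ (i + 1))) * ∏ i ∈ range k, (1 - g ^ (i + 1))) *
      gb_absorb g (n + k) k

/-- `[2N, N-m]` -/
def cc (g : S) (N m : ℕ) : S := if m ≤ N then gb g (2 * N) (N - m) else 0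

theorem cc_of_gt (g : S) {N m : ℕ} (h : N < m) : cc g N m = 0 := if_neg (by omega)

theorem cc_zero (g : S) (N : ℕ) : cc g N 0 = gb g (2 * N) N := by simp [cc]

/-- step relation -/
theorem cc_step (g : S) (N m : ℕ) : (g ^ m - g ^ (N + 2 * m + 1)) * cc g N (m + 1) = (g ^ m - g ^ N) * cc g N m := by
  rcases lt_trichotomy N m with h | h | h
  · rw [cc_of_gt g h, cc_of_gt g (by omega)]; ring
  · subst h; rw [cc_of_gt g (by omega)]; ring
  · rw [cc, cc, if_pos (by omega), if_pos (by omega)]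
    have h1 := gb_step g (2 * N) (N - (m + 1))
    rw [show N - (m + 1) + 1 = N - m by omega, show 2 * N - (N - (m + 1)) = N + m + 1 by omega] at h1
    have h2 : g ^ N = g ^ m * g ^ (N - m) := by rw [← pow_add]; congr 1; omega
    have h3 : g ^ (N + 2 * m + 1) = g ^ m * g ^ (N + m + 1) := by rw [← pow_add]; congr 1; omega
    rw [h3, h2]
    linear_combination (-g ^ m) * h1

/-- Pascal relation -/
theorem cc_pascal (g : S) (N m : ℕ) : g ^ (m + 1) * cc g (N + 1) (m + 1) =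
    g ^ (m + 1) * (1 + g ^ (2 * N + 1)) * cc g N (m + 1) + g ^ (N + 2 * m + 3) * cc g N (m + 2) +
      g ^ (N + 1) * cc g N m := by
  rcases lt_trichotomy N m with h | h | h
  · rw [cc_of_gt g (by omega), cc_of_gt g (by omega), cc_of_gt g (by omega), cc_of_gt g (by omega)]; ring
  · subst h
    rw [cc_of_gt g (N := N) (m := N + 1) (by omega), cc_of_gt g (N := N) (m := N + 2) (by omega)]
    simp [cc]
  · obtain ⟨k, rfl⟩ := Nat.exists_eq_add_of_lt h
    -- N = m + k + 1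
    have e0 : cc g (m + k + 1 + 1) (m + 1) = gb g (2 * (m + k + 1) + 1 + 1) (k + 1) := by
      rw [cc, if_pos (by omega)]; congr 1; omega
    have e1 : cc g (m + k + 1) (m + 1) = gb g (2 * (m + k + 1)) k := by
      rw [cc, if_pos (by omega)]; congr 1; omega
    have e2 : cc g (m + k + 1) m = gb g (2 * (m + k + 1)) (k + 1) := by
      rw [cc, if_pos (by omega)]; congr 1; omega
    rw [e0, e1, e2, gb_succ, gb_succ' g (2 * (m + k + 1)) k]
    rcases k with _ | k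
    · rw [cc_of_gt g (by omega)]
      simp only [gb_zero]
      rw [show 2 * (m + 0 + 1) - 0 = 2 * m + 2 by omega, show m + 0 + 1 = m + 1 by omega]
      ring
    · have e3 : cc g (m + (k + 1) + 1) (m + 2) = gb g (2 * (m + (k + 1) + 1)) k := by
        rw [cc, if_pos (by omega)]; congr 1; omega
      rw [e3, gb_succ' g (2 * (m + (k + 1) + 1)) k,
        show 2 * (m + (k + 1) + 1) - k = 2 * m + k + 4 by omega,
        show 2 * (m + (k + 1) + 1) - (k + 1) = 2 * m + k + 3 by omega]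
      ring

/-- `i`-th term of `Ã_N` -/
def At (g : S) (N i : ℕ) : S :=
  g ^ (5 * i * (2 * i + 1)) * cc g N (5 * i + 1) - g ^ (5 * (i + 1) * (2 * i + 1)) * cc g N (5 * i + 4)

/-- `i`-th term of `B̃_N` -/
def Bt (g : S) (N i : ℕ) : S :=
  g ^ (5 * (i + 1) * (2 * i + 1)) * cc g N (5 * i + 3) - g ^ (5 * i * (2 * i + 1)) * cc g N (5 * i + 2)

section dom

variable [IsDomain S]

theorem Bt_rec {g : S} (hg : g ≠ 0) (N i : ℕ) : Bt g (N + 1) i = g ^ (2 * N) * Bt g N i - At g N i := by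
  have h1 := cc_pascal g N (5 * i + 1)
  have h2 := cc_pascal g N (5 * i + 2)
  have h3 := cc_step g N (5 * i + 1)
  have h4 := cc_step g N (5 * i + 2)
  have h5 := cc_step g N (5 * i + 3)
  simp only [show 5 * i + 1 + 1 = 5 * i + 2 from rfl, show 5 * i + 1 + 2 = 5 * i + 3 from rfl,
    show 5 * i + 2 + 2 = 5 * i + 4 from rfl] at h1 h2 h3 h4 h5
  have hX : g ^ (5 * i) ≠ 0 := pow_ne_zero _ hg
  rw [At, Bt, Bt]
  have e1 : g ^ (5 * (i + 1) * (2 * i + 1)) = g ^ (5 * i * (2 * i + 1)) * (g ^ 5 * (g ^ (5 * i)) ^ 2) := by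
    ring
  rw [e1]
  generalize g ^ (5 * i * (2 * i + 1)) = W
  have r : ∀ a b : ℕ, g ^ (a + b) = g ^ a * g ^ b := fun a b => pow_add g a b
  have e2 : g ^ (N + 2 * (5 * i + 1) + 3) = g ^ N * (g ^ (5 * i)) ^ 2 * g ^ 5 := by ring
  have e3 : g ^ (N + 2 * (5 * i + 2) + 3) = g ^ N * (g ^ (5 * i)) ^ 2 * g ^ 7 := by ring
  have e4 : g ^ (N + 2 * (5 * i + 1) + 1) = g ^ N * (g ^ (5 * i)) ^ 2 * g ^ 3 := by ring
  have e5 : g ^ (N + 2 * (5 * i + 2) + 1) = g ^ N * (g ^ (5 * i)) ^ 2 * g ^ 5 := by ring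
  have e6 : g ^ (N + 2 * (5 * i + 3) + 1) = g ^ N * (g ^ (5 * i)) ^ 2 * g ^ 7 := by ring
  have e7 : g ^ (2 * N + 1) = (g ^ N) ^ 2 * g := by ring
  have e8 : g ^ (2 * N) = (g ^ N) ^ 2 := by ring
  rw [e2, e7, r (5 * i) 2] at h1
  rw [e3, e7, r (5 * i) 3] at h2
  rw [e4, r (5 * i) 1] at h3
  rw [e5, r (5 * i) 2] at h4
  rw [e6, r (5 * i) 3] at h5
  rw [e8]
  generalize g ^ (5 * i) = X at *
  rw [r N 1] at h1 h2
  generalize g ^ N = Y at *
  generalize cc g N (5 * i + 1) = c1 at *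
  generalize cc g N (5 * i + 2) = c2 at *
  generalize cc g N (5 * i + 3) = c3 at *
  generalize cc g N (5 * i + 4) = c4 at *
  generalize cc g (N + 1) (5 * i + 2) = d2 at *
  generalize cc g (N + 1) (5 * i + 3) = d3 at *
  have h0 : g ^ 3 * X * (W * (g ^ 5 * X ^ 2) * d3 - W * d2 - (Y ^ 2 * (W * (g ^ 5 * X ^ 2) * c3 - W * c2) -
      (W * c1 - W * (g ^ 5 * X ^ 2) * c4))) = 0 := by
    linear_combination W * (g ^ 5 * X ^ 2 * h2 - g * h1 - g ^ 5 * X ^ 2 * h5 - g ^ 2 * h3 +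
      (1 - g) * X * Y * g ^ 3 * h4)
  have h6 := (mul_eq_zero.1 h0).resolve_left (mul_ne_zero (pow_ne_zero _ hg) hX)
  linear_combination h6

theorem At_rec {g : S} (hg : g ≠ 0) (N i : ℕ) : At g (N + 1) i = (1 + g ^ (2 * N + 1)) * At g N i -
    g ^ (2 * N) * Bt g N i + (g ^ (N + 10 * i ^ 2) * cc g N (5 * i) -
      g ^ (N + 10 * (i + 1) ^ 2) * cc g N (5 * (i + 1))) := by
  have h1 := cc_pascal g N (5 * i)
  have h2 := cc_pascal g N (5 * i + 3)
  have h4 := cc_step g N (5 * i + 2)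
  simp only [show 5 * i + 3 + 1 = 5 * i + 4 from rfl, show 5 * i + 3 + 2 = 5 * (i + 1) from rfl,
    show 5 * i + 2 + 1 = 5 * i + 3 from rfl] at h1 h2 h4
  rw [At, Bt, At]
  have e1 : g ^ (5 * (i + 1) * (2 * i + 1)) = g ^ (10 * i ^ 2) * g ^ (5 * i) * (g ^ 5 * (g ^ (5 * i)) ^ 2) := by
    ring
  have e1a : g ^ (5 * i * (2 * i + 1)) = g ^ (10 * i ^ 2) * g ^ (5 * i) := by ring
  have e1b : g ^ (N + 10 * (i + 1) ^ 2) = g ^ N * g ^ (10 * i ^ 2) * (g ^ (5 * i)) ^ 4 * g ^ 10 := by ring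
  have e1c : g ^ (N + 10 * i ^ 2) = g ^ N * g ^ (10 * i ^ 2) := by ring
  rw [e1, e1a, e1b, e1c]
  generalize g ^ (10 * i ^ 2) = V
  have r : ∀ a b : ℕ, g ^ (a + b) = g ^ a * g ^ b := fun a b => pow_add g a b
  have e2 : g ^ (N + 2 * (5 * i) + 3) = g ^ N * (g ^ (5 * i)) ^ 2 * g ^ 3 := by ring
  have e3 : g ^ (N + 2 * (5 * i + 3) + 3) = g ^ N * (g ^ (5 * i)) ^ 2 * g ^ 9 := by ring
  have e4 : g ^ (N + 2 * (5 * i + 2) + 1) = g ^ N * (g ^ (5 * i)) ^ 2 * g ^ 5 := by ring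
  have e7 : g ^ (2 * N + 1) = (g ^ N) ^ 2 * g := by ring
  have e8 : g ^ (2 * N) = (g ^ N) ^ 2 := by ring
  rw [e2, e7, r (5 * i) 1] at h1
  rw [e3, e7, r (5 * i) 4] at h2
  rw [e4, r (5 * i) 2] at h4
  rw [e8, e7]
  generalize g ^ (5 * i) = X at *
  rw [r N 1] at h1 h2
  generalize g ^ N = Y at *
  generalize cc g N (5 * i + 1) = c1 at *
  generalize cc g N (5 * i + 2) = c2 at *
  generalize cc g N (5 * i + 3) = c3 at *
  generalize cc g N (5 * i + 4) = c4 at *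
  generalize cc g N (5 * (i + 1)) = c5 at *
  generalize cc g N (5 * i) = c0 at *
  generalize cc g (N + 1) (5 * i + 1) = d1 at *
  generalize cc g (N + 1) (5 * i + 4) = d4 at *
  have h0 : g ^ 4 * (V * X * d1 - V * X * (g ^ 5 * X ^ 2) * d4 - ((1 + Y ^ 2 * g) * (V * X * c1 -
      V * X * (g ^ 5 * X ^ 2) * c4) - Y ^ 2 * (V * X * (g ^ 5 * X ^ 2) * c3 - V * X * c2) +
        (Y * V * c0 - Y * V * X ^ 4 * g ^ 10 * c5))) = 0 := by
    linear_combination g ^ 3 * V * h1 - V * g ^ 5 * X ^ 2 * h2 - V * Y * X * g ^ 4 * h4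
  have h6 := (mul_eq_zero.1 h0).resolve_left (pow_ne_zero _ hg)
  linear_combination h6

/-- `Ã_N` -/
def AA (g : S) (N : ℕ) : S := ∑ i ∈ range (N + 1), At g N i

/-- `B̃_N` -/
def BB (g : S) (N : ℕ) : S := ∑ i ∈ range (N + 1), Bt g N i

theorem At_gt (g : S) {N i : ℕ} (h : N < i + 1) : At g N i = 0 := by
  rw [At, cc_of_gt g (by omega), cc_of_gt g (by omega)]; ring

theorem Bt_gt (g : S) {N i : ℕ} (h : N < i + 1) : Bt g N i = 0 := by
  rw [Bt, cc_of_gt g (by omega), cc_of_gt g (by omega)]; ring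

theorem AA_eq (g : S) {N K : ℕ} (h : N ≤ K) : ∑ i ∈ range K, At g N i = AA g N := by
  rw [AA]
  have h1 : ∑ i ∈ range (N + 1), At g N i = ∑ i ∈ range N, At g N i := by
    rw [sum_range_succ, At_gt g (by omega), add_zero]
  rw [h1]
  symm
  apply sum_subset
  · intro i hi; rw [mem_range] at *; omega
  · intro i _ hi; rw [mem_range] at hi; exact At_gt g (by omega)

theorem BB_eq (g : S) {N K : ℕ} (h : N ≤ K) : ∑ i ∈ range K, Bt g N i = BB g N := by
  rw [BB]
  have h1 : ∑ i ∈ range (N + 1), Bt g N i = ∑ i ∈ range N, Bt g N i := by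
    rw [sum_range_succ, Bt_gt g (by omega), add_zero]
  rw [h1]
  symm
  apply sum_subset
  · intro i hi; rw [mem_range] at *; omega
  · intro i _ hi; rw [mem_range] at hi; exact Bt_gt g (by omega)

theorem BB_rec {g : S} (hg : g ≠ 0) (N : ℕ) : BB g (N + 1) = g ^ (2 * N) * BB g N - AA g N := by
  rw [← BB_eq g (K := N + 2) (N := N + 1) (by omega), ← BB_eq g (K := N + 2) (N := N) (by omega),
    ← AA_eq g (K := N + 2) (N := N) (by omega), mul_sum, ← sum_sub_distrib]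
  exact sum_congr rfl fun i _ => Bt_rec hg N i

theorem AA_rec {g : S} (hg : g ≠ 0) (N : ℕ) : AA g (N + 1) = (1 + g ^ (2 * N + 1)) * AA g N -
    g ^ (2 * N) * BB g N + g ^ N * gb g (2 * N) N := by
  rw [← AA_eq g (K := N + 2) (N := N + 1) (by omega), ← BB_eq g (K := N + 2) (N := N) (by omega),
    ← AA_eq g (K := N + 2) (N := N) (by omega), mul_sum, mul_sum]
  have h1 : ∑ i ∈ range (N + 2), (g ^ (N + 10 * i ^ 2) * cc g N (5 * i) -
      g ^ (N + 10 * (i + 1) ^ 2) * cc g N (5 * (i + 1))) = g ^ N * gb g (2 * N) N := by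
    rw [sum_range_sub' (fun i => g ^ (N + 10 * i ^ 2) * cc g N (5 * i))]
    rw [cc_of_gt g (m := 5 * (N + 2)) (by omega), mul_zero]
    simp [cc_zero]
  rw [← h1, ← sum_sub_distrib, ← sum_add_distrib]
  exact sum_congr rfl fun i _ => At_rec hg N i

/-- Schur's Fibonacci polynomials -/
def fibq (g : S) : ℕ → S
  | 0 => 0
  | 1 => 1
  | n + 2 => fibq g (n + 1) + g ^ (n + 1) * fibq g n

theorem fibq_rec (g : S) (n : ℕ) : fibq g (n + 2) = fibq g (n + 1) + g ^ (n + 1) * fibq g n := rfl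

/-- the numerator of the sum -/
def ZZ (g : S) (N : ℕ) : S := g * ((fibq g (2 * N + 1) - fibq g (2 * N)) * AA g N +
  g ^ (2 * N) * fibq g (2 * N) * BB g N)

theorem ZZ_rec {g : S} (hg : g ≠ 0) (N : ℕ) : ZZ g (N + 1) = g ^ (4 * N + 3) * ZZ g N +
    g ^ (3 * N + 3) * (gb g (2 * N) N * fibq g (2 * N + 1)) := by
  rw [ZZ, ZZ, AA_rec hg, BB_rec hg]
  have h1 : fibq g (2 * (N + 1)) = fibq g (2 * N + 1) + g ^ (2 * N + 1) * fibq g (2 * N) := fibq_rec g (2 * N)
  have h2 : fibq g (2 * (N + 1) + 1) = fibq g (2 * (N + 1)) + g ^ (2 * N + 2) * fibq g (2 * N + 1) :=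
    fibq_rec g (2 * N + 1)
  rw [h2, h1]
  ring

end dom

end V11307.GB
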