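import Pool.Agent.V11307.QHead
import Pool.Agent.V11307.QGauss

/-!
Passing from congruences modulo cyclotomic polynomials to `p`-adic congruences at `q = 1`.
-/

open Polynomial Finset

namespace V11307.Q

noncomputable section

/-- The embedding `ℤ[q] → ℚ(q)`. -/
def ιZ : ℤ[X] →+* RatFunc ℚ := (algebraMap ℚ[X] (RatFunc ℚ)).comp (Polynomial.mapRingHom (Int.castRingHom ℚ))

theorem ιZ_X : ιZ X = q := by simp [ιZ]

theorem ιZ_eq (P : ℤ[X]) : ιZ P = φ (P.map (Int.castRingHom ℚ)) := rfl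

/-- `f = P/D` with integer polynomials, `p ∤ D(1)` and `P(1)/D(1) = c` -/
def Ev (p : ℕ) (f : RatFunc ℚ) (c : ℚ) : Prop :=
  ∃ P D : ℤ[X], ¬ (p : ℤ) ∣ D.eval 1 ∧ f * ιZ D = ιZ P ∧ c * (D.eval 1 : ℤ) = (P.eval 1 : ℤ)

variable {p : ℕ} {f g : RatFunc ℚ} {c d : ℚ}

theorem Ev.poly (hp : p.Prime) (P : ℤ[X]) : Ev p (ιZ P) ((P.eval 1 : ℤ) : ℚ) := by
  refine ⟨P, 1, ?_, by simp, by simp⟩
  rw [eval_one]
  intro h
  exact (Nat.prime_iff_prime_int.1 hp).not_unit (isUnit_of_dvd_one h)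

theorem Ev.mul (hp : p.Prime) (h1 : Ev p f c) (h2 : Ev p g d) : Ev p (f * g) (c * d) := by
  obtain ⟨P, D, a, b, e⟩ := h1
  obtain ⟨P', D', a', b', e'⟩ := h2
  refine ⟨P * P', D * D', ?_, ?_, ?_⟩
  · rw [eval_mul]
    intro h
    exact ((Nat.prime_iff_prime_int.1 hp).dvd_or_dvd h).elim a a'
  · rw [map_mul, map_mul, ← b, ← b']; ring
  · rw [eval_mul, eval_mul]; push_cast; rw [← e, ← e']; ring

theorem Ev.add (hp : p.Prime) (h1 : Ev p f c) (h2 : Ev p g d) : Ev p (f + g) (c + d) := by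
  obtain ⟨P, D, a, b, e⟩ := h1
  obtain ⟨P', D', a', b', e'⟩ := h2
  refine ⟨P * D' + P' * D, D * D', ?_, ?_, ?_⟩
  · rw [eval_mul]
    intro h
    exact ((Nat.prime_iff_prime_int.1 hp).dvd_or_dvd h).elim a a'
  · rw [map_add, map_mul, map_mul, map_mul, ← b, ← b']; ring
  · rw [eval_mul, eval_add, eval_mul, eval_mul]; push_cast; rw [← e, ← e']; ring

theorem Ev.neg (h1 : Ev p f c) : Ev p (-f) (-c) := by
  obtain ⟨P, D, a, b, e⟩ := h1
  refine ⟨-P, D, a, ?_, ?_⟩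
  · rw [map_neg, ← b]; ring
  · rw [eval_neg]; push_cast; rw [← e]; ring

theorem Ev.sub (hp : p.Prime) (h1 : Ev p f c) (h2 : Ev p g d) : Ev p (f - g) (c - d) := by
  rw [sub_eq_add_neg, sub_eq_add_neg]; exact h1.add hp h2.neg

theorem Ev.zero (hp : p.Prime) : Ev p 0 0 := by
  have := Ev.poly hp 0
  simpa using this

theorem Ev.one (hp : p.Prime) : Ev p 1 1 := by
  have := Ev.poly hp 1
  simpa using this

theorem Ev.q (hp : p.Prime) : Ev p V11307.Q.q 1 := by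
  have := Ev.poly hp X
  simpa [ιZ_X] using this

theorem Ev.int (hp : p.Prime) (a : ℤ) : Ev p (a : RatFunc ℚ) a := by
  have := Ev.poly hp (C a)
  simpa using this

theorem Ev.pow (hp : p.Prime) (h1 : Ev p f c) (k : ℕ) : Ev p (f ^ k) (c ^ k) := by
  induction k with
  | zero => simpa using Ev.one hp
  | succ k ih => rw [pow_succ, pow_succ]; exact ih.mul hp h1

theorem Ev.sum (hp : p.Prime) {ι : Type*} {s : Finset ι} {F : ι → RatFunc ℚ} {G : ι → ℚ}
    (h : ∀ i ∈ s, Ev p (F i) (G i)) : Ev p (∑ i ∈ s, F i) (∑ i ∈ s, G i) := by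
  classical
  induction s using Finset.induction_on with
  | empty => simpa using Ev.zero hp
  | insert a s ha ih =>
    rw [sum_insert ha, sum_insert ha]
    exact (h a (mem_insert_self _ _)).add hp (ih fun i hi => h i (mem_insert_of_mem hi))

theorem Ev.prod (hp : p.Prime) {ι : Type*} {s : Finset ι} {F : ι → RatFunc ℚ} {G : ι → ℚ}
    (h : ∀ i ∈ s, Ev p (F i) (G i)) : Ev p (∏ i ∈ s, F i) (∏ i ∈ s, G i) := by
  classical
  induction s using Finset.induction_on with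
  | empty => simpa using Ev.one hp
  | insert a s ha ih =>
    rw [prod_insert ha, prod_insert ha]
    exact (h a (mem_insert_self _ _)).mul hp (ih fun i hi => h i (mem_insert_of_mem hi))

/-- inverse of a polynomial with `p ∤ P(1)` -/
theorem Ev.inv_poly (hp : p.Prime) {P : ℤ[X]} (hP : ¬ (p : ℤ) ∣ P.eval 1) :
    Ev p (ιZ P)⁻¹ (((P.eval 1 : ℤ) : ℚ))⁻¹ := by
  have h0 : P.eval 1 ≠ 0 := by intro h; rw [h] at hP; exact hP (dvd_zero _)
  have h1 : P ≠ 0 := by rintro rfl; simp at h0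
  refine ⟨1, P, hP, ?_, ?_⟩
  · rw [map_one, inv_mul_cancel₀]
    rw [ιZ_eq]
    apply φ_ne
    rw [Ne, Polynomial.map_eq_zero_iff (Int.castRingHom ℚ).injective_int]
    exact h1
  · rw [inv_mul_cancel₀ (by exact_mod_cast h0), eval_one]; norm_num

/-- Valuation of the value at `q = 1`. -/
theorem Ev.val (hp : p.Prime) {r : ℕ} (e : ℕ → ℕ) (h : Ev p f c)
    (hI : ∀ i, 1 ≤ i → i ≤ r → I (p ^ i) (e i) f) :
    ∃ u v : ℤ, ¬ (p : ℤ) ∣ v ∧ c = (p : ℚ) ^ (∑ i ∈ Icc 1 r, e i) * ((u : ℚ) / v) := by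
  obtain ⟨P, D, a, b, ec⟩ := h
  haveI := Fact.mk hp
  have hpos : ∀ i, 0 < p ^ i := fun i => Nat.pow_pos hp.pos
  have h1 : ∀ i ∈ Icc 1 r, cyclotomic (p ^ i) ℚ ^ (e i) ∣ P.map (Int.castRingHom ℚ) := by
    intro i hi
    rw [mem_Icc] at hi
    have h2 := (hI i hi.1 hi.2).mul_R (φ_mem (n := p ^ i) (D.map (Int.castRingHom ℚ)))
    rw [← ιZ_eq, b, ιZ_eq] at h2
    have := h2.num_dvd (hpos i)
    rwa [RatFunc.num_algebraMap] at this
  have h2 : (∏ i ∈ Icc 1 r, cyclotomic (p ^ i) ℚ ^ (e i)) ∣ P.map (Int.castRingHom ℚ) := by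
    refine Finset.prod_dvd_of_coprime ?_ h1
    intro i _ j _ hij
    refine (cyclotomic.isCoprime_rat ?_).pow
    intro h
    exact hij (Nat.pow_right_injective hp.two_le h)
  have h3 : (∏ i ∈ Icc 1 r, cyclotomic (p ^ i) ℤ ^ (e i)) ∣ P := by
    rw [← Polynomial.map_dvd_map (Int.castRingHom ℚ) Int.cast_injective
      (monic_prod_of_monic _ _ fun i _ => (cyclotomic.monic _ _).pow _)]
    convert h2 using 1
    rw [Polynomial.map_prod]
    refine prod_congr rfl fun i _ => ?_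
    rw [Polynomial.map_pow, map_cyclotomic]
  obtain ⟨Q, hQ⟩ := h3
  have h4 : P.eval 1 = (p : ℤ) ^ (∑ i ∈ Icc 1 r, e i) * Q.eval 1 := by
    rw [hQ, eval_mul, eval_prod]
    congr 1
    rw [← prod_pow_eq_pow_sum]
    refine prod_congr rfl fun i hi => ?_
    rw [mem_Icc] at hi
    obtain ⟨j, rfl⟩ : ∃ j, i = j + 1 := ⟨i - 1, by omega⟩
    rw [eval_pow, eval_one_cyclotomic_prime_pow]
  refine ⟨Q.eval 1, D.eval 1, a, ?_⟩
  have h5 : ((D.eval 1 : ℤ) : ℚ) ≠ 0 := by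
    intro h; have : D.eval 1 = 0 := by exact_mod_cast h
    rw [this] at a; exact a (dvd_zero _)
  rw [h4] at ec
  push_cast at ec
  field_simp
  linarith

/-- `(q;q²)_k/(q²;q²)_k ↦ binom(2k,k)/4^k` -/
theorem Ev.half (hp : p.Prime) (hp2 : p ≠ 2) (k : ℕ) :
    Ev p (∏ u ∈ range k, (1 - V11307.Q.q ^ (2 * u + 1)) / (1 - V11307.Q.q ^ (2 * u + 2)))
      (∏ u ∈ range k, ((2 * u + 1 : ℚ) / (2 * u + 2))) := by
  -- as polynomials
  have hG := V11307.GB.gb_prod V11307.Q.q k k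
  have hne : ∀ j : ℕ, (1 : RatFunc ℚ) - V11307.Q.q ^ (j + 1) ≠ 0 := fun j => one_sub_ne (Nat.succ_pos j)
  have hne' : ∀ j : ℕ, (1 : RatFunc ℚ) + V11307.Q.q ^ (j + 1) ≠ 0 := by
    intro j h
    have h1 : (1 : RatFunc ℚ) - V11307.Q.q ^ (2 * (j + 1)) = 0 := by
      have : V11307.Q.q ^ (2 * (j + 1)) = (V11307.Q.q ^ (j + 1)) ^ 2 := by rw [mul_comm, pow_mul]
      rw [this]; linear_combination (1 - V11307.Q.q ^ (j + 1)) * h
    exact one_sub_ne (by omega) h1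
  have e1 : ∏ i ∈ range (k + k), (1 - V11307.Q.q ^ (i + 1)) =
      (∏ u ∈ range k, (1 - V11307.Q.q ^ (2 * u + 1))) * ∏ u ∈ range k, (1 - V11307.Q.q ^ (2 * u + 2)) := by
    rw [← two_mul]
    clear hG
    induction k with
    | zero => simp
    | succ k ih =>
      rw [show 2 * (k + 1) = 2 * k + 1 + 1 by ring, prod_range_succ, prod_range_succ, ih,
        prod_range_succ (fun u => 1 - V11307.Q.q ^ (2 * u + 1)), prod_range_succ (fun u => 1 - V11307.Q.q ^ (2 * u + 2))]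
      ring
  have e2 : ∏ u ∈ range k, (1 - V11307.Q.q ^ (2 * u + 2)) =
      (∏ i ∈ range k, (1 - V11307.Q.q ^ (i + 1))) * ∏ i ∈ range k, (1 + V11307.Q.q ^ (i + 1)) := by
    rw [← prod_mul_distrib]
    refine prod_congr rfl fun u _ => ?_
    have : V11307.Q.q ^ (2 * u + 2) = (V11307.Q.q ^ (u + 1)) ^ 2 := by rw [← pow_mul]; congr 1; ring
    rw [this]; ring
  have hA : ∏ i ∈ range k, (1 - V11307.Q.q ^ (i + 1)) ≠ 0 := prod_ne_zero_iff.2 fun i _ => hne i
  have hB : ∏ i ∈ range k, (1 + V11307.Q.q ^ (i + 1)) ≠ 0 := prod_ne_zero_iff.2 fun i _ => hne' i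
  have e3 : ∏ u ∈ range k, (1 - V11307.Q.q ^ (2 * u + 1)) / (1 - V11307.Q.q ^ (2 * u + 2)) =
      ιZ (V11307.GB.gb X (k + k) k) * (ιZ ((∏ i ∈ range k, (1 + X ^ (i + 1))) ^ 2))⁻¹ := by
    have h1 : ιZ (V11307.GB.gb X (k + k) k) = V11307.GB.gb V11307.Q.q (k + k) k := by
      rw [V11307.GB.map_gb, ιZ_X]
    have h2 : ιZ ((∏ i ∈ range k, (1 + X ^ (i + 1))) ^ 2) = (∏ i ∈ range k, (1 + V11307.Q.q ^ (i + 1))) ^ 2 := by
      rw [map_pow, map_prod]
      congr 1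
      refine prod_congr rfl fun i _ => ?_
      rw [map_add, map_one, map_pow, ιZ_X]
    rw [h1, h2, prod_div_distrib, e2]
    have h3 : ∏ u ∈ range k, (1 - V11307.Q.q ^ (2 * u + 1)) =
        V11307.GB.gb V11307.Q.q (k + k) k * (∏ i ∈ range k, (1 - V11307.Q.q ^ (i + 1))) /
          ∏ i ∈ range k, (1 + V11307.Q.q ^ (i + 1)) := by
      rw [e1, e2] at hG
      rw [eq_div_iff hB]
      have h4 := mul_right_cancel₀ hA (a := V11307.GB.gb V11307.Q.q (k + k) k *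
        ∏ i ∈ range k, (1 - V11307.Q.q ^ (i + 1))) (c := (∏ u ∈ range k, (1 - V11307.Q.q ^ (2 * u + 1))) *
          ∏ i ∈ range k, (1 + V11307.Q.q ^ (i + 1))) (by linear_combination hG)
      exact h4.symm
    rw [h3]
    field_simp
  have e4 : ((∏ i ∈ range k, (1 + X ^ (i + 1))) ^ 2 : ℤ[X]).eval 1 = 4 ^ k := by
    rw [eval_pow, eval_prod]
    simp only [eval_add, eval_one, eval_pow, eval_X, one_pow, prod_const, card_range]
    rw [← pow_mul, mul_comm, pow_mul]; norm_num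
  have hpd : ¬ (p : ℤ) ∣ (4 : ℤ) ^ k := by
    intro h
    have h1 := (Nat.prime_iff_prime_int.1 hp).dvd_of_dvd_pow h
    have h2 : (p : ℤ) ∣ ((2 : ℕ) : ℤ) ^ 2 := by norm_num; exact h1
    have h3 := (Nat.prime_iff_prime_int.1 hp).dvd_of_dvd_pow h2
    have h4 : p ∣ 2 := by exact_mod_cast h3
    exact hp2 ((Nat.prime_dvd_prime_iff_eq hp Nat.prime_two).1 h4)
  have h5 := (Ev.poly hp (V11307.GB.gb X (k + k) k)).mul hp (Ev.inv_poly hp (by rw [e4]; exact hpd))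
  rw [← e3] at h5
  convert h5 using 1
  rw [e4]
  have e5 : ∀ a b : ℕ, ((V11307.GB.gb X a b : ℤ[X]).eval 1) = (Nat.choose a b : ℤ) := by
    intro a
    induction a with
    | zero => intro b; rcases b with _ | b <;> simp
    | succ a ih =>
      intro b
      rcases b with _ | b
      · simp
      · rw [V11307.GB.gb_succ, eval_add, eval_mul, ih, ih, eval_pow, eval_X, one_pow, one_mul,
          Nat.choose_succ_succ]
        push_cast; ring
  rw [e5, ← two_mul]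
  push_cast
  clear e4 h5 hpd hG e1 e2 hA hB e3
  induction k with
  | zero => simp
  | succ k ih =>
    rw [prod_range_succ, ih]
    have h2 := Nat.succ_mul_centralBinom_succ k
    rw [Nat.centralBinom, Nat.centralBinom] at h2
    have h3 : ((k : ℚ) + 1) * (Nat.choose (2 * (k + 1)) (k + 1) : ℚ) =
        2 * (2 * k + 1) * (Nat.choose (2 * k) k : ℚ) := by exact_mod_cast h2
    have h4 : ((k : ℚ) + 1) ≠ 0 := by positivity
    have h5 : (Nat.choose (2 * (k + 1)) (k + 1) : ℚ) =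
        2 * (2 * k + 1) * (Nat.choose (2 * k) k : ℚ) / (k + 1) := by
      rw [eq_div_iff h4, ← h3]; ring
    rw [h5]
    field_simp
    ring

end

end V11307.Q
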