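import Pool.Agent.V11307.QApply

/-!
First order behaviour of products over complete residue systems.
-/

open Polynomial Finset

namespace V11307.Q

noncomputable section

variable {n : ℕ}

/-- `x_e = q^e/(1-q^e)` -/
def xe (e : ℕ) : RatFunc ℚ := q ^ e / (1 - q ^ e)

theorem xe_mem (hn : 0 < n) {e : ℕ} (h : ¬ n ∣ e) : xe e ∈ R n := by
  rw [xe, div_eq_mul_inv]
  exact mul_mem (pow_mem q_mem _) (one_sub_U hn h).2.2

theorem qpow_congr (hn : 0 < n) {e e' : ℕ} (h : e ≡ e' [MOD n]) : I n 1 (q ^ e - q ^ e') := by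
  wlog hle : e ≤ e' generalizing e e' with H
  · exact I.symm (H h.symm (by omega))
  obtain ⟨k, rfl⟩ := Nat.exists_eq_add_of_le hle
  have hd : n ∣ k := by
    have := (Nat.modEq_iff_dvd' hle).1 h
    simpa using this
  rw [pow_add]
  have h1 := I_one_sub_nat hn hd
  have h2 : q ^ e - q ^ e * q ^ k = q ^ e * (1 - q ^ k) := by ring
  rw [h2]
  exact I.R_mul (pow_mem q_mem _) h1

theorem xe_congr (hn : 0 < n) {e e' : ℕ} (h : e ≡ e' [MOD n]) (he : ¬ n ∣ e) :
    I n 1 (xe e - xe e') := by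
  have he' : ¬ n ∣ e' := by
    intro hd
    exact he ((Nat.ModEq.dvd_iff h dvd_rfl).2 hd)
  refine I.div_congr (qpow_congr hn h) (pow_mem q_mem _) (one_sub_U hn he) (one_sub_U hn he') ?_
  have := (qpow_congr hn h).neg
  convert this using 1
  ring

theorem xe_pair (hn : 0 < n) {e e' : ℕ} (h : n ∣ e + e') (he : ¬ n ∣ e) :
    I n 1 (xe e + xe e' + 1) := by
  have he' : ¬ n ∣ e' := by
    intro hd
    exact he ((Nat.dvd_add_left hd).1 h)
  have h1 := (one_sub_U hn he)
  have h2 := (one_sub_U hn he')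
  have h3 : xe e + xe e' + 1 = (1 - q ^ (e + e')) * ((1 - q ^ e)⁻¹ * (1 - q ^ e')⁻¹) := by
    have a1 := h1.1
    have a2 := h2.1
    rw [xe, xe, pow_add]
    generalize q ^ e = u at *
    generalize q ^ e' = v at *
    field_simp
    ring
  rw [h3]
  exact (I_one_sub_nat hn h).mul_R (mul_mem h1.2.2 h2.2.2)

/-- sum over nonzero residues -/
theorem sum_xe_univ (hn : 1 < n) :
    I n 1 (2 * (∑ c ∈ (range n).erase 0, xe c) + ((n - 1 : ℕ) : RatFunc ℚ)) := by
  have h1 : ∑ c ∈ (range n).erase 0, xe c = ∑ c ∈ (range n).erase 0, xe (n - c) := by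
    refine sum_bij' (fun c _ => n - c) (fun c _ => n - c) ?_ ?_ ?_ ?_ ?_
    · intro c hc; rw [mem_erase, mem_range] at *; omega
    · intro c hc; rw [mem_erase, mem_range] at *; omega
    · intro c hc; rw [mem_erase, mem_range] at hc; omega
    · intro c hc; rw [mem_erase, mem_range] at hc; omega
    · intro c hc; rw [mem_erase, mem_range] at hc
      rw [show n - (n - c) = c by omega]
  have hcard : ((range n).erase 0).card = n - 1 := by
    rw [card_erase_of_mem (mem_range.2 (by omega)), card_range]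
  have h2 : 2 * (∑ c ∈ (range n).erase 0, xe c) + ((n - 1 : ℕ) : RatFunc ℚ) =
      ∑ c ∈ (range n).erase 0, (xe c + xe (n - c) + 1) := by
    rw [sum_add_distrib, sum_add_distrib, ← h1]
    simp only [sum_const, hcard, nsmul_eq_mul, mul_one]
    ring
  rw [h2]
  apply I.sum
  intro c hc
  rw [mem_erase, mem_range] at hc
  refine xe_pair (by omega) ?_ ?_
  · rw [show c + (n - c) = n by omega]
  · intro hd
    have := Nat.le_of_dvd (by omega) hd
    omega

/-- sum over an arbitrary complete system of nonzero residues -/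
theorem sum_xe (hn : 1 < n) (e : ℕ → ℕ) {j : ℕ} (hj : j < n)
    (hinj : ∀ i < n, ∀ k < n, e i ≡ e k [MOD n] → i = k) (h0 : n ∣ e j) :
    I n 1 (2 * (∑ i ∈ (range n).erase j, xe (e i)) + ((n - 1 : ℕ) : RatFunc ℚ)) := by
  have hn0 : 0 < n := by omega
  have hnd : ∀ i ∈ (range n).erase j, ¬ n ∣ e i := by
    intro i hi hd
    rw [mem_erase, mem_range] at hi
    exact hi.1 (hinj i hi.2 j hj (((Nat.modEq_zero_iff_dvd).2 hd).trans
      ((Nat.modEq_zero_iff_dvd).2 h0).symm))
  have h1 : ∑ i ∈ (range n).erase j, xe (e i % n) = ∑ c ∈ (range n).erase 0, xe c := by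
    have himg : ((range n).erase j).image (fun i => e i % n) = (range n).erase 0 := by
      apply eq_of_subset_of_card_le
      · intro c hc
        rw [mem_image] at hc
        obtain ⟨i, hi, rfl⟩ := hc
        rw [mem_erase, mem_range]
        refine ⟨?_, Nat.mod_lt _ hn0⟩
        intro h
        exact hnd i hi (Nat.dvd_of_mod_eq_zero h)
      · rw [card_image_of_injOn, card_erase_of_mem (mem_range.2 hj),
          card_erase_of_mem (mem_range.2 hn0)]
        intro i hi k hk hik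
        rw [mem_coe, mem_erase, mem_range] at hi hk
        exact hinj i hi.2 k hk.2 hik
    rw [← himg, sum_image]
    intro i hi k hk hik
    rw [mem_coe, mem_erase, mem_range] at hi hk
    exact hinj i hi.2 k hk.2 hik
  have h2 : I n 1 (∑ i ∈ (range n).erase j, xe (e i) - ∑ i ∈ (range n).erase j, xe (e i % n)) := by
    rw [← sum_sub_distrib]
    exact I.sum fun i hi => xe_congr hn0 (Nat.mod_modEq _ _).symm (hnd i hi)
  rw [h1] at h2
  have h3 := (I.R_mul (two_mem (n := n)) h2).add (sum_xe_univ hn)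
  convert h3 using 1
  ring

theorem prod_first_order {ι : Type*} {s : Finset ι} {ε : RatFunc ℚ} (hε : I n 1 ε)
    {x : ι → RatFunc ℚ} (hx : ∀ i ∈ s, x i ∈ R n) :
    I n 2 (∏ i ∈ s, (1 - ε * x i) - (1 - ε * ∑ i ∈ s, x i)) := by
  classical
  induction s using Finset.induction_on with
  | empty => simpa using I.zero
  | insert a s ha ih =>
    rw [prod_insert ha, sum_insert ha]
    have ih := ih fun i hi => hx i (mem_insert_of_mem hi)
    have hs : ∑ i ∈ s, x i ∈ R n := sum_mem fun i hi => hx i (mem_insert_of_mem hi)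
    have ha' := hx a (mem_insert_self _ _)
    have h1 := (I.R_mul (sub_mem (one_mem _) (mul_mem hε.mem ha')) ih).add
      ((hε.mul hε).mul_R (mul_mem ha' hs))
    convert h1 using 1
    ring

theorem pow_first_order {ε : RatFunc ℚ} (hε : I n 1 ε) (h : ℕ) :
    I n 2 ((1 + ε) ^ h - (1 + h * ε)) := by
  induction h with
  | zero => simpa using I.zero
  | succ h ih =>
    have h1 := (ih.mul_R (add_mem (one_mem _) hε.mem)).add ((hε.mul hε).mul_R (natCast_mem (R n) h))
    convert h1 using 1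
    push_cast
    ring

theorem half_mem' : ((2 : RatFunc ℚ))⁻¹ ∈ R n := by
  refine ⟨C (1 / 2), 1, isCoprime_one_left, one_ne_zero, ?_⟩
  rw [map_one, mul_one]
  have h2 : φ (C (1 / 2 : ℚ)) * 2 = 1 := by
    have : (2 : RatFunc ℚ) = φ (C 2) := by
      rw [show (C (2 : ℚ) : ℚ[X]) = 2 from rfl, map_ofNat]
    rw [this, ← map_mul, ← C_mul]
    norm_num
  have h3 : (2 : RatFunc ℚ) ≠ 0 := by
    intro h; rw [h, mul_zero] at h2; exact zero_ne_one h2
  field_simp
  rw [mul_comm]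
  exact h2.symm

/-- Lemma A: `∏ (1 - Y q^{e_i}) ≡ Y^{(n-1)/2} ∏ (1 - q^{e_i})` mod `Φ_n²`, `Y = q^{cn}`. -/
theorem lemA {h : ℕ} (hh : 0 < h) (hn : n = 2 * h + 1) (e : ℕ → ℕ) {j : ℕ} (hj : j < n)
    (hinj : ∀ i < n, ∀ k < n, e i ≡ e k [MOD n] → i = k) (h0 : n ∣ e j) {Y : RatFunc ℚ}
    (hY : I n 1 (Y - 1)) :
    I n 2 (∏ i ∈ (range n).erase j, (1 - Y * q ^ e i) -
      Y ^ h * ∏ i ∈ (range n).erase j, (1 - q ^ e i)) := by
  have hn0 : 0 < n := by omega
  have hnd : ∀ i ∈ (range n).erase j, ¬ n ∣ e i := by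
    intro i hi hd
    rw [mem_erase, mem_range] at hi
    exact hi.1 (hinj i hi.2 j hj (((Nat.modEq_zero_iff_dvd).2 hd).trans
      ((Nat.modEq_zero_iff_dvd).2 h0).symm))
  have h1 : ∏ i ∈ (range n).erase j, (1 - Y * q ^ e i) =
      (∏ i ∈ (range n).erase j, (1 - q ^ e i)) *
        ∏ i ∈ (range n).erase j, (1 - (Y - 1) * xe (e i)) := by
    rw [← prod_mul_distrib]
    refine prod_congr rfl fun i hi => ?_
    have := (one_sub_U hn0 (hnd i hi)).1
    rw [xe]
    field_simp
    ring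
  have h2 := prod_first_order hY (s := (range n).erase j) (x := fun i => xe (e i))
    (fun i hi => xe_mem hn0 (hnd i hi))
  have h3 := sum_xe (by omega) e hj hinj h0
  rw [show n - 1 = 2 * h by omega] at h3
  have h4 := (hY.mul h3).mul_R (half_mem' (n := n))
  have h5 := pow_first_order hY h
  rw [add_sub_cancel] at h5
  have hG : ∏ i ∈ (range n).erase j, (1 - q ^ e i) ∈ R n :=
    prod_mem fun i _ => sub_mem (one_mem _) (pow_mem q_mem _)
  rw [h1]
  set G := ∏ i ∈ (range n).erase j, (1 - q ^ e i)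
  set s := ∑ i ∈ (range n).erase j, xe (e i)
  set P := ∏ i ∈ (range n).erase j, (1 - (Y - 1) * xe (e i))
  have h6 := I.R_mul hG ((h2.sub h4).sub h5)
  convert h6 using 1
  have h2ne : (2 : RatFunc ℚ) ≠ 0 := two_ne_zero
  push_cast
  field_simp
  ring

/-- Lemma B: for `n = 4κ+1` the quotient over the classes `1` and `3` modulo `4`. -/
theorem lemB {κ : ℕ} (hκ : 0 < κ) (hn : n = 4 * κ + 1) {Y : RatFunc ℚ} (hY : I n 1 (Y - 1)) :
    I n 2 ((∏ i ∈ (range n).erase κ, (1 - Y * q ^ (4 * i + 1))) /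
      (∏ i ∈ (range n).erase (3 * κ), (1 - Y * q ^ (4 * i + 3))) - 1) ∧
    IsU n (∏ i ∈ (range n).erase κ, (1 - Y * q ^ (4 * i + 1))) ∧
    IsU n (∏ i ∈ (range n).erase (3 * κ), (1 - Y * q ^ (4 * i + 3))) := by
  have hn0 : 0 < n := by omega
  have hcop : Nat.Coprime n 4 := by
    rw [hn, Nat.coprime_iff_gcd_eq_one, Nat.gcd_comm, Nat.gcd_rec, show (4 * κ + 1) % 4 = 1 by omega]
    rfl
  have hinj : ∀ d : ℕ, ∀ i < n, ∀ k < n, 4 * i + d ≡ 4 * k + d [MOD n] → i = k := by
    intro d i hi k hk h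
    have h1 := Nat.ModEq.add_right_cancel' d h
    have h2 := Nat.ModEq.cancel_left_of_coprime hcop h1
    exact Nat.ModEq.eq_of_lt_of_lt h2 hi hk
  have hh : 0 < 2 * κ := by omega
  have hnh : n = 2 * (2 * κ) + 1 := by omega
  have d1 : n ∣ 4 * κ + 1 := by rw [hn]
  have d3 : n ∣ 4 * (3 * κ) + 3 := ⟨3, by rw [hn]; ring⟩
  have A1 := lemA hh hnh (fun i => 4 * i + 1) (j := κ) (by omega) (hinj 1) d1 hY
  have A3 := lemA hh hnh (fun i => 4 * i + 3) (j := 3 * κ) (by omega) (hinj 3) d3 hY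
  have nd1 : ∀ i ∈ (range n).erase κ, ¬ n ∣ 4 * i + 1 := by
    intro i hi hd
    rw [mem_erase, mem_range] at hi
    exact hi.1 (hinj 1 i hi.2 κ (by omega) (((Nat.modEq_zero_iff_dvd).2 hd).trans
      ((Nat.modEq_zero_iff_dvd).2 d1).symm))
  have nd3 : ∀ i ∈ (range n).erase (3 * κ), ¬ n ∣ 4 * i + 3 := by
    intro i hi hd
    rw [mem_erase, mem_range] at hi
    exact hi.1 (hinj 3 i hi.2 (3 * κ) (by omega) (((Nat.modEq_zero_iff_dvd).2 hd).trans
      ((Nat.modEq_zero_iff_dvd).2 d3).symm))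
  have U1 : IsU n (∏ i ∈ (range n).erase κ, (1 - q ^ (4 * i + 1))) :=
    IsU.prod fun i hi => one_sub_U hn0 (nd1 i hi)
  have U3 : IsU n (∏ i ∈ (range n).erase (3 * κ), (1 - q ^ (4 * i + 3))) :=
    IsU.prod fun i hi => one_sub_U hn0 (nd3 i hi)
  -- reflection
  have hQ : I n 1 ((q ^ (4 * n))⁻¹ - 1) := by
    have h1 := I_one_sub_nat hn0 (e := 4 * n) (dvd_mul_left _ _)
    have h2 : (q ^ (4 * n))⁻¹ - 1 = (1 - q ^ (4 * n)) * (q ^ (4 * n))⁻¹ := by
      have := pow_ne_zero (4 * n) q_ne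
      field_simp
    rw [h2]
    exact h1.mul_R (qUn hn0 _).2.2
  have A1' := lemA hh hnh (fun i => 4 * i + 1) (j := κ) (by omega) (hinj 1) d1 hQ
  have hrefl : ∏ i ∈ (range n).erase (3 * κ), (1 - q ^ (4 * i + 3)) =
      q ^ (2 * n * (n - 1)) * ∏ i ∈ (range n).erase κ, (1 - (q ^ (4 * n))⁻¹ * q ^ (4 * i + 1)) := by
    have r1 : ∏ i ∈ (range n).erase (3 * κ), (1 - q ^ (4 * i + 3)) =
        ∏ i ∈ (range n).erase κ, (1 - q ^ (4 * (n - 1 - i) + 3)) := by
      refine prod_bij' (fun c _ => n - 1 - c) (fun c _ => n - 1 - c) ?_ ?_ ?_ ?_ ?_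
      · intro c hc; rw [mem_erase, mem_range] at *; omega
      · intro c hc; rw [mem_erase, mem_range] at *; omega
      · intro c hc; rw [mem_erase, mem_range] at hc; omega
      · intro c hc; rw [mem_erase, mem_range] at hc; omega
      · intro c hc; rw [mem_erase, mem_range] at hc
        rw [show n - 1 - (n - 1 - c) = c by omega]
    have r2 : ∀ i ∈ (range n).erase κ, 1 - q ^ (4 * (n - 1 - i) + 3) =
        (-1) * q ^ (4 * (n - 1 - i) + 3) * (1 - (q ^ (4 * n))⁻¹ * q ^ (4 * i + 1)) := by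
      intro i hi
      rw [mem_erase, mem_range] at hi
      have h1 : q ^ (4 * (n - 1 - i) + 3) * q ^ (4 * i + 1) = q ^ (4 * n) := by
        rw [← pow_add]; congr 1; omega
      have h2 : q ^ (4 * n) * (q ^ (4 * n))⁻¹ = 1 := mul_inv_cancel₀ (pow_ne_zero _ q_ne)
      linear_combination -h2 - (q ^ (4 * n))⁻¹ * h1
    rw [r1, prod_congr rfl r2, prod_mul_distrib, prod_mul_distrib, prod_const, prod_pow_eq_pow_sum,
      card_erase_of_mem (mem_range.2 (by omega)), card_range]
    have hs : ∑ i ∈ (range n).erase κ, (4 * (n - 1 - i) + 3) = 2 * n * (n - 1) := by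
      have h1 := add_sum_erase (range n) (fun i => 4 * (n - 1 - i) + 3) (mem_range.2 (show κ < n by omega))
      have h2 : ∑ i ∈ range n, (4 * (n - 1 - i) + 3) = ∑ i ∈ range n, (4 * i + 3) :=
        sum_range_reflect (fun i => 4 * i + 3) n
      have h3 : ∑ i ∈ range n, (4 * i + 3) = 2 * n * (n - 1) + 3 * n := by
        clear * - hn0
        obtain ⟨m, rfl⟩ := Nat.exists_eq_succ_of_ne_zero hn0.ne'
        induction m with
        | zero => simp
        | succ m ih =>
          rw [sum_range_succ, ih (Nat.succ_pos _)]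
          simp only [Nat.succ_eq_add_one, Nat.add_sub_cancel]
          ring
      rw [h2, h3] at h1
      have h4 : 4 * (n - 1 - κ) + 3 = 3 * n := by omega
      rw [h4] at h1
      omega
    rw [hs, show n - 1 = 2 * (2 * κ) by omega, pow_mul (-1 : RatFunc ℚ) 2]
    simp
  have G13 : I n 2 (∏ i ∈ (range n).erase (3 * κ), (1 - q ^ (4 * i + 3)) -
      ∏ i ∈ (range n).erase κ, (1 - q ^ (4 * i + 1))) := by
    rw [hrefl]
    have h1 := I.R_mul (pow_mem (q_mem (n := n)) (2 * n * (n - 1))) A1'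
    convert h1 using 1
    have h2 : q ^ (2 * n * (n - 1)) * ((q ^ (4 * n))⁻¹) ^ (2 * κ) = 1 := by
      rw [inv_pow, ← pow_mul, show 4 * n * (2 * κ) = 2 * n * (n - 1) by
        rw [show n - 1 = 4 * κ by omega]; ring]
      exact mul_inv_cancel₀ (pow_ne_zero _ q_ne)
    linear_combination (∏ i ∈ (range n).erase κ, (1 - q ^ (4 * i + 1))) * h2
  have hYmem : Y ∈ R n := by
    have := add_mem hY.mem (one_mem (R n))
    rwa [sub_add_cancel] at this
  have hYU : IsU n Y := IsU.one.congr hn0 hY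
  have hYh := hYU.pow (2 * κ)
  have V1 : IsU n (∏ i ∈ (range n).erase κ, (1 - Y * q ^ (4 * i + 1))) :=
    (hYh.mul U1).congr hn0 (A1.mono (by norm_num))
  have V3 : IsU n (∏ i ∈ (range n).erase (3 * κ), (1 - Y * q ^ (4 * i + 3))) :=
    (hYh.mul U3).congr hn0 (A3.mono (by norm_num))
  refine ⟨?_, V1, V3⟩
  have h1 : I n 2 (∏ i ∈ (range n).erase κ, (1 - Y * q ^ (4 * i + 1)) -
      ∏ i ∈ (range n).erase (3 * κ), (1 - Y * q ^ (4 * i + 3))) := by
    have h2 := (A1.sub A3).sub (I.R_mul hYh.2.1 G13)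
    convert h2 using 1
    ring
  have h3 := h1.mul_R V3.2.2
  convert h3 using 1
  rw [sub_mul, mul_inv_cancel₀ V3.1, div_eq_mul_inv]

end

end V11307.Q
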