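import Pool.Agent.V11307.QGauss
import Pool.Agent.V11307.QProd

/-!
`Ã_N ≡ B̃_N ≡ 0 (mod Φ_n²)` for odd `n`, `5 ∣ n ∣ N`.
-/

open Polynomial Finset V11307.GB

namespace V11307.Q

noncomputable section

variable {n : ℕ}

theorem gb_mem (a b : ℕ) : gb q a b ∈ R n := by
  have h : gb q a b = φ (gb X a b) := by rw [map_gb, φ_X]
  rw [h]; exact φ_mem _

theorem cc_mem (N m : ℕ) : cc q N m ∈ R n := by
  rw [cc]; split_ifs
  · exact gb_mem _ _
  · exact zero_mem _

/-- `Φ_n ∣ [2N, N-m]` for `n ∣ N`, `n ∤ m`. -/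
theorem cc_I (hn : 0 < n) {N m : ℕ} (hN : n ∣ N) (hm : ¬ n ∣ m) : I n 1 (cc q N m) := by
  rcases Nat.lt_or_ge N m with h | h
  · rw [cc_of_gt q h]; exact I.zero
  · rw [cc, if_pos h]
    have hlt : m < N := by
      rcases Nat.lt_or_ge m N with h' | h'
      · exact h'
      · exfalso; apply hm; rw [show m = N by omega]; exact hN
    have h1 := gb_absorb q (2 * N - 1) (N - m - 1)
    rw [show N - m - 1 + 1 = N - m by omega, show 2 * N - 1 + 1 = 2 * N by omega] at h1
    have hU : IsU n (1 - q ^ (N - m)) := by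
      apply one_sub_U hn
      intro hd
      apply hm
      have := Nat.dvd_sub hN hd
      rwa [show N - (N - m) = m by omega] at this
    have h2 := (I_one_sub_nat hn (e := 2 * N) (dvd_mul_of_dvd_right hN 2)).mul_R
      (mul_mem (gb_mem (n := n) (2 * N - 1) (N - m - 1)) hU.2.2)
    convert h2 using 1
    have h3 := hU.1
    rw [← mul_assoc, ← h1]
    field_simp

/-- iterate the step relation -/
theorem cc_iter (N μ s : ℕ) : cc q N (μ + s) * ∏ t ∈ range s, (q ^ (μ + t) * (1 - q ^ (N + (μ + t) + 1))) =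
    cc q N μ * ∏ t ∈ range s, (q ^ (μ + t) - q ^ N) := by
  induction s with
  | zero => simp
  | succ s ih =>
    rw [prod_range_succ, prod_range_succ, ← mul_assoc _ _ (q ^ (μ + s) - q ^ N), ← ih]
    have h := cc_step q N (μ + s)
    have e : q ^ (N + 2 * (μ + s) + 1) = q ^ (μ + s) * q ^ (N + (μ + s) + 1) := by
      rw [← pow_add]; congr 1; ring
    rw [e] at h
    rw [← add_assoc]
    linear_combination (∏ t ∈ range s, (q ^ (μ + t) * (1 - q ^ (N + (μ + t) + 1)))) * h

/-- `[2N, N-m] ≡ [2N, N-m']` mod `Φ_n²`, `m = nv + b`, `m' = nv + (n-b)`. -/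
theorem cc_pair (hn : 0 < n) {N v b : ℕ} (hN : n ∣ N) (hb : 0 < b) (hbn : b < n) :
    I n 2 (cc q N (n * v + b) - cc q N (n * v + (n - b))) := by
  wlog hle : 2 * b ≤ n generalizing b with H
  · have := H (b := n - b) (by omega) (by omega) (by omega)
    rw [show n - (n - b) = b by omega] at this
    exact I.symm this
  set μ := n * v + b with hμ
  set s := n - 2 * b with hs
  have e0 : n * v + (n - b) = μ + s := by omega
  have h := cc_iter N μ s
  rw [e0]
  have hqU : ∀ e, IsU n (q ^ e) := fun e => qUn hn e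
  have hndvd : ∀ e, b + 1 ≤ e → e ≤ n - b → ¬ n ∣ N + n * v + e := by
    intro e h1 h2 hd
    rw [Nat.dvd_add_right (dvd_add hN (dvd_mul_right _ _))] at hd
    have := Nat.le_of_dvd (by omega) hd
    omega
  have hU : IsU n (∏ t ∈ range s, (q ^ (μ + t) * (1 - q ^ (N + (μ + t) + 1)))) := by
    refine IsU.prod fun t ht => (hqU _).mul (one_sub_U hn ?_)
    have ht := mem_range.1 ht
    have := hndvd (b + t + 1) (by omega) (by omega)
    rwa [show N + n * v + (b + t + 1) = N + (μ + t) + 1 by omega] at this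
  have hx : I n 1 (∏ t ∈ range s, (q ^ (μ + t) - q ^ N) -
      ∏ t ∈ range s, (q ^ (μ + t) * (1 - q ^ (N + (μ + t) + 1)))) := by
    have e1 : ∏ t ∈ range s, (q ^ (μ + t) * (1 - q ^ (N + (μ + t) + 1))) =
        ∏ t ∈ range s, (q ^ (μ + t) * (1 - q ^ (N + n * v + (n - b - t)))) := by
      rw [prod_mul_distrib, prod_mul_distrib]
      congr 1
      rw [← prod_range_reflect (fun t => 1 - q ^ (N + n * v + (n - b - t))) s]
      refine prod_congr rfl fun t ht => ?_
      have ht := mem_range.1 ht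
      congr 2; omega
    rw [e1]
    refine I.prod_congr (fun t ht => ?_) (fun t _ => sub_mem (pow_mem q_mem _) (pow_mem q_mem _))
      (fun t _ => mul_mem (pow_mem q_mem _) (sub_mem (one_mem _) (pow_mem q_mem _)))
    have ht := mem_range.1 ht
    have e2 : q ^ (μ + t) * q ^ (N + n * v + (n - b - t)) = q ^ (N + n * v + n * v + n) := by
      rw [← pow_add]; congr 1; omega
    have h3 := qpow_congr hn (e := N + n * v + n * v + n) (e' := N) (by
      have h4 : n ∣ (N + n * v + n * v + n) - N := by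
        rw [show N + n * v + n * v + n - N = n * (v + v + 1) by
          rw [Nat.add_assoc, Nat.add_assoc, Nat.add_sub_cancel_left]; ring]
        exact dvd_mul_right _ _
      exact ((Nat.modEq_iff_dvd' (by omega)).2 h4).symm)
    convert h3 using 1
    linear_combination e2
  have hc := cc_I hn hN (m := μ) (by
    rw [hμ, Nat.dvd_add_right (dvd_mul_right _ _)]
    intro hd; have := Nat.le_of_dvd hb hd; omega)
  have h5 := (hc.mul hx).mul_R (neg_mem hU.2.2)
  have h6 := hU.1
  convert h5 using 1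
  set A := ∏ t ∈ range s, (q ^ (μ + t) * (1 - q ^ (N + (μ + t) + 1)))
  set B := ∏ t ∈ range s, (q ^ (μ + t) - q ^ N)
  have h7 : cc q N (μ + s) = cc q N μ * B / A := by rw [eq_div_iff h6, h]
  rw [h7]
  field_simp
  ring

/-- weights -/
def wA (m : ℕ) : RatFunc ℚ :=
  if m % 5 = 1 then q ^ (5 * (m / 5) * (2 * (m / 5) + 1)) else
    if m % 5 = 4 then -q ^ (5 * (m / 5 + 1) * (2 * (m / 5) + 1)) else 0

def wB (m : ℕ) : RatFunc ℚ :=
  if m % 5 = 3 then q ^ (5 * (m / 5 + 1) * (2 * (m / 5) + 1)) else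
    if m % 5 = 2 then -q ^ (5 * (m / 5) * (2 * (m / 5) + 1)) else 0

theorem sum_five (f : ℕ → RatFunc ℚ) (K : ℕ) : ∑ m ∈ range (5 * K), f m =
    ∑ i ∈ range K, (f (5 * i) + f (5 * i + 1) + f (5 * i + 2) + f (5 * i + 3) + f (5 * i + 4)) := by
  induction K with
  | zero => simp
  | succ K ih =>
    rw [show 5 * (K + 1) = 5 * K + 1 + 1 + 1 + 1 + 1 by ring, sum_range_succ, sum_range_succ,
      sum_range_succ, sum_range_succ, sum_range_succ, sum_range_succ, ih]
    ring

theorem AA_sum (N : ℕ) : AA q N = ∑ m ∈ range (5 * (N + 1)), wA m * cc q N m := by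
  rw [sum_five, AA]
  refine sum_congr rfl fun i _ => ?_
  have d : ∀ r, r < 5 → (5 * i + r) / 5 = i := fun r hr => by omega
  have e : ∀ r, r < 5 → (5 * i + r) % 5 = r := fun r hr => by omega
  have d0 := d 0 (by omega)
  have e0 := e 0 (by omega)
  rw [add_zero] at d0 e0
  simp only [wA, d0, e0, d 1 (by omega), d 2 (by omega), d 3 (by omega), d 4 (by omega),
    e 1 (by omega), e 2 (by omega), e 3 (by omega), e 4 (by omega)]
  norm_num [At]
  ring

theorem BB_sum (N : ℕ) : BB q N = ∑ m ∈ range (5 * (N + 1)), wB m * cc q N m := by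
  rw [sum_five, BB]
  refine sum_congr rfl fun i _ => ?_
  have d : ∀ r, r < 5 → (5 * i + r) / 5 = i := fun r hr => by omega
  have e : ∀ r, r < 5 → (5 * i + r) % 5 = r := fun r hr => by omega
  have d0 := d 0 (by omega)
  have e0 := e 0 (by omega)
  rw [add_zero] at d0 e0
  simp only [wB, d0, e0, d 1 (by omega), d 2 (by omega), d 3 (by omega), d 4 (by omega),
    e 1 (by omega), e 2 (by omega), e 3 (by omega), e 4 (by omega)]
  norm_num [Bt]
  ring

/-- abstract pairing argument -/
theorem pairing {w : ℕ → RatFunc ℚ} (hn : 0 < n) (h5 : 5 ∣ n) {N : ℕ} (hN : n ∣ N)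
    (hw0 : ∀ m, 5 ∣ m → w m = 0) (hwm : ∀ m, w m ∈ R n)
    (hw : ∀ v b, 0 < b → b < n → I n 1 (w (n * v + b) + w (n * v + (n - b)))) :
    I n 2 (∑ m ∈ range (5 * (N + 1)), w m * cc q N m) := by
  obtain ⟨M', rfl⟩ := hN
  have e1 : ∑ m ∈ range (5 * (n * M' + 1)), w m * cc q (n * M') m =
      ∑ m ∈ range (n * M'), w m * cc q (n * M') m := by
    symm
    apply sum_subset
    · intro i hi; rw [mem_range] at *; omega
    · intro i _ hi
      rw [mem_range, not_lt] at hi
      rcases eq_or_lt_of_le hi with h | h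
      · rw [hw0 i (by rw [← h]; exact dvd_mul_of_dvd_left h5 _), zero_mul]
      · rw [cc_of_gt q h, mul_zero]
  have e2 : ∀ M, ∑ m ∈ range (n * M), w m * cc q (n * M') m =
      ∑ v ∈ range M, ∑ b ∈ range n, w (n * v + b) * cc q (n * M') (n * v + b) := by
    intro M
    induction M with
    | zero => simp
    | succ M ih => rw [mul_add, mul_one, sum_range_add, ih, sum_range_succ]
  rw [e1, e2]
  apply I.sum
  intro v _
  -- drop b = 0
  have hN : n ∣ n * M' := dvd_mul_right _ _
  obtain ⟨n', rfl⟩ : ∃ n', n = n' + 1 := ⟨n - 1, by omega⟩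
  set n := n' + 1 with hn1
  have e3 : ∑ b ∈ range n, w (n * v + b) * cc q (n * M') (n * v + b) =
      ∑ b ∈ range n', w (n * v + (b + 1)) * cc q (n * M') (n * v + (b + 1)) := by
    rw [hn1, sum_range_succ', ← hn1, add_zero, hw0 (n * v) (dvd_mul_of_dvd_left h5 _), zero_mul, add_zero]
  have e4 : 2 * ∑ b ∈ range n, w (n * v + b) * cc q (n * M') (n * v + b) =
      ∑ b ∈ range n', (w (n * v + (b + 1)) * cc q (n * M') (n * v + (b + 1)) +
        w (n * v + (n - (b + 1))) * cc q (n * M') (n * v + (n - (b + 1)))) := by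
    rw [e3, sum_add_distrib, two_mul]
    congr 1
    rw [← sum_range_reflect (fun b => w (n * v + (b + 1)) * cc q (n * M') (n * v + (b + 1))) n']
    refine sum_congr rfl fun b hb => ?_
    have hb := mem_range.1 hb
    rw [show n' - 1 - b + 1 = n - (b + 1) by omega]
  have h6 : I n 2 (2 * ∑ b ∈ range n, w (n * v + b) * cc q (n * M') (n * v + b)) := by
    rw [e4]
    refine I.sum fun b hb => ?_
    have hb := mem_range.1 hb
    have h7 := (hw v (b + 1) (by omega) (by omega)).mul (cc_I hn hN (m := n * v + (b + 1)) (by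
      rw [Nat.dvd_add_right (dvd_mul_right _ _)]
      intro hd; have := Nat.le_of_dvd (by omega) hd; omega))
    have h8 := I.R_mul (hwm (n * v + (n - (b + 1)))) (cc_pair hn (N := n * M') (v := v) (b := b + 1) hN
      (by omega) (by omega))
    have h9 := h7.sub h8
    convert h9 using 1
    ring
  have h7 := I.R_mul (half_mem' (n := n)) h6
  rwa [← mul_assoc, inv_mul_cancel₀ (two_ne_zero), one_mul] at h7

theorem wA_mem (m : ℕ) : wA m ∈ R n := by
  rw [wA]; split_ifs
  · exact pow_mem q_mem _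
  · exact neg_mem (pow_mem q_mem _)
  · exact zero_mem _

theorem wB_mem (m : ℕ) : wB m ∈ R n := by
  rw [wB]; split_ifs
  · exact pow_mem q_mem _
  · exact neg_mem (pow_mem q_mem _)
  · exact zero_mem _

/-- exponent congruences -/
theorem exp_congr {δ v i j : ℕ} (r : ℤ) (hr : (5 * (i : ℤ) + r) + (5 * j + 5 - r) = 5 * (δ * v * 2 + δ)) :
    5 * i * (2 * i + 1) ≡ 5 * (j + 1) * (2 * j + 1) [MOD 5 * δ] := by
  have hij : (i : ℤ) + j + 1 = δ * (2 * v + 1) := by linarith
  rw [Nat.modEq_iff_dvd]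
  refine ⟨(2 * v + 1) * (2 * j - 2 * i + 1), ?_⟩
  push_cast
  have : (j : ℤ) = δ * (2 * v + 1) - i - 1 := by linarith
  rw [this]; ring

theorem AA_I (hn : 0 < n) (h5 : 5 ∣ n) {N : ℕ} (hN : n ∣ N) : I n 2 (AA q N) := by
  rw [AA_sum]
  refine pairing hn h5 hN (fun m hm => ?_) wA_mem ?_
  · rw [wA, if_neg (by omega), if_neg (by omega)]
  · intro v b hb hbn
    obtain ⟨δ, rfl⟩ := h5
    have key : ∀ b, 0 < b → b < 5 * δ → b % 5 = 1 →
        I (5 * δ) 1 (wA (5 * δ * v + b) + wA (5 * δ * v + (5 * δ - b))) := by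
      intro b hb hbn hb5
      have a1 : (5 * δ * v + b) % 5 = 1 := by
        rw [Nat.add_mod, show 5 * δ * v = 5 * (δ * v) by ring, Nat.mul_mod_right, zero_add, Nat.mod_mod, hb5]
      have a2 : (5 * δ * v + (5 * δ - b)) % 5 = 4 := by
        rw [show 5 * δ * v = 5 * (δ * v) by ring]; omega
      rw [wA, if_pos a1, wA, if_neg (by omega), if_pos a2]
      have h1 := qpow_congr hn (exp_congr (δ := δ) (v := v) (i := (5 * δ * v + b) / 5)
        (j := (5 * δ * v + (5 * δ - b)) / 5) 1 (by
          have b1 : 5 * ((5 * δ * v + b) / 5) + 1 = 5 * δ * v + b := by omega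
          have b2 : 5 * ((5 * δ * v + (5 * δ - b)) / 5) + 4 = 5 * δ * v + (5 * δ - b) := by omega
          have b3 : 5 * ((5 * δ * v + b) / 5) + 1 + (5 * ((5 * δ * v + (5 * δ - b)) / 5) + 4) =
              5 * (δ * v * 2 + δ) := by
            rw [b1, b2]
            have : 5 * δ * v + b + (5 * δ * v + (5 * δ - b)) = 5 * δ * v + (5 * δ * v + 5 * δ) := by omega
            rw [this]; ring
          have b4 : ((5 * ((5 * δ * v + b) / 5) + 1 + (5 * ((5 * δ * v + (5 * δ - b)) / 5) + 4) : ℕ) : ℤ) =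
            ((5 * (δ * v * 2 + δ) : ℕ) : ℤ) := by rw [b3]
          push_cast at b4 ⊢
          linarith))
      rw [← sub_eq_add_neg]
      exact h1
    have hz : ∀ b, 0 < b → b < 5 * δ → b % 5 ≠ 1 → b % 5 ≠ 4 → wA (5 * δ * v + b) = 0 := by
      intro b _ _ h1 h4
      have : (5 * δ * v + b) % 5 = b % 5 := by
        rw [show 5 * δ * v = 5 * (δ * v) by ring]; omega
      rw [wA, this, if_neg h1, if_neg h4]
    rcases eq_or_ne (b % 5) 1 with h1 | h1
    · exact key b hb hbn h1
    · rcases eq_or_ne (b % 5) 4 with h4 | h4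
      · have := key (5 * δ - b) (by omega) (by omega) (by omega)
        rw [show 5 * δ - (5 * δ - b) = b by omega, add_comm] at this
        exact this
      · rw [hz b hb hbn h1 h4, hz (5 * δ - b) (by omega) (by omega) (by omega) (by omega), add_zero]
        exact I.zero

theorem BB_I (hn : 0 < n) (h5 : 5 ∣ n) {N : ℕ} (hN : n ∣ N) : I n 2 (BB q N) := by
  rw [BB_sum]
  refine pairing hn h5 hN (fun m hm => ?_) wB_mem ?_
  · rw [wB, if_neg (by omega), if_neg (by omega)]
  · intro v b hb hbn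
    obtain ⟨δ, rfl⟩ := h5
    have key : ∀ b, 0 < b → b < 5 * δ → b % 5 = 2 →
        I (5 * δ) 1 (wB (5 * δ * v + b) + wB (5 * δ * v + (5 * δ - b))) := by
      intro b hb hbn hb5
      have a1 : (5 * δ * v + b) % 5 = 2 := by
        rw [Nat.add_mod, show 5 * δ * v = 5 * (δ * v) by ring, Nat.mul_mod_right, zero_add, Nat.mod_mod, hb5]
      have a2 : (5 * δ * v + (5 * δ - b)) % 5 = 3 := by
        rw [show 5 * δ * v = 5 * (δ * v) by ring]; omega
      rw [wB, if_neg (by omega), if_pos a1, wB, if_pos a2]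
      have h1 := qpow_congr hn (exp_congr (δ := δ) (v := v) (i := (5 * δ * v + b) / 5)
        (j := (5 * δ * v + (5 * δ - b)) / 5) 2 (by
          have b1 : 5 * ((5 * δ * v + b) / 5) + 2 = 5 * δ * v + b := by omega
          have b2 : 5 * ((5 * δ * v + (5 * δ - b)) / 5) + 3 = 5 * δ * v + (5 * δ - b) := by omega
          have b3 : 5 * ((5 * δ * v + b) / 5) + 2 + (5 * ((5 * δ * v + (5 * δ - b)) / 5) + 3) =
              5 * (δ * v * 2 + δ) := by
            rw [b1, b2]
            have : 5 * δ * v + b + (5 * δ * v + (5 * δ - b)) = 5 * δ * v + (5 * δ * v + 5 * δ) := by omega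
            rw [this]; ring
          have b4 : ((5 * ((5 * δ * v + b) / 5) + 2 + (5 * ((5 * δ * v + (5 * δ - b)) / 5) + 3) : ℕ) : ℤ) =
            ((5 * (δ * v * 2 + δ) : ℕ) : ℤ) := by rw [b3]
          push_cast at b4 ⊢
          linarith))
      convert I.symm h1 using 1
      ring
    have hz : ∀ b, 0 < b → b < 5 * δ → b % 5 ≠ 2 → b % 5 ≠ 3 → wB (5 * δ * v + b) = 0 := by
      intro b _ _ h1 h4
      have : (5 * δ * v + b) % 5 = b % 5 := by
        rw [show 5 * δ * v = 5 * (δ * v) by ring]; omega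
      rw [wB, this, if_neg h4, if_neg h1]
    rcases eq_or_ne (b % 5) 2 with h1 | h1
    · exact key b hb hbn h1
    · rcases eq_or_ne (b % 5) 3 with h4 | h4
      · have := key (5 * δ - b) (by omega) (by omega) (by omega)
        rw [show 5 * δ - (5 * δ - b) = b by omega, add_comm] at this
        exact this
      · rw [hz b hb hbn h1 h4, hz (5 * δ - b) (by omega) (by omega) (by omega) (by omega), add_zero]
        exact I.zero

end

end V11307.Q
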