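import Pool.Agent.V11307.QBlock3

/-!
Antisymmetry of the head of a block.
-/

open Polynomial Finset

namespace V11307.Q

noncomputable section

variable {n : ℕ} {s : RatFunc ℚ}

theorem JC.const {x y : RatFunc ℚ} (h : I n 1 (x - y)) : JC n x x y y :=
  ⟨h, h, by rw [sub_self]; exact I.zero⟩

theorem s_mem (hs : I n 2 (s - 2)) : s ∈ R n := by
  have := add_mem hs.mem (two_mem (n := n))
  rwa [sub_add_cancel] at this

theorem J_lin (hs : I n 2 (s - 2)) {x y : RatFunc ℚ} (hx : I n 1 x) (hy : I n 1 y) :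
    J n 1 (s * x + y) (2 * x + y) := by
  refine ⟨(I.R_mul (s_mem hs) hx).add hy, (I.R_mul two_mem hx).add hy, ?_⟩
  have := hs.mul hx
  rwa [show s * x + y - (2 * x + y) = (s - 2) * x by ring]

theorem J0_f (hs : I n 2 (s - 2)) (e : ℕ) : J n 0 (f s e) (f 2 e) :=
  ⟨I_zero_iff.2 (f_mem hs e), I_zero_iff.2 (f_mem (by rw [sub_self]; exact I.zero) e), f_congr hs e⟩

theorem JC_f (hs : I n 2 (s - 2)) (hn : 0 < n) {e e' : ℕ} (h : e ≡ e' [MOD n]) :
    JC n (f s e) (f 2 e) (f s e') (f 2 e') := by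
  have h1 := qpow_congr hn h
  have h2 := qpow_congr hn (e := 2 * e) (e' := 2 * e') (Nat.ModEq.mul_left 2 h)
  have := J_lin hs (I.neg h1) h2
  rw [JC]
  convert this using 1 <;> rw [f, f] <;> ring

def Zf (s : RatFunc ℚ) (e : ℕ) : RatFunc ℚ := (1 - q ^ e) ^ 2 * (1 - q ^ (2 * e)) * f s e

theorem J0_R {x : RatFunc ℚ} (h : x ∈ R n) : J n 0 x x := J.const (I_zero_iff.2 h)

theorem Zc_mem (e : ℕ) : (1 - q ^ e) ^ 2 * (1 - q ^ (2 * e)) ∈ R n :=
  mul_mem (pow_mem (sub_mem (one_mem _) (pow_mem q_mem _)) _) (sub_mem (one_mem _) (pow_mem q_mem _))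

theorem J0_Z (hs : I n 2 (s - 2)) (e : ℕ) : J n 0 (Zf s e) (Zf 2 e) :=
  (J0_R (Zc_mem e)).mul (J0_f hs e)

theorem JC_Z (hs : I n 2 (s - 2)) (hn : 0 < n) {e e' : ℕ} (h : e ≡ e' [MOD n]) :
    JC n (Zf s e) (Zf 2 e) (Zf s e') (Zf 2 e') := by
  refine JC.mul (JC.const ?_) (JC_f hs hn h) (J0_R (Zc_mem e')) (J0_f hs e)
  have h1 := (qpow_congr hn h).neg
  have h2 := (qpow_congr hn (e := 2 * e) (e' := 2 * e') (Nat.ModEq.mul_left 2 h)).neg
  have m : ∀ e, 1 - q ^ e ∈ R n := fun e => sub_mem (one_mem _) (pow_mem q_mem _)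
  refine I.mul_congr ?_ ?_ (pow_mem (m _) _) (m _)
  · rw [sq, sq]
    exact I.mul_congr (by convert h1 using 1; ring) (by convert h1 using 1; ring) (m _) (m _)
  · convert h2 using 1; ring

theorem JU_Z (hs : I n 2 (s - 2)) (hn : 0 < n) {e : ℕ} (h : ¬ n ∣ e) (h2 : ¬ n ∣ 2 * e) :
    JU n (Zf s e) (Zf 2 e) := by
  have hz : I n 2 ((2 : RatFunc ℚ) - 2) := by rw [sub_self]; exact I.zero
  refine ⟨(((one_sub_U hn h).pow 2).mul (one_sub_U hn h2)).mul (f_U hn hs h),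
    (((one_sub_U hn h).pow 2).mul (one_sub_U hn h2)).mul (f_U hn hz h), (J0_Z hs e).2.2⟩

/-- reflection -/
theorem JC_refl (hs : I n 2 (s - 2)) (hn : 0 < n) {e : ℕ} (he : e ≤ n) :
    JC n (Zf s (n - e)) (Zf 2 (n - e)) (-q ^ (-(6 * (e : ℤ))) * Zf s e)
      (-q ^ (-(6 * (e : ℤ))) * Zf 2 e) := by
  have hq : ∀ (N : ℕ), n ∣ N → q ^ (-(e : ℤ)) * (1 - q ^ N) ∈ R n := fun N _ =>
    mul_mem (zpow_mem' hn _) (sub_mem (one_mem _) (pow_mem q_mem _))
  have e0 : q ^ (-(e : ℤ)) * q ^ e = 1 := by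
    rw [zpow_neg, zpow_natCast, inv_mul_cancel₀ (pow_ne_zero _ q_ne)]
  have e1 : q ^ (n - e) = q ^ (-(e : ℤ)) * q ^ n := by
    have : q ^ (n - e) * q ^ e = q ^ n := by rw [← pow_add]; congr 1; omega
    rw [← this]
    linear_combination -(q ^ (n - e)) * e0
  have e2 : q ^ (-(6 * (e : ℤ))) = (q ^ (-(e : ℤ))) ^ 6 := by
    rw [← zpow_natCast, ← zpow_mul]; congr 1; push_cast; ring
  have e3 : q ^ (2 * (n - e)) = (q ^ (-(e : ℤ))) ^ 2 * q ^ (2 * n) := by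
    rw [mul_comm 2, pow_mul, e1, mul_comm 2 n, pow_mul, mul_pow]
  have e4 : q ^ (2 * e) = (q ^ e) ^ 2 := by rw [mul_comm, pow_mul]
  have hx := zpow_mem' hn (-(e : ℤ))
  rw [e2]
  set y := q ^ (-(e : ℤ)) with hy
  have i1 := I_one_sub_nat hn (dvd_refl n)
  have i2 := I_one_sub_nat hn (e := 2 * n) (dvd_mul_left _ _)
  have hm : ∀ e, 1 - q ^ e ∈ R n := fun e => sub_mem (one_mem _) (pow_mem q_mem _)
  have c1 : I n 1 ((1 - q ^ (n - e)) - (-y * (1 - q ^ e))) := by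
    have := I.R_mul hx i1
    convert this using 1
    rw [e1]
    linear_combination e0.symm
  have c2 : I n 1 ((1 - q ^ (2 * (n - e))) - (-y ^ 2 * (1 - q ^ (2 * e)))) := by
    have := I.R_mul (pow_mem hx 2) i2
    convert this using 1
    rw [e3, e4]
    linear_combination (-1 - y * q ^ e) * e0
  have c3 : JC n (f s (n - e)) (f 2 (n - e)) (y ^ 2 * f s e) (y ^ 2 * f 2 e) := by
    have := J_lin hs (I.R_mul hx i1) (I.neg (I.R_mul (pow_mem hx 2) i2))
    rw [JC]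
    convert this using 1
    · rw [f, f, e1, e3, e4]
      linear_combination (s * y - 1 - y * q ^ e) * e0
    · rw [f, f, e1, e3, e4]
      linear_combination (2 * y - 1 - y * q ^ e) * e0
  have m1 : -y * (1 - q ^ e) ∈ R n := mul_mem (neg_mem hx) (hm _)
  have c4 : I n 1 ((1 - q ^ (n - e)) ^ 2 * (1 - q ^ (2 * (n - e))) -
      (-y * (1 - q ^ e)) * (-y * (1 - q ^ e)) * (-y ^ 2 * (1 - q ^ (2 * e)))) := by
    rw [sq]
    exact I.mul_congr (I.mul_congr c1 c1 m1 (hm _)) c2 (mul_mem m1 m1) (hm _)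
  have c5 := JC.mul (JC.const c4) c3 (J0_R (mul_mem (mul_mem m1 m1)
    (mul_mem (neg_mem (pow_mem hx 2)) (hm _)))) (J0_f hs _)
  convert c5 using 1 <;> rw [Zf] <;> ring

variable {M : ℕ}

theorem nd_odd {e : ℕ} (h0 : 0 < e) (h1 : e < 2 * M + 1) : ¬ (2 * M + 1) ∣ e ∧ ¬ (2 * M + 1) ∣ 2 * e := by
  have : ¬ (2 * M + 1) ∣ e := fun hd => by
    have := Nat.le_of_dvd h0 hd; omega
  refine ⟨this, fun hd => this ?_⟩
  have hc : Nat.Coprime (2 * M + 1) 2 := by simp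
  exact hc.dvd_of_dvd_mul_left hd

def rZ (s : RatFunc ℚ) (u : ℕ) : RatFunc ℚ := Zf s (2 * u + 1) / Zf s (2 * u + 2)

theorem JU_rZ (hn : n = 2 * M + 1) (hs : I n 2 (s - 2)) {u : ℕ} (hu : u < M) :
    JU n (rZ s u) (rZ 2 u) := by
  have h1 := nd_odd (M := M) (e := 2 * u + 1) (by omega) (by omega)
  have h2 := nd_odd (M := M) (e := 2 * u + 2) (by omega) (by omega)
  rw [← hn] at h1 h2
  exact (JU_Z hs (by omega) h1.1 h1.2).div (JU_Z hs (by omega) h2.1 h2.2)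

/-- `ω_{M-i} ≡ (-1)^M q^{-6M(M+1)} q^{6i} ω_i`. -/
theorem omega_refl (hn : n = 2 * M + 1) (hs : I n 2 (s - 2)) {i : ℕ} (hi : i ≤ M) :
    JC n (∏ u ∈ range (M - i), rZ s u) (∏ u ∈ range (M - i), rZ 2 u)
      ((-1) ^ M * q ^ (-(6 * (M : ℤ) * (M + 1)) + 6 * i) * ∏ u ∈ range i, rZ s u)
      ((-1) ^ M * q ^ (-(6 * (M : ℤ) * (M + 1)) + 6 * i) * ∏ u ∈ range i, rZ 2 u) := by
  have hn0 : 0 < n := by omega
  have hz : I n 2 ((2 : RatFunc ℚ) - 2) := by rw [sub_self]; exact I.zero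
  have hU : ∀ e, 0 < e → e < n → JU n (Zf s e) (Zf 2 e) := fun e h1 h2 => by
    have h := nd_odd (M := M) (e := e) h1 (by omega)
    rw [← hn] at h
    exact JU_Z hs hn0 h.1 h.2
  -- step 1: the full product
  have s1 : ∀ t : RatFunc ℚ, ∏ u ∈ range M, rZ t u =
      ∏ v ∈ range M, (Zf t (n - (2 * v + 2)) / Zf t (2 * v + 2)) := by
    intro t
    simp only [rZ]
    rw [prod_div_distrib, prod_div_distrib]
    congr 1
    rw [← prod_range_reflect (fun v => Zf t (n - (2 * v + 2))) M]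
    refine prod_congr rfl fun u hu => ?_
    have hu := mem_range.1 hu
    congr 1; omega
  have s2 : JC n (∏ u ∈ range M, rZ s u) (∏ u ∈ range M, rZ 2 u)
      ((-1) ^ M * q ^ (-(6 * (M : ℤ) * (M + 1)))) ((-1) ^ M * q ^ (-(6 * (M : ℤ) * (M + 1)))) := by
    rw [s1, s1]
    have h1 : ∀ v ∈ range M, JC n (Zf s (n - (2 * v + 2)) / Zf s (2 * v + 2))
        (Zf 2 (n - (2 * v + 2)) / Zf 2 (2 * v + 2)) (-q ^ (-(6 * ((2 * v + 2 : ℕ) : ℤ))))
        (-q ^ (-(6 * ((2 * v + 2 : ℕ) : ℤ)))) := by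
      intro v hv
      have hv := mem_range.1 hv
      have h2 := JC_refl hs hn0 (e := 2 * v + 2) (by omega)
      have h3 := hU (2 * v + 2) (by omega) (by omega)
      have h4 := JC.div h2 (JC.refl (n := n) (a := Zf s (2 * v + 2)) (b := Zf 2 (2 * v + 2)))
        ((J0_R (neg_mem (zpow_mem' hn0 _))).mul (J0_Z hs _)) h3 h3
      rwa [mul_div_assoc, mul_div_assoc, div_self h3.1.1, div_self h3.2.1.1, mul_one] at h4
    have h2 := (JC.prod h1 (fun v hv => by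
      have hv := mem_range.1 hv
      exact ((hU _ (by omega) (by omega)).div (hU (2 * v + 2) (by omega) (by omega))).J0)
      (fun v _ => J0_R (neg_mem (zpow_mem' hn0 _)))).1
    have h3 : ∏ v ∈ range M, -q ^ (-(6 * ((2 * v + 2 : ℕ) : ℤ))) =
        (-1) ^ M * q ^ (-(6 * (M : ℤ) * (M + 1))) := by
      clear h2 h1 s1 hU hi
      clear hn
      induction M with
      | zero => simp
      | succ M ih =>
        rw [prod_range_succ, ih]
        have : q ^ (-(6 * ((M + 1 : ℕ) : ℤ) * (((M + 1 : ℕ) : ℤ) + 1))) =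
            q ^ (-(6 * (M : ℤ) * (M + 1))) * q ^ (-(6 * ((2 * M + 2 : ℕ) : ℤ))) := by
          rw [← zpow_add₀ q_ne]; congr 1; push_cast; ring
        rw [this]; ring
    rwa [h3] at h2
  -- step 2
  have s3 : ∀ t : RatFunc ℚ, (∀ e, 0 < e → e < n → IsU n (Zf t e)) →
      ∏ u ∈ range (M - i), rZ t u = (∏ u ∈ range M, rZ t u) *
      ∏ v ∈ range i, (Zf t (n - (2 * v + 1)) / Zf t (n - (2 * v + 2))) := by
    intro t ht
    have h1 : ∏ u ∈ range M, rZ t u = (∏ u ∈ range (M - i), rZ t u) *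
        ∏ v ∈ range i, (Zf t (n - (2 * v + 2)) / Zf t (n - (2 * v + 1))) := by
      have h2 := prod_range_add (fun u => rZ t u) (M - i) i
      rw [show M - i + i = M by omega] at h2
      rw [h2]
      congr 1
      rw [← prod_range_reflect (fun v => Zf t (n - (2 * v + 2)) / Zf t (n - (2 * v + 1))) i]
      refine prod_congr rfl fun u hu => ?_
      have hu := mem_range.1 hu
      rw [rZ]
      congr 2 <;> omega
    rw [h1, mul_assoc, ← prod_mul_distrib]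
    have h2 : ∀ v ∈ range i, Zf t (n - (2 * v + 2)) / Zf t (n - (2 * v + 1)) *
        (Zf t (n - (2 * v + 1)) / Zf t (n - (2 * v + 2))) = 1 := by
      intro v hv
      have hv := mem_range.1 hv
      have a1 := (ht (n - (2 * v + 1)) (by omega) (by omega)).1
      have a2 := (ht (n - (2 * v + 2)) (by omega) (by omega)).1
      field_simp
    rw [prod_congr rfl h2, prod_const_one, mul_one]
  rw [s3 s (fun e h1 h2 => (hU e h1 h2).1), s3 2 (fun e h1 h2 => (hU e h1 h2).2.1)]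
  have h1 : ∀ v ∈ range i, JC n (Zf s (n - (2 * v + 1)) / Zf s (n - (2 * v + 2)))
      (Zf 2 (n - (2 * v + 1)) / Zf 2 (n - (2 * v + 2))) (q ^ 6 * rZ s v) (q ^ 6 * rZ 2 v) := by
    intro v hv
    have hv := mem_range.1 hv
    have h2 := JC_refl hs hn0 (e := 2 * v + 1) (by omega)
    have h3 := JC_refl hs hn0 (e := 2 * v + 2) (by omega)
    have hqU : ∀ z : ℤ, JU n (-q ^ z) (-q ^ z) := fun z => JU.const (qU hn0 z).neg
    have h4 := JC.div h2 h3 ((J0_R (neg_mem (zpow_mem' hn0 _))).mul (J0_Z hs _))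
      (hU _ (by omega) (by omega)) ((hqU _).mul (hU (2 * v + 2) (by omega) (by omega)))
    have h5 : q ^ (-(6 * ((2 * v + 1 : ℕ) : ℤ))) = q ^ (-(6 * ((2 * v + 2 : ℕ) : ℤ))) * q ^ 6 := by
      rw [← zpow_natCast q 6, ← zpow_add₀ q_ne]; congr 1
    rw [h5] at h4
    have h6 := zpow_ne_zero (-(6 * ((2 * v + 2 : ℕ) : ℤ))) q_ne
    have b1 := (hU (2 * v + 2) (by omega) (by omega)).1.1
    have b2 := (hU (2 * v + 2) (by omega) (by omega)).2.1.1
    convert h4 using 1 <;> rw [rZ] <;> field_simp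
  have h2 := JC.prod h1 (fun v hv => by
      have hv := mem_range.1 hv
      exact ((hU _ (by omega) (by omega)).div (hU (n - (2 * v + 2)) (by omega) (by omega))).J0)
      (fun v hv => (J0_R (pow_mem q_mem _)).mul (JU_rZ hn hs (by
        have hv := mem_range.1 hv; omega)).J0)
  have h3 := s2.mul h2.1 (J0_R (mul_mem (pow_mem (neg_mem (one_mem _)) _) (zpow_mem' hn0 _))) h2.2.1
  simp only [prod_mul_distrib, prod_const, card_range] at h3
  convert h3 using 1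
  · rw [zpow_add₀ q_ne]
    have : q ^ (6 * (i : ℤ)) = (q ^ 6) ^ i := by
      rw [← pow_mul, ← zpow_natCast]; congr 1
    rw [this]; ring
  · rw [zpow_add₀ q_ne]
    have : q ^ (6 * (i : ℤ)) = (q ^ 6) ^ i := by
      rw [← pow_mul, ← zpow_natCast]; congr 1
    rw [this]; ring

/-- `σ_i` -/
def sg (s : RatFunc ℚ) (i : ℕ) : RatFunc ℚ := (-1) ^ i * (1 - q ^ (4 * i + 1)) * q ^ i * ∏ u ∈ range i, rZ s u

theorem sg_refl (hn : n = 2 * M + 1) (hs : I n 2 (s - 2)) {i : ℕ} (hi : i ≤ M) :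
    JC n (sg s (M - i)) (sg 2 (M - i)) (-sg s i) (-sg 2 i) := by
  have hn0 : 0 < n := by omega
  have h1 := omega_refl hn hs hi
  have hm : ∀ e, 1 - q ^ e ∈ R n := fun e => sub_mem (one_mem _) (pow_mem q_mem _)
  have hJ : J n 0 (∏ u ∈ range i, rZ s u) (∏ u ∈ range i, rZ 2 u) :=
    (JU.prod fun u hu => JU_rZ hn hs (by have := mem_range.1 hu; omega)).J0
  have hJ' : J n 0 (∏ u ∈ range (M - i), rZ s u) (∏ u ∈ range (M - i), rZ 2 u) :=
    (JU.prod fun u hu => JU_rZ hn hs (by have := mem_range.1 hu; omega)).J0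
  -- factor
  have h2 : I n 1 ((-1) ^ (M - i) * (1 - q ^ (4 * (M - i) + 1)) * q ^ (M - i) -
      (-1) ^ (M - i) * (-q ^ (-(4 * (i : ℤ) + 1)) * (1 - q ^ (4 * i + 1))) * q ^ (M - i)) := by
    have h3 := (I.R_mul (zpow_mem' hn0 (-(4 * (i : ℤ) + 1))) (I_one_sub_nat hn0 (e := 2 * n)
      (dvd_mul_left _ _))).mul_R (mul_mem (pow_mem (neg_mem (one_mem (R n))) (M - i))
        (pow_mem (q_mem (n := n)) (M - i)))
    have e1 : q ^ (4 * (M - i) + 1) = q ^ (-(4 * (i : ℤ) + 1)) * q ^ (2 * n) := by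
      rw [← zpow_natCast, ← zpow_natCast, ← zpow_add₀ q_ne]
      congr 1
      push_cast [Nat.cast_sub hi]
      rw [hn]; push_cast; ring
    have e2 : q ^ (-(4 * (i : ℤ) + 1)) * q ^ (4 * i + 1) = 1 := by
      rw [← zpow_natCast, ← zpow_add₀ q_ne]
      push_cast
      rw [neg_add_cancel, zpow_zero]
    convert h3 using 1
    rw [e1]
    linear_combination (-(-1) ^ (M - i) * q ^ (M - i)) * e2
  have m2 : (-1) ^ (M - i) * (-q ^ (-(4 * (i : ℤ) + 1)) * (1 - q ^ (4 * i + 1))) * q ^ (M - i) ∈ R n :=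
    mul_mem (mul_mem (pow_mem (neg_mem (one_mem _)) _) (mul_mem (neg_mem (zpow_mem' hn0 _)) (hm _)))
      (pow_mem q_mem _)
  have h3 := JC.mul (JC.const h2) h1 (J0_R m2) hJ'
  have e3 : ∀ P : RatFunc ℚ, (-1) ^ (M - i) * (-q ^ (-(4 * (i : ℤ) + 1)) * (1 - q ^ (4 * i + 1))) *
      q ^ (M - i) * ((-1) ^ M * q ^ (-(6 * (M : ℤ) * (M + 1)) + 6 * i) * P) =
      -((-1) ^ i * (1 - q ^ (4 * i + 1)) * q ^ i * P) * q ^ (-((3 * (M : ℤ) + 1) * n)) := by
    intro P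
    have e4 : (-1 : RatFunc ℚ) ^ (M - i) * (-1) ^ M = (-1) ^ i := by
      rw [← pow_add, show M - i + M = 2 * (M - i) + i by omega, pow_add, pow_mul]; simp
    have e5 : q ^ (-(4 * (i : ℤ) + 1)) * q ^ (M - i) * q ^ (-(6 * (M : ℤ) * (M + 1)) + 6 * i) =
        q ^ i * q ^ (-((3 * (M : ℤ) + 1) * n)) := by
      rw [← zpow_natCast q (M - i), ← zpow_natCast q i, ← zpow_add₀ q_ne, ← zpow_add₀ q_ne,
        ← zpow_add₀ q_ne]
      congr 1
      push_cast [Nat.cast_sub hi]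
      rw [hn]; push_cast; ring
    calc _ = ((-1 : RatFunc ℚ) ^ (M - i) * (-1) ^ M) * (q ^ (-(4 * (i : ℤ) + 1)) * q ^ (M - i) *
          q ^ (-(6 * (M : ℤ) * (M + 1)) + 6 * i)) * (-(1 - q ^ (4 * i + 1)) * P) := by ring
      _ = _ := by rw [e4, e5]; ring
  rw [e3, e3] at h3
  have h4 : JC n (-sg s i * q ^ (-((3 * (M : ℤ) + 1) * n))) (-sg 2 i * q ^ (-((3 * (M : ℤ) + 1) * n)))
      (-sg s i * 1) (-sg 2 i * 1) := by
    have hsg : J n 0 (-sg s i) (-sg 2 i) := by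
      refine J.neg ?_
      exact J.mul (J0_R (mul_mem (mul_mem (pow_mem (neg_mem (one_mem _)) _) (hm _)) (pow_mem q_mem _))) hJ
    refine JC.mul JC.refl (JC.const ?_) hsg (J0_R (zpow_mem' hn0 _))
    have := (I_one_sub hn0 (e := -((3 * (M : ℤ) + 1) * n)) (dvd_neg.2 (dvd_mul_left _ _))).neg
    rwa [neg_sub] at this
  have h5 := h3.trans h4
  rw [mul_one, mul_one] at h5
  exact h5

theorem sg_sum (hn : n = 2 * M + 1) (hs : I n 2 (s - 2)) :
    J n 1 (∑ i ∈ range (M + 1), sg s i) (∑ i ∈ range (M + 1), sg 2 i) := by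
  have h1 : J n 1 (∑ i ∈ range (M + 1), (sg s (M - i) - -sg s i))
      (∑ i ∈ range (M + 1), (sg 2 (M - i) - -sg 2 i)) :=
    J.sum fun i hi => sg_refl hn hs (by have := mem_range.1 hi; omega)
  have h2 : ∀ t : RatFunc ℚ, ∑ i ∈ range (M + 1), (sg t (M - i) - -sg t i) =
      2 * ∑ i ∈ range (M + 1), sg t i := by
    intro t
    have h3 := sum_range_reflect (fun i => sg t i) (M + 1)
    simp only [Nat.add_sub_cancel] at h3
    rw [sum_sub_distrib, sum_neg_distrib, h3]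
    ring
  rw [h2, h2] at h1
  have h3 := J.mul (J0_R (half_mem' (n := n))) h1
  have h4 : (2 : RatFunc ℚ) ≠ 0 := two_ne_zero
  rw [← mul_assoc, ← mul_assoc, inv_mul_cancel₀ h4, one_mul, one_mul] at h3
  exact h3

end

end V11307.Q
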