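import Pool.Agent.V11307.QSecond
import Pool.Agent.V11307.QClosed4

/-!
Instances of the block hypotheses.
-/

open Polynomial Finset

namespace V11307.Q

noncomputable section

theorem hyp21 (M : ℕ) (hM : 0 < M) {d : RatFunc ℚ → RatFunc ℚ} (hd : (∀ s, d s = s) ∨ (∀ s, d s = 2)) :
    Hyp (fun i => 2 * i + 1) (fun i => 2 * i + 2) d (2 * M + 1) M where
  hn := by omega
  hM := by omega
  ha l := by ring
  ha' l i hi hiM := by
    intro hd
    have h1 : 2 * (l * (2 * M + 1) + i) + 1 = (2 * M + 1) * (2 * l) + (2 * i + 1) := by ring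
    rw [h1, Nat.dvd_add_right (dvd_mul_right _ _)] at hd
    obtain ⟨c, hc⟩ := hd
    have : c < 2 := by
      by_contra h
      have : (2 * M + 1) * 2 ≤ (2 * M + 1) * c := Nat.mul_le_mul_left _ (by omega)
      omega
    interval_cases c <;> omega
  hb l := by
    have : 2 * M + 1 - 1 = 2 * M := by omega
    simp only [this]; ring
  hb' l i hi hiM := by
    intro hd
    have h1 : 2 * (l * (2 * M + 1) + i) + 2 = (2 * M + 1) * (2 * l) + (2 * i + 2) := by ring
    rw [h1, Nat.dvd_add_right (dvd_mul_right _ _)] at hd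
    obtain ⟨c, hc⟩ := hd
    have : c < 2 := by
      by_contra h
      have : (2 * M + 1) * 2 ≤ (2 * M + 1) * c := Nat.mul_le_mul_left _ (by omega)
      omega
    interval_cases c <;> omega
  ha0 t := by omega
  hb0 t := by omega
  haa t j h := by omega
  hab t j h := by omega
  hd := hd

theorem hyp42 (M : ℕ) (hM : 0 < M) {d : RatFunc ℚ → RatFunc ℚ} (hd : (∀ s, d s = s) ∨ (∀ s, d s = 2)) :
    Hyp (fun i => 4 * i + 2) (fun i => 4 * i + 4) d (2 * M + 1) M where
  hn := by omega
  hM := by omega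
  ha l := by ring
  ha' l i hi hiM := by
    intro hd
    have h1 : 4 * (l * (2 * M + 1) + i) + 2 = (2 * M + 1) * (4 * l) + 2 * (2 * i + 1) := by ring
    rw [h1, Nat.dvd_add_right (dvd_mul_right _ _)] at hd
    have hc : Nat.Coprime (2 * M + 1) 2 := by simp
    obtain ⟨c, hc⟩ := hc.dvd_of_dvd_mul_left hd
    have : c < 2 := by
      by_contra h
      have : (2 * M + 1) * 2 ≤ (2 * M + 1) * c := Nat.mul_le_mul_left _ (by omega)
      omega
    interval_cases c <;> omega
  hb l := by
    have : 2 * M + 1 - 1 = 2 * M := by omega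
    simp only [this]; ring
  hb' l i hi hiM := by
    intro hd
    have h1 : 4 * (l * (2 * M + 1) + i) + 4 = (2 * M + 1) * (4 * l) + 2 * (2 * (i + 1)) := by ring
    rw [h1, Nat.dvd_add_right (dvd_mul_right _ _)] at hd
    have hc : Nat.Coprime (2 * M + 1) 2 := by simp
    have h2 := hc.dvd_of_dvd_mul_left (hc.dvd_of_dvd_mul_left hd)
    have := Nat.le_of_dvd (Nat.succ_pos _) h2
    omega
  ha0 t := by omega
  hb0 t := by omega
  haa t j h := by omega
  hab t j h := by omega
  hd := hd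

/-- `(1-q^{n-e})(1-q^{n+e}) ≡ -q^{n-e} (1-q^e)²`. -/
theorem pair_cong {n : ℕ} (hn : 0 < n) {e : ℕ} (he : e ≤ n) :
    I n 2 ((1 - q ^ (n - e)) * (1 - q ^ (n + e)) - (-q ^ (n - e)) * (1 - q ^ e) ^ 2) := by
  have h1 := (I_one_sub_nat hn (dvd_refl n)).mul (I_one_sub_nat hn (dvd_refl n))
  convert h1 using 1
  have h2 : q ^ (n - e) * q ^ e = q ^ n := by rw [← pow_add]; congr 1; omega
  rw [pow_add]
  linear_combination (q ^ n - 2 + q ^ e) * h2

end

end V11307.Q
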