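import Mathlib

/-!
Local arithmetic in `ℚ(q)` at a cyclotomic polynomial `Φ_n(q)`.
`R n` is the subring of fractions whose denominator is prime to `Φ_n`;
`I n k x` says `x ∈ Φ_n^k R n`.
-/

open Polynomial Finset

namespace V11307.Q

noncomputable section

/-- the algebra map `ℚ[q] → ℚ(q)` -/
abbrev φ : ℚ[X] →+* RatFunc ℚ := algebraMap ℚ[X] (RatFunc ℚ)

/-- `q` -/
abbrev q : RatFunc ℚ := RatFunc.X

theorem φ_inj : Function.Injective φ := RatFunc.algebraMap_injective ℚ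

theorem φ_ne {a : ℚ[X]} (h : a ≠ 0) : φ a ≠ 0 := by
  intro h0
  apply h
  apply φ_inj
  rw [h0, map_zero]

theorem φ_X : φ X = q := RatFunc.algebraMap_X

/-- fractions with denominator prime to `Φ_n` -/
def R (n : ℕ) : Subring (RatFunc ℚ) where
  carrier := {x | ∃ a b : ℚ[X], IsCoprime b (cyclotomic n ℚ) ∧ b ≠ 0 ∧ x * φ b = φ a}
  mul_mem' := by
    rintro x y ⟨a, b, hb, hb0, hx⟩ ⟨c, d, hd, hd0, hy⟩
    refine ⟨a * c, b * d, hb.mul_left hd, mul_ne_zero hb0 hd0, ?_⟩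
    rw [map_mul, map_mul, ← hx, ← hy]; ring
  one_mem' := ⟨1, 1, isCoprime_one_left, one_ne_zero, by simp⟩
  add_mem' := by
    rintro x y ⟨a, b, hb, hb0, hx⟩ ⟨c, d, hd, hd0, hy⟩
    refine ⟨a * d + c * b, b * d, hb.mul_left hd, mul_ne_zero hb0 hd0, ?_⟩
    rw [map_mul, map_add, map_mul, map_mul, ← hx, ← hy]; ring
  zero_mem' := ⟨0, 1, isCoprime_one_left, one_ne_zero, by simp⟩
  neg_mem' := by
    rintro x ⟨a, b, hb, hb0, hx⟩
    exact ⟨-a, b, hb, hb0, by rw [map_neg, ← hx]; ring⟩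

/-- `x ∈ Φ_n^k R` -/
def I (n k : ℕ) (x : RatFunc ℚ) : Prop := ∃ y ∈ R n, x = φ (cyclotomic n ℚ) ^ k * y

variable {n k l : ℕ} {x y z : RatFunc ℚ}

theorem φ_mem (a : ℚ[X]) : φ a ∈ R n := ⟨a, 1, isCoprime_one_left, one_ne_zero, by simp⟩

theorem q_mem : q ∈ R n := by rw [← φ_X]; exact φ_mem _

theorem I_zero_iff : I n 0 x ↔ x ∈ R n := by
  constructor
  · rintro ⟨y, hy, rfl⟩; simpa using hy
  · intro h; exact ⟨x, h, by simp⟩

theorem I.add (hx : I n k x) (hy : I n k y) : I n k (x + y) := by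
  obtain ⟨a, ha, rfl⟩ := hx
  obtain ⟨b, hb, rfl⟩ := hy
  exact ⟨a + b, add_mem ha hb, by ring⟩

theorem I.neg (hx : I n k x) : I n k (-x) := by
  obtain ⟨a, ha, rfl⟩ := hx
  exact ⟨-a, neg_mem ha, by ring⟩

theorem I.sub (hx : I n k x) (hy : I n k y) : I n k (x - y) := by
  rw [sub_eq_add_neg]; exact hx.add hy.neg

theorem I.zero : I n k 0 := ⟨0, zero_mem _, by simp⟩

theorem I.mul (hx : I n k x) (hy : I n l y) : I n (k + l) (x * y) := by
  obtain ⟨a, ha, rfl⟩ := hx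
  obtain ⟨b, hb, rfl⟩ := hy
  exact ⟨a * b, mul_mem ha hb, by rw [pow_add]; ring⟩

theorem I.mul_R (hx : I n k x) (hy : y ∈ R n) : I n k (x * y) := by
  obtain ⟨a, ha, rfl⟩ := hx
  exact ⟨a * y, mul_mem ha hy, by ring⟩

theorem I.R_mul (hy : y ∈ R n) (hx : I n k x) : I n k (y * x) := by
  rw [mul_comm]; exact hx.mul_R hy

theorem I.mono (h : l ≤ k) (hx : I n k x) : I n l x := by
  obtain ⟨a, ha, rfl⟩ := hx
  obtain ⟨m, rfl⟩ := Nat.exists_eq_add_of_le h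
  exact ⟨φ (cyclotomic n ℚ) ^ m * a, mul_mem (pow_mem (φ_mem _) m) ha, by rw [pow_add]; ring⟩

theorem I.mem (hx : I n k x) : x ∈ R n := I_zero_iff.1 (hx.mono (Nat.zero_le k))

theorem I.sum {ι : Type*} {s : Finset ι} {f : ι → RatFunc ℚ} (h : ∀ i ∈ s, I n k (f i)) :
    I n k (∑ i ∈ s, f i) := by
  classical
  induction s using Finset.induction_on with
  | empty => simpa using I.zero
  | insert a s ha ih =>
    rw [sum_insert ha]
    exact (h a (mem_insert_self _ _)).add (ih fun i hi => h i (mem_insert_of_mem hi))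

/-- congruence is transitive etc. -/
theorem I.trans (h1 : I n k (x - y)) (h2 : I n k (y - z)) : I n k (x - z) := by
  have := h1.add h2
  simpa using this

theorem I.symm (h1 : I n k (x - y)) : I n k (y - x) := by
  have := h1.neg
  simpa using this

/-- `a ≡ b`, `c ≡ d` imply `ac ≡ bd`. -/
theorem I.mul_congr {a b c d : RatFunc ℚ} (h1 : I n k (a - b)) (h2 : I n k (c - d))
    (hb : b ∈ R n) (hc : c ∈ R n) : I n k (a * c - b * d) := by
  have : a * c - b * d = (a - b) * c + b * (c - d) := by ring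
  rw [this]
  exact (h1.mul_R hc).add (I.R_mul hb h2)

theorem cyc_irr (hn : 0 < n) : Irreducible (cyclotomic n ℚ) := cyclotomic.irreducible_rat hn

theorem cyc_dvd_iff (hn : 0 < n) (k : ℕ) : cyclotomic n ℚ ∣ (X ^ k - 1 : ℚ[X]) ↔ n ∣ k := by
  constructor
  · intro h
    have hz := Complex.isPrimitiveRoot_exp n hn.ne'
    have h0 : (cyclotomic n ℂ).IsRoot (Complex.exp (2 * Real.pi * Complex.I / n)) :=
      hz.isRoot_cyclotomic hn
    obtain ⟨c, hc⟩ := h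
    have h1 : (X ^ k - 1 : ℂ[X]) = cyclotomic n ℂ * c.map (algebraMap ℚ ℂ) := by
      have := congrArg (Polynomial.map (algebraMap ℚ ℂ)) hc
      simpa [Polynomial.map_mul] using this
    have h2 := congrArg (Polynomial.eval (Complex.exp (2 * Real.pi * Complex.I / n))) h1
    rw [eval_mul, h0.eq_zero, zero_mul] at h2
    simp only [eval_sub, eval_pow, eval_X, eval_one] at h2
    exact hz.dvd_of_pow_eq_one k (by linear_combination h2)
  · rintro ⟨t, rfl⟩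
    have h1 : cyclotomic n ℚ ∣ (X ^ n - 1 : ℚ[X]) := cyclotomic.dvd_X_pow_sub_one n ℚ
    refine h1.trans ?_
    rw [pow_mul]
    exact sub_one_dvd_pow_sub_one _ t
where
  sub_one_dvd_pow_sub_one (x : ℚ[X]) (t : ℕ) : x - 1 ∣ x ^ t - 1 := by
    simpa using sub_dvd_pow_sub_pow x 1 t

theorem cop_of_not_dvd (hn : 0 < n) {a : ℚ[X]} (h : ¬ cyclotomic n ℚ ∣ a) :
    IsCoprime a (cyclotomic n ℚ) :=
  (((cyc_irr hn).coprime_iff_not_dvd).2 h).symm

theorem inv_mem (hn : 0 < n) {a : ℚ[X]} (h : ¬ cyclotomic n ℚ ∣ a) : (φ a)⁻¹ ∈ R n := by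
  have ha : a ≠ 0 := by rintro rfl; exact h (dvd_zero _)
  exact ⟨1, a, cop_of_not_dvd hn h, ha, by rw [inv_mul_cancel₀ (φ_ne ha), map_one]⟩

theorem not_dvd_X (hn : 0 < n) : ¬ cyclotomic n ℚ ∣ (X : ℚ[X]) := by
  intro h
  have h2 : cyclotomic n ℚ ∣ (X ^ n - 1 : ℚ[X]) := cyclotomic.dvd_X_pow_sub_one n ℚ
  have h3 : cyclotomic n ℚ ∣ (X ^ n : ℚ[X]) := h.trans (dvd_pow_self _ hn.ne')
  have h4 : cyclotomic n ℚ ∣ 1 := by
    have := dvd_sub h3 h2
    simpa using this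
  exact (cyc_irr hn).not_isUnit (isUnit_of_dvd_one h4)

theorem qinv_mem (hn : 0 < n) : q⁻¹ ∈ R n := by
  rw [← φ_X]; exact inv_mem hn (not_dvd_X hn)

theorem q_ne : (q : RatFunc ℚ) ≠ 0 := RatFunc.X_ne_zero

theorem zpow_mem' (hn : 0 < n) (e : ℤ) : q ^ e ∈ R n := by
  rcases e with e | e
  · simpa using pow_mem q_mem e
  · rw [zpow_negSucc, ← inv_pow]; exact pow_mem (qinv_mem hn) _

theorem one_sub_qpow (k : ℕ) : (1 : RatFunc ℚ) - q ^ k = φ (1 - X ^ k) := by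
  rw [map_sub, map_one, map_pow, φ_X]

theorem one_sub_ne {k : ℕ} (hk : 0 < k) : (1 : RatFunc ℚ) - q ^ k ≠ 0 := by
  rw [one_sub_qpow]
  apply φ_ne
  intro h
  have : (X ^ k - 1 : ℚ[X]) = 0 := by linear_combination -h
  exact (X_pow_sub_C_ne_zero hk (1 : ℚ)) (by simpa using this)

/-- `Φ_n | 1 - q^k` when `n | k`. -/
theorem I_one_sub (hn : 0 < n) {e : ℤ} (h : (n : ℤ) ∣ e) : I n 1 (1 - q ^ e) := by
  have hnat : ∀ k : ℕ, n ∣ k → I n 1 (1 - q ^ k) := by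
    intro k hk
    obtain ⟨c, hc⟩ := (cyc_dvd_iff hn k).2 hk
    refine ⟨φ (-c), φ_mem _, ?_⟩
    rw [one_sub_qpow, pow_one, ← map_mul]
    congr 1
    linear_combination -hc
  rcases le_or_gt 0 e with he | he
  · obtain ⟨k, rfl⟩ := Int.eq_ofNat_of_zero_le he
    simpa using hnat k (by exact_mod_cast h)
  · obtain ⟨k, hk⟩ := Int.eq_ofNat_of_zero_le (by omega : 0 ≤ -e)
    have hke : e = -(k : ℤ) := by omega
    have hk' : n ∣ k := by
      have : (n : ℤ) ∣ (k : ℤ) := by rw [← hk]; exact (dvd_neg.2 h)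
      exact_mod_cast this
    have h1 : (1 : RatFunc ℚ) - q ^ e = (1 - q ^ k) * (-(q ^ e)) := by
      have : q ^ k * q ^ e = 1 := by
        rw [hke, zpow_neg, zpow_natCast, mul_inv_cancel₀ (pow_ne_zero _ q_ne)]
      linear_combination -this
    rw [h1]
    exact (hnat k hk').mul_R (neg_mem (zpow_mem' hn e))

/-- `1 - q^k` is a unit at `Φ_n` when `n ∤ k`. -/
theorem inv_one_sub (hn : 0 < n) {k : ℕ} (h : ¬ n ∣ k) : (1 - q ^ k)⁻¹ ∈ R n := by
  rw [one_sub_qpow]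
  apply inv_mem hn
  intro hd
  apply h
  rw [← cyc_dvd_iff hn]
  have := (dvd_neg.2 hd)
  rwa [neg_sub] at this

/-- numerator criterion -/
theorem I.num_dvd (_hn : 0 < n) (h : I n k x) : cyclotomic n ℚ ^ k ∣ x.num := by
  obtain ⟨y, ⟨a, b, hb, hb0, hy⟩, rfl⟩ := h
  set x := φ (cyclotomic n ℚ) ^ k * y with hx
  have h1 : x * φ b = φ (cyclotomic n ℚ ^ k * a) := by
    rw [hx, mul_assoc, hy, map_mul, map_pow]
  have h2 : φ x.num = x * φ x.denom := by
    have := RatFunc.num_div_denom x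
    rw [div_eq_iff (φ_ne x.denom_ne_zero)] at this
    exact this
  have h3 : φ (x.num * b) = φ (cyclotomic n ℚ ^ k * (a * x.denom)) := by
    rw [map_mul, h2, mul_right_comm, h1, ← map_mul]
    congr 1; ring
  have h4 := φ_inj h3
  have h5 : cyclotomic n ℚ ^ k ∣ x.num * b := ⟨_, h4⟩
  exact (hb.pow_right (n := k)).symm.dvd_of_dvd_mul_right h5

/-- the converse -/
theorem I_of_num_dvd (hn : 0 < n) (hk : 0 < k) (h : cyclotomic n ℚ ^ k ∣ x.num) : I n k x := by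
  obtain ⟨a, ha⟩ := h
  have hd : ¬ cyclotomic n ℚ ∣ x.denom := by
    intro hd
    have h1 : cyclotomic n ℚ ∣ x.num := (dvd_pow_self _ hk.ne').trans ⟨a, ha⟩
    have h2 := (RatFunc.isCoprime_num_denom x).isUnit_of_dvd' h1 hd
    exact (cyc_irr hn).not_isUnit h2
  refine ⟨φ a * (φ x.denom)⁻¹, mul_mem (φ_mem _) (inv_mem hn hd), ?_⟩
  have := RatFunc.num_div_denom x
  rw [ha, map_mul, map_pow] at this
  rw [← mul_assoc, ← div_eq_mul_inv]
  exact this.symm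

end

end V11307.Q
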