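import Pool.Agent.V11307.QProd

/-!
Second order expansions of `[a]_{q^n}/[b]_{q^n}`.
-/

open Polynomial Finset

namespace V11307.Q

noncomputable section

variable {n : ℕ}

/-- `q^n - 1` -/
def eps (n : ℕ) : RatFunc ℚ := q ^ n - 1

theorem eps_I (hn : 0 < n) : I n 1 (eps n) := by
  have := (I_one_sub_nat hn (dvd_refl n)).neg
  convert this using 1
  rw [eps]; ring

theorem qpow_two (hn : 0 < n) (j : ℕ) : I n 2 (q ^ (n * j) - (1 + j * eps n)) := by
  have h := pow_first_order (eps_I hn) j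
  have : (1 + eps n) ^ j = q ^ (n * j) := by
    rw [eps, add_sub_cancel, ← pow_mul]
  rwa [this] at h

theorem sum_range_id_cast (a : ℕ) : (∑ i ∈ range a, (i : RatFunc ℚ)) = a * (a - 1) / 2 := by
  induction a with
  | zero => simp
  | succ a ih =>
    rw [sum_range_succ, ih]
    push_cast
    ring

/-- `[a]_{q^n} ≡ a + a(a-1)/2 ε` -/
theorem geom_cong_two (hn : 0 < n) (a : ℕ) :
    I n 2 ((1 - q ^ (a * n)) / (1 - q ^ n) - (a + a * (a - 1) / 2 * eps n)) := by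
  have h1 : (1 - q ^ (a * n)) / (1 - q ^ n) = ∑ i ∈ range a, q ^ (n * i) := by
    rw [div_eq_iff (one_sub_ne hn)]
    have := (geom_sum_mul_neg (q ^ n) a)
    simp only [← pow_mul] at this
    rw [mul_comm a n, ← this]
  have h2 : (1 - q ^ (a * n)) / (1 - q ^ n) - (a + a * (a - 1) / 2 * eps n) =
      ∑ i ∈ range a, (q ^ (n * i) - (1 + i * eps n)) := by
    rw [h1, sum_sub_distrib, sum_add_distrib, ← sum_mul, sum_range_id_cast]
    simp
  rw [h2]
  exact I.sum fun i _ => qpow_two hn i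

/-- `(1-q^{an})/(1-q^{bn}) ≡ (a/b)(1 + (a-b)/2 ε)` mod `Φ_n²`. -/
theorem ratio_cong_two (hn : 0 < n) (a : ℕ) {b : ℕ} (hb : b ≠ 0) :
    I n 2 ((1 - q ^ (a * n)) / (1 - q ^ (b * n)) - (a / b) * (1 + (a - b) * (2 : RatFunc ℚ)⁻¹ * eps n)) := by
  have h0 := one_sub_ne hn
  have h1 : (1 - q ^ (a * n)) / (1 - q ^ (b * n)) =
      ((1 - q ^ (a * n)) / (1 - q ^ n)) / ((1 - q ^ (b * n)) / (1 - q ^ n)) := by
    rw [div_div_div_cancel_right₀ h0]
  have ga := geom_cong_two hn a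
  have gb := geom_cong_two hn b
  have ub := geom_U_nat hn hb
  have cb := natCast_U hn hb
  rw [h1]
  set A := (1 - q ^ (a * n)) / (1 - q ^ n)
  set B := (1 - q ^ (b * n)) / (1 - q ^ n)
  have hB0 := ub.1
  have hb0 := cb.1
  have hε := eps_I hn
  have hεε := hε.mul hε
  have hh := half_mem' (n := n)
  have ma := natCast_mem (R n) a
  have mb := natCast_mem (R n) b
  have hx : I n 2 (b * A - a * B * (1 + (a - b) * (2 : RatFunc ℚ)⁻¹ * eps n)) := by
    have t1 := I.R_mul mb ga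
    have hu : (1 + (a - b) * (2 : RatFunc ℚ)⁻¹ * eps n) ∈ R n :=
      add_mem (one_mem _) (mul_mem (mul_mem (sub_mem ma mb) hh) hε.mem)
    have t2 := (I.R_mul ma gb).mul_R hu
    have t3 := hεε.mul_R (mul_mem (mul_mem (mul_mem ma mb) (mul_mem (sub_mem mb (one_mem _))
      (sub_mem ma mb))) (mul_mem hh hh))
    have t4 := (t1.sub t2).sub t3
    convert t4 using 1
    have h2ne : (2 : RatFunc ℚ) ≠ 0 := two_ne_zero
    field_simp
    ring
  have hy := hx.mul_R (mul_mem cb.2.2 ub.2.2)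
  convert hy using 1
  field_simp

theorem prod_ratio_two (hn : 0 < n) (a b : ℕ → ℕ) (hb : ∀ u, b u ≠ 0) (t : ℕ)
    {z : RatFunc ℚ} (hz : ∀ u, ((a u : RatFunc ℚ) - b u) * (2 : RatFunc ℚ)⁻¹ = z) :
    I n 2 (∏ u ∈ range t, (1 - q ^ (a u * n)) / (1 - q ^ (b u * n)) -
      (∏ u ∈ range t, ((a u : RatFunc ℚ) / b u)) * (1 + z * eps n) ^ t) ∧
    ∏ u ∈ range t, (1 - q ^ (a u * n)) / (1 - q ^ (b u * n)) ∈ R n ∧
    ∏ u ∈ range t, ((a u : RatFunc ℚ) / b u) ∈ R n := by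
  have m1 : ∀ u, (a u : RatFunc ℚ) / b u ∈ R n := fun u => by
    rw [div_eq_mul_inv]; exact mul_mem (natCast_mem _ _) (natCast_U hn (hb u)).2.2
  have hzm : z ∈ R n := by
    rw [← hz 0]
    exact mul_mem (sub_mem (natCast_mem _ _) (natCast_mem _ _)) half_mem'
  have m2 : ∀ u, (a u : RatFunc ℚ) / b u * (1 + z * eps n) ∈ R n := fun u =>
    mul_mem (m1 u) (add_mem (one_mem _) (mul_mem hzm (eps_I hn).mem))
  have m3 : ∀ u, (1 - q ^ (a u * n)) / (1 - q ^ (b u * n)) ∈ R n := fun u => by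
    have h := ratio_cong_two hn (a u) (hb u)
    rw [hz u] at h
    have := add_mem h.mem (m2 u)
    rwa [sub_add_cancel] at this
  refine ⟨?_, prod_mem fun u _ => m3 u, prod_mem fun u _ => m1 u⟩
  have h1 : (∏ u ∈ range t, ((a u : RatFunc ℚ) / b u)) * (1 + z * eps n) ^ t =
      ∏ u ∈ range t, ((a u : RatFunc ℚ) / b u * (1 + z * eps n)) := by
    rw [prod_mul_distrib, prod_const, card_range]
  rw [h1]
  refine I.prod_congr (fun u _ => ?_) (fun u _ => m3 u) (fun u _ => m2 u)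
  have h := ratio_cong_two hn (a u) (hb u)
  rwa [hz u] at h

end

end V11307.Q
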