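import Pool.Agent.V11307.QLoc

/-!
The `q`-congruence between the truncated `₂φ₁`-type polynomials `S` and `T`.
-/

open Polynomial Finset

namespace V11307.Q

noncomputable section

section exact
variable {F : Type*} [Field F]

/-- `c_k` with `A = q^m`, `α = q^r`. -/
def cc (A α : F) (k : ℕ) : F :=
  ∏ j ∈ range k, (1 - α * A ^ j) * (1 - A ^ (j + 1) / α) / (1 - A ^ (j + 1)) ^ 2

theorem cc_zero (A α : F) : cc A α 0 = 1 := by simp [cc]

theorem cc_succ (A α : F) (k : ℕ) :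
    cc A α (k + 1) = cc A α k * ((1 - α * A ^ k) * (1 - A ^ (k + 1) / α) / (1 - A ^ (k + 1)) ^ 2) :=
  prod_range_succ _ _

/-- `u_k = (x;A)_k` -/
def uu (A : F) (k : ℕ) : F[X] := ∏ j ∈ range k, (1 - C (A ^ j) * X)

/-- `w_k = (Ax;A)_k` -/
def ww (A : F) (k : ℕ) : F[X] := ∏ j ∈ range k, (1 - C (A ^ (j + 1)) * X)

theorem uu_succ (A : F) (k : ℕ) : uu A (k + 1) = uu A k * (1 - C (A ^ k) * X) :=
  prod_range_succ _ _

theorem ww_succ (A : F) (k : ℕ) : ww A (k + 1) = ww A k * (1 - C (A ^ (k + 1)) * X) :=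
  prod_range_succ _ _

theorem uu_succ' (A : F) (k : ℕ) : uu A (k + 1) = (1 - X) * ww A k := by
  induction k with
  | zero => simp [uu, ww]
  | succ k ih => rw [uu_succ, ih, ww_succ]; ring

theorem uu_comp (A : F) (k : ℕ) : (uu A k).comp (C A * X) = ww A k := by
  induction k with
  | zero => simp [uu, ww]
  | succ k ih =>
    rw [uu_succ, mul_comp, ih, ww_succ]
    congr 1
    simp only [sub_comp, one_comp, mul_comp, C_comp, X_comp]
    rw [pow_succ, C_mul]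
    ring

/-- `(A^2 x; A)_k` -/
theorem ww_comp (A : F) (k : ℕ) : (1 - C A * X) * (ww A k).comp (C A * X) = ww A (k + 1) := by
  induction k with
  | zero => simp [ww]
  | succ k ih =>
    rw [ww_succ, mul_comp, ← mul_assoc, ih, ww_succ A (k + 1)]
    congr 1
    simp only [sub_comp, one_comp, mul_comp, C_comp, X_comp]
    rw [pow_succ A (k + 1), C_mul]
    ring

/-- the second order `q`-difference operator -/
def EE (A α : F) (f : F[X]) : F[X] :=
  (1 - X) * f - (2 - C (α + A / α) * X) * f.comp (C A * X)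
    + (1 - C A * X) * (f.comp (C A * X)).comp (C A * X)

theorem EE_add (A α : F) (f g : F[X]) : EE A α (f + g) = EE A α f + EE A α g := by
  simp only [EE, add_comp]; ring

theorem EE_C_mul (A α c : F) (g : F[X]) : EE A α (C c * g) = C c * EE A α g := by
  simp only [EE, mul_comp, C_comp]; ring

theorem EE_uu (A α : F) (hA : A ≠ 0) (k : ℕ) :
    EE A α (uu A (k + 1)) =
      C ((1 - A ^ (k + 1)) ^ 2 / (A ^ (k + 1)) ^ 2) * (ww A k - ww A (k + 1))
      - C ((1 - (α + A / α) * A ^ (k + 1) + (A ^ (k + 1)) ^ 2 * A) / ((A ^ (k + 1)) ^ 2 * A))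
        * (ww A (k + 1) - ww A (k + 2)) := by
  have h2 : (1 - C A * X) * ((uu A (k + 1)).comp (C A * X)).comp (C A * X) = ww A (k + 2) := by
    rw [uu_comp, ww_comp]
  have hs : EE A α (uu A (k + 1)) = (1 - X) * uu A (k + 1)
      - (2 - C (α + A / α) * X) * ww A (k + 1) + ww A (k + 2) := by
    rw [EE, h2, uu_comp]
  rw [hs, uu_succ', ww_succ A (k + 1), ww_succ A k, pow_succ A (k + 1)]
  have hB : A ^ (k + 1) ≠ 0 := pow_ne_zero _ hA
  generalize A ^ (k + 1) = B at *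
  generalize α + A / α = s at *
  have e1 : C ((1 - B) ^ 2 / B ^ 2) * C B = C (B⁻¹) * (1 - C B) ^ 2 := by
    rw [← C_1, ← C_sub, ← C_pow, ← C_mul, ← C_mul]; congr 1
    field_simp
  have e2 : C ((1 - s * B + B ^ 2 * A) / (B ^ 2 * A)) * C (B * A)
      = C (B⁻¹) * (1 - C s * C B + C B ^ 2 * C A) := by
    rw [← C_1, ← C_mul, ← C_pow, ← C_mul, ← C_mul, ← C_sub, ← C_add, ← C_mul]; congr 1
    field_simp
  have e3 : C (B⁻¹) * C B = (1 : F[X]) := by
    rw [← C_mul, inv_mul_cancel₀ hB, C_1]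
  rw [C_mul] at e2 ⊢
  generalize C ((1 - B) ^ 2 / B ^ 2) = c1 at *
  generalize C ((1 - s * B + B ^ 2 * A) / (B ^ 2 * A)) = c2 at *
  generalize C (B⁻¹) = b' at *
  generalize C B = b at *
  generalize C A = a at *
  generalize C s = t at *
  generalize ww A k = w
  linear_combination (-w * X) * e1 + (w * (1 - b * X) * X) * e2 + 
    (w * X * (-b + 2 - t + b * a - X + b * X * t - b ^ 2 * X * a)) * e3


theorem EE_one (A α : F) (hA : A ≠ 0) (hα : α ≠ 0) :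
    EE A α (uu A 0) = - C ((1 - α) * (1 - A / α) / A) * (ww A 0 - ww A 1) := by
  have e1 : C ((1 - α) * (1 - A / α) / A) * C A = (1 : F[X]) - C (α + A / α) + C A := by
    rw [← C_1, ← C_mul, ← C_sub, ← C_add]; congr 1
    field_simp
    ring
  simp only [EE, uu, ww, range_zero, prod_empty, range_one, prod_singleton, one_comp, zero_add,
    pow_one]
  linear_combination X * e1

/-- `T` with `N` terms -/
def TT (A α : F) (N : ℕ) : F[X] := ∑ k ∈ range N, C (cc A α k * A ^ k) * uu A k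

/-- `S` with `N` terms -/
def SS (A α : F) (N : ℕ) : F[X] := ∑ k ∈ range N, C (cc A α k) * X ^ k

/-- boundary coefficient -/
def DD (A α : F) (M : ℕ) : F := cc A α M * (1 - α * A ^ M) * (1 - A ^ (M + 1) / α) / A ^ (M + 1)

theorem DD_eq (A α : F) (M : ℕ) (h : 1 - A ^ (M + 1) ≠ 0) :
    DD A α M = cc A α (M + 1) * (1 - A ^ (M + 1)) ^ 2 / A ^ (M + 1) := by
  rw [DD, cc_succ]
  congr 1
  field_simp

theorem EE_TT (A α : F) (hA : A ≠ 0) (hα : α ≠ 0) (M : ℕ) (h : ∀ j, 0 < j → 1 - A ^ j ≠ 0) :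
    EE A α (TT A α (M + 1)) = - C (DD A α M) * (ww A M - ww A (M + 1)) := by
  induction M with
  | zero =>
    have : TT A α 1 = uu A 0 := by simp [TT, cc_zero]
    rw [zero_add, this, EE_one A α hA hα, DD, cc_zero]
    simp
  | succ M ih =>
    have h1 : TT A α (M + 1 + 1) = TT A α (M + 1) + C (cc A α (M + 1) * A ^ (M + 1)) * uu A (M + 1) :=
      sum_range_succ _ _
    rw [h1, EE_add, ih, EE_C_mul, EE_uu A α hA, DD_eq A α M (h _ (Nat.succ_pos _))]
    have hB : A ^ (M + 1) ≠ 0 := pow_ne_zero _ hA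
    have e1 : C (cc A α (M + 1) * A ^ (M + 1)) * C ((1 - A ^ (M + 1)) ^ 2 / (A ^ (M + 1)) ^ 2)
        = C (cc A α (M + 1) * (1 - A ^ (M + 1)) ^ 2 / A ^ (M + 1)) := by
      rw [← C_mul]; congr 1; field_simp
    have e2 : C (cc A α (M + 1) * A ^ (M + 1)) *
        C ((1 - (α + A / α) * A ^ (M + 1) + (A ^ (M + 1)) ^ 2 * A) / ((A ^ (M + 1)) ^ 2 * A))
        = C (DD A α (M + 1)) := by
      rw [← C_mul, DD]; congr 1
      rw [pow_succ A (M + 1)]
      generalize A ^ (M + 1) = B at *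
      field_simp
      ring
    linear_combination (ww A M - ww A (M + 1)) * e1 - (ww A (M + 1) - ww A (M + 2)) * e2

theorem comp_coeff (A : F) (f : F[X]) (i : ℕ) : (f.comp (C A * X)).coeff i = f.coeff i * A ^ i := by
  exact comp_C_mul_X_coeff

theorem EE_coeff (A α : F) (hα : α ≠ 0) (f : F[X]) (i : ℕ) :
    (EE A α f).coeff (i + 1) = f.coeff (i + 1) * (1 - A ^ (i + 1)) ^ 2
      - f.coeff i * ((1 - α * A ^ i) * (1 - A ^ (i + 1) / α)) := by
  have h1 : EE A α f = f - f * X - 2 * f.comp (C A * X) + C (α + A / α) * (f.comp (C A * X) * X)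
      + (f.comp (C A * X)).comp (C A * X) - C A * ((f.comp (C A * X)).comp (C A * X) * X) := by
    rw [EE]; ring
  have h2 : (2 * f.comp (C A * X)).coeff (i + 1) = 2 * (f.coeff (i + 1) * A ^ (i + 1)) := by
    rw [← comp_coeff, show (2 : F[X]) = C 2 from rfl, coeff_C_mul]
  rw [h1]
  simp only [coeff_add, coeff_sub, coeff_mul_X, coeff_C_mul, comp_coeff, h2]
  field_simp
  ring

theorem TT_rec (A α : F) (hA : A ≠ 0) (hα : α ≠ 0) (M : ℕ) (h : ∀ j, 0 < j → 1 - A ^ j ≠ 0)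
    (i : ℕ) :
    (TT A α (M + 1)).coeff (i + 1) = (TT A α (M + 1)).coeff i *
      ((1 - α * A ^ i) * (1 - A ^ (i + 1) / α) / (1 - A ^ (i + 1)) ^ 2)
      - DD A α M * ((ww A M - ww A (M + 1)).coeff (i + 1)) / (1 - A ^ (i + 1)) ^ 2 := by
  have h1 := congrArg (fun f => coeff f (i + 1)) (EE_TT A α hA hα M h)
  simp only [EE_coeff A α hα] at h1
  rw [neg_mul, coeff_neg, coeff_C_mul] at h1
  have h2 := h (i + 1) (Nat.succ_pos _)
  rw [← mul_div_assoc, ← sub_div, eq_div_iff (pow_ne_zero 2 h2)]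
  linear_combination h1

/-- `F(α) = T(0)` -/
def FF (A α : F) (N : ℕ) : F := ∑ k ∈ range N, cc A α k * A ^ k

theorem uu_coeff_zero (A : F) (k : ℕ) : (uu A k).coeff 0 = 1 := by
  rw [coeff_zero_eq_eval_zero, uu, eval_prod]
  simp

theorem TT_coeff_zero (A α : F) (N : ℕ) : (TT A α N).coeff 0 = FF A α N := by
  simp only [TT, FF, finsetSum_coeff, coeff_C_mul, uu_coeff_zero, mul_one]

theorem uu_natDegree (A : F) (k : ℕ) : (uu A k).natDegree ≤ k := by
  rw [uu]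
  refine (natDegree_prod_le _ _).trans ?_
  have : ∀ j ∈ range k, (1 - C (A ^ j) * X : F[X]).natDegree ≤ 1 := by
    intro j _
    compute_degree
  simpa using sum_le_sum this

theorem TT_coeff_ge (A α : F) {N i : ℕ} (h : N ≤ i) : (TT A α N).coeff i = 0 := by
  rw [TT, finsetSum_coeff]
  apply sum_eq_zero
  intro k hk
  rw [coeff_C_mul, coeff_eq_zero_of_natDegree_lt, mul_zero]
  have := uu_natDegree A k
  have := mem_range.1 hk
  omega

theorem SS_coeff (A α : F) (N i : ℕ) : (SS A α N).coeff i = if i < N then cc A α i else 0 := by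
  rw [SS, finsetSum_coeff]
  simp only [coeff_C_mul, coeff_X_pow, mul_ite, mul_one, mul_zero]
  rw [sum_ite_eq (range N) i]
  simp

/-- the product on the right of the first order recurrence -/
def PP (A α : F) (N : ℕ) : F :=
  ∏ j ∈ range N, (1 - α * A ^ (j + 1)) * (1 - A ^ (j + 1) / α) / (1 - A ^ (j + 1)) ^ 2

theorem PP_succ (A α : F) (N : ℕ) : PP A α (N + 1) = PP A α N *
    ((1 - α * A ^ (N + 1)) * (1 - A ^ (N + 1) / α) / (1 - A ^ (N + 1)) ^ 2) :=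
  prod_range_succ _ _

theorem cc_PP (A α : F) (h : ∀ j, 0 < j → 1 - A ^ j ≠ 0) (N : ℕ) :
    cc A α (N + 1) * (1 - A ^ (N + 1)) ^ 2 = (1 - α) * (1 - A ^ (N + 1) / α) * PP A α N := by
  induction N with
  | zero =>
    have h1 := h 1 one_pos
    rw [pow_one] at h1
    rw [cc_succ, cc_zero, PP]
    simp
    field_simp
  | succ N ih =>
    have h1 := h (N + 1) (Nat.succ_pos _)
    have h2 := h (N + 1 + 1) (Nat.succ_pos _)
    rw [cc_succ, PP_succ]
    have h3 : cc A α (N + 1) = (1 - α) * (1 - A ^ (N + 1) / α) * PP A α N / (1 - A ^ (N + 1)) ^ 2 := by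
      rw [← ih]; field_simp
    rw [h3]
    field_simp

theorem cc_PP' (A α : F) (hA : A ≠ 0) (hα : α ≠ 0) (h : ∀ j, 0 < j → 1 - A ^ j ≠ 0) (N : ℕ) :
    cc A (α * A) (N + 1) * (1 - A ^ (N + 1)) ^ 2 = (1 - α * A ^ (N + 1)) * (1 - 1 / α) * PP A α N := by
  induction N with
  | zero =>
    have h1 := h 1 one_pos
    rw [pow_one] at h1
    rw [cc_succ, cc_zero, PP]
    simp
    field_simp
  | succ N ih =>
    have h1 := h (N + 1) (Nat.succ_pos _)
    have h2 := h (N + 1 + 1) (Nat.succ_pos _)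
    rw [cc_succ, PP_succ]
    have h3 : cc A (α * A) (N + 1) =
        (1 - α * A ^ (N + 1)) * (1 - 1 / α) * PP A α N / (1 - A ^ (N + 1)) ^ 2 := by
      rw [← ih]; field_simp
    rw [h3, pow_succ A (N + 1)] 
    rw [pow_succ A (N + 1)] at h2
    generalize A ^ (N + 1) = B at *
    field_simp

theorem FF_rec (A α : F) (hA : A ≠ 0) (hα : α ≠ 0) (h : ∀ j, 0 < j → 1 - A ^ j ≠ 0) (N : ℕ) :
    FF A (α * A) (N + 1) + α * FF A α (N + 1) = (α + 1) * PP A α N := by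
  induction N with
  | zero => simp [FF, cc_zero, PP]; ring
  | succ N ih =>
    have h0 : ∀ β, FF A β (N + 1 + 1) = FF A β (N + 1) + cc A β (N + 1) * A ^ (N + 1) :=
      fun β => sum_range_succ _ _
    have h1 := h (N + 1) (Nat.succ_pos _)
    have e1 := cc_PP A α h N
    have e2 := cc_PP' A α hA hα h N
    rw [h0, h0, PP_succ]
    have e1' : cc A α (N + 1) = (1 - α) * (1 - A ^ (N + 1) / α) * PP A α N / (1 - A ^ (N + 1)) ^ 2 := by
      rw [← e1]; field_simp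
    have e2' : cc A (α * A) (N + 1) =
        (1 - α * A ^ (N + 1)) * (1 - 1 / α) * PP A α N / (1 - A ^ (N + 1)) ^ 2 := by
      rw [← e2]; field_simp
    have e3 : FF A (α * A) (N + 1) = (α + 1) * PP A α N - α * FF A α (N + 1) := by
      linear_combination ih
    rw [e1', e2', e3]
    generalize A ^ (N + 1) = B at *
    field_simp
    ring

end exact

section cong

variable {p m : ℕ}

theorem hpos (hm : 0 < m) : ∀ j, 0 < j → 1 - (q ^ m) ^ j ≠ 0 := by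
  intro j hj
  rw [← pow_mul]
  exact one_sub_ne (Nat.mul_pos hm hj)

theorem inv_mem_of {a : RatFunc ℚ} (h : a⁻¹ ∈ R p) (b : RatFunc ℚ) (hb : b ∈ R p) : b / a ∈ R p := by
  rw [div_eq_mul_inv]; exact mul_mem hb h

theorem unit_A (hp : p.Prime) (hpm : ¬ p ∣ m) {j : ℕ} (hj : 0 < j) (hjp : j < p) :
    (1 - (q ^ m) ^ j)⁻¹ ∈ R p := by
  rw [← pow_mul]
  apply inv_one_sub hp.pos
  intro hd
  rcases hp.dvd_mul.1 hd with h | h
  · exact hpm h
  · exact absurd (Nat.le_of_dvd hj h) (by omega)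

theorem fac1_mem (r j : ℕ) : 1 - q ^ r * (q ^ m) ^ j ∈ R p :=
  sub_mem (one_mem _) (mul_mem (pow_mem q_mem _) (pow_mem (pow_mem q_mem _) _))

theorem fac2_mem (hp : p.Prime) (r j : ℕ) : 1 - (q ^ m) ^ j / q ^ r ∈ R p := by
  refine sub_mem (one_mem _) ?_
  rw [div_eq_mul_inv, ← inv_pow]
  exact mul_mem (pow_mem (pow_mem q_mem _) _) (pow_mem (qinv_mem hp.pos) _)

theorem rho_mem (hp : p.Prime) (hpm : ¬ p ∣ m) (r : ℕ) {j : ℕ} (hjp : j + 1 < p) :
    (1 - q ^ r * (q ^ m) ^ j) * (1 - (q ^ m) ^ (j + 1) / q ^ r) / (1 - (q ^ m) ^ (j + 1)) ^ 2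
      ∈ R p := by
  rw [div_eq_mul_inv, ← inv_pow]
  exact mul_mem (mul_mem (fac1_mem _ _) (fac2_mem hp _ _))
    (pow_mem (unit_A hp hpm (Nat.succ_pos _) hjp) _)

theorem cc_mem (hp : p.Prime) (hpm : ¬ p ∣ m) (r : ℕ) {k : ℕ} (hk : k < p) :
    cc (q ^ m) (q ^ r) k ∈ R p := by
  induction k with
  | zero => rw [cc_zero]; exact one_mem _
  | succ k ih =>
    rw [cc_succ]
    exact mul_mem (ih (by omega)) (rho_mem hp hpm r hk)

theorem FF_mem (hp : p.Prime) (hpm : ¬ p ∣ m) (r : ℕ) : FF (q ^ m) (q ^ r) p ∈ R p :=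
  sum_mem fun _ hk => mul_mem (cc_mem hp hpm r (mem_range.1 hk)) (pow_mem (pow_mem q_mem _) _)

theorem I_fac1 (hp : p.Prime) {r j : ℕ} (h : p ∣ r + m * j) : I p 1 (1 - q ^ r * (q ^ m) ^ j) := by
  rw [← pow_mul, ← pow_add]
  have := I_one_sub hp.pos (e := ((r + m * j : ℕ) : ℤ)) (by exact_mod_cast h)
  rwa [zpow_natCast] at this

theorem I_fac2 (hp : p.Prime) {r j : ℕ} (h : (p : ℤ) ∣ m * j - r) :
    I p 1 (1 - (q ^ m) ^ j / q ^ r) := by
  have := I_one_sub hp.pos h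
  rw [zpow_sub₀ q_ne] at this
  rw [← pow_mul]
  convert this using 3
  · exact_mod_cast (zpow_natCast q (m * j)).symm
  · exact (zpow_natCast q r).symm

/-- the product of the `cc` numerators has two zeros -/
theorem I_DD (hp : p.Prime) (hpm : ¬ p ∣ m) (r : ℕ) {M : ℕ} (hM : M + 1 = p) :
    I p 2 (DD (q ^ m) (q ^ r) M) := by
  -- the product over `range p`
  have key : DD (q ^ m) (q ^ r) M =
      ((∏ j ∈ range p, (1 - q ^ r * (q ^ m) ^ j)) * ∏ j ∈ range p, (1 - (q ^ m) ^ (j + 1) / q ^ r)) *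
      ((∏ j ∈ range M, ((1 - (q ^ m) ^ (j + 1))⁻¹) ^ 2) * (q⁻¹) ^ (m * (M + 1))) := by
    rw [DD, ← hM, prod_range_succ, prod_range_succ, cc]
    simp only [div_eq_mul_inv, prod_mul_distrib, inv_pow, prod_inv_distrib, pow_mul]
    ring
  rw [key]
  have h1 : I p 1 (∏ j ∈ range p, (1 - q ^ r * (q ^ m) ^ j)) := by
    obtain ⟨j, hj, hd⟩ : ∃ j < p, p ∣ r + m * j := by
      have := Fact.mk hp
      refine ⟨(-(r : ZMod p) * (m : ZMod p)⁻¹).val, ZMod.val_lt _, ?_⟩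
      rw [← ZMod.natCast_eq_zero_iff]
      have hm0 : (m : ZMod p) ≠ 0 := by rwa [Ne, ZMod.natCast_eq_zero_iff]
      push_cast
      rw [ZMod.natCast_val, ZMod.cast_id', id]
      field_simp
      ring
    rw [← mul_prod_erase _ _ (mem_range.2 hj)]
    exact (I_fac1 hp hd).mul_R (prod_mem fun i _ => fac1_mem _ _)
  have h2 : I p 1 (∏ j ∈ range p, (1 - (q ^ m) ^ (j + 1) / q ^ r)) := by
    obtain ⟨j, hj, hd⟩ : ∃ j < p, (p : ℤ) ∣ m * ((j + 1 : ℕ) : ℤ) - r := by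
      have := Fact.mk hp
      have hm0 : (m : ZMod p) ≠ 0 := by rwa [Ne, ZMod.natCast_eq_zero_iff]
      refine ⟨((r : ZMod p) * (m : ZMod p)⁻¹ - 1).val, ZMod.val_lt _, ?_⟩
      rw [← ZMod.intCast_zmod_eq_zero_iff_dvd]
      push_cast
      rw [ZMod.natCast_val, ZMod.cast_id', id]
      field_simp
      ring
    rw [← mul_prod_erase _ _ (mem_range.2 hj)]
    exact (I_fac2 hp hd).mul_R (prod_mem fun i _ => fac2_mem hp _ _)
  refine (h1.mul h2).mul_R (mul_mem (prod_mem fun i hi => pow_mem ?_ _) (pow_mem (qinv_mem hp.pos) _))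
  exact unit_A hp hpm (Nat.succ_pos _) (by have := mem_range.1 hi; omega)

theorem ww_coeff_mem (k i : ℕ) : (ww (q ^ m) k).coeff i ∈ R p := by
  induction k generalizing i with
  | zero =>
    simp only [ww, range_zero, prod_empty]
    rw [coeff_one]; split_ifs
    · exact one_mem _
    · exact zero_mem _
  | succ k ih =>
    have : ww (q ^ m) (k + 1) = ww (q ^ m) k - C ((q ^ m) ^ (k + 1)) * (ww (q ^ m) k * X) := by
      rw [ww_succ]; ring
    rw [this, coeff_sub, coeff_C_mul]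
    refine sub_mem (ih i) (mul_mem (pow_mem (pow_mem q_mem _) _) ?_)
    rcases i with _ | i
    · simp
    · rw [coeff_mul_X]; exact ih i

/-- `T_i ≡ F c_i` -/
theorem TT_cong (hp : p.Prime) (hm : 0 < m) (hpm : ¬ p ∣ m) (r : ℕ) {i : ℕ} (hi : i < p) :
    I p 2 ((TT (q ^ m) (q ^ r) p).coeff i - FF (q ^ m) (q ^ r) p * cc (q ^ m) (q ^ r) i) := by
  obtain ⟨M, hM⟩ : ∃ M, M + 1 = p := ⟨p - 1, Nat.succ_pred_eq_of_pos hp.pos⟩
  induction i with
  | zero => rw [TT_coeff_zero, cc_zero, mul_one, sub_self]; exact I.zero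
  | succ i ih =>
    have ih := ih (by omega)
    have h1 := TT_rec (q ^ m) (q ^ r) (pow_ne_zero _ q_ne) (pow_ne_zero _ q_ne) M (hpos hm) i
    rw [hM] at h1
    rw [h1, cc_succ]
    have hρ := rho_mem hp hpm r hi
    have hU := unit_A hp hpm (Nat.succ_pos i) hi
    generalize (1 - q ^ r * (q ^ m) ^ i) * (1 - (q ^ m) ^ (i + 1) / q ^ r) /
      (1 - (q ^ m) ^ (i + 1)) ^ 2 = ρ at *
    have h2 : I p 2 (DD (q ^ m) (q ^ r) M * ((ww (q ^ m) M - ww (q ^ m) (M + 1)).coeff (i + 1)) /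
        (1 - (q ^ m) ^ (i + 1)) ^ 2) := by
      rw [div_eq_mul_inv, ← inv_pow, mul_assoc]
      refine (I_DD hp hpm r hM).mul_R (mul_mem ?_ (pow_mem hU _))
      rw [coeff_sub]
      exact sub_mem (ww_coeff_mem _ _) (ww_coeff_mem _ _)
    have h3 := (ih.mul_R hρ).sub h2
    rw [hM] at h3
    convert h3 using 1
    ring

/-- recurrence for `F`, `p ∤ r` -/
theorem FF_cong_step (hp : p.Prime) (hm : 0 < m) (hpm : ¬ p ∣ m) {r : ℕ} (hr : ¬ p ∣ r) :
    I p 2 (FF (q ^ m) (q ^ (r + m)) p + q ^ r * FF (q ^ m) (q ^ r) p) := by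
  obtain ⟨M, hM⟩ : ∃ M, M + 1 = p := ⟨p - 1, Nat.succ_pred_eq_of_pos hp.pos⟩
  have h1 := FF_rec (q ^ m) (q ^ r) (pow_ne_zero _ q_ne) (pow_ne_zero _ q_ne) (hpos hm) M
  rw [hM, ← pow_add] at h1
  rw [h1]
  refine I.R_mul (add_mem (pow_mem q_mem _) (one_mem _)) ?_
  have := Fact.mk hp
  have hm0 : (m : ZMod p) ≠ 0 := by rwa [Ne, ZMod.natCast_eq_zero_iff]
  have hr0 : (r : ZMod p) ≠ 0 := by rwa [Ne, ZMod.natCast_eq_zero_iff]
  have key : PP (q ^ m) (q ^ r) M =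
      ((∏ j ∈ range M, (1 - q ^ r * (q ^ m) ^ (j + 1))) *
        ∏ j ∈ range M, (1 - (q ^ m) ^ (j + 1) / q ^ r)) *
      (∏ j ∈ range M, ((1 - (q ^ m) ^ (j + 1))⁻¹) ^ 2) := by
    rw [PP]
    simp only [div_eq_mul_inv, prod_mul_distrib, inv_pow, prod_inv_distrib]
  have ex : ∀ x : ZMod p, x ≠ 0 → ∃ j < M, ((j + 1 : ℕ) : ZMod p) = x := by
    intro x hx
    have hv : x.val ≠ 0 := by rwa [Ne, ZMod.val_eq_zero]
    have hv2 := ZMod.val_lt x
    refine ⟨x.val - 1, by omega, ?_⟩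
    rw [show x.val - 1 + 1 = x.val by omega, ZMod.natCast_val, ZMod.cast_id', id]
  have h1 : I p 1 (∏ j ∈ range M, (1 - q ^ r * (q ^ m) ^ (j + 1))) := by
    obtain ⟨j, hj, hd⟩ := ex (-(r : ZMod p) * (m : ZMod p)⁻¹)
      (mul_ne_zero (neg_ne_zero.2 hr0) (inv_ne_zero hm0))
    rw [← mul_prod_erase _ _ (mem_range.2 hj)]
    refine (I_fac1 hp ?_).mul_R (prod_mem fun i _ => fac1_mem _ _)
    rw [← ZMod.natCast_eq_zero_iff, Nat.cast_add, Nat.cast_mul, hd]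
    field_simp
    ring
  have h2 : I p 1 (∏ j ∈ range M, (1 - (q ^ m) ^ (j + 1) / q ^ r)) := by
    obtain ⟨j, hj, hd⟩ := ex ((r : ZMod p) * (m : ZMod p)⁻¹)
      (mul_ne_zero hr0 (inv_ne_zero hm0))
    rw [← mul_prod_erase _ _ (mem_range.2 hj)]
    refine (I_fac2 hp ?_).mul_R (prod_mem fun i _ => fac2_mem hp _ _)
    rw [← ZMod.intCast_zmod_eq_zero_iff_dvd, Int.cast_sub, Int.cast_mul, Int.cast_natCast,
      Int.cast_natCast, Int.cast_natCast, hd]
    field_simp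
    ring
  rw [key]
  refine (h1.mul h2).mul_R (prod_mem fun i hi => pow_mem ?_ _)
  exact unit_A hp hpm (Nat.succ_pos _) (by have := mem_range.1 hi; omega)

/-- `c_k ≡ (1-α)/(1-A^k)` when `p | r` -/
theorem cc_cong (hp : p.Prime) (hpm : ¬ p ∣ m) {r : ℕ} (hr : p ∣ r) {k : ℕ} (hk : k + 1 < p) :
    I p 2 (cc (q ^ m) (q ^ r) (k + 1) - (1 - q ^ r) / (1 - (q ^ m) ^ (k + 1))) := by
  have hε : I p 1 (1 - q ^ r) := by
    have := I_one_sub hp.pos (e := (r : ℤ)) (by exact_mod_cast hr)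
    rwa [zpow_natCast] at this
  have hα : q ^ r ≠ 0 := pow_ne_zero _ q_ne
  have hαi : (q ^ r)⁻¹ ∈ R p := by rw [← inv_pow]; exact pow_mem (qinv_mem hp.pos) _
  induction k with
  | zero =>
    have hU := unit_A hp hpm one_pos (by omega : 1 < p)
    have hU0 : (1 - q ^ m) ≠ 0 := one_sub_ne (Nat.pos_of_ne_zero (by rintro rfl; exact hpm (dvd_zero _)))
    have h1 : cc (q ^ m) (q ^ r) (0 + 1) - (1 - q ^ r) / (1 - (q ^ m) ^ (0 + 1))
        = (1 - q ^ r) * (1 - q ^ r) * (- (q ^ m * (q ^ r)⁻¹ * ((1 - (q ^ m) ^ 1)⁻¹) ^ 2)) := by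
      rw [cc_succ, cc_zero]
      simp only [zero_add, pow_one, pow_zero, mul_one, one_mul]
      field_simp
      ring
    rw [h1]
    exact (hε.mul hε).mul_R (neg_mem (mul_mem (mul_mem (pow_mem q_mem _) hαi) (pow_mem hU _)))
  | succ k ih =>
    have ih := ih (by omega)
    have hU := unit_A hp hpm (Nat.succ_pos k) (by omega : k + 1 < p)
    have hU' := unit_A hp hpm (Nat.succ_pos (k + 1)) hk
    have hm : 0 < m := Nat.pos_of_ne_zero (by rintro rfl; exact hpm (dvd_zero _))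
    have hU0 := hpos hm (k + 1) (Nat.succ_pos _)
    have hU0' := hpos hm (k + 1 + 1) (Nat.succ_pos _)
    have hρ := rho_mem hp hpm r hk
    have hA1 : (q ^ m) ^ (k + 1) ∈ R p := pow_mem (pow_mem q_mem _) _
    have hA2 : (q ^ m) ^ (k + 1 + 1) ∈ R p := pow_mem (pow_mem q_mem _) _
    rw [cc_succ]
    have h1 : cc (q ^ m) (q ^ r) (k + 1) *
        ((1 - q ^ r * (q ^ m) ^ (k + 1)) * (1 - (q ^ m) ^ (k + 1 + 1) / q ^ r) /
          (1 - (q ^ m) ^ (k + 1 + 1)) ^ 2) - (1 - q ^ r) / (1 - (q ^ m) ^ (k + 1 + 1)) =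
        (cc (q ^ m) (q ^ r) (k + 1) - (1 - q ^ r) / (1 - (q ^ m) ^ (k + 1))) *
        ((1 - q ^ r * (q ^ m) ^ (k + 1)) * (1 - (q ^ m) ^ (k + 1 + 1) / q ^ r) /
          (1 - (q ^ m) ^ (k + 1 + 1)) ^ 2) +
        (1 - q ^ r) * (1 - q ^ r) * ((1 - (q ^ m) ^ (k + 1))⁻¹ * ((1 - (q ^ m) ^ (k + 1 + 1))⁻¹) ^ 2 *
          ((q ^ m) ^ (k + 1) * (1 - (q ^ m) ^ (k + 1 + 1))
            - (q ^ m) ^ (k + 1 + 1) * (q ^ r)⁻¹ * (1 - (q ^ m) ^ (k + 1))
            - (q ^ m) ^ (k + 1) * (q ^ m) ^ (k + 1 + 1) * (q ^ r)⁻¹ * (1 - q ^ r))) := by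
      generalize cc (q ^ m) (q ^ r) (k + 1) = c
      generalize (q ^ m) ^ (k + 1 + 1) = B' at *
      generalize (q ^ m) ^ (k + 1) = B at *
      generalize q ^ r = a at *
      field_simp
      ring
    rw [h1]
    refine (ih.mul_R hρ).add ((hε.mul hε).mul_R ?_)
    refine mul_mem (mul_mem hU (pow_mem hU' _)) (sub_mem (sub_mem ?_ ?_) ?_)
    · exact mul_mem hA1 (sub_mem (one_mem _) hA2)
    · exact mul_mem (mul_mem hA2 hαi) (sub_mem (one_mem _) hA1)
    · exact mul_mem (mul_mem (mul_mem hA1 hA2) hαi) hε.mem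

theorem nat_mem' (a : ℕ) : ((a : ℕ) : RatFunc ℚ) ∈ R p := _root_.natCast_mem _ _

theorem half_mem : ((2 : RatFunc ℚ))⁻¹ ∈ R p := by
  refine ⟨C (1 / 2), 1, isCoprime_one_left, one_ne_zero, ?_⟩
  rw [map_one, mul_one]
  have h2 : φ (C (1 / 2 : ℚ)) * 2 = 1 := by
    have : (2 : RatFunc ℚ) = φ (C 2) := by
      rw [show (C (2 : ℚ) : ℚ[X]) = 2 from rfl, map_ofNat]
    rw [this, ← map_mul, ← C_mul]
    norm_num
  have h3 : (2 : RatFunc ℚ) ≠ 0 := by
    intro h; rw [h, mul_zero] at h2; exact zero_ne_one h2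
  field_simp
  rw [mul_comm]
  exact h2.symm

/-- `∑_{k=1}^{p-1} A^k/(1-A^k) ≡ -(p-1)/2` mod `Φ_p` -/
theorem sum_cong (hp : p.Prime) (hpm : ¬ p ∣ m) {M : ℕ} (hM : M + 1 = p) :
    I p 1 (2 * (∑ k ∈ range M, (q ^ m) ^ (k + 1) / (1 - (q ^ m) ^ (k + 1))) + M) := by
  have hm : 0 < m := Nat.pos_of_ne_zero (by rintro rfl; exact hpm (dvd_zero _))
  have h1 : ∑ k ∈ range M, (q ^ m) ^ (k + 1) / (1 - (q ^ m) ^ (k + 1)) =
      ∑ k ∈ range M, (q ^ m) ^ (M - 1 - k + 1) / (1 - (q ^ m) ^ (M - 1 - k + 1)) :=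
    (sum_range_reflect (fun k => (q ^ m) ^ (k + 1) / (1 - (q ^ m) ^ (k + 1))) M).symm
  have h2 : (2 * (∑ k ∈ range M, (q ^ m) ^ (k + 1) / (1 - (q ^ m) ^ (k + 1))) + M : RatFunc ℚ) =
      ∑ k ∈ range M, ((q ^ m) ^ (k + 1) / (1 - (q ^ m) ^ (k + 1)) +
        (q ^ m) ^ (M - 1 - k + 1) / (1 - (q ^ m) ^ (M - 1 - k + 1)) + 1) := by
    rw [sum_add_distrib, sum_add_distrib, ← h1]
    simp
    ring
  rw [h2]
  apply I.sum
  intro k hk
  have hk := mem_range.1 hk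
  have e : (q ^ m) ^ (k + 1) * (q ^ m) ^ (M - 1 - k + 1) = (q ^ m) ^ p := by
    rw [← pow_add]; congr 1; omega
  have n1 := hpos hm (k + 1) (Nat.succ_pos _)
  have n2 := hpos hm (M - 1 - k + 1) (Nat.succ_pos _)
  have h3 : (q ^ m) ^ (k + 1) / (1 - (q ^ m) ^ (k + 1)) +
        (q ^ m) ^ (M - 1 - k + 1) / (1 - (q ^ m) ^ (M - 1 - k + 1)) + 1 =
      (1 - (q ^ m) ^ p) * ((1 - (q ^ m) ^ (k + 1))⁻¹ * (1 - (q ^ m) ^ (M - 1 - k + 1))⁻¹) := by
    rw [← e]
    field_simp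
    ring
  rw [h3]
  refine I.mul_R ?_ (mul_mem (unit_A hp hpm (Nat.succ_pos _) (by omega))
    (unit_A hp hpm (Nat.succ_pos _) (by omega)))
  rw [← pow_mul]
  have := I_one_sub hp.pos (e := ((m * p : ℕ) : ℤ)) (by push_cast; exact dvd_mul_left _ _)
  rwa [zpow_natCast] at this

theorem pow_cong (hp : p.Prime) {r : ℕ} (hr : p ∣ r) (n : ℕ) :
    I p 2 ((q ^ r) ^ n - (1 - n * (1 - q ^ r))) := by
  have hε : I p 1 (1 - q ^ r) := by
    have := I_one_sub hp.pos (e := (r : ℤ)) (by exact_mod_cast hr)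
    rwa [zpow_natCast] at this
  induction n with
  | zero => simpa using I.zero
  | succ n ih =>
    have h1 : (q ^ r) ^ (n + 1) - (1 - ((n + 1 : ℕ) : RatFunc ℚ) * (1 - q ^ r)) =
        ((q ^ r) ^ n - (1 - n * (1 - q ^ r))) * q ^ r + (1 - q ^ r) * (1 - q ^ r) * n := by
      push_cast; ring
    rw [h1]
    exact (ih.mul_R (pow_mem q_mem _)).add ((hε.mul hε).mul_R (nat_mem' _))

/-- `F ≡ α^{(p-1)/2}` when `p | r` -/
theorem FF_base (hp : p.Prime) (hpm : ¬ p ∣ m) {r h : ℕ} (hr : p ∣ r) (hh : p = 2 * h + 1) :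
    I p 2 (FF (q ^ m) (q ^ r) p - q ^ (r * h)) := by
  have hε : I p 1 (1 - q ^ r) := by
    have := I_one_sub hp.pos (e := (r : ℤ)) (by exact_mod_cast hr)
    rwa [zpow_natCast] at this
  have h1 : FF (q ^ m) (q ^ r) p = 1 + ∑ k ∈ range (2 * h), cc (q ^ m) (q ^ r) (k + 1) * (q ^ m) ^ (k + 1) := by
    rw [FF, hh, sum_range_succ', cc_zero]; ring
  have h2 : I p 2 (FF (q ^ m) (q ^ r) p - (1 + (1 - q ^ r) *
      ∑ k ∈ range (2 * h), (q ^ m) ^ (k + 1) / (1 - (q ^ m) ^ (k + 1)))) := by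
    rw [h1, mul_sum]
    have : (1 + ∑ k ∈ range (2 * h), cc (q ^ m) (q ^ r) (k + 1) * (q ^ m) ^ (k + 1)) -
      (1 + ∑ k ∈ range (2 * h), (1 - q ^ r) * ((q ^ m) ^ (k + 1) / (1 - (q ^ m) ^ (k + 1)))) =
      ∑ k ∈ range (2 * h), (cc (q ^ m) (q ^ r) (k + 1) - (1 - q ^ r) / (1 - (q ^ m) ^ (k + 1))) *
        (q ^ m) ^ (k + 1) := by
      rw [add_sub_add_left_eq_sub, ← sum_sub_distrib]
      refine sum_congr rfl fun k _ => ?_
      ring
    rw [this]
    apply I.sum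
    intro k hk
    have hk := mem_range.1 hk
    exact (cc_cong hp hpm hr (by omega)).mul_R (pow_mem (pow_mem q_mem _) _)
  have h3 := sum_cong hp hpm (M := 2 * h) hh.symm
  set s := ∑ k ∈ range (2 * h), (q ^ m) ^ (k + 1) / (1 - (q ^ m) ^ (k + 1)) with hs
  have h4 := pow_cong hp hr h
  have h5 : I p 2 ((1 - q ^ r) * (2 * s + ((2 * h : ℕ) : RatFunc ℚ)) * (2 : RatFunc ℚ)⁻¹) :=
    (hε.mul h3).mul_R half_mem
  have h6 := (h2.add h5).sub h4
  rw [← pow_mul] at h6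
  convert h6 using 1
  have h2ne : (2 : RatFunc ℚ) ≠ 0 := two_ne_zero
  push_cast
  field_simp
  ring

/-- the exponent -/
def ex (p m r a : ℕ) : ℤ := a * r + m * ((a * (a - 1) / 2 : ℕ) : ℤ) - ((r + a * m) * ((p - 1) / 2) : ℕ)

theorem ex_succ (p m r a : ℕ) : ex p m r (a + 1) = ex p m (r + m) a + r := by
  unfold ex
  have h1 : (a + 1) * (a + 1 - 1) / 2 = a * (a - 1) / 2 + a := by
    rcases a with _ | a
    · simp
    · have : (a + 1 + 1) * (a + 1 + 1 - 1) = (a + 1) * (a + 1 - 1) + 2 * (a + 1) := by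
        simp; ring
      rw [this]; omega
  rw [h1]
  push_cast
  ring

theorem FF_eval (hp : p.Prime) (hp2 : p ≠ 2) (hm : 0 < m) (hpm : ¬ p ∣ m) (a : ℕ) :
    ∀ r : ℕ, p ∣ r + a * m → (∀ j < a, ¬ p ∣ r + j * m) →
      I p 2 (FF (q ^ m) (q ^ r) p * ((-1) ^ a * q ^ (ex p m r a)) - 1) := by
  obtain ⟨h, hh⟩ := hp.odd_of_ne_two hp2
  induction a with
  | zero =>
    intro r hr _
    have hr : p ∣ r := by simpa using hr
    have h1 := FF_base hp hpm hr hh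
    have h2 := h1.mul_R (zpow_mem' hp.pos (-((r * h : ℕ) : ℤ)))
    have h3 : ex p m r 0 = -((r * h : ℕ) : ℤ) := by
      unfold ex
      have : (p - 1) / 2 = h := by omega
      rw [this]; push_cast; ring
    rw [h3]
    convert h2 using 1
    have h4 : q ^ (r * h) * q ^ (-((r * h : ℕ) : ℤ)) = 1 := by
      rw [zpow_neg, zpow_natCast, mul_inv_cancel₀ (pow_ne_zero _ q_ne)]
    linear_combination h4
  | succ a ih =>
    intro r hr hj
    have h1 := ih (r + m) (by convert hr using 1; ring) (by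
      intro j hja
      have := hj (j + 1) (by omega)
      convert this using 2; ring)
    have h2 := FF_cong_step hp hm hpm (r := r) (by simpa using hj 0 (Nat.succ_pos _))
    rw [ex_succ]
    have hu : ((-1) ^ a * q ^ (ex p m (r + m) a)) ∈ R p :=
      mul_mem (pow_mem (neg_mem (one_mem _)) _) (zpow_mem' hp.pos _)
    have h3 := h1.sub (h2.mul_R hu)
    convert h3 using 1
    rw [zpow_add₀ q_ne, zpow_natCast, pow_succ]
    ring

end cong

end

end V11307.Q
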