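import Mathlib

/-!
Definitions for the `q`-congruence `S ≡ (-1)^⟨-r/m⟩ q^f T (mod [p]²)`.
-/

namespace V11307.QSign

open Finset

noncomputable section

/-- A triple `(p, m, r)` is admissible if `p` is an odd prime, `m, r ≥ 1`, `m ∤ r` and `p ∤ m`. -/
def Admissible (p m r : ℕ) : Prop :=
  p.Prime ∧ p ≠ 2 ∧ 1 ≤ m ∧ 1 ≤ r ∧ ¬ m ∣ r ∧ ¬ p ∣ m

/-- `⟨-r/m⟩_p`, the least nonnegative residue of `-r/m` modulo the prime `p` (with `p ∤ m`). -/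
def residue (p m r : ℕ) : ℕ := (-(r : ZMod p) * (m : ZMod p)⁻¹).val

/-- The indeterminate `q`, in the field `ℚ(q)`. -/
def q : RatFunc ℚ := RatFunc.X

/-- `c_k = ∏_{j<k} (1 - q^{r+jm}) (1 - q^{m-r+jm}) / (1 - q^{(j+1)m})^2`. -/
def c (m r k : ℕ) : RatFunc ℚ :=
  ∏ j ∈ range k, (1 - q ^ ((r : ℤ) + j * m)) * (1 - q ^ ((m : ℤ) - r + j * m)) /
    (1 - q ^ ((j + 1) * m)) ^ 2

/-- `S_{p,m,r}(x) = ∑_{k<p} c_k x^k`, a polynomial in `x` over `ℚ(q)`. -/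
def S (p m r : ℕ) : Polynomial (RatFunc ℚ) :=
  ∑ k ∈ range p, Polynomial.C (c m r k) * Polynomial.X ^ k

/-- `T_{p,m,r}(x) = ∑_{k<p} c_k q^{mk} ∏_{j<k} (1 - x q^{jm})`, a polynomial in `x`
over `ℚ(q)`. -/
def T (p m r : ℕ) : Polynomial (RatFunc ℚ) :=
  ∑ k ∈ range p, Polynomial.C (c m r k * q ^ (m * k)) *
    ∏ j ∈ range k, (1 - Polynomial.X * Polynomial.C (q ^ (j * m)))

/-- `[n] = 1 + q + ⋯ + q^{n-1}` in `ℚ[q]`. -/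
def qInt (n : ℕ) : Polynomial ℚ := ∑ i ∈ range n, Polynomial.X ^ i

end

end V11307.QSign
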