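import Pool.Agent.V11307.QSign
import Pool.Agent.V11307.QSignDef

namespace V11307.QSign

open Polynomial Finset V11307.Q

noncomputable section

theorem q_eq : QSign.q = Q.q := rfl

theorem c_eq (m r k : ℕ) : c m r k = cc (Q.q ^ m) (Q.q ^ r) k := by
  rw [c, cc]
  refine prod_congr rfl fun j _ => ?_
  have h1 : QSign.q ^ ((r : ℤ) + j * m) = Q.q ^ r * (Q.q ^ m) ^ j := by
    rw [q_eq, zpow_add₀ q_ne, ← pow_mul, zpow_natCast]
    congr 1
    rw [show (j : ℤ) * m = ((m * j : ℕ) : ℤ) by push_cast; ring, zpow_natCast]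
  have h2 : QSign.q ^ ((m : ℤ) - r + j * m) = (Q.q ^ m) ^ (j + 1) / Q.q ^ r := by
    rw [q_eq, show (m : ℤ) - r + j * m = ((m * (j + 1) : ℕ) : ℤ) - (r : ℤ) by push_cast; ring,
      zpow_sub₀ q_ne, zpow_natCast, zpow_natCast, pow_mul]
  have h3 : QSign.q ^ ((j + 1) * m) = (Q.q ^ m) ^ (j + 1) := by
    rw [q_eq, ← pow_mul, mul_comm]
  rw [h1, h2, h3]

theorem S_eq (p m r : ℕ) : S p m r = SS (Q.q ^ m) (Q.q ^ r) p := by
  simp only [S, SS, c_eq]

theorem T_eq (p m r : ℕ) : T p m r = TT (Q.q ^ m) (Q.q ^ r) p := by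
  rw [T, TT]
  refine sum_congr rfl fun k _ => ?_
  rw [c_eq, q_eq, pow_mul, uu]
  congr 1
  refine prod_congr rfl fun j _ => ?_
  rw [mul_comm X, mul_comm j m, pow_mul]

theorem residue_spec {p m r : ℕ} (hp : p.Prime) (hpm : ¬ p ∣ m) :
    p ∣ r + residue p m r * m ∧ ∀ j < residue p m r, ¬ p ∣ r + j * m := by
  have := Fact.mk hp
  have hm0 : (m : ZMod p) ≠ 0 := by rwa [Ne, ZMod.natCast_eq_zero_iff]
  constructor
  · rw [← ZMod.natCast_eq_zero_iff]
    push_cast
    rw [residue, ZMod.natCast_val, ZMod.cast_id', id]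
    field_simp
    ring
  · intro j hj hd
    rw [← ZMod.natCast_eq_zero_iff] at hd
    push_cast at hd
    have h1 : (j : ZMod p) = -(r : ZMod p) * (m : ZMod p)⁻¹ := by
      field_simp
      linear_combination hd
    have h2 : residue p m r = j := by
      rw [residue, ← h1, ZMod.val_cast_of_lt]
      exact hj.trans (ZMod.val_lt _)
    omega

theorem residue_unique {p m r a : ℕ} (hp : p.Prime) (hpm : ¬ p ∣ m) (ha : a < p)
    (hd : p ∣ r + a * m) : residue p m r = a := by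
  have := Fact.mk hp
  have hm0 : (m : ZMod p) ≠ 0 := by rwa [Ne, ZMod.natCast_eq_zero_iff]
  rw [← ZMod.natCast_eq_zero_iff] at hd
  push_cast at hd
  have h1 : (a : ZMod p) = -(r : ZMod p) * (m : ZMod p)⁻¹ := by
    field_simp
    linear_combination hd
  rw [residue, ← h1, ZMod.val_cast_of_lt ha]

/-- the explicit exponent -/
def expo (p m r : ℕ) : ℤ := ex p m r (residue p m r)

theorem main_cong {p m r : ℕ} (hp : p.Prime) (hp2 : p ≠ 2) (hm : 0 < m) (hpm : ¬ p ∣ m) (i : ℕ) :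
    I p 2 ((S p m r - C ((-1) ^ residue p m r * Q.q ^ (expo p m r)) * T p m r).coeff i) := by
  obtain ⟨h1, h2⟩ := residue_spec (r := r) hp hpm
  have h3 := FF_eval hp hp2 hm hpm _ r h1 h2
  rw [S_eq, T_eq, coeff_sub, coeff_C_mul, SS_coeff]
  have hu : ((-1) ^ residue p m r * Q.q ^ (expo p m r)) ∈ R p :=
    mul_mem (pow_mem (neg_mem (one_mem _)) _) (zpow_mem' hp.pos _)
  rw [expo] at *
  generalize (-1) ^ residue p m r * Q.q ^ (ex p m r (residue p m r)) = u at *
  split_ifs with hi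
  · have h4 := TT_cong hp hm hpm r hi
    have h5 := (h3.mul_R (cc_mem hp hpm r hi)).neg.sub (I.R_mul hu h4)
    convert h5 using 1
    ring
  · rw [TT_coeff_ge _ _ (not_lt.1 hi)]
    simpa using I.zero

theorem X_pow_not {p n : ℕ} (hp : 0 < p) (hn : 0 < n) : ¬ (cyclotomic p ℚ) ^ 2 ∣ (X ^ n - 1 : ℚ[X]) := by
  intro h
  have hs : Squarefree (X ^ n - 1 : ℚ[X]) := by
    have := (X_pow_sub_one_separable_iff (F := ℚ) (n := n)).2 (by exact_mod_cast hn.ne')
    exact this.squarefree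
  rw [sq] at h
  exact (cyc_irr hp).not_isUnit (hs _ h)

/-- `q^e ≡ 1` mod `Φ_p²` only for `e = 0`. -/
theorem zpow_eq_one_of_cong {p : ℕ} (hp : 0 < p) {e : ℤ} (h : I p 2 (1 - Q.q ^ e)) : e = 0 := by
  by_contra hne
  have key : ∀ n : ℕ, 0 < n → ¬ I p 2 (1 - Q.q ^ n) := by
    intro n hn hI
    have h1 := hI.num_dvd hp
    rw [one_sub_qpow, RatFunc.num_algebraMap] at h1
    apply X_pow_not hp hn
    have := dvd_neg.2 h1
    rwa [neg_sub] at this
  rcases lt_or_gt_of_ne hne with he | he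
  · obtain ⟨n, hn⟩ := Int.eq_ofNat_of_zero_le (by omega : 0 ≤ -e)
    apply key n (by omega)
    have hq : Q.q ^ e * Q.q ^ n = 1 := by
      rw [show e = -(n : ℤ) by omega, zpow_neg, zpow_natCast, inv_mul_cancel₀ (pow_ne_zero _ q_ne)]
    have := (h.mul_R (pow_mem (q_mem (n := p)) n)).neg
    convert this using 1
    linear_combination -hq
  · obtain ⟨n, hn⟩ := Int.eq_ofNat_of_zero_le he.le
    apply key n (by omega)
    rw [hn, zpow_natCast] at h
    exact h

theorem one_not_I {p : ℕ} (hp : 0 < p) : ¬ I p 1 1 := by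
  intro h
  have h1 := h.num_dvd hp
  rw [RatFunc.num_one, pow_one] at h1
  exact (cyc_irr hp).not_isUnit (isUnit_of_dvd_one h1)

/-- uniqueness through the constant coefficient -/
theorem unique_of_coeff {p m r : ℕ} (hp : p.Prime) (hp2 : p ≠ 2) (hm : 0 < m) (hpm : ¬ p ∣ m) {f : ℤ}
    (hf : I p 2 ((S p m r - C ((-1) ^ residue p m r * Q.q ^ f) * T p m r).coeff 0)) :
    f = expo p m r := by
  have h1 := main_cong (r := r) hp hp2 hm hpm 0
  have h2 := hf.sub h1
  -- multiply by the unit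
  have h3 : (S p m r - C ((-1) ^ residue p m r * Q.q ^ f) * T p m r).coeff 0 -
      (S p m r - C ((-1) ^ residue p m r * Q.q ^ (expo p m r)) * T p m r).coeff 0 =
      ((-1) ^ residue p m r * Q.q ^ (expo p m r)) * FF (Q.q ^ m) (Q.q ^ r) p *
        (1 - Q.q ^ (f - expo p m r)) := by
    rw [coeff_sub, coeff_sub, coeff_C_mul, coeff_C_mul, T_eq, TT_coeff_zero]
    have : Q.q ^ f = Q.q ^ (expo p m r) * Q.q ^ (f - expo p m r) := by
      rw [← zpow_add₀ q_ne]; congr 1; ring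
    rw [this]
    ring
  rw [h3] at h2
  obtain ⟨e1, e2⟩ := residue_spec (r := r) hp hpm
  have h4 := FF_eval hp hp2 hm hpm _ r e1 e2
  rw [← expo] at h4
  have hmem : (1 - Q.q ^ (f - expo p m r)) ∈ R p := sub_mem (one_mem _) (zpow_mem' hp.pos _)
  have h5 := h2.sub (h4.mul_R hmem)
  have h6 : I p 2 (1 - Q.q ^ (f - expo p m r)) := by
    convert h5 using 1
    ring
  have := zpow_eq_one_of_cong hp.pos h6
  omega

theorem qInt_eq {p : ℕ} (hp : p.Prime) : qInt p = cyclotomic p ℚ := by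
  have := Fact.mk hp
  rw [qInt, cyclotomic_prime]

end

end V11307.QSign
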